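import Pool.Agent.Lib.MP_c23e5f_co.BridgeOne

set_option autoImplicit false

namespace Pool.Agent.Lib.MP_c23e5f_co

open scoped ENNReal

/-- decomposition of an arc at its last maximum -/
private lemma arc_split {F : ℤ × ℤ →+ ℤ} {R : ℕ} {w : List (ℤ × ℤ)} (h : IsArc F R w) :
    ∃ t ∈ Finset.range (R + 1), ∃ u ∈ {u | IsBridge F (1 + t) u},
      ∃ v ∈ {v | IsBridge (-F) t v}, w = u ++ v := by
  classical
  have hl : 1 ≤ w.length := List.length_pos_iff.2 h.ne
  obtain ⟨i0, hi0, hmax⟩ := Finset.exists_max_image (Finset.Icc 1 w.length)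
    (fun i => F (pos w i)) ⟨1, by simp; exact hl⟩
  have hne : ((Finset.Icc 1 w.length).filter (fun i => F (pos w i) = F (pos w i0))).Nonempty :=
    ⟨i0, by simp at hi0 ⊢; exact hi0⟩
  obtain ⟨i, hi, hlast⟩ := Finset.exists_max_image _ (fun i : ℕ => i) hne
  simp only [Finset.mem_filter, Finset.mem_Icc] at hi hlast hmax
  obtain ⟨⟨hi1, hi2⟩, hiF⟩ := hi
  have hge := h.ge i hi1 hi2
  have hle := h.le i hi2
  obtain ⟨t, ht⟩ := Int.eq_ofNat_of_zero_le (show 0 ≤ F (pos w i) - 1 by omega)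
  have htR : t ≤ R := by omega
  have hm : ∀ j, 1 ≤ j → j ≤ w.length → F (pos w j) ≤ F (pos w i) := by
    intro j h1 h2
    rw [hiF]
    exact hmax j ⟨h1, h2⟩
  have hm2 : ∀ j, i < j → j ≤ w.length → F (pos w j) < F (pos w i) := by
    intro j h1 h2
    refine lt_of_le_of_ne (hm j (by omega) h2) ?_
    intro h3
    have := hlast j ⟨⟨by omega, h2⟩, by rw [h3, hiF]⟩
    omega
  refine ⟨t, Finset.mem_range.2 (by omega), w.take i, ?_, w.drop i, ?_,
    (List.take_append_drop i w).symm⟩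
  · refine ⟨h.saw.take i, ?_, ?_, ?_⟩
    · intro j h1 h2
      rw [List.length_take] at h2
      rw [pos_take (by omega)]
      have := h.ge j h1 (by omega)
      omega
    · intro j h1
      rw [List.length_take] at h1
      rw [pos_take (by omega)]
      rcases Nat.eq_zero_or_pos j with h2 | h2
      · subst h2
        simp only [pos_zero, map_zero]
        positivity
      · have := hm j h2 (by omega)
        push_cast
        omega
    · have : (w.take i).sum = pos w i := rfl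
      rw [this]
      push_cast
      omega
  · refine ⟨h.saw.drop i, ?_, ?_, ?_⟩
    · intro j h1 h2
      rw [List.length_drop] at h2
      rw [pos_drop, AddMonoidHom.neg_apply, map_sub]
      have := hm2 (i + j) (by omega) (by omega)
      omega
    · intro j h1
      rw [List.length_drop] at h1
      rw [pos_drop, AddMonoidHom.neg_apply, map_sub]
      have := h.ge (i + j) (by omega) (by omega)
      omega
    · rw [sum_drop, AddMonoidHom.neg_apply, map_sub, h.fin]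
      omega

/-- Section 3 of the paper, (A). -/
theorem wt_arc_le {x : ℝ≥0∞} (hx : IsCrit x) (F : ℤ × ℤ →+ ℤ) (R : ℕ) :
    wt x {w | IsArc F R w} ≤ R + 1 := by
  have hsub : {w | IsArc F R w} ⊆ ⋃ t ∈ Finset.range (R + 1),
      {w | ∃ u ∈ {u | IsBridge F (1 + t) u}, ∃ v ∈ {v | IsBridge (-F) t v}, w = u ++ v} := by
    intro w hw
    obtain ⟨t, ht, h⟩ := arc_split hw
    simp only [Set.mem_iUnion]
    exact ⟨t, ht, h⟩
  refine (wt_mono hsub).trans ((wt_biUnion_le x _ _).trans ?_)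
  have hone : ∀ t ∈ Finset.range (R + 1), wt x {w | ∃ u ∈ {u | IsBridge F (1 + t) u},
      ∃ v ∈ {v | IsBridge (-F) t v}, w = u ++ v} ≤ 1 := by
    intro t _
    refine (wt_append_le x _ {u | IsBridge F (1 + t) u} {v | IsBridge (-F) t v}
      (fun w hw => hw)).trans ?_
    calc wt x {u | IsBridge F (1 + t) u} * wt x {v | IsBridge (-F) t v} ≤ 1 * 1 :=
          mul_le_mul' (wt_bridge_le_one hx F (1 + t)) (wt_bridge_le_one hx (-F) t)
      _ = 1 := one_mul 1
  refine (Finset.sum_le_sum hone).trans ?_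
  simp

/-- the set of arcs, up or down -/
private def ArcSet (F : ℤ × ℤ →+ ℤ) (R : ℕ) : Set (List (ℤ × ℤ)) :=
  {w | IsArc F R w ∨ IsArc (-F) R w}

private lemma wt_arcSet_le {x : ℝ≥0∞} (hx : IsCrit x) (F : ℤ × ℤ →+ ℤ) (R : ℕ) :
    wt x (ArcSet F R) ≤ 2 * (R + 1) := by
  have h : ArcSet F R ⊆ {w | IsArc F R w} ∪ {w | IsArc (-F) R w} := fun w hw => hw
  refine (wt_mono h).trans ((wt_union_le x _ _).trans ?_)
  rw [two_mul]
  exact add_le_add (wt_arc_le hx F R) (wt_arc_le hx (-F) R)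

private lemma two_mul_succ_le {R : ℕ} (hR : 1 ≤ R) : (2 : ℝ≥0∞) * (R + 1) ≤ 4 * R := by
  have : 2 * (R + 1) ≤ 4 * R := by omega
  exact_mod_cast this

/-- concatenations of exactly `n` arcs -/
private def CatN (F : ℤ × ℤ →+ ℤ) (R n : ℕ) : Set (List (ℤ × ℤ)) :=
  {w | ∃ L : List (List (ℤ × ℤ)), L.length = n ∧ (∀ a ∈ L, a ∈ ArcSet F R) ∧ w = L.flatten}

private lemma wt_catN_le {x : ℝ≥0∞} (hx : IsCrit x) (F : ℤ × ℤ →+ ℤ) (R : ℕ) (hR : 1 ≤ R)
    (n : ℕ) : wt x (CatN F R n) ≤ (4 * R) ^ n := by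
  induction n with
  | zero =>
    have : CatN F R 0 ⊆ {[]} := by
      rintro w ⟨L, hL, -, rfl⟩
      rw [List.length_eq_zero_iff.1 hL]
      simp
    refine (wt_mono this).trans ?_
    rw [wt_singleton_nil]
    simp
  | succ n ih =>
    refine (wt_append_le x _ (ArcSet F R) (CatN F R n) ?_).trans ?_
    · rintro w ⟨L, hL, hA, rfl⟩
      match L, hL, hA with
      | [], hL, _ => simp at hL
      | a :: L, hL, hA =>
        refine ⟨a, hA a (by simp), L.flatten, ⟨L, by simpa using hL,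
          fun b hb => hA b (by simp [hb]), rfl⟩, by simp⟩
    · rw [pow_succ, mul_comm ((4 * (R : ℝ≥0∞)) ^ n)]
      exact mul_le_mul' ((wt_arcSet_le hx F R).trans (two_mul_succ_le hR)) ih

private lemma geom_le (y : ℝ≥0∞) (n : ℕ) :
    ∑ i ∈ Finset.range (n + 1), y ^ i ≤ (1 + y) ^ n := by
  induction n with
  | zero => simp
  | succ n ih =>
    rw [Finset.sum_range_succ']
    have h1 : ∑ k ∈ Finset.range (n + 1), y ^ (k + 1) = y * ∑ k ∈ Finset.range (n + 1), y ^ k := by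
      rw [Finset.mul_sum]
      apply Finset.sum_congr rfl
      intro k _
      rw [pow_succ, mul_comm]
    rw [h1, pow_zero, pow_succ, mul_add, mul_one, add_comm]
    refine add_le_add (one_le_pow₀ (le_add_right le_rfl)) ?_
    rw [mul_comm]
    exact mul_le_mul' ih le_rfl

theorem wt_arcCat_le {x : ℝ≥0∞} (hx : IsCrit x) (F : ℤ × ℤ →+ ℤ) (R Λ : ℕ) (hR : 1 ≤ R) :
    wt x {w | ArcCat F R Λ w} ≤ (1 + 4 * R) ^ Λ := by
  have hsub : {w | ArcCat F R Λ w} ⊆ ⋃ n ∈ Finset.range (Λ + 1), CatN F R n := by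
    rintro w ⟨L, hL, hA, rfl⟩
    simp only [Set.mem_iUnion]
    exact ⟨L.length, Finset.mem_range.2 (by omega), L, rfl, hA, rfl⟩
  refine (wt_mono hsub).trans ((wt_biUnion_le x _ _).trans ?_)
  refine (Finset.sum_le_sum (fun n _ => wt_catN_le hx F R hR n)).trans ?_
  exact geom_le (4 * R) Λ

theorem wt_PO_le {x : ℝ≥0∞} (hx : IsCrit x) (r ρ : ℕ) (hρ : 1 ≤ ρ) :
    wt x (PO r ρ) ≤ 8 * ρ := by
  have h : PO r ρ ⊆ ({w | IsBridge Z1 r w} ∪ {w | IsBridge (-Z1) r w}) ∪ ArcSet Z1 ρ := by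
    rintro w (h | h | h | h)
    · exact Or.inl (Or.inl h)
    · exact Or.inl (Or.inr h)
    · exact Or.inr (Or.inl h)
    · exact Or.inr (Or.inr h)
  refine (wt_mono h).trans ((wt_union_le x _ _).trans ?_)
  have h1 : wt x ({w | IsBridge Z1 r w} ∪ {w | IsBridge (-Z1) r w}) ≤ 1 + 1 :=
    (wt_union_le x _ _).trans (add_le_add (wt_bridge_le_one hx Z1 r) (wt_bridge_le_one hx (-Z1) r))
  refine (add_le_add h1 (wt_arcSet_le hx Z1 ρ)).trans ?_
  have : 1 + 1 + 2 * (ρ + 1) ≤ 8 * ρ := by omega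
  exact_mod_cast this

theorem wt_PL_le {x : ℝ≥0∞} (hx : IsCrit x) (r : ℕ) (hr : 1 ≤ r) :
    wt x (PL r) ≤ 4 * r :=
  (wt_arcSet_le hx Z1 r).trans (two_mul_succ_le hr)

end Pool.Agent.Lib.MP_c23e5f_co
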