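import Pool.Agent.Lib.MP_c23e5f_co.LoopCat

set_option autoImplicit false

namespace Pool.Agent.Lib.MP_c23e5f_co

open scoped ENNReal

private lemma av_cross {f : ℕ → ℤ × ℤ} {r : ℕ} (hr : 1 ≤ r) {g t : ℕ} (hg : g < r) :
    Cross f r g t ↔ (Horiz f t ∧ ((col f t) % (r : ℤ)).toNat = g) := by
  unfold Cross
  have hr0 : (0 : ℤ) < r := by exact_mod_cast hr
  have h1 : 0 ≤ col f t % (r : ℤ) := Int.emod_nonneg _ hr0.ne'
  have h2 : (g : ℤ) % (r : ℤ) = g := Int.emod_eq_of_lt (by positivity) (by exact_mod_cast hg)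
  refine and_congr_right fun _ => ?_
  rw [Int.dvd_iff_emod_eq_zero, ← Int.emod_eq_emod_iff_emod_sub_eq_zero, h2]
  omega

open Classical in
private lemma av_sum (N : ℕ) (f : ℕ → ℤ × ℤ) {r : ℕ} (hr : 1 ≤ r) (X : ℕ → Prop) :
    ∑ g ∈ Finset.range r, ((Finset.range N).filter (fun t => Cross f r g t ∧ X t)).card =
      ((Finset.range N).filter (fun t => Horiz f t ∧ X t)).card := by
  have hr0 : (0 : ℤ) < r := by exact_mod_cast hr
  rw [Finset.card_eq_sum_card_fiberwise (f := fun t => ((col f t) % (r : ℤ)).toNat)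
    (t := Finset.range r)]
  · refine Finset.sum_congr rfl fun g hg => ?_
    congr 1
    ext t
    simp only [Finset.mem_filter]
    rw [av_cross hr (Finset.mem_range.1 hg)]
    tauto
  · intro t _
    have h1 : col f t % (r : ℤ) < r := Int.emod_lt_of_pos _ hr0
    have h2 : 0 ≤ col f t % (r : ℤ) := Int.emod_nonneg _ hr0.ne'
    simp only [Finset.coe_range, Set.mem_Iio]
    omega

/-- Section 8 of the paper: choice of the residue class of the columns -/
theorem exists_class (N : ℕ) (f : ℕ → ℤ × ℤ) (r ρ Λ L : ℕ) (hr : 1 ≤ r) (G b a : ℝ) (hG : 0 ≤ G)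
    (hb : 0 ≤ b) (ha : 0 ≤ a) :
    ∃ g : ℕ, g < r ∧ (G * nU N f r ρ Λ L - b * nL N f r ρ Λ L - a * N) / r ≤
      G * nUG N f r ρ Λ L g - b * nLG N f r ρ Λ L g - a * mG N f r g := by
  classical
  by_contra hcon
  push Not at hcon
  have hr0 : (0 : ℝ) < r := by exact_mod_cast hr
  have e1 : ∑ g ∈ Finset.range r, (nUG N f r ρ Λ L g : ℝ) = nU N f r ρ Λ L := by
    unfold nUG nU
    exact_mod_cast av_sum N f hr _
  have e2 : ∑ g ∈ Finset.range r, (nLG N f r ρ Λ L g : ℝ) = nL N f r ρ Λ L := by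
    unfold nLG nL
    exact_mod_cast av_sum N f hr _
  have e3 : ∑ g ∈ Finset.range r, (mG N f r g : ℝ) ≤ N := by
    have h1 := av_sum N f hr (fun _ => True)
    simp only [and_true] at h1
    have h2 : ((Finset.range N).filter (fun t => Horiz f t)).card ≤ N := by
      simpa using Finset.card_filter_le (Finset.range N) (fun t => Horiz f t)
    unfold mG
    have h3 : ∑ g ∈ Finset.range r, ((Finset.range N).filter (fun t => Cross f r g t)).card ≤ N :=
      h1.le.trans h2
    exact_mod_cast h3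
  have h1 : ∑ g ∈ Finset.range r, (G * nUG N f r ρ Λ L g - b * nLG N f r ρ Λ L g -
      a * mG N f r g) < ∑ g ∈ Finset.range r,
        (G * nU N f r ρ Λ L - b * nL N f r ρ Λ L - a * N) / r := by
    apply Finset.sum_lt_sum_of_nonempty
    · exact ⟨0, Finset.mem_range.2 hr⟩
    · intro g hg
      exact hcon g (Finset.mem_range.1 hg)
  rw [Finset.sum_sub_distrib, Finset.sum_sub_distrib, ← Finset.mul_sum, ← Finset.mul_sum,
    ← Finset.mul_sum, e1, e2, Finset.sum_const, Finset.card_range, nsmul_eq_mul,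
    mul_div_cancel₀ _ hr0.ne'] at h1
  nlinarith [mul_le_mul_of_nonneg_left e3 ha]

/-- Section 8 of the paper: the combinatorial content of the encoding -/
theorem exists_cat {N : ℕ} (hN : 1 ≤ N) {f : ℕ → ℤ × ℤ} (hf : IsLoop N f) (r ρ Λ L : ℕ)
    (hr : 1 ≤ r) (G b a Z : ℝ) (hG : 0 ≤ G) (hb : 0 ≤ b) (ha : 0 ≤ a) (hZ : 0 < Z)
    (h : Z ≤ (G * nU N f r ρ Λ L - b * nL N f r ρ Λ L - a * N) / r) :
    ∃ t0 < N, ∃ ts : List (Fin 3), ts.length ≤ N ∧ Z ≤ score G b a ts ∧
      InCat (PP r ρ Λ L) ts (seg f t0 N) := by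
  classical
  obtain ⟨g, hg, hgs⟩ := exists_class N f r ρ Λ L hr G b a hG hb ha
  by_cases hex : ∃ t0 < N, Cross f r g t0
  · obtain ⟨t0, ht0, hc⟩ := hex
    obtain ⟨ts, h1, h2, h3, h4⟩ := loop_cat hN hf r ρ Λ L hr g t0 hc
    refine ⟨t0, ht0, ts, ?_, ?_, h1⟩
    · rw [h2]
      unfold mG
      simpa using Finset.card_filter_le (Finset.range N) (fun t => Cross f r g t)
    · unfold score
      rw [h2, h3, h4]
      exact h.trans hgs
  · exfalso
    push Not at hex
    have e1 : nUG N f r ρ Λ L g = 0 := by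
      unfold nUG
      rw [Finset.card_eq_zero, Finset.filter_eq_empty_iff]
      rintro t ht ⟨h1, -⟩
      exact hex t (Finset.mem_range.1 ht) h1
    have e2 : nLG N f r ρ Λ L g = 0 := by
      unfold nLG
      rw [Finset.card_eq_zero, Finset.filter_eq_empty_iff]
      rintro t ht ⟨h1, -⟩
      exact hex t (Finset.mem_range.1 ht) h1
    have e3 : mG N f r g = 0 := by
      unfold mG
      rw [Finset.card_eq_zero, Finset.filter_eq_empty_iff]
      intro t ht h1
      exact hex t (Finset.mem_range.1 ht) h1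
    rw [e1, e2, e3] at hgs
    simp only [Nat.cast_zero, mul_zero, sub_zero] at hgs
    linarith

end Pool.Agent.Lib.MP_c23e5f_co
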