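import Mathlib

section

/-!
# MP_c23e5f_co: definitions

Words are lists of unit steps of `ℤ × ℤ`; `pos w i` is the position after `i` letters.
-/

set_option autoImplicit false

namespace Pool.Agent.Lib.MP_c23e5f_co

open scoped ENNReal

/-- a unit step -/
def IsStep (v : ℤ × ℤ) : Prop := v.1.natAbs + v.2.natAbs = 1

/-- the position after the first `i` letters of a word -/
def pos (w : List (ℤ × ℤ)) (i : ℕ) : ℤ × ℤ := (w.take i).sum

/-- self-avoiding words -/
structure IsSaw (w : List (ℤ × ℤ)) : Prop where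
  step : ∀ v ∈ w, IsStep v
  inj : ∀ i j, i < j → j ≤ w.length → pos w i ≠ pos w j

/-- the weight of a set of words -/
noncomputable def wt (x : ℝ≥0∞) (P : Set (List (ℤ × ℤ))) : ℝ≥0∞ :=
  ∑' w : P, x ^ (w : List (ℤ × ℤ)).length

/-- the critical fugacity -/
structure IsCrit (x : ℝ≥0∞) : Prop where
  quarter_le : 4⁻¹ ≤ x
  le_one : x ≤ 1
  one_le : ∀ n : ℕ, 1 ≤ wt x {w | IsSaw w ∧ w.length = n}
  fin : ∀ y : ℝ≥0∞, y < x → wt y {w | IsSaw w} ≠ ⊤

/-- a linear form taking values in `{-1,0,1}` on the steps -/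
def IsForm (F : ℤ × ℤ →+ ℤ) : Prop := ∀ v, IsStep v → |F v| ≤ 1

/-- the first coordinate -/
def Z1 : ℤ × ℤ →+ ℤ := AddMonoidHom.fst ℤ ℤ

/-- the second coordinate -/
def Z2 : ℤ × ℤ →+ ℤ := AddMonoidHom.snd ℤ ℤ

@[simp] lemma Z1_apply (v : ℤ × ℤ) : Z1 v = v.1 := rfl
@[simp] lemma Z2_apply (v : ℤ × ℤ) : Z2 v = v.2 := rfl

/-- bridges of height `T` in the direction of the form `F` -/
structure IsBridge (F : ℤ × ℤ →+ ℤ) (T : ℕ) (w : List (ℤ × ℤ)) : Prop where
  saw : IsSaw w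
  gt : ∀ i, 1 ≤ i → i ≤ w.length → 0 < F (pos w i)
  le : ∀ i, i ≤ w.length → F (pos w i) ≤ T
  ht : F w.sum = T

/-- arcs of reach at most `R` above a level of the form `F`: the word crosses the level with its first
step, stays beyond it and comes back next to it (the next step of the walk crosses the level again) -/
structure IsArc (F : ℤ × ℤ →+ ℤ) (R : ℕ) (w : List (ℤ × ℤ)) : Prop where
  saw : IsSaw w
  ne : w ≠ []
  ge : ∀ i, 1 ≤ i → i ≤ w.length → 1 ≤ F (pos w i)
  le : ∀ i, i ≤ w.length → F (pos w i) ≤ 1 + R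
  fin : F w.sum = 1

/-- concatenations of at most `Λ` arcs (up or down) of reach at most `R` -/
def ArcCat (F : ℤ × ℤ →+ ℤ) (R Λ : ℕ) (w : List (ℤ × ℤ)) : Prop :=
  ∃ L : List (List (ℤ × ℤ)), L.length ≤ Λ ∧ (∀ a ∈ L, IsArc F R a ∨ IsArc (-F) R a) ∧ w = L.flatten

/-- a frame: two forms and a symmetry of the lattice fixing the first form and changing the sign of
the second one -/
structure Frame where
  F : ℤ × ℤ →+ ℤ
  g : ℤ × ℤ →+ ℤ
  σ : ℤ × ℤ →+ ℤ × ℤ
  inv : ∀ v, σ (σ v) = v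
  step : ∀ v, IsStep v → IsStep (σ v)
  Fσ : ∀ v, F (σ v) = F v
  gσ : ∀ v, g (σ v) = - g v
  Fform : IsForm F
  gform : IsForm g

/-- the reflection in the first axis -/
def refl2 : ℤ × ℤ →+ ℤ × ℤ where
  toFun v := (v.1, -v.2)
  map_zero' := by simp
  map_add' u v := by ext <;> simp; ring

/-- the exchange of the coordinates -/
def swap12 : ℤ × ℤ →+ ℤ × ℤ where
  toFun v := (v.2, v.1)
  map_zero' := by simp
  map_add' u v := by ext <;> simp

@[simp] lemma refl2_apply (v : ℤ × ℤ) : refl2 v = (v.1, -v.2) := rfl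
@[simp] lemma swap12_apply (v : ℤ × ℤ) : swap12 v = (v.2, v.1) := rfl

lemma isForm_Z1 : IsForm Z1 := by
  intro v hv
  simp only [IsStep, Z1_apply, abs_le] at *
  omega

lemma isForm_Z2 : IsForm Z2 := by
  intro v hv
  simp only [IsStep, Z2_apply, abs_le] at *
  omega

lemma isForm_neg {F : ℤ × ℤ →+ ℤ} (h : IsForm F) : IsForm (-F) := by
  intro v hv
  have := h v hv
  simpa using this

/-- the frame `(z1, z2)` -/
def frA : Frame where
  F := Z1
  g := Z2
  σ := refl2
  inv v := by simp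
  step v hv := by simp only [IsStep, refl2_apply] at *; omega
  Fσ v := by simp
  gσ v := by simp
  Fform := isForm_Z1
  gform := isForm_Z2

/-- the frame `(z1, -z2)` -/
def frA' : Frame where
  F := Z1
  g := -Z2
  σ := refl2
  inv v := by simp
  step v hv := by simp only [IsStep, refl2_apply] at *; omega
  Fσ v := by simp
  gσ v := by simp
  Fform := isForm_Z1
  gform := isForm_neg isForm_Z2

/-- the frame `(z1 + z2, z1 - z2)` -/
def frB : Frame where
  F := Z1 + Z2
  g := Z1 - Z2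
  σ := swap12
  inv v := by simp
  step v hv := by simp only [IsStep, swap12_apply] at *; omega
  Fσ v := by simp [add_comm]
  gσ v := by simp
  Fform v hv := by simp only [IsStep, AddMonoidHom.add_apply, Z1_apply, Z2_apply, abs_le] at *; omega
  gform v hv := by simp only [IsStep, AddMonoidHom.sub_apply, Z1_apply, Z2_apply, abs_le] at *; omega

/-- the bridges of the chain inequality -/
structure IsQ (fr : Frame) (ρ T : ℕ) (w : List (ℤ × ℤ)) : Prop where
  br : IsBridge fr.F T w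
  q1 : ∀ i, i ≤ w.length → (ρ : ℤ) ≤ fr.F (pos w i) → 0 < fr.g (pos w i)
  q2 : ∀ i, i ≤ w.length → (ρ : ℤ) ≤ T - fr.F (pos w i) → fr.g (pos w i) < fr.g w.sum

/-- a cut `l ++ a ++ t` of a bridge of height `r` at the level `F l.sum` -/
structure IsCut (fr : Frame) (r ρ Λ L : ℕ) (l a t : List (ℤ × ℤ)) : Prop where
  br : IsBridge Z1 r (l ++ a ++ t)
  len : (l ++ a ++ t).length ≤ L
  arc : ArcCat fr.F ρ Λ a
  a0 : fr.F a.sum = 0
  lle : ∀ i, i ≤ l.length → fr.F (pos l i) ≤ fr.F l.sum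
  tpos : ∀ i, 1 ≤ i → i ≤ t.length → 0 < fr.F (pos t i)
  c1F : ∀ i, i ≤ (l ++ a ++ t).length → -(ρ : ℤ) ≤ fr.F (pos (l ++ a ++ t) i)
  c1F' : ∀ i, i ≤ (l ++ a ++ t).length → fr.F (pos (l ++ a ++ t) i) ≤ fr.F (l ++ a ++ t).sum + ρ
  c1g : ∀ i, i ≤ (l ++ a ++ t).length → -(ρ : ℤ) ≤ fr.g (pos (l ++ a ++ t) i)
  c1g' : ∀ i, i ≤ (l ++ a ++ t).length → fr.g (pos (l ++ a ++ t) i) ≤ fr.g (l ++ a ++ t).sum + ρ
  c2l : 2 * (ρ : ℤ) < fr.g l.sum
  c2t : 2 * (ρ : ℤ) < fr.g t.sum
  c3l : ∀ i, i ≤ l.length → (ρ : ℤ) ≤ fr.F l.sum - fr.F (pos l i) → fr.g (pos l i) < fr.g l.sum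
  c3t : ∀ i, i ≤ t.length → (ρ : ℤ) ≤ fr.F (pos t i) → 0 < fr.g (pos t i)
  c4l : (r : ℤ) ≤ 8 * fr.F l.sum
  c4l' : 4 * fr.F l.sum ≤ r
  c4t : (r : ℤ) ≤ 8 * fr.F t.sum
  c4t' : fr.F t.sum ≤ 2 * r

/-- the class of bridges of height `r` having at least `r/16` cuts in one of the three frames -/
def InClass (r ρ Λ L : ℕ) (β : List (ℤ × ℤ)) : Prop :=
  IsBridge Z1 r β ∧ β.length ≤ L ∧ ∃ fr : Frame, (fr = frA ∨ fr = frA' ∨ fr = frB) ∧
    ∃ s : Finset (List (ℤ × ℤ) × List (ℤ × ℤ) × List (ℤ × ℤ)), r ≤ 16 * s.card ∧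
      ∀ d ∈ s, IsCut fr r ρ Λ L d.1 d.2.1 d.2.2 ∧ d.1 ++ d.2.1 ++ d.2.2 = β

/-- the word of the steps `t, ..., t + n - 1` of a path -/
def seg (f : ℕ → ℤ × ℤ) (t n : ℕ) : List (ℤ × ℤ) :=
  (List.range n).map (fun i => f (t + i + 1) - f (t + i))

/-- loops of length `N`, as periodic paths -/
structure IsLoop (N : ℕ) (f : ℕ → ℤ × ℤ) : Prop where
  step : ∀ i, IsStep (f (i + 1) - f i)
  per : ∀ i, f (i + N) = f i
  inj : ∀ i j, i < N → j < N → f i = f j → i = j

/-- loops of length `N`, as words -/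
structure IsLoopWord (N : ℕ) (w : List (ℤ × ℤ)) : Prop where
  length : w.length = N
  step : ∀ v ∈ w, IsStep v
  sum : w.sum = 0
  inj : ∀ i j, i < j → j < N → pos w i ≠ pos w j

/-! ### pieces of a loop -/

/-- the step `t` is horizontal -/
def Horiz (f : ℕ → ℤ × ℤ) (t : ℕ) : Prop := (f t).1 ≠ (f (t + 1)).1

/-- the left column of the step `t` -/
def col (f : ℕ → ℤ × ℤ) (t : ℕ) : ℤ := min (f t).1 (f (t + 1)).1

/-- the step `t` crosses a column congruent to `g` modulo `r` -/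
def Cross (f : ℕ → ℤ × ℤ) (r : ℕ) (g : ℤ) (t : ℕ) : Prop := Horiz f t ∧ (r : ℤ) ∣ col f t - g

/-- `t + m` is the next crossing of a column congruent to the column of `t` -/
def IsNext (f : ℕ → ℤ × ℤ) (r t m : ℕ) : Prop :=
  0 < m ∧ Cross f r (col f t) (t + m) ∧ ∀ j, 0 < j → j < m → ¬ Cross f r (col f t) (t + j)

/-- the words of type `o` -/
def PO (r ρ : ℕ) : Set (List (ℤ × ℤ)) :=
  {w | IsBridge Z1 r w ∨ IsBridge (-Z1) r w ∨ IsArc Z1 ρ w ∨ IsArc (-Z1) ρ w}

/-- the words of type `l` -/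
def PL (r : ℕ) : Set (List (ℤ × ℤ)) := {w | IsArc Z1 r w ∨ IsArc (-Z1) r w}

/-- the words of type `u` -/
def PU (r ρ Λ L : ℕ) : Set (List (ℤ × ℤ)) := {w | InClass r ρ Λ L w}

open Classical in
/-- number of the pieces (of all columns) in the class -/
noncomputable def nU (N : ℕ) (f : ℕ → ℤ × ℤ) (r ρ Λ L : ℕ) : ℕ :=
  ((Finset.range N).filter (fun t => Horiz f t ∧ ∃ m, IsNext f r t m ∧ seg f t m ∈ PU r ρ Λ L)).card

open Classical in
/-- number of the pieces (of all columns) which are neither in the class nor of type `o` -/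
noncomputable def nL (N : ℕ) (f : ℕ → ℤ × ℤ) (r ρ Λ L : ℕ) : ℕ :=
  ((Finset.range N).filter (fun t => Horiz f t ∧ ∃ m, IsNext f r t m ∧ seg f t m ∉ PU r ρ Λ L ∧
    seg f t m ∉ PO r ρ)).card

/-! ### scales -/

/-- `Λ` -/
def Lam (k : ℕ) : ℕ := 2 ^ 17 * k ^ 2

/-- number of scales -/
def JJ (k : ℕ) : ℕ := 10 ^ 12 * k ^ 4

/-- scale `a i` -/
def sc (k : ℕ) : ℕ → ℕ
  | 0 => 1
  | i + 1 => 64 * k * (8 * (1600 * k * sc k i)) ^ (2 * Lam k + 2)

/-- `ρ i` -/
def rho (k i : ℕ) : ℕ := 1600 * k * sc k i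

/-- `r i` -/
def rr (k i : ℕ) : ℕ := (8 * rho k i) ^ (2 * Lam k + 2)

/-- bound on the length of the class bridges at scale `i` -/
def LL (k i : ℕ) : ℕ := 32 * k * sc k (i + 1)

lemma sc_succ (k i : ℕ) : sc k (i + 1) = 64 * k * rr k i := rfl

/-- Euclidean plane -/
noncomputable def toC (v : ℤ × ℤ) : ℂ := ⟨(v.1 : ℝ), (v.2 : ℝ)⟩

@[simp] lemma toC_re (v : ℤ × ℤ) : (toC v).re = v.1 := rfl
@[simp] lemma toC_im (v : ℤ × ℤ) : (toC v).im = v.2 := rfl

lemma toC_sub (u v : ℤ × ℤ) : toC (u - v) = toC u - toC v := by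
  apply Complex.ext <;> simp

lemma toC_add (u v : ℤ × ℤ) : toC (u + v) = toC u + toC v := by
  apply Complex.ext <;> simp

end Pool.Agent.Lib.MP_c23e5f_co
end

section

/-!
# MP_c23e5f_co: basic facts on words and weights
-/

set_option autoImplicit false

namespace Pool.Agent.Lib.MP_c23e5f_co

open scoped ENNReal

/-! ### positions -/

@[simp] lemma pos_zero (w : List (ℤ × ℤ)) : pos w 0 = 0 := by simp [pos]

@[simp] lemma pos_length (w : List (ℤ × ℤ)) : pos w w.length = w.sum := by simp [pos]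

lemma pos_of_length_le {w : List (ℤ × ℤ)} {i : ℕ} (h : w.length ≤ i) : pos w i = w.sum := by
  rw [pos, List.take_of_length_le h]

lemma pos_append_left {u v : List (ℤ × ℤ)} {i : ℕ} (h : i ≤ u.length) :
    pos (u ++ v) i = pos u i := by
  rw [pos, List.take_append_of_le_length h, pos]

lemma pos_append_right (u v : List (ℤ × ℤ)) (i : ℕ) :
    pos (u ++ v) (u.length + i) = u.sum + pos v i := by
  rw [pos, List.take_length_add_append, List.sum_append, pos]

lemma pos_append_right' {u v : List (ℤ × ℤ)} {i : ℕ} (h : u.length ≤ i) :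
    pos (u ++ v) i = u.sum + pos v (i - u.length) := by
  conv_lhs => rw [← Nat.add_sub_cancel' h]
  rw [pos_append_right]

lemma pos_take {w : List (ℤ × ℤ)} {n i : ℕ} (h : i ≤ n) : pos (w.take n) i = pos w i := by
  rw [pos, List.take_take, min_eq_left h, pos]

lemma pos_drop (w : List (ℤ × ℤ)) (n i : ℕ) :
    pos (w.drop n) i = pos w (n + i) - pos w n := by
  rcases le_or_gt n w.length with h | h
  · have h1 : w = w.take n ++ w.drop n := (List.take_append_drop n w).symm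
    have h2 : pos w (n + i) = pos w n + pos (w.drop n) i := by
      conv_lhs => rw [h1]
      have h3 : (w.take n).length = n := by simp [h]
      conv_lhs => rw [show n + i = (w.take n).length + i by rw [h3]]
      rw [pos_append_right]
      rfl
    rw [h2]; abel
  · rw [List.drop_of_length_le h.le, pos_of_length_le (w := w) (i := n + i) (by omega),
      pos_of_length_le h.le]
    simp [pos]

lemma sum_drop (w : List (ℤ × ℤ)) (n : ℕ) : (w.drop n).sum = w.sum - pos w n := by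
  have h := List.take_append_drop n w
  have h2 : w.sum = pos w n + (w.drop n).sum := by
    conv_lhs => rw [← h]
    rw [List.sum_append]; rfl
  rw [h2]; abel

lemma pos_succ {w : List (ℤ × ℤ)} {i : ℕ} (h : i < w.length) :
    pos w (i + 1) = pos w i + w[i] := by
  rw [pos, pos, List.sum_take_succ w i h]

lemma pos_succ_sub {w : List (ℤ × ℤ)} {i : ℕ} (h : i < w.length) :
    pos w (i + 1) - pos w i = w[i] := by
  rw [pos_succ h]; abel

lemma pos_map (σ : ℤ × ℤ →+ ℤ × ℤ) (w : List (ℤ × ℤ)) (i : ℕ) :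
    pos (w.map σ) i = σ (pos w i) := by
  rw [pos, ← List.map_take, pos, map_list_sum]

/-! ### self-avoiding words -/

lemma IsSaw.take {w : List (ℤ × ℤ)} (h : IsSaw w) (n : ℕ) : IsSaw (w.take n) := by
  refine ⟨fun v hv => h.step v (List.mem_of_mem_take hv), fun i j hij hj => ?_⟩
  rw [List.length_take] at hj
  rw [pos_take (by omega), pos_take (by omega)]
  exact h.inj i j hij (by omega)

lemma IsSaw.drop {w : List (ℤ × ℤ)} (h : IsSaw w) (n : ℕ) : IsSaw (w.drop n) := by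
  refine ⟨fun v hv => h.step v (List.mem_of_mem_drop hv), fun i j hij hj => ?_⟩
  rw [List.length_drop] at hj
  rw [pos_drop, pos_drop]
  intro h2
  have h3 : pos w (n + i) = pos w (n + j) := by
    have := congrArg (fun z => z + pos w n) h2
    simpa using this
  exact h.inj (n + i) (n + j) (by omega) (by omega) h3

lemma IsSaw.of_append_left {u v : List (ℤ × ℤ)} (h : IsSaw (u ++ v)) : IsSaw u := by
  have := h.take u.length
  rwa [List.take_left'] at this
  rfl

lemma IsSaw.of_append_right {u v : List (ℤ × ℤ)} (h : IsSaw (u ++ v)) : IsSaw v := by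
  have := h.drop u.length
  rwa [List.drop_left'] at this
  rfl

lemma isSaw_nil : IsSaw [] := ⟨by simp, by intro i j hij hj; simp at hj; omega⟩

/-- concatenation of two self-avoiding words whose vertices are disjoint -/
lemma IsSaw.append {u v : List (ℤ × ℤ)} (hu : IsSaw u) (hv : IsSaw v)
    (h : ∀ i j, i ≤ u.length → 1 ≤ j → j ≤ v.length → pos u i ≠ u.sum + pos v j) :
    IsSaw (u ++ v) := by
  refine ⟨fun w hw => ?_, fun i j hij hj => ?_⟩
  · rcases List.mem_append.1 hw with hw | hw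
    · exact hu.step w hw
    · exact hv.step w hw
  · rw [List.length_append] at hj
    rcases le_or_gt j u.length with h1 | h1
    · rw [pos_append_left h1, pos_append_left (by omega)]
      exact hu.inj i j hij h1
    · rw [pos_append_right' h1.le]
      rcases le_or_gt i u.length with h2 | h2
      · rw [pos_append_left h2]
        exact h i (j - u.length) h2 (by omega) (by omega)
      · rw [pos_append_right' h2.le]
        intro h3
        exact hv.inj (i - u.length) (j - u.length) (by omega) (by omega) (add_left_cancel h3)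

lemma IsSaw.map {w : List (ℤ × ℤ)} (h : IsSaw w) (σ : ℤ × ℤ →+ ℤ × ℤ)
    (hσ : Function.Injective σ) (hs : ∀ v, IsStep v → IsStep (σ v)) : IsSaw (w.map σ) := by
  refine ⟨fun v hv => ?_, fun i j hij hj => ?_⟩
  · obtain ⟨u, hu, rfl⟩ := List.mem_map.1 hv
    exact hs u (h.step u hu)
  · rw [List.length_map] at hj
    rw [pos_map, pos_map]
    exact fun h2 => h.inj i j hij hj (hσ h2)

lemma Frame.σ_inj (fr : Frame) : Function.Injective fr.σ := by
  intro a b h
  rw [← fr.inv a, ← fr.inv b, h]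

lemma isStep_neg {v : ℤ × ℤ} (h : IsStep v) : IsStep (-v) := by
  simp only [IsStep, Prod.fst_neg, Prod.snd_neg, Int.natAbs_neg] at *
  exact h

/-- the reversed word -/
def rev (w : List (ℤ × ℤ)) : List (ℤ × ℤ) := (w.map (fun v => -v)).reverse

@[simp] lemma length_rev (w : List (ℤ × ℤ)) : (rev w).length = w.length := by simp [rev]

lemma rev_rev (w : List (ℤ × ℤ)) : rev (rev w) = w := by
  simp [rev, List.map_reverse]

lemma rev_injective : Function.Injective rev := fun a b h => by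
  rw [← rev_rev a, ← rev_rev b, h]

lemma sum_rev (w : List (ℤ × ℤ)) : (rev w).sum = - w.sum := by
  rw [rev, List.sum_reverse]
  induction w with
  | nil => simp
  | cons a w ih => simp only [List.map_cons, List.sum_cons, ih]; abel

lemma pos_rev {w : List (ℤ × ℤ)} {i : ℕ} (h : i ≤ w.length) :
    pos (rev w) i = pos w (w.length - i) - w.sum := by
  have h1 : (rev w).take i = rev (w.drop (w.length - i)) := by
    rw [rev, rev, List.take_reverse, List.map_drop, List.length_map]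
  rw [pos, h1, sum_rev, sum_drop]
  abel

lemma IsSaw.rev {w : List (ℤ × ℤ)} (h : IsSaw w) : IsSaw (MP_c23e5f_co.rev w) := by
  refine ⟨fun v hv => ?_, fun i j hij hj => ?_⟩
  · simp only [MP_c23e5f_co.rev, List.mem_reverse, List.mem_map] at hv
    obtain ⟨u, hu, rfl⟩ := hv
    exact isStep_neg (h.step u hu)
  · rw [length_rev] at hj
    rw [pos_rev (by omega), pos_rev (by omega)]
    intro h2
    exact h.inj (w.length - j) (w.length - i) (by omega) (by omega) (sub_left_injective h2).symm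

/-! ### finiteness -/

lemma isStep_iff {v : ℤ × ℤ} : IsStep v ↔ v ∈ ({(1, 0), (-1, 0), (0, 1), (0, -1)} : Finset (ℤ × ℤ)) := by
  obtain ⟨a, b⟩ := v
  simp only [IsStep, Finset.mem_insert, Finset.mem_singleton, Prod.mk.injEq]
  omega

lemma finite_steps : {v : ℤ × ℤ | IsStep v}.Finite := by
  refine Set.Finite.subset (Finset.finite_toSet ({(1, 0), (-1, 0), (0, 1), (0, -1)} : Finset (ℤ × ℤ))) ?_
  intro v hv
  exact isStep_iff.1 hv

lemma finite_words (n : ℕ) :
    {w : List (ℤ × ℤ) | (∀ v ∈ w, IsStep v) ∧ w.length = n}.Finite := by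
  have : Finite {v : ℤ × ℤ // IsStep v} := finite_steps.to_subtype
  refine ((List.finite_length_eq {v : ℤ × ℤ // IsStep v} n).image (List.map Subtype.val)).subset ?_
  rintro w ⟨hw, hn⟩
  refine ⟨w.pmap Subtype.mk hw, by simp [hn], ?_⟩
  rw [List.map_pmap]
  simp

lemma finite_words_le (n : ℕ) :
    {w : List (ℤ × ℤ) | (∀ v ∈ w, IsStep v) ∧ w.length ≤ n}.Finite := by
  have : {w : List (ℤ × ℤ) | (∀ v ∈ w, IsStep v) ∧ w.length ≤ n}
      = ⋃ i ∈ Finset.range (n + 1), {w : List (ℤ × ℤ) | (∀ v ∈ w, IsStep v) ∧ w.length = i} := by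
    ext w
    simp only [Set.mem_ofPred_eq, Set.mem_iUnion, Finset.mem_range]
    constructor
    · rintro ⟨h1, h2⟩
      exact ⟨w.length, by omega, h1, rfl⟩
    · rintro ⟨i, hi, h1, h2⟩
      exact ⟨h1, by omega⟩
  rw [this]
  exact Set.Finite.biUnion (Finset.finite_toSet _) (fun i _ => finite_words i)

/-! ### the word of a path -/

@[simp] lemma length_seg (f : ℕ → ℤ × ℤ) (t n : ℕ) : (seg f t n).length = n := by simp [seg]

lemma take_seg {f : ℕ → ℤ × ℤ} {t n i : ℕ} (h : i ≤ n) : (seg f t n).take i = seg f t i := by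
  rw [seg, seg, ← List.map_take, List.take_range, min_eq_left h]

lemma sum_seg (f : ℕ → ℤ × ℤ) (t n : ℕ) : (seg f t n).sum = f (t + n) - f t := by
  induction n with
  | zero => simp [seg]
  | succ n ih =>
    rw [seg, List.range_succ, List.map_append, List.sum_append, ← seg, ih]
    simp only [List.map_cons, List.map_nil, List.sum_cons, List.sum_nil]
    rw [show t + (n + 1) = t + n + 1 by ring]
    abel

lemma pos_seg {f : ℕ → ℤ × ℤ} {t n i : ℕ} (h : i ≤ n) : pos (seg f t n) i = f (t + i) - f t := by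
  rw [pos, take_seg h, sum_seg]

lemma seg_append (f : ℕ → ℤ × ℤ) (t m n : ℕ) :
    seg f t m ++ seg f (t + m) n = seg f t (m + n) := by
  rw [seg, seg, seg, List.range_add, List.map_append, List.map_map]
  congr 1
  apply List.map_congr_left
  intro i _
  simp only [Function.comp_apply]
  rw [show t + m + i = t + (m + i) by ring]

lemma isSaw_seg {f : ℕ → ℤ × ℤ} {t n : ℕ} (hs : ∀ i, t ≤ i → i < t + n → IsStep (f (i + 1) - f i))
    (hi : ∀ i j, t ≤ i → i < j → j ≤ t + n → f i ≠ f j) : IsSaw (seg f t n) := by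
  refine ⟨fun v hv => ?_, fun i j hij hj => ?_⟩
  · simp only [seg, List.mem_map, List.mem_range] at hv
    obtain ⟨i, hi, rfl⟩ := hv
    exact hs (t + i) (by omega) (by omega)
  · rw [length_seg] at hj
    rw [pos_seg (by omega), pos_seg hj]
    intro h
    exact hi (t + i) (t + j) (by omega) (by omega) (by omega) (sub_left_injective h)

/-! ### forms along words -/

lemma isForm_pos {F : ℤ × ℤ →+ ℤ} (hF : IsForm F) {w : List (ℤ × ℤ)} (hw : ∀ v ∈ w, IsStep v)
    (i : ℕ) (h : i < w.length) : |F (pos w (i + 1)) - F (pos w i)| ≤ 1 := by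
  rw [← map_sub, pos_succ_sub h]
  exact hF _ (hw _ (List.getElem_mem h))

/-! ### weights -/

lemma wt_mono {x : ℝ≥0∞} {P Q : Set (List (ℤ × ℤ))} (h : P ⊆ Q) : wt x P ≤ wt x Q :=
  ENNReal.tsum_mono_subtype (fun w : List (ℤ × ℤ) => x ^ w.length) h

lemma wt_eq_indicator (x : ℝ≥0∞) (P : Set (List (ℤ × ℤ))) :
    wt x P = ∑' w, P.indicator (fun w => x ^ w.length) w :=
  tsum_subtype P (fun w : List (ℤ × ℤ) => x ^ w.length)

lemma wt_union_le (x : ℝ≥0∞) (P Q : Set (List (ℤ × ℤ))) : wt x (P ∪ Q) ≤ wt x P + wt x Q :=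
  ENNReal.tsum_union_le (fun w : List (ℤ × ℤ) => x ^ w.length) P Q

lemma wt_biUnion_le {ι : Type*} (x : ℝ≥0∞) (s : Finset ι) (P : ι → Set (List (ℤ × ℤ))) :
    wt x (⋃ i ∈ s, P i) ≤ ∑ i ∈ s, wt x (P i) :=
  ENNReal.tsum_biUnion_le (fun w : List (ℤ × ℤ) => x ^ w.length) s P

lemma wt_iUnion_le {ι : Type*} (x : ℝ≥0∞) (P : ι → Set (List (ℤ × ℤ))) :
    wt x (⋃ i, P i) ≤ ∑' i, wt x (P i) :=
  ENNReal.tsum_iUnion_le_tsum (fun w : List (ℤ × ℤ) => x ^ w.length) P

/-- comparison along an injective map which shifts the length -/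
lemma wt_le_of_injOn {x : ℝ≥0∞} {P Q : Set (List (ℤ × ℤ))} (φ : List (ℤ × ℤ) → List (ℤ × ℤ))
    (hPQ : ∀ w ∈ P, φ w ∈ Q) (hinj : Set.InjOn φ P) (hl : ∀ w ∈ P, (φ w).length = w.length) :
    wt x P ≤ wt x Q := by
  unfold wt
  have h : ∑' w : P, x ^ (w : List (ℤ × ℤ)).length
      = ∑' w : P, x ^ ((⟨φ w, hPQ w w.2⟩ : Q) : List (ℤ × ℤ)).length := by
    apply tsum_congr
    intro w
    simp only [hl w w.2]
  rw [h]
  apply ENNReal.tsum_comp_le_tsum_of_injective (f := fun w : P => (⟨φ w, hPQ w w.2⟩ : Q))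
    (g := fun w : Q => x ^ (w : List (ℤ × ℤ)).length)
  intro a b hab
  exact Subtype.ext (hinj a.2 b.2 (congrArg Subtype.val hab))

/-- a set of concatenations -/
lemma wt_append_le (x : ℝ≥0∞) (P A B : Set (List (ℤ × ℤ)))
    (h : ∀ w ∈ P, ∃ u ∈ A, ∃ v ∈ B, w = u ++ v) : wt x P ≤ wt x A * wt x B := by
  classical
  choose! u hu v hv huv using h
  have h1 : wt x A * wt x B = ∑' p : A × B, x ^ ((p.1 : List (ℤ × ℤ)) ++ (p.2 : List (ℤ × ℤ))).length := by
    unfold wt
    rw [ENNReal.tsum_prod (f := fun (a : A) (b : B) =>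
      x ^ ((a : List (ℤ × ℤ)) ++ (b : List (ℤ × ℤ))).length), ← ENNReal.tsum_mul_right]
    apply tsum_congr
    intro a
    rw [← ENNReal.tsum_mul_left]
    apply tsum_congr
    intro b
    rw [List.length_append, pow_add]
  rw [h1]
  unfold wt
  have h2 : ∑' w : P, x ^ (w : List (ℤ × ℤ)).length
      = ∑' w : P, (fun p : A × B => x ^ ((p.1 : List (ℤ × ℤ)) ++ (p.2 : List (ℤ × ℤ))).length)
        (⟨u w, hu w w.2⟩, ⟨v w, hv w w.2⟩) := by
    apply tsum_congr
    intro w
    simp only [← huv w w.2]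
  rw [h2]
  apply ENNReal.tsum_comp_le_tsum_of_injective
    (f := fun w : P => ((⟨u w, hu w w.2⟩, ⟨v w, hv w w.2⟩) : A × B))
  intro a b hab
  simp only [Prod.mk.injEq, Subtype.mk.injEq] at hab
  apply Subtype.ext
  rw [huv a a.2, huv b b.2, hab.1, hab.2]

/-- a product of weights, for an injective concatenation -/
lemma wt_mul_le_of_injOn (x : ℝ≥0∞) (A B C : Set (List (ℤ × ℤ)))
    (h : ∀ u ∈ A, ∀ v ∈ B, u ++ v ∈ C)
    (hinj : ∀ u ∈ A, ∀ v ∈ B, ∀ u' ∈ A, ∀ v' ∈ B, u ++ v = u' ++ v' → u = u') :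
    wt x A * wt x B ≤ wt x C := by
  have h1 : wt x A * wt x B
      = ∑' p : A × B, x ^ ((p.1 : List (ℤ × ℤ)) ++ (p.2 : List (ℤ × ℤ))).length := by
    unfold wt
    rw [ENNReal.tsum_prod (f := fun (a : A) (b : B) =>
      x ^ ((a : List (ℤ × ℤ)) ++ (b : List (ℤ × ℤ))).length), ← ENNReal.tsum_mul_right]
    apply tsum_congr
    intro a
    rw [← ENNReal.tsum_mul_left]
    apply tsum_congr
    intro b
    rw [List.length_append, pow_add]
  rw [h1]
  unfold wt
  have h2 := ENNReal.tsum_comp_le_tsum_of_injective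
    (f := fun p : A × B => (⟨(p.1 : List (ℤ × ℤ)) ++ (p.2 : List (ℤ × ℤ)),
      h p.1 p.1.2 p.2 p.2.2⟩ : C)) ?_ (g := fun w : C => x ^ (w : List (ℤ × ℤ)).length)
  · exact h2
  · rintro ⟨⟨u, hu⟩, ⟨v, hv⟩⟩ ⟨⟨u', hu'⟩, ⟨v', hv'⟩⟩ hab
    simp only [Subtype.mk.injEq] at hab
    obtain rfl := hinj u hu v hv u' hu' v' hv' hab
    have := List.append_cancel_left hab
    subst this
    rfl

lemma wt_singleton_nil (x : ℝ≥0∞) : wt x {[]} = 1 := by
  rw [wt_eq_indicator, tsum_eq_single []]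
  · simp
  · intro b hb
    simp [hb]

lemma wt_empty (x : ℝ≥0∞) : wt x ∅ = 0 := by simp [wt]

/-- bounded words have finite weight -/
lemma wt_ne_top_of_length_le {x : ℝ≥0∞} (hx : x ≤ 1) {P : Set (List (ℤ × ℤ))} {n : ℕ}
    (h : ∀ w ∈ P, (∀ v ∈ w, IsStep v) ∧ w.length ≤ n) : wt x P ≠ ⊤ := by
  have hfin : P.Finite := (finite_words_le n).subset h
  have : Finite P := hfin.to_subtype
  have : Fintype P := Fintype.ofFinite P
  unfold wt
  rw [tsum_fintype]
  refine (ENNReal.sum_lt_top.2 fun w _ => ?_).ne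
  exact ENNReal.pow_lt_top (lt_of_le_of_lt hx ENNReal.one_lt_top)

end Pool.Agent.Lib.MP_c23e5f_co
end
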