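import Pool.Agent.Lib.MP_c23e5f_co.Basic

set_option autoImplicit false

namespace Pool.Agent.Lib.MP_c23e5f_co

open scoped ENNReal

/-- concatenations with prescribed types -/
def InCat (P : Fin 3 → Set (List (ℤ × ℤ))) : List (Fin 3) → List (ℤ × ℤ) → Prop
  | [], w => w = []
  | τ :: ts, w => ∃ u ∈ P τ, ∃ v, InCat P ts v ∧ w = u ++ v

theorem wt_inCat_le (x : ℝ≥0∞) (P : Fin 3 → Set (List (ℤ × ℤ))) (ts : List (Fin 3)) :
    wt x {w | InCat P ts w} ≤ (ts.map (fun τ => wt x (P τ))).prod := by
  induction ts with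
  | nil =>
    have h : {w | InCat P [] w} = {[]} := by
      ext w
      simp [InCat]
    rw [h, wt_singleton_nil]
    simp
  | cons τ ts ih =>
    rw [List.map_cons, List.prod_cons]
    refine (wt_append_le x _ (P τ) {w | InCat P ts w} ?_).trans (mul_le_mul_right ih _)
    rintro w ⟨u, hu, v, hv, rfl⟩
    exact ⟨u, hu, v, hv, rfl⟩

/-- the score of a list of types: `G` for each `0`, `-b` for each `2`, `-a` for each letter -/
noncomputable def score (G b a : ℝ) (ts : List (Fin 3)) : ℝ :=
  G * (ts.count 0 : ℕ) - b * (ts.count 2 : ℕ) - a * (ts.length : ℕ)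

private theorem cat_score_cons (G b a : ℝ) (τ : Fin 3) (ts : List (Fin 3)) :
    score G b a (τ :: ts) =
      score G b a ts + ((if τ = 0 then G else 0) - (if τ = 2 then b else 0) - a) := by
  unfold score
  rw [List.count_cons, List.count_cons, List.length_cons]
  fin_cases τ <;> simp <;> ring

/-- Section 8 of the paper: all lists of types with a large score together -/
theorem wt_good_le (x : ℝ≥0∞) (P : Fin 3 → Set (List (ℤ × ℤ))) (M : ℕ) (G b a Z : ℝ)
    (h0 : wt x (P 0) ≤ ENNReal.ofReal (Real.exp (-G)))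
    (h1 : wt x (P 1) ≤ ENNReal.ofReal (Real.exp a / 3))
    (h2 : wt x (P 2) ≤ ENNReal.ofReal (Real.exp b)) (ha : 3 ≤ Real.exp a) :
    wt x {w | ∃ ts : List (Fin 3), ts.length = M ∧ Z ≤ score G b a ts ∧ InCat P ts w} ≤
      ENNReal.ofReal (Real.exp (-Z)) := by
  induction M generalizing Z with
  | zero =>
    by_cases hZ : Z ≤ 0
    · have hsub : {w | ∃ ts : List (Fin 3), ts.length = 0 ∧ Z ≤ score G b a ts ∧ InCat P ts w} ⊆
          {[]} := by
        rintro w ⟨ts, hts, _, hw⟩
        rw [List.length_eq_zero_iff] at hts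
        subst hts
        simpa [InCat] using hw
      refine (wt_mono hsub).trans ?_
      rw [wt_singleton_nil, ← ENNReal.ofReal_one]
      exact ENNReal.ofReal_le_ofReal (Real.one_le_exp (by linarith))
    · have hempty : {w | ∃ ts : List (Fin 3), ts.length = 0 ∧ Z ≤ score G b a ts ∧
          InCat P ts w} = ∅ := by
        ext w
        simp only [Set.mem_ofPred_eq, Set.mem_empty_iff_false, iff_false]
        rintro ⟨ts, hts, hsc, _⟩
        rw [List.length_eq_zero_iff] at hts
        subst hts
        simp [score] at hsc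
        exact hZ hsc
      rw [hempty, wt_empty]
      exact zero_le
  | succ M ih =>
    set s : Fin 3 → ℝ := fun τ => (if τ = 0 then G else 0) - (if τ = 2 then b else 0) - a with hs
    have hsub : {w | ∃ ts : List (Fin 3), ts.length = M + 1 ∧ Z ≤ score G b a ts ∧
        InCat P ts w} ⊆ ⋃ τ ∈ (Finset.univ : Finset (Fin 3)), {w | ∃ u ∈ P τ,
          ∃ v ∈ {w | ∃ ts : List (Fin 3), ts.length = M ∧ Z - s τ ≤ score G b a ts ∧
            InCat P ts w}, w = u ++ v} := by
      rintro w ⟨ts, hts, hsc, hw⟩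
      match ts, hts, hsc, hw with
      | τ :: ts, hts, hsc, hw =>
        obtain ⟨u, hu, v, hv, rfl⟩ := hw
        rw [cat_score_cons] at hsc
        simp only [Set.mem_iUnion]
        refine ⟨τ, Finset.mem_univ _, u, hu, v, ⟨ts, ?_, ?_, hv⟩, rfl⟩
        · simpa using hts
        · simp only [hs]
          linarith
    refine (wt_mono hsub).trans ((wt_biUnion_le x _ _).trans ?_)
    have hterm : ∀ τ : Fin 3, wt x {w | ∃ u ∈ P τ,
          ∃ v ∈ {w | ∃ ts : List (Fin 3), ts.length = M ∧ Z - s τ ≤ score G b a ts ∧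
            InCat P ts w}, w = u ++ v} ≤
        wt x (P τ) * ENNReal.ofReal (Real.exp (-(Z - s τ))) := by
      intro τ
      refine (wt_append_le x _ (P τ) _ (fun w hw => hw)).trans ?_
      exact mul_le_mul_right (ih (Z - s τ)) _
    refine (Finset.sum_le_sum fun τ _ => hterm τ).trans ?_
    rw [Fin.sum_univ_three]
    have e0 : s 0 = G - a := by simp [hs]
    have e1 : s 1 = -a := by simp [hs]
    have e2 : s 2 = -b - a := by simp [hs]
    rw [e0, e1, e2]
    have hp : ∀ {p r t : ℝ} {A : ℝ≥0∞}, 0 ≤ p → A ≤ ENNReal.ofReal p →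
        A * ENNReal.ofReal r ≤ ENNReal.ofReal (p * r) := by
      intro p r t A hp0 hA
      rw [ENNReal.ofReal_mul hp0]
      exact mul_le_mul_left hA _
    have k0 := hp (r := Real.exp (-(Z - (G - a)))) (t := 0) (Real.exp_pos (-G)).le h0
    have k1 := hp (r := Real.exp (-(Z - -a))) (t := 0) (by positivity) h1
    have k2 := hp (r := Real.exp (-(Z - (-b - a)))) (t := 0) (Real.exp_pos b).le h2
    refine (add_le_add (add_le_add k0 k1) k2).trans ?_
    rw [← ENNReal.ofReal_add (by positivity) (by positivity),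
      ← ENNReal.ofReal_add (by positivity) (by positivity)]
    refine ENNReal.ofReal_le_ofReal ?_
    have f0 : Real.exp (-G) * Real.exp (-(Z - (G - a))) = Real.exp (-Z) * Real.exp (-a) := by
      rw [← Real.exp_add, ← Real.exp_add]; congr 1; ring
    have f1 : Real.exp a / 3 * Real.exp (-(Z - -a)) = Real.exp (-Z) * (1 / 3) := by
      rw [div_mul_eq_mul_div, ← Real.exp_add]
      have : a + -(Z - -a) = -Z := by ring
      rw [this]; ring
    have f2 : Real.exp b * Real.exp (-(Z - (-b - a))) = Real.exp (-Z) * Real.exp (-a) := by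
      rw [← Real.exp_add, ← Real.exp_add]; congr 1; ring
    rw [f0, f1, f2]
    have ha' : Real.exp (-a) ≤ 1 / 3 := by
      rw [Real.exp_neg, inv_eq_one_div]
      exact one_div_le_one_div_of_le (by norm_num) ha
    have hZp := Real.exp_pos (-Z)
    nlinarith

end Pool.Agent.Lib.MP_c23e5f_co
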