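import Pool.Agent.Lib.MP_c23e5f_co.BridgeOne

set_option autoImplicit false

namespace Pool.Agent.Lib.MP_c23e5f_co

open scoped ENNReal

private def chS (fr : Frame) (ρ a : ℕ) : Set (List (ℤ × ℤ)) :=
  {w | ∃ T, a ≤ T ∧ T < 2 * a ∧ IsQ fr ρ T w}

open Classical in
private noncomputable def chE (fr : Frame) (ρ a : ℕ) : ℕ → List (ℤ × ℤ) → ℕ
  | 0, w => if w = [] then 1 else 0
  | n + 1, w => ∑ i ∈ Finset.range (w.length + 1),
      if w.take i ∈ chS fr ρ a then chE fr ρ a n ((w.drop i).map fr.σ) else 0

private noncomputable def chW (x : ℝ≥0∞) (fr : Frame) (ρ a n : ℕ) : ℝ≥0∞ :=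
  ∑' w : List (ℤ × ℤ), x ^ w.length * (chE fr ρ a n w : ℝ≥0∞)

private lemma ch_map_map (fr : Frame) (w : List (ℤ × ℤ)) : (w.map fr.σ).map fr.σ = w := by
  rw [List.map_map]
  have : (fr.σ ∘ fr.σ : ℤ × ℤ → ℤ × ℤ) = id := by
    funext v
    exact fr.inv v
  rw [this, List.map_id]

open Classical in
private lemma ch_step (x : ℝ≥0∞) (fr : Frame) (ρ a n : ℕ) :
    wt x (chS fr ρ a) * chW x fr ρ a n ≤ chW x fr ρ a (n + 1) := by
  let f : List (ℤ × ℤ) × ℕ → ℝ≥0∞ := fun q =>
    if q.2 ≤ q.1.length ∧ q.1.take q.2 ∈ chS fr ρ a then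
      x ^ q.1.length * (chE fr ρ a n ((q.1.drop q.2).map fr.σ) : ℝ≥0∞) else 0
  let φ : List (ℤ × ℤ) × List (ℤ × ℤ) → List (ℤ × ℤ) × ℕ := fun p =>
    (p.1 ++ p.2.map fr.σ, p.1.length)
  have hφ : Function.Injective φ := by
    rintro ⟨u, v⟩ ⟨u', v'⟩ h
    simp only [φ, Prod.mk.injEq] at h
    obtain ⟨h1, h2⟩ := h
    obtain ⟨h3, h4⟩ := List.append_inj h1 h2
    have h5 : v = v' := by
      have := congrArg (List.map fr.σ) h4
      rwa [ch_map_map, ch_map_map] at this
    rw [h3, h5]
  have h1 : wt x (chS fr ρ a) * chW x fr ρ a n =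
      ∑' p : List (ℤ × ℤ) × List (ℤ × ℤ), (chS fr ρ a).indicator (fun w => x ^ w.length) p.1 *
        (x ^ p.2.length * (chE fr ρ a n p.2 : ℝ≥0∞)) := by
    rw [wt_eq_indicator, chW, ENNReal.tsum_prod (f := fun u v =>
      (chS fr ρ a).indicator (fun w => x ^ w.length) u *
        (x ^ v.length * (chE fr ρ a n v : ℝ≥0∞)))]
    rw [← ENNReal.tsum_mul_right]
    refine tsum_congr fun u => ?_
    rw [ENNReal.tsum_mul_left]
  have h2 : ∀ p : List (ℤ × ℤ) × List (ℤ × ℤ),
      (chS fr ρ a).indicator (fun w => x ^ w.length) p.1 *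
        (x ^ p.2.length * (chE fr ρ a n p.2 : ℝ≥0∞)) = f (φ p) := by
    rintro ⟨u, v⟩
    simp only [f, φ]
    rw [List.take_left' rfl, List.drop_left' rfl, ch_map_map]
    by_cases hu : u ∈ chS fr ρ a
    · rw [Set.indicator_of_mem hu, if_pos ⟨by simp, hu⟩]
      simp only [List.length_append, List.length_map, pow_add]
      ring
    · rw [Set.indicator_of_notMem hu, zero_mul, if_neg fun h => hu h.2]
  rw [h1, tsum_congr h2]
  refine (ENNReal.tsum_comp_le_tsum_of_injective hφ f).trans ?_
  rw [ENNReal.tsum_prod (f := fun w i => f (w, i))]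
  unfold chW
  refine ENNReal.tsum_le_tsum fun w => ?_
  have h3 : ∑' i : ℕ, f (w, i) = ∑ i ∈ Finset.range (w.length + 1), f (w, i) := by
    apply tsum_eq_sum
    intro i hi
    simp only [Finset.mem_range, not_lt] at hi
    simp only [f]
    rw [if_neg]
    intro h
    omega
  rw [h3]
  simp only [chE]
  rw [Nat.cast_sum, Finset.mul_sum]
  refine Finset.sum_le_sum fun i hi => ?_
  simp only [Finset.mem_range] at hi
  simp only [f]
  by_cases hw : w.take i ∈ chS fr ρ a
  · rw [if_pos ⟨by omega, hw⟩, if_pos hw]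
  · rw [if_neg fun h => hw h.2]
    simp

open Classical in
private lemma ch_zero (x : ℝ≥0∞) (fr : Frame) (ρ a : ℕ) : 1 ≤ chW x fr ρ a 0 := by
  unfold chW
  calc (1 : ℝ≥0∞) = x ^ ([] : List (ℤ × ℤ)).length * (chE fr ρ a 0 [] : ℝ≥0∞) := by simp [chE]
    _ ≤ ∑' w : List (ℤ × ℤ), x ^ w.length * (chE fr ρ a 0 w : ℝ≥0∞) :=
        ENNReal.le_tsum (f := fun w : List (ℤ × ℤ) => x ^ w.length * (chE fr ρ a 0 w : ℝ≥0∞)) []

private lemma ch_pow (x : ℝ≥0∞) (fr : Frame) (ρ a n : ℕ) :
    wt x (chS fr ρ a) ^ n ≤ chW x fr ρ a n := by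
  induction n with
  | zero => simpa using ch_zero x fr ρ a
  | succ n ih =>
    rw [pow_succ, mul_comm]
    exact (mul_le_mul_right ih _).trans (ch_step x fr ρ a n)

private lemma ch_bridge_nil (F : ℤ × ℤ →+ ℤ) : IsBridge F 0 [] := by
  refine ⟨isSaw_nil, fun i h1 h2 => ?_, fun i _ => ?_, ?_⟩
  · simp only [List.length_nil] at h2
    omega
  · simp [pos]
  · simp

private lemma ch_bridge_map {fr : Frame} {H : ℕ} {v : List (ℤ × ℤ)}
    (h : IsBridge fr.F H (v.map fr.σ)) : IsBridge fr.F H v := by
  have hp : ∀ i, fr.F (pos v i) = fr.F (pos (v.map fr.σ) i) := by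
    intro i
    rw [pos_map, fr.Fσ]
  refine ⟨?_, fun i h1 h2 => ?_, fun i h2 => ?_, ?_⟩
  · have := h.saw.map fr.σ fr.σ_inj fr.step
    rwa [ch_map_map] at this
  · rw [hp]
    exact h.gt i h1 (by simpa using h2)
  · rw [hp]
    exact h.le i (by simpa using h2)
  · have h3 := h.ht
    rw [← pos_length, ← hp, List.length_map, pos_length] at h3
    exact h3

private lemma ch_bridge_append {F : ℤ × ℤ →+ ℤ} {T H : ℕ} {u v : List (ℤ × ℤ)}
    (hu : IsBridge F T u) (hv : IsBridge F H v) : IsBridge F (T + H) (u ++ v) := by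
  refine ⟨?_, fun i h1 h2 => ?_, fun i h2 => ?_, ?_⟩
  · refine hu.saw.append hv.saw fun i j hi hj1 hj heq => ?_
    have h1 := hu.le i hi
    have h2 := hv.gt j hj1 hj
    have h3 := congrArg F heq
    rw [map_add, hu.ht] at h3
    omega
  · rw [List.length_append] at h2
    rcases le_or_gt i u.length with h | h
    · rw [pos_append_left h]
      exact hu.gt i h1 h
    · rw [pos_append_right' h.le, map_add, hu.ht]
      have := hv.gt (i - u.length) (by omega) (by omega)
      omega
  · rw [List.length_append] at h2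
    rcases le_or_gt i u.length with h | h
    · rw [pos_append_left h]
      have := hu.le i h
      push_cast
      omega
    · rw [pos_append_right' h.le, map_add, hu.ht]
      have := hv.le (i - u.length) (by omega)
      push_cast
      omega
  · rw [List.sum_append, map_add, hu.ht, hv.ht]
    push_cast
    ring

open Classical in
private lemma chE_pos {fr : Frame} {ρ a n : ℕ} {w : List (ℤ × ℤ)}
    (h : 0 < chE fr ρ a (n + 1) w) : ∃ i, i ≤ w.length ∧ w.take i ∈ chS fr ρ a ∧
      0 < chE fr ρ a n ((w.drop i).map fr.σ) := by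
  simp only [chE] at h
  obtain ⟨i, hi, h1⟩ := Finset.exists_ne_zero_of_sum_ne_zero h.ne'
  simp only [Finset.mem_range] at hi
  by_cases hw : w.take i ∈ chS fr ρ a
  · rw [if_pos hw] at h1
    exact ⟨i, by omega, hw, Nat.pos_of_ne_zero h1⟩
  · rw [if_neg hw] at h1
    exact absurd rfl h1

private lemma ch_bridge {fr : Frame} {ρ a : ℕ} (n : ℕ) : ∀ {w : List (ℤ × ℤ)},
    0 < chE fr ρ a n w → ∃ H, n * a ≤ H ∧ H + n ≤ 2 * (n * a) ∧ IsBridge fr.F H w := by
  classical
  induction n with
  | zero =>
    intro w h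
    simp only [chE] at h
    have hw : w = [] := by
      by_contra hne
      rw [if_neg hne] at h
      exact absurd h (lt_irrefl 0)
    subst hw
    exact ⟨0, by simp, by simp, ch_bridge_nil _⟩
  | succ n ih =>
    intro w h
    obtain ⟨i, hi, ⟨T, hT1, hT2, hQ⟩, h2⟩ := chE_pos h
    obtain ⟨H, hH1, hH2, hb⟩ := ih h2
    refine ⟨T + H, ?_, ?_, ?_⟩
    · rw [add_mul]
      omega
    · rw [add_mul]
      omega
    · have := ch_bridge_append hQ.br (ch_bridge_map hb)
      rwa [List.take_append_drop] at this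

open Classical in
private lemma ch_le {fr : Frame} {ρ a : ℕ} (hρ : 1 ≤ ρ) (n : ℕ) : ∀ w : List (ℤ × ℤ),
    chE fr ρ a n w ≤ ρ ^ n := by
  induction n with
  | zero =>
    intro w
    simp only [chE]
    split_ifs <;> simp
  | succ n ih =>
    intro w
    set I := (Finset.range (w.length + 1)).filter (fun i => w.take i ∈ chS fr ρ a ∧
      0 < chE fr ρ a n ((w.drop i).map fr.σ)) with hI
    have hcard : I.card ≤ ρ := by
      rcases n with _ | n
      · refine le_trans (Finset.card_le_one.2 ?_) hρ
        have key : ∀ i ∈ I, i = w.length := by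
          intro i hi
          rw [hI, Finset.mem_filter, Finset.mem_range] at hi
          obtain ⟨h1, -, h2⟩ := hi
          simp only [chE] at h2
          have h3 : (w.drop i).map fr.σ = [] := by
            by_contra hne
            rw [if_neg hne] at h2
            exact absurd h2 (lt_irrefl 0)
          have h4 : (w.drop i).length = 0 := by
            have := congrArg List.length h3
            simpa using this
          rw [List.length_drop] at h4
          omega
        intro i hi j hj
        rw [key i hi, key j hj]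
      · -- the claim
        have key : ∀ i ∈ I, ∀ j ∈ I, i < j →
            fr.F (pos w i) < fr.F (pos w j) ∧ fr.F (pos w j) < fr.F (pos w i) + ρ := by
          intro i hi j hj hij
          rw [hI, Finset.mem_filter, Finset.mem_range] at hi hj
          obtain ⟨hi1, ⟨Ti, hTi1, hTi2, hQi⟩, hi3⟩ := hi
          obtain ⟨hj1, ⟨Tj, hTj1, hTj2, hQj⟩, hj3⟩ := hj
          have hFi : fr.F (pos w i) = Ti := hQi.br.ht
          have hFj : fr.F (pos w j) = Tj := hQj.br.ht
          obtain ⟨H, -, -, hb⟩ := ch_bridge _ hi3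
          have hb' := ch_bridge_map hb
          have hlen : (w.drop i).length = w.length - i := List.length_drop
          have h1 := hb'.gt (j - i) (by omega) (by omega)
          have hpos : pos (w.drop i) (j - i) = pos w j - pos w i := by
            rw [pos_drop]
            congr 2
            omega
          rw [hpos, map_sub] at h1
          refine ⟨by linarith, ?_⟩
          by_contra hcon
          push Not at hcon
          -- (Q2)
          have h2 : fr.g (pos w i) < fr.g (pos w j) := by
            have h3 := hQj.q2 i (by rw [List.length_take]; omega) (by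
              rw [pos_take hij.le, hFi]
              omega)
            rw [pos_take hij.le] at h3
            exact h3
          -- the second part
          obtain ⟨m, hm, ⟨T2, hT21, hT22, hQ2⟩, hm3⟩ := chE_pos hi3
          obtain ⟨H2, -, -, hb2⟩ := ch_bridge _ hm3
          have hb2' := ch_bridge_map hb2
          have hlen2 : ((w.drop i).map fr.σ).length = w.length - i := by
            rw [List.length_map, hlen]
          have hpos2 : pos ((w.drop i).map fr.σ) (j - i) = fr.σ (pos w j - pos w i) := by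
            rw [pos_map, hpos]
          have hFm : fr.F (pos ((w.drop i).map fr.σ) m) = T2 := hQ2.br.ht
          have hjm : j - i ≤ m := by
            by_contra hlt
            push Not at hlt
            have h4 := hb2'.gt (j - i - m) (by omega) (by
              rw [List.length_drop, hlen2]
              omega)
            have h5 : pos (((w.drop i).map fr.σ).drop m) (j - i - m) =
                pos ((w.drop i).map fr.σ) (j - i) - pos ((w.drop i).map fr.σ) m := by
              rw [pos_drop]
              congr 2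
              omega
            rw [h5, map_sub, hFm, hpos2, fr.Fσ, map_sub, hFi, hFj] at h4
            omega
          have h6 := hQ2.q1 (j - i) (by rw [List.length_take]; omega) (by
            rw [pos_take hjm, hpos2, fr.Fσ, map_sub]
            linarith)
          rw [pos_take hjm, hpos2, fr.gσ, map_sub] at h6
          linarith
        rcases I.eq_empty_or_nonempty with hemp | hne
        · rw [hemp]
          simp
        · set i₀ := I.min' hne with hi₀
          have hi₀mem : i₀ ∈ I := Finset.min'_mem I hne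
          have hmaps : ∀ i ∈ I, fr.F (pos w i) ∈
              Finset.Ico (fr.F (pos w i₀)) (fr.F (pos w i₀) + ρ) := by
            intro i hi
            rw [Finset.mem_Ico]
            rcases eq_or_lt_of_le (Finset.min'_le I i hi) with h | h
            · rw [← hi₀] at h
              rw [← h]
              exact ⟨le_rfl, by omega⟩
            · have := key i₀ hi₀mem i hi h
              exact ⟨this.1.le, this.2⟩
          have hinj : Set.InjOn (fun i => fr.F (pos w i)) (I : Set ℕ) := by
            intro i hi j hj hij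
            simp only at hij
            rcases lt_trichotomy i j with h | h | h
            · have := (key i hi j hj h).1
              omega
            · exact h
            · have := (key j hj i hi h).1
              omega
          have := Finset.card_le_card_of_injOn (fun i => fr.F (pos w i)) hmaps hinj
          rw [Int.card_Ico] at this
          have h7 : (fr.F (pos w i₀) + (ρ : ℤ) - fr.F (pos w i₀)).toNat = ρ := by
            rw [add_sub_cancel_left]
            exact Int.toNat_natCast ρ
          rw [h7] at this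
          exact this
    have hE : chE fr ρ a (n + 1) w = ∑ i ∈ Finset.range (w.length + 1),
        if w.take i ∈ chS fr ρ a then chE fr ρ a n ((w.drop i).map fr.σ) else 0 := by
      simp only [chE]
    rw [hE]
    calc ∑ i ∈ Finset.range (w.length + 1),
        (if w.take i ∈ chS fr ρ a then chE fr ρ a n ((w.drop i).map fr.σ) else 0)
        ≤ ∑ i ∈ Finset.range (w.length + 1), (if w.take i ∈ chS fr ρ a ∧
            0 < chE fr ρ a n ((w.drop i).map fr.σ) then ρ ^ n else 0) := by
          refine Finset.sum_le_sum fun i _ => ?_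
          by_cases h1 : w.take i ∈ chS fr ρ a
          · rw [if_pos h1]
            rcases Nat.eq_zero_or_pos (chE fr ρ a n ((w.drop i).map fr.σ)) with h2 | h2
            · rw [h2]
              exact Nat.zero_le _
            · rw [if_pos ⟨h1, h2⟩]
              exact ih _
          · rw [if_neg h1]
            exact Nat.zero_le _
      _ = I.card * ρ ^ n := by
          rw [← Finset.sum_filter, Finset.sum_const, smul_eq_mul]
      _ ≤ ρ * ρ ^ n := Nat.mul_le_mul_right _ hcard
      _ = ρ ^ (n + 1) := by rw [pow_succ, mul_comm]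

private lemma ch_W_le {x : ℝ≥0∞} (hx : IsCrit x) (fr : Frame) (ρ a : ℕ) (hρ : 1 ≤ ρ) (n : ℕ)
    (hn : 1 ≤ n) : chW x fr ρ a n ≤ (ρ : ℝ≥0∞) ^ n * ((2 * (n * a) : ℕ) : ℝ≥0∞) := by
  classical
  have h1 : chW x fr ρ a n ≤ (ρ : ℝ≥0∞) ^ n *
      wt x (⋃ H ∈ Finset.range (2 * (n * a)), {w | IsBridge fr.F H w}) := by
    rw [wt_eq_indicator, chW, ← ENNReal.tsum_mul_left]
    refine ENNReal.tsum_le_tsum fun w => ?_
    rcases Nat.eq_zero_or_pos (chE fr ρ a n w) with h | h
    · rw [h]
      simp
    · obtain ⟨H, h2, h3, h4⟩ := ch_bridge n h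
      have hmem : w ∈ ⋃ H ∈ Finset.range (2 * (n * a)), {w | IsBridge fr.F H w} := by
        rw [Set.mem_iUnion₂]
        exact ⟨H, by rw [Finset.mem_range]; omega, h4⟩
      rw [Set.indicator_of_mem hmem, mul_comm]
      have h5 : (chE fr ρ a n w : ℝ≥0∞) ≤ (ρ : ℝ≥0∞) ^ n := by
        exact_mod_cast ch_le hρ n w
      gcongr
  refine h1.trans ?_
  gcongr
  refine (wt_biUnion_le x _ _).trans ?_
  calc ∑ H ∈ Finset.range (2 * (n * a)), wt x {w | IsBridge fr.F H w}
      ≤ ∑ _H ∈ Finset.range (2 * (n * a)), (1 : ℝ≥0∞) :=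
        Finset.sum_le_sum fun H _ => wt_bridge_le_one hx fr.F H
    _ = _ := by simp

/-- Section 4 of the paper, (4). -/
theorem chain {x : ℝ≥0∞} (hx : IsCrit x) (fr : Frame) (ρ a : ℕ) (hρ : 1 ≤ ρ) (ha : 1 ≤ a) :
    wt x {w | ∃ T, a ≤ T ∧ T < 2 * a ∧ IsQ fr ρ T w} ≤ ρ := by
  change wt x (chS fr ρ a) ≤ ρ
  set V := wt x (chS fr ρ a) with hV
  have hpow : ∀ n : ℕ, 1 ≤ n → V ^ n ≤ (ρ : ℝ≥0∞) ^ n * ((2 * (n * a) : ℕ) : ℝ≥0∞) :=
    fun n hn => (ch_pow x fr ρ a n).trans (ch_W_le hx fr ρ a hρ n hn)
  have hVtop : V ≠ ⊤ := by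
    have h1 := hpow 1 le_rfl
    rw [pow_one, pow_one] at h1
    refine ne_top_of_le_ne_top ?_ h1
    exact ENNReal.mul_ne_top (ENNReal.natCast_ne_top _) (ENNReal.natCast_ne_top _)
  by_contra hcon
  push Not at hcon
  set v := V.toReal with hv
  have hρ0 : (0 : ℝ) < ρ := by exact_mod_cast hρ
  have hvρ : (ρ : ℝ) < v := by
    have h1 : ((ρ : ℝ≥0∞)).toReal < V.toReal :=
      (ENNReal.toReal_lt_toReal (ENNReal.natCast_ne_top _) hVtop).2 hcon
    simpa using h1
  have hreal : ∀ n : ℕ, 1 ≤ n → v ^ n ≤ (ρ : ℝ) ^ n * (2 * (n * a)) := by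
    intro n hn
    have h1 := ENNReal.toReal_mono (ENNReal.mul_ne_top (ENNReal.pow_ne_top
      (ENNReal.natCast_ne_top ρ)) (ENNReal.natCast_ne_top _)) (hpow n hn)
    rw [ENNReal.toReal_pow, ENNReal.toReal_mul, ENNReal.toReal_pow, ENNReal.toReal_natCast,
      ENNReal.toReal_natCast] at h1
    push_cast at h1
    exact h1
  set c := v / ρ with hc
  have hc1 : 1 < c := by
    rw [hc, one_lt_div hρ0]
    exact hvρ
  have hcn : ∀ n : ℕ, 1 ≤ n → c ^ n ≤ 2 * (n * a) := by
    intro n hn
    rw [hc, div_pow, div_le_iff₀ (by positivity)]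
    have := hreal n hn
    linarith
  have hlim := tendsto_pow_const_div_const_pow_of_one_lt 1 hc1
  have ha0 : (0 : ℝ) < a := by exact_mod_cast ha
  have hev := hlim.eventually_lt_const (show (0 : ℝ) < 1 / (2 * a) by positivity)
  obtain ⟨n, hn1, hn2⟩ := (hev.and (Filter.eventually_ge_atTop 1)).exists
  have h1 := hcn n hn2
  have hc0 : 0 < c ^ n := by positivity
  rw [pow_one, div_lt_iff₀ hc0] at hn1
  have h2 : (n : ℝ) * (2 * a) < c ^ n := by
    have h3 : (n : ℝ) * (2 * a) < 1 / (2 * a) * c ^ n * (2 * a) := by gcongr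
    have h4 : 1 / (2 * (a : ℝ)) * c ^ n * (2 * a) = c ^ n := by field_simp
    linarith
  linarith

end Pool.Agent.Lib.MP_c23e5f_co
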