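import Pool.Agent.Lib.MP_c23e5f_co.Basic

set_option autoImplicit false

namespace Pool.Agent.Lib.MP_c23e5f_co

/-- chains of scale `s` of a path -/
structure IsChain (f : ℕ → ℤ × ℤ) (s : ℕ) (T : ℕ → ℕ) : Prop where
  zero : T 0 = 0
  mono : StrictMono T
  lo : ∀ m, (s : ℝ) ≤ ‖toC (f (T (m + 1)) - f (T m))‖
  hi : ∀ m, ‖toC (f (T (m + 1)) - f (T m))‖ ≤ 2 * s
  wan : ∀ m t, T m ≤ t → t < T (m + 1) → ‖toC (f t - f (T m))‖ ≤ 2 * s

private lemma toC_tri (u v w : ℤ × ℤ) : ‖toC (u - w)‖ ≤ ‖toC (u - v)‖ + ‖toC (v - w)‖ := by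
  have : toC (u - w) = toC (u - v) + toC (v - w) := by
    rw [← toC_add]; congr 1; abel
  rw [this]
  exact norm_add_le _ _

private lemma exists_between {T : ℕ → ℕ} (hT : StrictMono T) {a b t : ℕ} (h1 : T a ≤ t)
    (h2 : t < T b) : ∃ m, a ≤ m ∧ m < b ∧ T m ≤ t ∧ t < T (m + 1) := by
  classical
  have hex : ∃ m, t < T m := ⟨b, h2⟩
  have h3 := Nat.find_spec hex
  have h4 : ∀ m, m < Nat.find hex → T m ≤ t := fun m hm => not_lt.1 (Nat.find_min hex hm)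
  have h5 : a < Nat.find hex := by
    by_contra h
    have := hT.monotone (not_lt.1 h)
    omega
  have h6 : Nat.find hex ≤ b := Nat.find_min' hex h2
  refine ⟨Nat.find hex - 1, by omega, by omega, h4 _ (by omega), ?_⟩
  rwa [Nat.sub_add_cancel (by omega)]

/-- Section 9 of the paper, CHAINS: one step -/
theorem IsChain.refine {f : ℕ → ℤ × ℤ} {s s' : ℕ} {T : ℕ → ℕ} (h : IsChain f s T)
    (hss : 2 * s ≤ s') (hs : 1 ≤ s)
    (hub : ∀ (m : ℕ) (R : ℝ), ∃ m', m < m' ∧ R ≤ ‖toC (f m' - f m)‖)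
    (hub' : ∀ (m : ℕ) (R : ℝ), ∃ n, ∀ m', n ≤ m' → R ≤ ‖toC (f m' - f m)‖) :
    ∃ φ : ℕ → ℕ, StrictMono φ ∧ φ 0 = 0 ∧ IsChain f s' (fun l => T (φ l)) := by
  classical
  have hss' : (2 : ℝ) * s ≤ s' := by exact_mod_cast hss
  have hs' : (1 : ℝ) ≤ s := by exact_mod_cast hs
  have hex : ∀ a, ∃ m, a < m ∧ (s' : ℝ) ≤ ‖toC (f (T m) - f (T a))‖ := by
    intro a
    obtain ⟨n, hn⟩ := hub' (T a) s'
    refine ⟨max n (a + 1), by omega, hn _ ?_⟩
    exact (le_max_left n (a + 1)).trans (h.mono.id_le _)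
  have hN : ∀ a, ∃ b, (a < b ∧ (s' : ℝ) ≤ ‖toC (f (T b) - f (T a))‖) ∧
      ∀ m, m < b → ¬(a < m ∧ (s' : ℝ) ≤ ‖toC (f (T m) - f (T a))‖) := fun a =>
    ⟨Nat.find (hex a), Nat.find_spec (hex a), fun m hm => Nat.find_min (hex a) hm⟩
  choose N hN1 hN2 using hN
  let φ : ℕ → ℕ := fun l => Nat.rec 0 (fun _ a => N a) l
  have hφ : ∀ l, φ (l + 1) = N (φ l) := fun l => rfl
  have h1 : ∀ l, φ l < φ (l + 1) := fun l => by rw [hφ]; exact (hN1 (φ l)).1
  have h2 : ∀ l, (s' : ℝ) ≤ ‖toC (f (T (φ (l + 1))) - f (T (φ l)))‖ := fun l => by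
    rw [hφ]; exact (hN1 (φ l)).2
  have h3 : ∀ l m, φ l ≤ m → m < φ (l + 1) → ‖toC (f (T m) - f (T (φ l)))‖ ≤ s' := by
    intro l m hm1 hm2
    rcases hm1.eq_or_lt with e | e
    · rw [← e, sub_self]
      have : ‖toC 0‖ = 0 := by
        rw [norm_eq_zero]
        apply Complex.ext <;> simp
      rw [this]
      linarith
    · rw [hφ] at hm2
      have := hN2 (φ l) m hm2
      push Not at this
      exact (this e).le
  have hmono : StrictMono φ := strictMono_nat_of_lt_succ h1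
  refine ⟨φ, hmono, rfl, ⟨h.zero, h.mono.comp hmono, h2, ?_, ?_⟩⟩
  · intro l
    have h4 := h1 l
    have h5 := h3 l (φ (l + 1) - 1) (by omega) (by omega)
    have h6 := h.hi (φ (l + 1) - 1)
    rw [Nat.sub_add_cancel (by omega)] at h6
    have h7 := toC_tri (f (T (φ (l + 1)))) (f (T (φ (l + 1) - 1))) (f (T (φ l)))
    linarith
  · intro l t ht1 ht2
    obtain ⟨m, hm1, hm2, hm3, hm4⟩ := exists_between h.mono ht1 ht2
    have h5 := h3 l m hm1 hm2
    have h6 := h.wan m t hm3 hm4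
    have h7 := toC_tri (f t) (f (T m)) (f (T (φ l)))
    linarith

/-- the path `f` up to time `n`, continued by a straight line to the right -/
def ext (f : ℕ → ℤ × ℤ) (n t : ℕ) : ℤ × ℤ := if t ≤ n then f t else f n + (((t - n : ℕ) : ℤ), (0 : ℤ))

private lemma ext_step {f : ℕ → ℤ × ℤ} (hf : ∀ i, IsStep (f (i + 1) - f i)) (n i : ℕ) :
    IsStep (ext f n (i + 1) - ext f n i) := by
  by_cases h1 : i + 1 ≤ n
  · rw [ext, ext, if_pos h1, if_pos (by omega)]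
    exact hf i
  · by_cases h2 : i ≤ n
    · have h3 : i = n := by omega
      rw [ext, ext, if_neg h1, if_pos h2, h3]
      simp [IsStep]
    · rw [ext, ext, if_neg h1, if_neg h2]
      have h3 : i + 1 - n = (i - n) + 1 := by omega
      rw [h3]
      simp [IsStep]

private lemma norm_toC_step {v : ℤ × ℤ} (h : IsStep v) : ‖toC v‖ = 1 := by
  have h1 : v.1 ^ 2 + v.2 ^ 2 = 1 := by
    unfold IsStep at h
    have h2 : v.1.natAbs = 0 ∧ v.2.natAbs = 1 ∨ v.1.natAbs = 1 ∧ v.2.natAbs = 0 := by omega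
    rw [← Int.natAbs_sq v.1, ← Int.natAbs_sq v.2]
    rcases h2 with ⟨e1, e2⟩ | ⟨e1, e2⟩ <;> rw [e1, e2] <;> norm_num
  have h2 : ‖toC v‖ ^ 2 = 1 := by
    rw [Complex.sq_norm, Complex.normSq_apply, toC_re, toC_im]
    have : ((v.1 ^ 2 + v.2 ^ 2 : ℤ) : ℝ) = 1 := by rw [h1]; norm_num
    push_cast at this
    nlinarith
  nlinarith [norm_nonneg (toC v)]

private lemma ext_far (f : ℕ → ℤ × ℤ) (n m : ℕ) (R : ℝ) :
    ∃ n0, ∀ m', n0 ≤ m' → R ≤ ‖toC (ext f n m' - ext f n m)‖ := by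
  obtain ⟨K, hK⟩ := exists_nat_ge (R - (((f n).1 : ℤ) : ℝ) + (((ext f n m).1 : ℤ) : ℝ))
  refine ⟨n + 1 + K, fun m' hm' => ?_⟩
  have h1 : ext f n m' = f n + (((m' - n : ℕ) : ℤ), (0 : ℤ)) := by
    rw [ext, if_neg (by omega)]
  have h2 : (toC (ext f n m' - ext f n m)).re =
      (((f n).1 : ℤ) : ℝ) + ((m' - n : ℕ) : ℝ) - (((ext f n m).1 : ℤ) : ℝ) := by
    rw [toC_re, h1]
    push_cast [Prod.fst_sub, Prod.fst_add]
    ring
  have h3 : (K : ℝ) ≤ ((m' - n : ℕ) : ℝ) := by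
    have : K ≤ m' - n := by omega
    exact_mod_cast this
  have h4 := Complex.re_le_norm (toC (ext f n m' - ext f n m))
  rw [h2] at h4
  linarith

/-- Section 9 of the paper, CHAINS -/
theorem exists_chains (k : ℕ) (hk : 1 ≤ k) (f : ℕ → ℤ × ℤ) (hf : ∀ i, IsStep (f (i + 1) - f i))
    (n : ℕ) :
    ∃ T : ℕ → ℕ → ℕ, (∀ i, IsChain (ext f n) (sc k i) (T i)) ∧ (∀ l, T 0 l = l) ∧
      ∀ i, ∃ φ : ℕ → ℕ, StrictMono φ ∧ φ 0 = 0 ∧ ∀ l, T (i + 1) l = T i (φ l) := by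
  have hub' : ∀ (m : ℕ) (R : ℝ), ∃ n0, ∀ m', n0 ≤ m' → R ≤ ‖toC (ext f n m' - ext f n m)‖ :=
    fun m R => ext_far f n m R
  have hub : ∀ (m : ℕ) (R : ℝ), ∃ m', m < m' ∧ R ≤ ‖toC (ext f n m' - ext f n m)‖ := by
    intro m R
    obtain ⟨n0, hn0⟩ := hub' m R
    exact ⟨max n0 (m + 1), by omega, hn0 _ (le_max_left _ _)⟩
  have hsc1 : ∀ i, 1 ≤ sc k i := by
    intro i
    induction i with
    | zero => exact le_rfl
    | succ i ih =>
      have h1 : 1 ≤ 8 * (1600 * k * sc k i) := by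
        have : 1 ≤ k * sc k i := Nat.mul_pos hk ih
        nlinarith
      have h2 : 1 ≤ (8 * (1600 * k * sc k i)) ^ (2 * Lam k + 2) := Nat.one_le_pow _ _ h1
      show 1 ≤ 64 * k * (8 * (1600 * k * sc k i)) ^ (2 * Lam k + 2)
      have h3 : 1 ≤ 64 * k := by omega
      exact Nat.mul_pos h3 h2
  have hsc2 : ∀ i, 2 * sc k i ≤ sc k (i + 1) := by
    intro i
    have h0 := hsc1 i
    have h1 : sc k i ≤ 8 * (1600 * k * sc k i) := by
      have : sc k i ≤ k * sc k i := Nat.le_mul_of_pos_left _ hk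
      nlinarith
    have h2 : 8 * (1600 * k * sc k i) ≤ (8 * (1600 * k * sc k i)) ^ (2 * Lam k + 2) :=
      Nat.le_self_pow (by omega) _
    show 2 * sc k i ≤ 64 * k * (8 * (1600 * k * sc k i)) ^ (2 * Lam k + 2)
    have h3 : 2 ≤ 64 * k := by omega
    exact Nat.mul_le_mul h3 (h1.trans h2)
  have h0 : IsChain (ext f n) (sc k 0) (fun l => l) := by
    refine ⟨rfl, strictMono_id, ?_, ?_, ?_⟩
    · intro m
      show ((1 : ℕ) : ℝ) ≤ _
      rw [norm_toC_step (ext_step hf n m)]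
      simp
    · intro m
      show _ ≤ 2 * ((1 : ℕ) : ℝ)
      rw [norm_toC_step (ext_step hf n m)]
      simp
    · intro m t h1 h2
      have h3 : t = m := by
        change m ≤ t at h1
        change t < m + 1 at h2
        omega
      rw [h3, sub_self]
      have : ‖toC 0‖ = 0 := by
        rw [norm_eq_zero]
        apply Complex.ext <;> simp
      rw [this]
      positivity
  have key : ∀ i (g : {T : ℕ → ℕ // IsChain (ext f n) (sc k i) T}), ∃ φ : ℕ → ℕ, StrictMono φ ∧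
      φ 0 = 0 ∧ IsChain (ext f n) (sc k (i + 1)) (fun l => g.1 (φ l)) := fun i g =>
    g.2.refine (hsc2 i) (hsc1 i) hub hub'
  let G : (i : ℕ) → {T : ℕ → ℕ // IsChain (ext f n) (sc k i) T} := fun i =>
    Nat.rec (motive := fun i => {T : ℕ → ℕ // IsChain (ext f n) (sc k i) T}) ⟨fun l => l, h0⟩
      (fun i g => ⟨fun l => g.1 ((key i g).choose l), (key i g).choose_spec.2.2⟩) i
  exact ⟨fun i => (G i).1, fun i => (G i).2, fun l => rfl, fun i =>
    ⟨(key i (G i)).choose, (key i (G i)).choose_spec.1, (key i (G i)).choose_spec.2.1,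
      fun l => rfl⟩⟩

end Pool.Agent.Lib.MP_c23e5f_co
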