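import Pool.Agent.Lib.MP_c23e5f_co.CutOfCore

set_option autoImplicit false

namespace Pool.Agent.Lib.MP_c23e5f_co

/-- discrete intermediate value theorem -/
private lemma coc_ivt {g : ℕ → ℤ} {tp tq : ℕ} {v : ℤ} (hpq : tp ≤ tq)
    (hstep : ∀ t, tp ≤ t → t < tq → |g (t + 1) - g t| ≤ 1) (h0 : g tp ≤ v) (h1 : v < g tq) :
    ∃ t, tp ≤ t ∧ t < tq ∧ g t = v := by
  induction tq, hpq using Nat.le_induction with
  | base => omega
  | succ n hn ih =>
    by_cases h : v < g n
    · obtain ⟨t, a, b, c⟩ := ih (fun t ht ht' => hstep t ht (by omega)) h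
      exact ⟨t, a, by omega, c⟩
    · have h2 := hstep n hn (by omega)
      rw [abs_le] at h2
      exact ⟨n, hn, by omega, by omega⟩

private lemma coc_heavy {g : ℕ → ℤ} {p : ℤ → ℕ → Prop} [∀ m, DecidablePred (p m)] {tp tq : ℕ}
    (B : Finset ℕ) (P0 : ℤ) (hp : ∀ m t, p m t → g t = m) :
    ∑ m ∈ B, ((Finset.Ico tp tq).filter (p (P0 + m))).card ≤ tq - tp := by
  rw [← Finset.card_biUnion]
  · calc _ ≤ (Finset.Ico tp tq).card := by
          apply Finset.card_le_card
          intro t ht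
          obtain ⟨m, _, hm⟩ := Finset.mem_biUnion.1 ht
          exact (Finset.mem_filter.1 hm).1
      _ = tq - tp := Nat.card_Ico _ _
  · intro m _ m' _ hne
    rw [Function.onFun, Finset.disjoint_left]
    intro t ht ht'
    have h1 := hp _ _ (Finset.mem_filter.1 ht).2
    have h2 := hp _ _ (Finset.mem_filter.1 ht').2
    apply hne
    have : (m : ℤ) = m' := by linarith
    exact_mod_cast this

open Classical in
/-- Section 9 of the paper: the bridge between two good columns is in the class.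
`b` bounds the number of the bad indices, `n1 = tq - tp` the number of steps. -/
theorem class_of_core {fr : Frame} (hfr : fr = frA ∨ fr = frA' ∨ fr = frB) {k s : ℕ}
    {f : ℕ → ℤ × ℤ} {t0 t1 : ℕ} {j : ℕ → ℕ}
    {Y : ℕ → ℤ × ℤ} {cum : ℕ → ℝ} {good : Set ℕ} (h : Core fr k s f t0 t1 j Y cum good)
    (hk : 1 ≤ k) (hs : 1 ≤ s) {r ρ Λ L : ℕ} (hρ : ρ = 1600 * k * s) (hr : 10 ^ 4 * ρ ≤ r)
    (h16 : 64 ∣ r)
    {tp tq : ℕ} (h0 : t0 ≤ tp) (hpq : tp < tq) (h1 : tq ≤ t1) {c : ℤ} (hc : (f tp).1 = c)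
    (hq : (f tq).1 = c + r) (hin : ∀ t, tp < t → t ≤ tq → c < (f t).1 ∧ (f t).1 ≤ c + r)
    {jp jq : ℕ} (hjp : jp ∈ good) (hjq : jq ∈ good)
    (hjpc : |(Y jp).1 - c| ≤ 3 * s) (hjqc : |(Y jq).1 - (c + r)| ≤ 3 * s)
    (hbad : ((Finset.Icc (j t0) (j t1)).filter (fun i => i ∉ good)).card * (7 * s) ≤ r / 64)
    (hL : tq - tp ≤ L) (hΛ : L ≤ Λ * (r / 64)) (hΛ1 : 1 ≤ Λ) :
    seg f tp (tq - tp) ∈ PU r ρ Λ L := by
  obtain ⟨R, rfl⟩ := h16
  have hR : 64 * R / 64 = R := Nat.mul_div_cancel_left R (by norm_num)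
  rw [hR] at hbad hΛ
  have hks : s ≤ k * s := Nat.le_mul_of_pos_left s hk
  have hρ' : ρ = 1600 * (k * s) := by rw [hρ]; ring
  have hr7 : 7 * s ≤ 64 * R := by omega
  -- the displacement of `F`
  obtain ⟨_, hF1, _⟩ := h.F_diff hk hs hr7 h0 hpq h1 hc hq hjp hjq hjpc hjqc
  have hFd : (16 * R : ℤ) < fr.F (f tq) - fr.F (f tp) := by
    have e1 : (20000 : ℤ) * k * s = 20000 * ((k * s : ℕ) : ℤ) := by push_cast; ring
    rw [e1] at hF1
    have e2 : (10 ^ 4 : ℤ) * (1600 * ((k * s : ℕ) : ℤ)) ≤ 64 * R := by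
      rw [hρ'] at hr; exact_mod_cast hr
    have e3 : (1 : ℤ) ≤ ((k * s : ℕ) : ℤ) := by exact_mod_cast (hs.trans hks)
    push_cast at hF1 e2 e3 ⊢
    linarith
  have hstep : ∀ t, tp ≤ t → t < tq → |fr.F (f (t + 1)) - fr.F (f t)| ≤ 1 := by
    intro t ht ht'
    rw [← map_sub]
    exact fr.Fform _ (h.step t (h0.trans ht) (by omega))
  -- every level is hit
  have hex : ∀ m : ℕ, m ≤ 16 * R → ∃ t, tp ≤ t ∧ t < tq ∧ fr.F (f t) = fr.F (f tp) + m := by
    intro m hm
    apply coc_ivt hpq.le hstep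
    · have : (0 : ℤ) ≤ m := Int.natCast_nonneg m
      linarith
    · have : (m : ℤ) ≤ 16 * R := by exact_mod_cast hm
      linarith
  choose! T hT1 hT2 hT3 using hex
  set I := Finset.Icc (8 * R) (16 * R) with hI
  have hIm : ∀ m ∈ I, m ≤ 16 * R := fun m hm => (Finset.mem_Icc.1 hm).2
  -- the bad levels
  set B1 := I.filter (fun m => j (T m) ∉ good) with hB1
  have hB1c : B1.card ≤ R := by
    refine le_trans ?_ hbad
    rw [mul_comm]
    refine Finset.card_le_mul_card_image_of_maps_to (f := fun m => j (T m)) ?_ (7 * s) ?_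
    · intro m hm
      rw [hB1, Finset.mem_filter] at hm
      have hm1 := hIm m hm.1
      rw [Finset.mem_filter, Finset.mem_Icc]
      have a1 := hT1 m hm1
      have a2 := hT2 m hm1
      exact ⟨⟨h.jmono _ _ le_rfl (by omega) (by omega), h.jmono _ _ (by omega) (by omega) le_rfl⟩,
        hm.2⟩
    · intro b _
      calc _ ≤ (Finset.Icc (fr.F (Y b) - 3 * s - fr.F (f tp))
            (fr.F (Y b) + 3 * s - fr.F (f tp))).card := by
            apply Finset.card_le_card_of_injOn (fun m : ℕ => (m : ℤ))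
            · intro m hm
              rw [Finset.mem_coe, Finset.mem_filter, hB1, Finset.mem_filter] at hm
              have hm1 := hIm m hm.1.1
              have a1 := hT1 m hm1
              have a2 := hT2 m hm1
              have a3 := hT3 m hm1
              have a4 := h.wanF (T m) (by omega) (by omega)
              rw [hm.2, a3, abs_le] at a4
              rw [Finset.mem_coe, Finset.mem_Icc]
              constructor <;> linarith [a4.1, a4.2]
            · intro m _ m' _ hmm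
              exact Int.ofNat_injective hmm
        _ ≤ 7 * s := by
            rw [Int.card_Icc]
            omega
  -- the heavy levels
  set B2 := I.filter (fun m : ℕ => Λ < crossings f fr.F (fr.F (f tp) + m) tp tq) with hB2
  have hB2c : B2.card ≤ R := by
    have e1 : ∑ m ∈ B2, crossings f fr.F (fr.F (f tp) + m) tp tq ≤ tq - tp :=
      coc_heavy (g := fun t => min (fr.F (f t)) (fr.F (f (t + 1))))
        (p := fun ν t => min (fr.F (f t)) (fr.F (f (t + 1))) = ν ∧
          fr.F (f t) ≠ fr.F (f (t + 1))) B2 (fr.F (f tp)) (fun m t ht => ht.1)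
    have e2 : B2.card * Λ ≤ ∑ m ∈ B2, crossings f fr.F (fr.F (f tp) + m) tp tq := by
      rw [← smul_eq_mul]
      apply Finset.card_nsmul_le_sum
      intro m hm
      rw [hB2, Finset.mem_filter] at hm
      exact hm.2.le
    have e3 : B2.card * Λ ≤ R * Λ := by
      calc _ ≤ _ := e2.trans (e1.trans (hL.trans hΛ))
        _ = _ := mul_comm _ _
    exact Nat.le_of_mul_le_mul_right e3 hΛ1
  -- the good levels
  set G := I \ (B1 ∪ B2) with hG
  have hGc : 6 * R + 1 ≤ G.card := by
    have e1 : I.card = 8 * R + 1 := by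
      rw [hI, Nat.card_Icc]; omega
    have e2 : I.card - (B1 ∪ B2).card ≤ G.card := Finset.le_card_sdiff _ _
    have e3 : (B1 ∪ B2).card ≤ B1.card + B2.card := Finset.card_union_le _ _
    omega
  have hcut : ∀ m ∈ G, ∃ d : List (ℤ × ℤ) × List (ℤ × ℤ) × List (ℤ × ℤ),
      IsCut fr (64 * R) ρ Λ L d.1 d.2.1 d.2.2 ∧
        d.1 ++ d.2.1 ++ d.2.2 = seg f tp (tq - tp) ∧ fr.F d.1.sum = m := by
    intro m hm
    rw [hG, Finset.mem_sdiff, Finset.mem_union, not_or] at hm
    obtain ⟨hm1, hm2, hm3⟩ := hm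
    have hm4 := hIm m hm1
    have hm5 := (Finset.mem_Icc.1 hm1).1
    have hg : j (T m) ∈ good := by
      by_contra hc
      exact hm2 (by rw [hB1, Finset.mem_filter]; exact ⟨hm1, hc⟩)
    have hcr : crossings f fr.F (fr.F (f tp) + m) tp tq ≤ Λ := by
      by_contra hc
      exact hm3 (by rw [hB2, Finset.mem_filter]; exact ⟨hm1, not_le.1 hc⟩)
    have a1 := hT1 m hm4
    have a2 := hT2 m hm4
    have a3 := hT3 m hm4
    have a4 := h.wanF (T m) (by omega) (by omega)
    rw [a3, abs_sub_comm] at a4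
    obtain ⟨l, a, t, b1, b2, b3⟩ := cut_of_core (ν := fr.F (f tp) + m) h hk hs hρ hr h0 hpq h1 hc
      hq hin hjp hjq hg hjpc hjqc (by push_cast; omega) (by push_cast; omega) a4 hcr hL
    refine ⟨(l, a, t), b2, b1, ?_⟩
    show fr.F l.sum = m
    rw [b3]; ring
  choose! D hD1 hD2 hD3 using hcut
  -- the bridge
  have hbr : IsBridge Z1 (64 * R) (seg f tp (tq - tp)) := by
    have hpos : ∀ i, i ≤ tq - tp → pos (seg f tp (tq - tp)) i = f (tp + i) - f tp :=
      fun i hi => pos_seg hi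
    refine ⟨isSaw_seg (fun i hi hi' => h.step i (by omega) (by omega))
      (fun i i' hi hii hi' => h.inj i i' (by omega) hii (by omega)), ?_, ?_, ?_⟩
    · intro i hi hi'
      rw [length_seg] at hi'
      rw [hpos i hi', Z1_apply, Prod.fst_sub, hc]
      have := (hin (tp + i) (by omega) (by omega)).1
      linarith
    · intro i hi'
      rw [length_seg] at hi'
      rw [hpos i hi', Z1_apply, Prod.fst_sub, hc]
      rcases Nat.eq_zero_or_pos i with rfl | hi
      · rw [add_zero, hc]; push_cast; omega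
      · have := (hin (tp + i) (by omega) (by omega)).2
        linarith
    · rw [sum_seg, Z1_apply, Prod.fst_sub, hc, Nat.add_sub_cancel' hpq.le, hq]
      ring
  refine ⟨hbr, by rw [length_seg]; exact hL, fr, hfr, G.image D, ?_, ?_⟩
  · rw [Finset.card_image_of_injOn]
    · omega
    · intro m hm m' hm' hmm
      have e1 := hD3 m hm
      have e2 := hD3 m' hm'
      rw [hmm, e2] at e1
      exact_mod_cast e1.symm
  · intro d hd
    obtain ⟨m, hm, rfl⟩ := Finset.mem_image.1 hd
    exact ⟨hD1 m hm, hD2 m hm⟩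

end Pool.Agent.Lib.MP_c23e5f_co
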