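import Pool.Agent.Lib.MP_c23e5f_co.Corner

set_option autoImplicit false

namespace Pool.Agent.Lib.MP_c23e5f_co

open scoped ENNReal

open Classical in
/-- the weight of the cuts of a word in a frame -/
private noncomputable def cwG (x : ℝ≥0∞) (fr : Frame) (r ρ Λ L : ℕ) (β : List (ℤ × ℤ)) : ℝ≥0∞ :=
  ∑' d : List (ℤ × ℤ) × List (ℤ × ℤ) × List (ℤ × ℤ),
    if IsCut fr r ρ Λ L d.1 d.2.1 d.2.2 ∧ d.1 ++ d.2.1 ++ d.2.2 = β then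
      x ^ (d.1 ++ d.2.1 ++ d.2.2).length else 0

private theorem cwG_ge (x : ℝ≥0∞) (fr : Frame) (r ρ Λ L : ℕ) (β : List (ℤ × ℤ))
    (s : Finset (List (ℤ × ℤ) × List (ℤ × ℤ) × List (ℤ × ℤ)))
    (hs : ∀ d ∈ s, IsCut fr r ρ Λ L d.1 d.2.1 d.2.2 ∧ d.1 ++ d.2.1 ++ d.2.2 = β) :
    x ^ β.length * s.card ≤ cwG x fr r ρ Λ L β := by
  classical
  unfold cwG
  refine le_trans (le_of_eq ?_) (ENNReal.sum_le_tsum s)
  have h : ∀ d ∈ s, (if IsCut fr r ρ Λ L d.1 d.2.1 d.2.2 ∧ d.1 ++ d.2.1 ++ d.2.2 = β then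
      x ^ (d.1 ++ d.2.1 ++ d.2.2).length else 0) = x ^ β.length := by
    intro d hd
    have h1 := hs d hd
    rw [if_pos h1, h1.2]
  rw [Finset.sum_congr rfl h, Finset.sum_const, nsmul_eq_mul, mul_comm]

private theorem tsum_cwG (x : ℝ≥0∞) (fr : Frame) (r ρ Λ L : ℕ) :
    ∑' β, cwG x fr r ρ Λ L β =
      ∑' d : {d : List (ℤ × ℤ) × List (ℤ × ℤ) × List (ℤ × ℤ) // IsCut fr r ρ Λ L d.1 d.2.1 d.2.2},
        x ^ (d.1.1 ++ d.1.2.1 ++ d.1.2.2).length := by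
  classical
  unfold cwG
  rw [ENNReal.tsum_comm]
  have h1 : ∀ d : List (ℤ × ℤ) × List (ℤ × ℤ) × List (ℤ × ℤ),
      (∑' β : List (ℤ × ℤ), if IsCut fr r ρ Λ L d.1 d.2.1 d.2.2 ∧ d.1 ++ d.2.1 ++ d.2.2 = β then
        x ^ (d.1 ++ d.2.1 ++ d.2.2).length else 0) =
      Set.indicator {d | IsCut fr r ρ Λ L d.1 d.2.1 d.2.2}
        (fun d => x ^ (d.1 ++ d.2.1 ++ d.2.2).length) d := by
    intro d
    rw [tsum_eq_single (d.1 ++ d.2.1 ++ d.2.2)]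
    · by_cases h : IsCut fr r ρ Λ L d.1 d.2.1 d.2.2
      · rw [if_pos ⟨h, rfl⟩, Set.indicator_of_mem (by exact h)]
      · rw [if_neg (fun h' => h h'.1), Set.indicator_of_notMem (by exact h)]
    · intro β hβ
      rw [if_neg]
      rintro ⟨-, h⟩
      exact hβ h.symm
  simp only [h1]
  rw [← tsum_subtype]
  rfl

/-- Section 5 of the paper, (6). -/
theorem wt_PU_mul_le {x : ℝ≥0∞} (hx : IsCrit x) (r ρ Λ L : ℕ) (h16 : 16 ∣ r)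
    (hρ : 1 ≤ ρ) (hr : 16 * ρ ≤ r) :
    wt x (PU r ρ Λ L) * r ≤ 192 * ρ * (1 + 4 * ρ) ^ Λ := by
  classical
  have hmain : ∀ β : PU r ρ Λ L, x ^ (β : List (ℤ × ℤ)).length * r ≤
      16 * (cwG x frA r ρ Λ L β + cwG x frA' r ρ Λ L β + cwG x frB r ρ Λ L β) := by
    rintro ⟨β, hβ⟩
    obtain ⟨-, -, fr, hfr, s, hs, hs'⟩ := hβ
    have h1 := cwG_ge x fr r ρ Λ L β s hs'
    have h2 : (r : ℝ≥0∞) ≤ 16 * (s.card : ℝ≥0∞) := by exact_mod_cast hs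
    calc x ^ β.length * r ≤ x ^ β.length * (16 * (s.card : ℝ≥0∞)) := by gcongr
      _ = 16 * (x ^ β.length * s.card) := by ring
      _ ≤ 16 * cwG x fr r ρ Λ L β := by gcongr
      _ ≤ _ := by
        gcongr
        rcases hfr with rfl | rfl | rfl
        · exact le_add_right (le_add_right le_rfl)
        · exact le_add_right (le_add_left le_rfl)
        · exact le_add_left le_rfl
  have hcor := fun fr => corner hx fr r ρ Λ L h16 hρ hr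
  unfold wt
  rw [← ENNReal.tsum_mul_right]
  calc ∑' β : PU r ρ Λ L, x ^ (β : List (ℤ × ℤ)).length * r
      ≤ ∑' β : PU r ρ Λ L,
        16 * (cwG x frA r ρ Λ L β + cwG x frA' r ρ Λ L β + cwG x frB r ρ Λ L β) :=
        ENNReal.tsum_le_tsum hmain
    _ ≤ ∑' β : List (ℤ × ℤ),
        16 * (cwG x frA r ρ Λ L β + cwG x frA' r ρ Λ L β + cwG x frB r ρ Λ L β) :=
        ENNReal.tsum_comp_le_tsum_of_injective Subtype.val_injective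
          (fun β => 16 * (cwG x frA r ρ Λ L β + cwG x frA' r ρ Λ L β + cwG x frB r ρ Λ L β))
    _ = 16 * ((∑' β, cwG x frA r ρ Λ L β) + (∑' β, cwG x frA' r ρ Λ L β) +
        ∑' β, cwG x frB r ρ Λ L β) := by
        rw [ENNReal.tsum_mul_left, ENNReal.tsum_add, ENNReal.tsum_add]
    _ ≤ 16 * ((1 + 4 * ρ) ^ Λ * (4 * ρ) + (1 + 4 * ρ) ^ Λ * (4 * ρ) +
        (1 + 4 * ρ) ^ Λ * (4 * ρ)) := by
        rw [tsum_cwG, tsum_cwG, tsum_cwG]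
        gcongr
        · exact hcor frA
        · exact hcor frA'
        · exact hcor frB
    _ = 192 * ρ * (1 + 4 * ρ) ^ Λ := by ring

private theorem cw_sc_pos (k i : ℕ) (hk : 1 ≤ k) : 1 ≤ sc k i := by
  induction i with
  | zero => exact le_rfl
  | succ i ih =>
    have h1 : 0 < sc k i := ih
    have : 0 < sc k (i + 1) := by
      rw [sc]
      positivity
    exact this

/-- at the scales of Section 7 -/
theorem wt_PU_le {x : ℝ≥0∞} (hx : IsCrit x) (k i L : ℕ) (hk : 1 ≤ k) :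
    wt x (PU (rr k i) (rho k i) (Lam k) L) ≤ (((8 * rho k i : ℕ) : ℝ≥0∞) ^ (Lam k))⁻¹ := by
  have hsc := cw_sc_pos k i hk
  have hrho : 1600 ≤ rho k i := by
    unfold rho
    nlinarith [Nat.mul_le_mul hk hsc]
  obtain ⟨ρ, hρ⟩ : ∃ ρ, ρ = rho k i := ⟨_, rfl⟩
  obtain ⟨Λ, hΛ⟩ : ∃ Λ, Λ = Lam k := ⟨_, rfl⟩
  have hrr : rr k i = (8 * ρ) ^ (2 * Λ + 2) := by rw [rr, hρ, hΛ]
  rw [← hρ] at hrho ⊢
  rw [← hΛ]
  have hr2 : (8 * ρ) ^ (2 * Λ + 2) = (8 * ρ) ^ (2 * Λ) * (64 * ρ ^ 2) := by ring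
  have hpos : 1 ≤ (8 * ρ) ^ (2 * Λ) := Nat.one_le_pow _ _ (by omega)
  have h16 : 16 ∣ rr k i := by
    rw [hrr, hr2]
    exact Dvd.dvd.mul_left (Dvd.dvd.mul_right (by norm_num) _) _
  have hr : 16 * ρ ≤ rr k i := by
    rw [hrr, hr2]
    have h1 : 16 * ρ ≤ 64 * ρ ^ 2 := by nlinarith
    calc 16 * ρ ≤ 64 * ρ ^ 2 := h1
      _ = 1 * (64 * ρ ^ 2) := (one_mul _).symm
      _ ≤ _ := Nat.mul_le_mul_right _ hpos
  have key := wt_PU_mul_le hx (rr k i) ρ Λ L h16 (by omega) hr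
  rw [ENNReal.le_inv_iff_mul_le]
  -- cancel `A ^ (Λ + 2)`
  have hnat : 192 * ρ * (1 + 4 * ρ) ^ Λ ≤ (8 * ρ) ^ (Λ + 2) := by
    have h1 : (1 + 4 * ρ) ^ Λ ≤ (8 * ρ) ^ Λ := Nat.pow_le_pow_left (by omega) _
    have h2 : 192 * ρ ≤ (8 * ρ) ^ 2 := by nlinarith
    calc 192 * ρ * (1 + 4 * ρ) ^ Λ ≤ (8 * ρ) ^ 2 * (8 * ρ) ^ Λ := Nat.mul_le_mul h2 h1
      _ = _ := by rw [← pow_add, add_comm]
  have hnat' : (192 * ρ * (1 + 4 * ρ) ^ Λ : ℝ≥0∞) ≤ ((8 * ρ : ℕ) : ℝ≥0∞) ^ (Λ + 2) := by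
    exact_mod_cast hnat
  have h3 : wt x (PU (rr k i) ρ Λ L) * ((8 * ρ : ℕ) : ℝ≥0∞) ^ Λ * ((8 * ρ : ℕ) : ℝ≥0∞) ^ (Λ + 2) ≤
      1 * ((8 * ρ : ℕ) : ℝ≥0∞) ^ (Λ + 2) := by
    rw [one_mul, mul_assoc, ← pow_add]
    refine le_trans ?_ hnat'
    refine le_trans (le_of_eq ?_) key
    rw [hrr]
    push_cast
    congr 2
    ring
  have h8 : ((8 * ρ : ℕ) : ℝ≥0∞) ≠ 0 := by
    have : 8 * ρ ≠ 0 := by omega
    exact_mod_cast this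
  have h9 : ((8 * ρ : ℕ) : ℝ≥0∞) ≠ ⊤ := ENNReal.natCast_ne_top _
  exact (ENNReal.mul_le_mul_iff_left (pow_ne_zero _ h8) (ENNReal.pow_ne_top h9)).1 h3

end Pool.Agent.Lib.MP_c23e5f_co
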