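import Pool.Agent.Lib.MP_c23e5f_co.ClassOfCore

set_option autoImplicit false

namespace Pool.Agent.Lib.MP_c23e5f_co

private lemma co_step {v : ℤ × ℤ} (h : IsStep v) : |v.1| ≤ 1 := by
  simp only [IsStep, abs_le] at *
  omega

private lemma co_first {f : ℕ → ℤ × ℤ} {t0 t1 : ℕ}
    (hs : ∀ t, t0 ≤ t → t < t1 → |(f (t + 1)).1 - (f t).1| ≤ 1) (h01 : t0 ≤ t1) {e : ℤ}
    (h0 : (f t0).1 ≤ e) (h1 : e < (f t1).1) :
    ∃ t, t0 ≤ t ∧ t < t1 ∧ (f t).1 = e ∧ (f (t + 1)).1 = e + 1 ∧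
      ∀ u, t0 ≤ u → u ≤ t → (f u).1 ≤ e := by
  classical
  have hex : ∃ t, t0 ≤ t ∧ e < (f t).1 := ⟨t1, h01, h1⟩
  have hspec := Nat.find_spec hex
  have hle : Nat.find hex ≤ t1 := Nat.find_min' hex ⟨h01, h1⟩
  have hmin : ∀ u, u < Nat.find hex → ¬ (t0 ≤ u ∧ e < (f u).1) := fun u hu => Nat.find_min hex hu
  set T := Nat.find hex with hT
  have hne : T ≠ t0 := by
    intro h
    rw [h] at hspec
    omega
  obtain ⟨t, ht⟩ : ∃ t, T = t + 1 := ⟨T - 1, by omega⟩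
  rw [ht] at hspec hle hmin hne
  have h2 : ¬ (t0 ≤ t ∧ e < (f t).1) := hmin t (by omega)
  have ht0 : t0 ≤ t := by omega
  have h3 : (f t).1 ≤ e := by
    by_contra hc
    exact h2 ⟨ht0, by omega⟩
  have h4 := hs t ht0 (by omega)
  rw [abs_le] at h4
  refine ⟨t, ht0, by omega, by omega, by omega, fun u hu hut => ?_⟩
  by_contra hc
  exact hmin u (by omega) ⟨hu, by omega⟩

private lemma co_last {f : ℕ → ℤ × ℤ} {t0 t1 : ℕ}
    (hs : ∀ t, t0 ≤ t → t < t1 → |(f (t + 1)).1 - (f t).1| ≤ 1) (h01 : t0 ≤ t1) {e : ℤ}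
    (h0 : (f t0).1 ≤ e) (h1 : e < (f t1).1) :
    ∃ t, t0 ≤ t ∧ t < t1 ∧ (f t).1 = e ∧ (f (t + 1)).1 = e + 1 ∧
      ∀ u, t < u → u ≤ t1 → e < (f u).1 := by
  classical
  have hspec := Nat.findGreatest_spec (P := fun t => t0 ≤ t ∧ (f t).1 ≤ e) h01 ⟨le_rfl, h0⟩
  have hgr : ∀ u, Nat.findGreatest (fun t => t0 ≤ t ∧ (f t).1 ≤ e) t1 < u → u ≤ t1 →
      ¬ (t0 ≤ u ∧ (f u).1 ≤ e) := fun u hu hu1 => Nat.findGreatest_is_greatest hu hu1
  have hle : Nat.findGreatest (fun t => t0 ≤ t ∧ (f t).1 ≤ e) t1 ≤ t1 := Nat.findGreatest_le _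
  set T := Nat.findGreatest (fun t => t0 ≤ t ∧ (f t).1 ≤ e) t1 with hT
  have hne : T ≠ t1 := by
    intro h
    rw [h] at hspec
    omega
  have h2 : e < (f (T + 1)).1 := by
    by_contra hc
    exact hgr (T + 1) (by omega) (by omega) ⟨by omega, by omega⟩
  have h4 := hs T hspec.1 (by omega)
  rw [abs_le] at h4
  refine ⟨T, hspec.1, by omega, by omega, by omega, fun u hu hut => ?_⟩
  by_contra hc
  exact hgr u hu hut ⟨by omega, by omega⟩

open Classical in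
/-- Section 9 of the paper: number of the class bridges in a fine step -/
theorem columns_of_core {fr : Frame} (hfr : fr = frA ∨ fr = frA' ∨ fr = frB) {k s : ℕ}
    {f : ℕ → ℤ × ℤ} {t0 t1 : ℕ} {j : ℕ → ℕ}
    {Y : ℕ → ℤ × ℤ} {cum : ℕ → ℝ} {good : Set ℕ} (h : Core fr k s f t0 t1 j Y cum good)
    (ht : t0 < t1)
    (hk : 1 ≤ k) (hs : 1 ≤ s) {r ρ Λ L : ℕ} (hρ : ρ = 1600 * k * s) (hr : 10 ^ 4 * ρ ≤ r)
    (h16 : 64 ∣ r)
    (hbad : ((Finset.Icc (j t0) (j t1)).filter (fun i => i ∉ good)).card * (7 * s) ≤ r / 64)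
    (hL : t1 - t0 ≤ L) (hΛ : L ≤ Λ * (r / 64)) (hΛ1 : 1 ≤ Λ)
    (hX : 4 * (r : ℤ) ≤ (f t1).1 - (f t0).1) :
    2 * r ≤ ((Finset.Ico t0 t1).filter (fun t => ∃ m, t + m < t1 ∧
      (f (t + m + 1)).1 = (f (t + m)).1 + 1 ∧ seg f t m ∈ PU r ρ Λ L)).card := by
  have hstep : ∀ t, t0 ≤ t → t < t1 → |(f (t + 1)).1 - (f t).1| ≤ 1 := fun t h0 h1 => by
    have := co_step (h.step t h0 h1)
    simpa using this
  -- hitting times
  have hhit : ∀ d : ℤ, (f t0).1 ≤ d → d < (f t1).1 → ∃ t, t0 ≤ t ∧ t ≤ t1 ∧ (f t).1 = d := by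
    intro d h0 h1
    obtain ⟨t, a, b, c, -⟩ := co_first hstep ht.le h0 h1
    exact ⟨t, a, b.le, c⟩
  choose! τ hτ0 hτ1 hτ using hhit
  set bad := (Finset.Icc (j t0) (j t1)).filter (fun i => i ∉ good) with hbaddef
  set B : Finset ℤ := (Finset.Ico (f t0).1 (f t1).1).filter (fun d => j (τ d) ∉ good) with hB
  have hwan : ∀ d : ℤ, (f t0).1 ≤ d → d < (f t1).1 → |(Y (j (τ d))).1 - d| ≤ 3 * s := by
    intro d h0 h1
    have h2 := h.wan1 (τ d) (hτ0 d h0 h1) (hτ1 d h0 h1)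
    rw [hτ d h0 h1, abs_sub_comm] at h2
    exact h2
  have hBcard : B.card ≤ r / 64 := by
    have hsub : B ⊆ bad.biUnion fun i => Finset.Icc ((Y i).1 - 3 * s) ((Y i).1 + 3 * s) := by
      intro d hd
      rw [hB, Finset.mem_filter, Finset.mem_Ico] at hd
      obtain ⟨⟨h0, h1⟩, h2⟩ := hd
      rw [Finset.mem_biUnion]
      refine ⟨j (τ d), ?_, ?_⟩
      · rw [hbaddef, Finset.mem_filter, Finset.mem_Icc]
        exact ⟨⟨h.jmono _ _ le_rfl (hτ0 d h0 h1) (hτ1 d h0 h1),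
          h.jmono _ _ (hτ0 d h0 h1) (hτ1 d h0 h1) le_rfl⟩, h2⟩
      · have h3 := hwan d h0 h1
        rw [abs_le] at h3
        rw [Finset.mem_Icc]
        omega
    calc B.card ≤ (bad.biUnion fun i => Finset.Icc ((Y i).1 - 3 * s) ((Y i).1 + 3 * s)).card :=
          Finset.card_le_card hsub
      _ ≤ ∑ i ∈ bad, (Finset.Icc ((Y i).1 - 3 * (s : ℤ)) ((Y i).1 + 3 * s)).card :=
          Finset.card_biUnion_le
      _ ≤ ∑ _i ∈ bad, 7 * s := by
          refine Finset.sum_le_sum fun i _ => ?_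
          rw [Int.card_Icc]
          omega
      _ = bad.card * (7 * s) := by rw [Finset.sum_const, smul_eq_mul]
      _ ≤ r / 64 := hbad
  -- the good columns
  set C : Finset ℤ := Finset.Ico (f t0).1 ((f t1).1 - r) with hC
  set C' : Finset ℤ := (C \ B) \ (B.image fun d => d - r) with hC'
  have hCcard : 3 * r ≤ C.card := by
    rw [hC, Int.card_Ico]
    omega
  have hC'card : 2 * r ≤ C'.card := by
    have h1 : C.card - B.card ≤ (C \ B).card := Finset.le_card_sdiff _ _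
    have h2 : (C \ B).card - (B.image fun d => d - (r : ℤ)).card ≤ C'.card :=
      Finset.le_card_sdiff _ _
    have h3 : (B.image fun d => d - (r : ℤ)).card ≤ B.card := Finset.card_image_le
    omega
  refine hC'card.trans ((Finset.card_le_card ?_).trans
    (Finset.card_image_le (f := fun t => (f t).1)))
  intro c hc
  rw [hC', Finset.mem_sdiff, Finset.mem_sdiff, hC, Finset.mem_Ico, Finset.mem_image] at hc
  obtain ⟨⟨⟨hc0, hc1⟩, hcB⟩, hcB'⟩ := hc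
  have hr0 : 1 ≤ r := by
    have : 1 ≤ ρ := by
      rw [hρ]
      have := Nat.mul_le_mul (Nat.mul_le_mul (show 1 ≤ 1600 by norm_num) hk) hs
      simpa using this
    omega
  have hg1 : j (τ c) ∈ good := by
    by_contra hcon
    exact hcB (by
      rw [hB, Finset.mem_filter, Finset.mem_Ico]
      exact ⟨⟨hc0, by omega⟩, hcon⟩)
  have hg2 : j (τ (c + r)) ∈ good := by
    by_contra hcon
    refine hcB' ⟨c + r, ?_, by ring⟩
    rw [hB, Finset.mem_filter, Finset.mem_Ico]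
    exact ⟨⟨by omega, by omega⟩, hcon⟩
  obtain ⟨tq, q0, q1, q2, q3, q4⟩ := co_first hstep ht.le (e := c + r) (by omega) (by omega)
  obtain ⟨tp, p0, p1, p2, p3, p4⟩ := co_last (t1 := tq)
    (fun t a b => hstep t a (by omega)) q0 (e := c) hc0 (by omega)
  have hcl := class_of_core hfr h hk hs hρ hr h16 p0 p1 q1.le p2 q2
    (fun t a b => ⟨p4 t a b, q4 t (by omega) b⟩) hg1 hg2 (hwan c hc0 (by omega))
    (hwan (c + r) (by omega) (by omega)) hbad (by omega) hΛ hΛ1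
  rw [Finset.mem_image]
  refine ⟨tp, ?_, p2⟩
  rw [Finset.mem_filter, Finset.mem_Ico]
  refine ⟨⟨p0, by omega⟩, tq - tp, by omega, ?_, hcl⟩
  rw [show tp + (tq - tp) = tq by omega, q2, q3]

end Pool.Agent.Lib.MP_c23e5f_co
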