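import Pool.Agent.Lib.MP_c23e5f_co.Basic

set_option autoImplicit false

namespace Pool.Agent.Lib.MP_c23e5f_co

/-- Section 9 of the paper, abstract form of the situation inside a fine step.
`f` on `[t0, t1]` is a self-avoiding path, `j t` the index of the chain point `Y (j t)` near `f t`,
`cum` the length of the chain, `good` the set of the non-bad indices. -/
structure Core (fr : Frame) (k s : ℕ) (f : ℕ → ℤ × ℤ) (t0 t1 : ℕ) (j : ℕ → ℕ) (Y : ℕ → ℤ × ℤ)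
    (cum : ℕ → ℝ) (good : Set ℕ) : Prop where
  step : ∀ t, t0 ≤ t → t < t1 → IsStep (f (t + 1) - f t)
  inj : ∀ a b, t0 ≤ a → a < b → b ≤ t1 → f a ≠ f b
  jmono : ∀ a b, t0 ≤ a → a ≤ b → b ≤ t1 → j a ≤ j b
  wan1 : ∀ t, t0 ≤ t → t ≤ t1 → |(f t).1 - (Y (j t)).1| ≤ 3 * s
  wanF : ∀ t, t0 ≤ t → t ≤ t1 → |fr.F (f t) - fr.F (Y (j t))| ≤ 3 * s
  wang : ∀ t, t0 ≤ t → t ≤ t1 → |fr.g (f t) - fr.g (Y (j t))| ≤ 3 * s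
  len1 : ∀ a b, a ≤ b → |((Y b).1 - (Y a).1 : ℝ)| ≤ 3 / 2 * (cum b - cum a)
  lenF : ∀ a b, a ≤ b → |(fr.F (Y b) - fr.F (Y a) : ℝ)| ≤ 3 / 2 * (cum b - cum a)
  leng : ∀ a b, a ≤ b → |(fr.g (Y b) - fr.g (Y a) : ℝ)| ≤ 3 / 2 * (cum b - cum a)
  good_range : ∀ a ∈ good, j t0 ≤ a ∧ a ≤ j t1
  up1 : ∀ a b, a ≤ b → j t0 ≤ a → b ≤ j t1 → (a ∈ good ∨ b ∈ good) →
    cum b - cum a ≤ 20 * k * ((Y b).1 - (Y a).1 : ℝ)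
  upF : ∀ a b, a ≤ b → j t0 ≤ a → b ≤ j t1 → (a ∈ good ∨ b ∈ good) →
    cum b - cum a ≤ 20 * k * (fr.F (Y b) - fr.F (Y a) : ℝ)
  upg : ∀ a b, a ≤ b → j t0 ≤ a → b ≤ j t1 → (a ∈ good ∨ b ∈ good) →
    2 / 5 * (cum b - cum a) ≤ (fr.g (Y b) - fr.g (Y a) : ℝ)
  slope : ∀ a b, a ≤ b → j t0 ≤ a → b ≤ j t1 → (a ∈ good ∨ b ∈ good) →
    |((fr.F (Y b) - fr.F (Y a) : ℝ)) - ((Y b).1 - (Y a).1)| ≤ 11 / 20 * ((Y b).1 - (Y a).1 : ℝ)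

lemma Core.cum_mono {fr : Frame} {k s : ℕ} {f : ℕ → ℤ × ℤ} {t0 t1 : ℕ} {j : ℕ → ℕ}
    {Y : ℕ → ℤ × ℤ} {cum : ℕ → ℝ} {good : Set ℕ} (h : Core fr k s f t0 t1 j Y cum good)
    {a b : ℕ} (hab : a ≤ b) : cum a ≤ cum b := by
  have := (abs_nonneg _).trans (h.len1 a b hab)
  linarith

/-- number of the crossings of the level `ν` (between `ν` and `ν + 1`) in `[tp, tq)` -/
def crossings (f : ℕ → ℤ × ℤ) (F : ℤ × ℤ →+ ℤ) (ν : ℤ) (tp tq : ℕ) : ℕ :=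
  ((Finset.Ico tp tq).filter (fun t => min (F (f t)) (F (f (t + 1))) = ν ∧
    F (f t) ≠ F (f (t + 1)))).card

end Pool.Agent.Lib.MP_c23e5f_co
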