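import Pool.Agent.Lib.MP_c23e5f_co.Core

set_option autoImplicit false

namespace Pool.Agent.Lib.MP_c23e5f_co

variable {fr : Frame} {k s : ℕ} {f : ℕ → ℤ × ℤ} {t0 t1 : ℕ} {j : ℕ → ℕ}
    {Y : ℕ → ℤ × ℤ} {cum : ℕ → ℝ} {good : Set ℕ}

/-- comparison of a path point and a chain point at bounded chain distance -/
private lemma coreLoc_aux {P s : ℕ} (hsP : s ≤ P) {x y z : ℤ} {d : ℝ} (hd : d ≤ 140 * P)
    (h1 : |((y : ℝ) - z)| ≤ 3 / 2 * d) (h2 : |x - y| ≤ 3 * s) : |x - z| ≤ 213 * P := by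
  have h3 : |(y : ℝ) - z| ≤ 210 * P := by linarith
  have h4 : |y - z| ≤ 210 * (P : ℤ) := by
    have : ((|y - z| : ℤ) : ℝ) ≤ ((210 * (P : ℤ) : ℤ) : ℝ) := by
      push_cast
      exact h3
    exact_mod_cast this
  have h5 : (s : ℤ) ≤ P := by exact_mod_cast hsP
  rw [abs_le] at *
  constructor <;> linarith [h2.1, h2.2, h4.1, h4.2]

private lemma coreLoc_near (h : Core fr k s f t0 t1 j Y cum good) (hk : 1 ≤ k)
    {a u : ℕ} (h1 : t0 ≤ u) (h2 : u ≤ t1)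
    (hc : (a ≤ j u ∧ cum (j u) - cum a ≤ 140 * ((k * s : ℕ) : ℝ)) ∨
      (j u ≤ a ∧ cum a - cum (j u) ≤ 140 * ((k * s : ℕ) : ℝ))) :
    |(f u).1 - (Y a).1| ≤ 213 * k * s ∧ |fr.F (f u) - fr.F (Y a)| ≤ 213 * k * s ∧
      |fr.g (f u) - fr.g (Y a)| ≤ 213 * k * s := by
  have hsP : s ≤ k * s := Nat.le_mul_of_pos_left s hk
  have e : (213 : ℤ) * k * s = 213 * ((k * s : ℕ) : ℤ) := by push_cast; ring
  rw [e]
  rcases hc with ⟨hle, hd⟩ | ⟨hle, hd⟩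
  · exact ⟨coreLoc_aux hsP hd (h.len1 _ _ hle) (h.wan1 u h1 h2),
      coreLoc_aux hsP hd (h.lenF _ _ hle) (h.wanF u h1 h2),
      coreLoc_aux hsP hd (h.leng _ _ hle) (h.wang u h1 h2)⟩
  · refine ⟨coreLoc_aux hsP hd ?_ (h.wan1 u h1 h2), coreLoc_aux hsP hd ?_ (h.wanF u h1 h2),
      coreLoc_aux hsP hd ?_ (h.wang u h1 h2)⟩
    · rw [abs_sub_comm]; exact h.len1 _ _ hle
    · rw [abs_sub_comm]; exact h.lenF _ _ hle
    · rw [abs_sub_comm]; exact h.leng _ _ hle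

private lemma coreLoc_mul {k s : ℕ} {x y : ℤ} (hxy : x - y ≤ 7 * s) {d : ℝ}
    (hd : d ≤ 20 * k * ((x : ℝ) - y)) : d ≤ 140 * ((k * s : ℕ) : ℝ) := by
  have h1 : (x : ℝ) - y ≤ 7 * s := by exact_mod_cast hxy
  have h2 : 20 * (k : ℝ) * ((x : ℝ) - y) ≤ 20 * k * (7 * s) :=
    mul_le_mul_of_nonneg_left h1 (by positivity)
  push_cast
  linarith

/-- LOCALISATION (Section 9 of the paper) for the first coordinate: `213 k s` bounds the values of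
the three forms -/
theorem Core.near1 (h : Core fr k s f t0 t1 j Y cum good) (hk : 1 ≤ k) (hs : 1 ≤ s) {a : ℕ}
    (ha : a ∈ good) {u1 u u2 : ℕ} (h1 : t0 ≤ u1) (h2 : u1 ≤ u) (h3 : u ≤ u2) (h4 : u2 ≤ t1)
    (hu1 : |(Y (j u1)).1 - (Y a).1| ≤ 7 * s) (hu2 : |(Y (j u2)).1 - (Y a).1| ≤ 7 * s) :
    |(f u).1 - (Y a).1| ≤ 213 * k * s ∧ |fr.F (f u) - fr.F (Y a)| ≤ 213 * k * s ∧
      |fr.g (f u) - fr.g (Y a)| ≤ 213 * k * s := by
  have hb1 : j u1 ≤ j u := h.jmono _ _ h1 h2 (h3.trans h4)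
  have hb2 : j u ≤ j u2 := h.jmono _ _ (h1.trans h2) h3 h4
  have hr := h.good_range a ha
  refine coreLoc_near h hk (h1.trans h2) (h3.trans h4) ?_
  rcases le_total a (j u) with hle | hle
  · left
    refine ⟨hle, ?_⟩
    have h5 := h.up1 a (j u2) (hle.trans hb2) hr.1
      (h.jmono _ _ (h1.trans (h2.trans h3)) h4 le_rfl) (Or.inl ha)
    have h6 := h.cum_mono hb2
    exact coreLoc_mul ((le_abs_self _).trans hu2) (by linarith)
  · right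
    refine ⟨hle, ?_⟩
    have h5 := h.up1 (j u1) a (hb1.trans hle) (h.jmono _ _ le_rfl h1 (h2.trans (h3.trans h4)))
      hr.2 (Or.inr ha)
    have h6 := h.cum_mono hb1
    rw [abs_sub_comm] at hu1
    exact coreLoc_mul ((le_abs_self _).trans hu1) (by linarith)

/-- LOCALISATION (Section 9 of the paper) for the form `F` -/
theorem Core.nearF (h : Core fr k s f t0 t1 j Y cum good) (hk : 1 ≤ k) (hs : 1 ≤ s) {a : ℕ}
    (ha : a ∈ good) {u1 u u2 : ℕ} (h1 : t0 ≤ u1) (h2 : u1 ≤ u) (h3 : u ≤ u2) (h4 : u2 ≤ t1)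
    (hu1 : |fr.F (Y (j u1)) - fr.F (Y a)| ≤ 7 * s) (hu2 : |fr.F (Y (j u2)) - fr.F (Y a)| ≤ 7 * s) :
    |(f u).1 - (Y a).1| ≤ 213 * k * s ∧ |fr.F (f u) - fr.F (Y a)| ≤ 213 * k * s ∧
      |fr.g (f u) - fr.g (Y a)| ≤ 213 * k * s := by
  have hb1 : j u1 ≤ j u := h.jmono _ _ h1 h2 (h3.trans h4)
  have hb2 : j u ≤ j u2 := h.jmono _ _ (h1.trans h2) h3 h4
  have hr := h.good_range a ha
  refine coreLoc_near h hk (h1.trans h2) (h3.trans h4) ?_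
  rcases le_total a (j u) with hle | hle
  · left
    refine ⟨hle, ?_⟩
    have h5 := h.upF a (j u2) (hle.trans hb2) hr.1
      (h.jmono _ _ (h1.trans (h2.trans h3)) h4 le_rfl) (Or.inl ha)
    have h6 := h.cum_mono hb2
    exact coreLoc_mul ((le_abs_self _).trans hu2) (by linarith)
  · right
    refine ⟨hle, ?_⟩
    have h5 := h.upF (j u1) a (hb1.trans hle) (h.jmono _ _ le_rfl h1 (h2.trans (h3.trans h4)))
      hr.2 (Or.inr ha)
    have h6 := h.cum_mono hb1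
    rw [abs_sub_comm] at hu1
    exact coreLoc_mul ((le_abs_self _).trans hu1) (by linarith)

/-- the displacement of the form `F` between two good columns at distance `r` -/
theorem Core.F_diff (h : Core fr k s f t0 t1 j Y cum good) (hk : 1 ≤ k) (hs : 1 ≤ s) {r : ℕ}
    (hr : 7 * s ≤ r) {tp tq : ℕ} (h0 : t0 ≤ tp) (hpq : tp < tq) (h1 : tq ≤ t1) {c : ℤ}
    (hc : (f tp).1 = c) (hq : (f tq).1 = c + r) {jp jq : ℕ} (hjp : jp ∈ good) (hjq : jq ∈ good)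
    (hjpc : |(Y jp).1 - c| ≤ 3 * s) (hjqc : |(Y jq).1 - (c + r)| ≤ 3 * s) :
    jp ≤ jq ∧ 9 * (r : ℤ) - 20000 * k * s ≤ 20 * (fr.F (f tq) - fr.F (f tp)) ∧
      20 * (fr.F (f tq) - fr.F (f tp)) ≤ 31 * (r : ℤ) + 20000 * k * s := by
  have hrp := h.good_range jp hjp
  have hrq := h.good_range jq hjq
  have hr' : 7 * (s : ℤ) ≤ r := by exact_mod_cast hr
  have hs' : 1 ≤ (s : ℤ) := by exact_mod_cast hs
  rw [abs_le] at hjpc hjqc
  have hle : jp ≤ jq := by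
    by_contra hcon
    push Not at hcon
    have h5 := h.up1 jq jp hcon.le hrq.1 hrp.2 (Or.inl hjq)
    have h6 := h.cum_mono hcon.le
    have h7 : (Y jp).1 - (Y jq).1 ≤ -1 := by linarith [hjpc.2, hjqc.1]
    have h8 : ((Y jp).1 : ℝ) - (Y jq).1 ≤ -1 := by exact_mod_cast h7
    have hk' : (1 : ℝ) ≤ k := by exact_mod_cast hk
    nlinarith
  refine ⟨hle, ?_⟩
  -- localisation at the two ends
  have hwp := h.wan1 tp h0 (hpq.le.trans h1)
  have hwq := h.wan1 tq (h0.trans hpq.le) h1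
  rw [abs_le] at hwp hwq
  have hnp : |(Y (j tp)).1 - (Y jp).1| ≤ 7 * s := by
    rw [abs_le]; constructor <;> linarith [hwp.1, hwp.2, hjpc.1, hjpc.2]
  have hnq : |(Y (j tq)).1 - (Y jq).1| ≤ 7 * s := by
    rw [abs_le]; constructor <;> linarith [hwq.1, hwq.2, hjqc.1, hjqc.2]
  have hP := (h.near1 hk hs hjp h0 le_rfl le_rfl (hpq.le.trans h1) hnp hnp).2.1
  have hQ := (h.near1 hk hs hjq (h0.trans hpq.le) le_rfl le_rfl h1 hnq hnq).2.1
  have hsl := h.slope jp jq hle hrp.1 hrq.2 (Or.inl hjp)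
  rw [abs_le] at hsl
  have hA : 9 * ((Y jq).1 - (Y jp).1) ≤ 20 * (fr.F (Y jq) - fr.F (Y jp)) := by
    have : (9 : ℝ) * ((Y jq).1 - (Y jp).1) ≤ 20 * (fr.F (Y jq) - fr.F (Y jp)) := by
      linarith [hsl.1]
    exact_mod_cast this
  have hB : 20 * (fr.F (Y jq) - fr.F (Y jp)) ≤ 31 * ((Y jq).1 - (Y jp).1) := by
    have : (20 : ℝ) * (fr.F (Y jq) - fr.F (Y jp)) ≤ 31 * ((Y jq).1 - (Y jp).1) := by
      linarith [hsl.2]
    exact_mod_cast this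
  have e : ∀ z : ℤ, z * (k : ℤ) * s = z * ((k : ℤ) * s) := fun z => by ring
  rw [e] at hP hQ
  rw [e]
  have hks : (s : ℤ) ≤ (k : ℤ) * s := by
    have : (1 : ℤ) ≤ k := by exact_mod_cast hk
    nlinarith
  rw [abs_le] at hP hQ
  obtain ⟨p1, p2⟩ := hP
  obtain ⟨q1, q2⟩ := hQ
  obtain ⟨c1, c2⟩ := hjpc
  obtain ⟨d1, d2⟩ := hjqc
  constructor <;> linarith

end Pool.Agent.Lib.MP_c23e5f_co
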