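import Pool.Agent.Lib.MP_c23e5f_co.Arc
import Pool.Agent.Lib.MP_c23e5f_co.Chain

set_option autoImplicit false

namespace Pool.Agent.Lib.MP_c23e5f_co

open scoped ENNReal

private lemma cut_z1_le {fr : Frame} {r ρ Λ L : ℕ} {l a t : List (ℤ × ℤ)}
    (h : IsCut fr r ρ Λ L l a t) {i : ℕ} (hi : i ≤ t.length) : Z1 (pos t i) ≤ Z1 t.sum := by
  have h1 := h.br.le ((l ++ a).length + i) (by
    rw [List.length_append (as := l ++ a)]
    omega)
  have h2 := h.br.ht
  rw [pos_append_right, map_add] at h1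
  rw [List.sum_append, map_add] at h2
  linarith

private lemma cut_z1_pos {fr : Frame} {r ρ Λ L : ℕ} {l a t : List (ℤ × ℤ)}
    (h : IsCut fr r ρ Λ L l a t) {j : ℕ} (hj : 1 ≤ j) (hj' : j ≤ l.length) :
    0 < Z1 (pos l j) := by
  have h1 := h.br.gt j hj (by
    rw [List.length_append, List.length_append]
    omega)
  rwa [pos_append_left (by rw [List.length_append]; omega), pos_append_left hj'] at h1

private lemma cut_posl {l a t : List (ℤ × ℤ)} {k : ℕ} (hk : k ≤ l.length) :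
    pos (l ++ a ++ t) k = pos l k := by
  rw [pos_append_left (by rw [List.length_append]; omega), pos_append_left hk]

private lemma cut_post (l a t : List (ℤ × ℤ)) (k : ℕ) :
    pos (l ++ a ++ t) ((l ++ a).length + k) = l.sum + a.sum + pos t k := by
  rw [pos_append_right, List.sum_append]

/-- Section 5 of the paper: `t ++ l'` is a bridge of the chain inequality -/
theorem isQ_of_cuts (fr : Frame) {r ρ Λ L : ℕ} (hρ : 1 ≤ ρ) (hr : 16 * ρ ≤ r)
    {l a t l' a' t' : List (ℤ × ℤ)} (h : IsCut fr r ρ Λ L l a t) (h' : IsCut fr r ρ Λ L l' a' t') :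
    ∃ T, r ≤ 4 * T ∧ T < 4 * r ∧ IsQ fr ρ T (t ++ l') := by
  have e1 := h.c4t
  have e2 := h.c4t'
  have e3 := h'.c4l
  have e4 := h'.c4l'
  have e5 := h.c2t
  have e6 := h'.c2l
  have hρ' : (1 : ℤ) ≤ ρ := by exact_mod_cast hρ
  have hr' : (16 : ℤ) * ρ ≤ r := by exact_mod_cast hr
  obtain ⟨T, hT⟩ := Int.eq_ofNat_of_zero_le (show 0 ≤ fr.F t.sum + fr.F l'.sum by omega)
  have hlen : (l ++ a ++ t).length = (l ++ a).length + t.length := List.length_append
  have hlen' : l'.length ≤ (l' ++ a' ++ t').length := by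
    rw [List.length_append, List.length_append]
    omega
  -- values in `t`
  have tF : ∀ i, i ≤ t.length → fr.F (pos t i) ≤ fr.F t.sum + ρ := by
    intro i hi
    have h1 := h.c1F' ((l ++ a).length + i) (by omega)
    rw [cut_post, List.sum_append, List.sum_append] at h1
    simp only [map_add] at h1
    linarith
  have tg : ∀ i, i ≤ t.length → fr.g (pos t i) ≤ fr.g t.sum + ρ := by
    intro i hi
    have h1 := h.c1g' ((l ++ a).length + i) (by omega)
    rw [cut_post, List.sum_append, List.sum_append] at h1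
    simp only [map_add] at h1
    linarith
  -- values in `l'`
  have lF : ∀ i, i ≤ l'.length → -(ρ : ℤ) ≤ fr.F (pos l' i) := by
    intro i hi
    have h1 := h'.c1F i (hi.trans hlen')
    rwa [cut_posl hi] at h1
  have lg : ∀ i, i ≤ l'.length → -(ρ : ℤ) ≤ fr.g (pos l' i) := by
    intro i hi
    have h1 := h'.c1g i (hi.trans hlen')
    rwa [cut_posl hi] at h1
  have hsaw : IsSaw (t ++ l') := by
    refine IsSaw.append h.br.saw.of_append_right h'.br.saw.of_append_left.of_append_left ?_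
    intro i j hi hj hj' heq
    have h1 := cut_z1_le h hi
    have h2 := cut_z1_pos h' hj hj'
    rw [heq, map_add] at h1
    linarith
  have hΓ : (t ++ l').length = t.length + l'.length := List.length_append
  refine ⟨T, by omega, by omega, ⟨⟨hsaw, ?_, ?_, ?_⟩, ?_, ?_⟩⟩
  · intro i hi hi'
    rcases le_or_gt i t.length with h1 | h1
    · rw [pos_append_left h1]
      exact h.tpos i hi h1
    · rw [pos_append_right' h1.le, map_add]
      have := lF (i - t.length) (by omega)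
      omega
  · intro i hi'
    rcases le_or_gt i t.length with h1 | h1
    · rw [pos_append_left h1]
      have := tF i h1
      omega
    · rw [pos_append_right' h1.le, map_add]
      have := h'.lle (i - t.length) (by omega)
      omega
  · rw [List.sum_append, map_add, hT]
  · intro i hi' hρF
    rcases le_or_gt i t.length with h1 | h1
    · rw [pos_append_left h1] at hρF ⊢
      exact h.c3t i h1 hρF
    · rw [pos_append_right' h1.le, map_add]
      have := lg (i - t.length) (by omega)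
      omega
  · intro i hi' hρF
    rw [List.sum_append, map_add]
    rcases le_or_gt i t.length with h1 | h1
    · rw [pos_append_left h1]
      have := tg i h1
      omega
    · rw [pos_append_right' h1.le, map_add] at hρF ⊢
      have := h'.c3l (i - t.length) (by omega) (by omega)
      omega

private lemma cut_inj_len {fr : Frame} {r ρ Λ L : ℕ} {l a t t2 l' a' t' l2 : List (ℤ × ℤ)}
    (h : IsCut fr r ρ Λ L l a t) (h2 : IsCut fr r ρ Λ L l a t2) (h' : IsCut fr r ρ Λ L l' a' t')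
    (heq : t ++ l' = t2 ++ l2) : t2.length ≤ t.length := by
  by_contra hlt
  push Not at hlt
  have e1 := h.br.ht
  have e2 := h2.br.ht
  rw [List.sum_append, map_add] at e1 e2
  have hlen : (t ++ l').length = (t2 ++ l2).length := by rw [heq]
  rw [List.length_append, List.length_append] at hlen
  have e3 : pos (t ++ l') t2.length = t2.sum := by
    rw [heq, pos_append_left le_rfl, pos_length]
  rw [pos_append_right' hlt.le] at e3
  have e4 := congrArg Z1 e3
  rw [map_add] at e4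
  have e5 := cut_z1_pos h' (j := t2.length - t.length) (by omega) (by omega)
  linarith

private lemma cut_inj {fr : Frame} {r ρ Λ L : ℕ} {l a t t2 l' a' t' l2 a2' t2' : List (ℤ × ℤ)}
    (h : IsCut fr r ρ Λ L l a t) (h2 : IsCut fr r ρ Λ L l a t2) (h' : IsCut fr r ρ Λ L l' a' t')
    (h2' : IsCut fr r ρ Λ L l2 a2' t2') (heq : t ++ l' = t2 ++ l2) : t = t2 ∧ l' = l2 :=
  List.append_inj heq (le_antisymm (cut_inj_len h2 h h2' heq.symm) (cut_inj_len h h2 h' heq))

private lemma wt_qset_le {x : ℝ≥0∞} (hx : IsCrit x) (fr : Frame) (r ρ : ℕ) (h16 : 16 ∣ r)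
    (hρ : 1 ≤ ρ) (hr : 16 * ρ ≤ r) :
    wt x {w | ∃ T, r ≤ 4 * T ∧ T < 4 * r ∧ IsQ fr ρ T w} ≤ 4 * ρ := by
  obtain ⟨q, rfl⟩ := h16
  have hq : 1 ≤ q := by omega
  have hsub : {w | ∃ T, 16 * q ≤ 4 * T ∧ T < 4 * (16 * q) ∧ IsQ fr ρ T w} ⊆
      (({w | ∃ T, 4 * q ≤ T ∧ T < 2 * (4 * q) ∧ IsQ fr ρ T w} ∪
        {w | ∃ T, 8 * q ≤ T ∧ T < 2 * (8 * q) ∧ IsQ fr ρ T w}) ∪
        ({w | ∃ T, 16 * q ≤ T ∧ T < 2 * (16 * q) ∧ IsQ fr ρ T w} ∪
        {w | ∃ T, 32 * q ≤ T ∧ T < 2 * (32 * q) ∧ IsQ fr ρ T w})) := by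
    rintro w ⟨T, h1, h2, h3⟩
    by_cases c1 : T < 8 * q
    · exact Or.inl (Or.inl ⟨T, by omega, by omega, h3⟩)
    · by_cases c2 : T < 16 * q
      · exact Or.inl (Or.inr ⟨T, by omega, by omega, h3⟩)
      · by_cases c3 : T < 32 * q
        · exact Or.inr (Or.inl ⟨T, by omega, by omega, h3⟩)
        · exact Or.inr (Or.inr ⟨T, by omega, by omega, h3⟩)
  refine (wt_mono hsub).trans ((wt_union_le _ _ _).trans ?_)
  have k1 := (wt_union_le x {w | ∃ T, 4 * q ≤ T ∧ T < 2 * (4 * q) ∧ IsQ fr ρ T w}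
    {w | ∃ T, 8 * q ≤ T ∧ T < 2 * (8 * q) ∧ IsQ fr ρ T w}).trans
    (add_le_add (chain hx fr ρ (4 * q) hρ (by omega)) (chain hx fr ρ (8 * q) hρ (by omega)))
  have k2 := (wt_union_le x {w | ∃ T, 16 * q ≤ T ∧ T < 2 * (16 * q) ∧ IsQ fr ρ T w}
    {w | ∃ T, 32 * q ≤ T ∧ T < 2 * (32 * q) ∧ IsQ fr ρ T w}).trans
    (add_le_add (chain hx fr ρ (16 * q) hρ (by omega)) (chain hx fr ρ (32 * q) hρ (by omega)))
  refine (add_le_add k1 k2).trans (le_of_eq ?_)
  ring

/-- Section 5 of the paper, (5). -/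
theorem corner {x : ℝ≥0∞} (hx : IsCrit x) (fr : Frame) (r ρ Λ L : ℕ) (h16 : 16 ∣ r)
    (hρ : 1 ≤ ρ) (hr : 16 * ρ ≤ r) :
    ∑' d : {d : List (ℤ × ℤ) × List (ℤ × ℤ) × List (ℤ × ℤ) // IsCut fr r ρ Λ L d.1 d.2.1 d.2.2},
      x ^ (d.1.1 ++ d.1.2.1 ++ d.1.2.2).length ≤ (1 + 4 * ρ) ^ Λ * (4 * ρ) := by
  classical
  let P : List (ℤ × ℤ) → Type := fun l =>
    {p : List (ℤ × ℤ) × List (ℤ × ℤ) // IsCut fr r ρ Λ L l p.1 p.2}
  let LL : Type := {l : List (ℤ × ℤ) // ∃ a t, IsCut fr r ρ Λ L l a t}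
  let W : List (ℤ × ℤ) → ℝ≥0∞ := fun l => ∑' p : P l, x ^ (p.1.1.length + p.1.2.length)
  set Y : ℝ≥0∞ := ∑' l : LL, x ^ l.1.length * W l.1 with hY
  set A : Set (List (ℤ × ℤ)) := {w | ArcCat fr.F ρ Λ w} with hA
  set Q : Set (List (ℤ × ℤ)) := {w | ∃ T, r ≤ 4 * T ∧ T < 4 * r ∧ IsQ fr ρ T w} with hQ
  set B : Set (List (ℤ × ℤ)) := {w | (∀ v ∈ w, IsStep v) ∧ w.length ≤ L} with hB
  have hprod : ∀ A' Q' : Set (List (ℤ × ℤ)),
      wt x A' * wt x Q' = ∑' p : A' × Q', x ^ (p.1 : List (ℤ × ℤ)).length *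
        x ^ (p.2 : List (ℤ × ℤ)).length := by
    intro A' Q'
    unfold wt
    rw [ENNReal.tsum_prod (f := fun (a : A') (b : Q') =>
      x ^ (a : List (ℤ × ℤ)).length * x ^ (b : List (ℤ × ℤ)).length), ← ENNReal.tsum_mul_right]
    refine tsum_congr fun a => ?_
    rw [ENNReal.tsum_mul_left]
  -- the sum is at most `Y`
  have h1 : ∑' d : {d : List (ℤ × ℤ) × List (ℤ × ℤ) × List (ℤ × ℤ) //
      IsCut fr r ρ Λ L d.1 d.2.1 d.2.2}, x ^ (d.1.1 ++ d.1.2.1 ++ d.1.2.2).length ≤ Y := by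
    have h2 : Y = ∑' s : (Σ l : LL, P l.1), x ^ s.1.1.length *
        x ^ (s.2.1.1.length + s.2.1.2.length) := by
      rw [ENNReal.tsum_sigma', hY]
      refine tsum_congr fun l => ?_
      exact ENNReal.tsum_mul_left.symm
    rw [h2]
    let φ : {d : List (ℤ × ℤ) × List (ℤ × ℤ) × List (ℤ × ℤ) //
        IsCut fr r ρ Λ L d.1 d.2.1 d.2.2} → (Σ l : LL, P l.1) :=
      fun d => ⟨⟨d.1.1, d.1.2.1, d.1.2.2, d.2⟩, ⟨(d.1.2.1, d.1.2.2), d.2⟩⟩
    have hφ : Function.Injective φ := by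
      rintro ⟨⟨l, a, t⟩, hd⟩ ⟨⟨l2, a2, t2⟩, hd2⟩ h
      have e1 : l = l2 := by
        have := congrArg (fun s : (Σ l : LL, P l.1) => s.1.1) h
        exact this
      have e2 : a = a2 := by
        have := congrArg (fun s : (Σ l : LL, P l.1) => s.2.1.1) h
        exact this
      have e3 : t = t2 := by
        have := congrArg (fun s : (Σ l : LL, P l.1) => s.2.1.2) h
        exact this
      subst e1 e2 e3
      rfl
    refine le_trans (le_of_eq ?_) (ENNReal.tsum_comp_le_tsum_of_injective hφ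
      (fun s : (Σ l : LL, P l.1) => x ^ s.1.1.length * x ^ (s.2.1.1.length + s.2.1.2.length)))
    refine tsum_congr fun d => ?_
    simp only [φ]
    rw [← pow_add, List.length_append, List.length_append, add_assoc]
  refine h1.trans ?_
  set M : ℝ≥0∞ := ⨆ l : LL, W l.1 with hM
  have hWM : ∀ l : LL, W l.1 ≤ M := fun l => le_iSup (fun l : LL => W l.1) l
  -- `M` is finite
  have hMtop : M ≠ ⊤ := by
    have hBtop : wt x B ≠ ⊤ := wt_ne_top_of_length_le hx.le_one (n := L) fun w hw => hw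
    have hle : M ≤ wt x B * wt x B := by
      refine iSup_le fun l => ?_
      rw [hprod]
      have hmem : ∀ p : P l.1, p.1.1 ∈ B ∧ p.1.2 ∈ B := by
        intro p
        have hs := p.2.br.saw.step
        have hl := p.2.len
        rw [List.length_append, List.length_append] at hl
        refine ⟨⟨fun v hv => hs v ?_, by omega⟩, ⟨fun v hv => hs v ?_, by omega⟩⟩
        · exact List.mem_append_left _ (List.mem_append_right _ hv)
        · exact List.mem_append_right _ hv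
      let φ : P l.1 → B × B := fun p => (⟨p.1.1, (hmem p).1⟩, ⟨p.1.2, (hmem p).2⟩)
      have hφ : Function.Injective φ := by
        rintro ⟨⟨a, t⟩, hp⟩ ⟨⟨a2, t2⟩, hp2⟩ h
        have e2 : a = a2 := congrArg (fun s : B × B => (s.1 : List (ℤ × ℤ))) h
        have e3 : t = t2 := congrArg (fun s : B × B => (s.2 : List (ℤ × ℤ))) h
        subst e2 e3
        rfl
      refine le_trans (le_of_eq ?_) (ENNReal.tsum_comp_le_tsum_of_injective hφ
        (fun p : B × B => x ^ (p.1 : List (ℤ × ℤ)).length * x ^ (p.2 : List (ℤ × ℤ)).length))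
      refine tsum_congr fun p => ?_
      simp only [φ]
      rw [← pow_add]
    exact ne_top_of_le_ne_top (ENNReal.mul_ne_top hBtop hBtop) hle
  -- the main inequality
  have hmain : ∀ l : LL, W l.1 * Y ≤ M * (wt x A * wt x Q) := by
    intro l
    have h3 : W l.1 * Y ≤ ∑' s : P l.1 × LL,
        M * (x ^ s.1.1.1.length * x ^ (s.1.1.2 ++ s.2.1).length) := by
      rw [ENNReal.tsum_prod (f := fun (p : P l.1) (l' : LL) =>
        M * (x ^ p.1.1.length * x ^ (p.1.2 ++ l'.1).length))]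
      show (∑' p : P l.1, x ^ (p.1.1.length + p.1.2.length)) * Y ≤ _
      rw [← ENNReal.tsum_mul_right]
      refine ENNReal.tsum_le_tsum fun p => ?_
      rw [hY, ← ENNReal.tsum_mul_left]
      refine ENNReal.tsum_le_tsum fun l' => ?_
      rw [List.length_append]
      calc x ^ (p.1.1.length + p.1.2.length) * (x ^ l'.1.length * W l'.1)
          ≤ x ^ (p.1.1.length + p.1.2.length) * (x ^ l'.1.length * M) := by
            gcongr
            exact hWM l'
        _ = M * (x ^ p.1.1.length * x ^ (p.1.2.length + l'.1.length)) := by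
            rw [pow_add, pow_add]
            ring
    refine h3.trans ?_
    rw [ENNReal.tsum_mul_left]
    refine mul_le_mul_right ?_ M
    rw [hprod]
    have hmem : ∀ s : P l.1 × LL, s.1.1.1 ∈ A ∧ s.1.1.2 ++ s.2.1 ∈ Q := by
      rintro ⟨p, l'⟩
      obtain ⟨a', t', hc'⟩ := l'.2
      exact ⟨p.2.arc, isQ_of_cuts fr hρ hr p.2 hc'⟩
    let φ : P l.1 × LL → A × Q := fun s => (⟨s.1.1.1, (hmem s).1⟩, ⟨s.1.1.2 ++ s.2.1, (hmem s).2⟩)
    have hφ : Function.Injective φ := by
      rintro ⟨⟨⟨a, t⟩, hp⟩, ⟨l1, hl1⟩⟩ ⟨⟨⟨a2, t2⟩, hp2⟩, ⟨l2, hl2⟩⟩ h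
      have e2 : a = a2 := congrArg (fun s : A × Q => (s.1 : List (ℤ × ℤ))) h
      have e3 : t ++ l1 = t2 ++ l2 := congrArg (fun s : A × Q => (s.2 : List (ℤ × ℤ))) h
      subst e2
      obtain ⟨b1, s1, hc1⟩ := hl1
      obtain ⟨b2, s2, hc2⟩ := hl2
      obtain ⟨e4, e5⟩ := cut_inj hp hp2 hc1 hc2 e3
      subst e4 e5
      rfl
    exact ENNReal.tsum_comp_le_tsum_of_injective hφ
      (fun p : A × Q => x ^ (p.1 : List (ℤ × ℤ)).length * x ^ (p.2 : List (ℤ × ℤ)).length)
  have hMY : M * Y ≤ M * (wt x A * wt x Q) := by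
    rw [hM, ENNReal.iSup_mul]
    exact iSup_le fun l => hmain l
  have hYle : Y ≤ wt x A * wt x Q := by
    by_cases hM0 : M = 0
    · have : Y = 0 := by
        rw [hY, ENNReal.tsum_eq_zero]
        intro l
        have h4 := hWM l
        rw [hM0, nonpos_iff_eq_zero] at h4
        rw [h4, mul_zero]
      rw [this]
      exact bot_le
    · exact (ENNReal.mul_le_mul_iff_right hM0 hMtop).1 hMY
  refine hYle.trans (mul_le_mul' ?_ (wt_qset_le hx fr r ρ h16 hρ hr))
  exact wt_arcCat_le hx fr.F ρ Λ hρ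

end Pool.Agent.Lib.MP_c23e5f_co
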