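import Pool.Agent.Lib.MP_c23e5f_co.Core

set_option autoImplicit false

namespace Pool.Agent.Lib.MP_c23e5f_co

private lemma h_step {F : ℤ × ℤ →+ ℤ} (hF : IsForm F) {f : ℕ → ℤ × ℤ} {t : ℕ}
    (h : IsStep (f (t + 1) - f t)) : |F (f (t + 1)) - F (f t)| ≤ 1 := by
  rw [← map_sub]
  exact hF _ h

private lemma up_arc {F : ℤ × ℤ →+ ℤ} (hF : IsForm F) {f : ℕ → ℤ × ℤ} {t m : ℕ} {ν : ℤ} {ρ : ℕ}
    (hm : 0 < m)
    (hstep : ∀ s, t ≤ s → s ≤ t + m → IsStep (f (s + 1) - f s))
    (hinj : ∀ a b, t ≤ a → a < b → b ≤ t + m → f a ≠ f b)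
    (hb : ∀ s, t ≤ s → s ≤ t + m → F (f s) ≤ ν + 1 + ρ)
    (h0 : F (f t) = ν) (h1 : F (f (t + 1)) = ν + 1)
    (hno : ∀ j, 0 < j → j < m →
      ¬ (min (F (f (t + j))) (F (f (t + j + 1))) = ν ∧ F (f (t + j)) ≠ F (f (t + j + 1))))
    (hend : min (F (f (t + m))) (F (f (t + m + 1))) = ν ∧ F (f (t + m)) ≠ F (f (t + m + 1))) :
    IsArc F ρ (seg f t m) := by
  have hge : ∀ j, 1 ≤ j → j ≤ m → ν + 1 ≤ F (f (t + j)) := by
    intro j hj
    induction j, hj using Nat.le_induction with
    | base => intro _; rw [h1]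
    | succ j hj ih =>
      intro hjm
      have i1 := ih (by omega)
      by_contra hcon
      have i2 := h_step hF (hstep (t + j) (by omega) (by omega))
      rw [abs_le] at i2
      rw [show t + (j + 1) = t + j + 1 by ring] at hcon
      apply hno j (by omega) (by omega)
      constructor
      · rw [min_def]; split_ifs <;> omega
      · omega
  have hfin : F (f (t + m)) = ν + 1 := by
    have i1 := hge m (by omega) le_rfl
    have i2 := h_step hF (hstep (t + m) (by omega) (by omega))
    rw [abs_le] at i2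
    obtain ⟨e1, e2⟩ := hend
    rw [min_def] at e1
    split_ifs at e1 <;> omega
  refine ⟨?_, ?_, ?_, ?_, ?_⟩
  · exact isSaw_seg (fun i hi hi' => hstep i hi (by omega)) (fun i j hi hij hj => hinj i j hi hij hj)
  · intro hcon
    have := congrArg List.length hcon
    simp at this
    omega
  · intro i hi hi'
    rw [length_seg] at hi'
    rw [pos_seg hi', map_sub, h0]
    have := hge i hi hi'
    omega
  · intro i hi
    rw [length_seg] at hi
    rw [pos_seg hi, map_sub, h0]
    have := hb (t + i) (by omega) (by omega)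
    omega
  · rw [sum_seg, map_sub, h0, hfin]
    ring

private lemma arcCat_aux {F : ℤ × ℤ →+ ℤ} (hF : IsForm F) {f : ℕ → ℤ × ℤ} (ν : ℤ) (ρ : ℕ) :
    ∀ n t : ℕ, (∀ s, t ≤ s → s ≤ t + n → IsStep (f (s + 1) - f s)) →
      (∀ a b, t ≤ a → a < b → b ≤ t + n → f a ≠ f b) →
      (∀ s, t ≤ s → s ≤ t + n → |F (f s) - ν| ≤ ρ) →
      (min (F (f t)) (F (f (t + 1))) = ν ∧ F (f t) ≠ F (f (t + 1))) →
      (min (F (f (t + n))) (F (f (t + n + 1))) = ν ∧ F (f (t + n)) ≠ F (f (t + n + 1))) →
      ArcCat F ρ (crossings f F ν t (t + n)) (seg f t n) := by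
  intro n
  induction n using Nat.strong_induction_on with
  | _ n ih =>
    intro t hstep hinj hb h0 hn
    rcases Nat.eq_zero_or_pos n with hn0 | hn0
    · subst hn0
      refine ⟨[], by simp, by simp, ?_⟩
      simp [seg]
    have hex : ∃ m, 0 < m ∧
        (min (F (f (t + m))) (F (f (t + m + 1))) = ν ∧ F (f (t + m)) ≠ F (f (t + m + 1))) :=
      ⟨n, hn0, hn⟩
    classical
    obtain ⟨hm0, hmC⟩ := Nat.find_spec hex
    have hmin := fun j (hj : j < Nat.find hex) => Nat.find_min hex hj
    have hmn : Nat.find hex ≤ n := Nat.find_min' hex ⟨hn0, hn⟩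
    generalize Nat.find hex = m at hm0 hmC hmin hmn
    have hno : ∀ j, 0 < j → j < m →
      ¬ (min (F (f (t + j))) (F (f (t + j + 1))) = ν ∧ F (f (t + j)) ≠ F (f (t + j + 1))) :=
      fun j hj hj' hc => hmin j hj' ⟨hj, hc⟩
    have harc : IsArc F ρ (seg f t m) ∨ IsArc (-F) ρ (seg f t m) := by
      have i2 := h_step hF (hstep t le_rfl (by omega))
      rw [abs_le] at i2
      obtain ⟨e1, e2⟩ := h0
      rcases lt_or_gt_of_ne e2 with h | h
      · left
        have e3 : F (f t) = ν := by rw [min_eq_left h.le] at e1; exact e1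
        refine up_arc hF (ν := ν) hm0 (fun s hs hs' => hstep s hs (by omega))
          (fun a b ha hab hb' => hinj a b ha hab (by omega)) ?_ e3 (by omega) hno hmC
        intro s hs hs'
        have := hb s hs (by omega)
        rw [abs_le] at this
        omega
      · right
        have e3 : F (f (t + 1)) = ν := by rw [min_eq_right h.le] at e1; exact e1
        refine up_arc (isForm_neg hF) (ν := -(ν + 1)) hm0 (fun s hs hs' => hstep s hs (by omega))
          (fun a b ha hab hb' => hinj a b ha hab (by omega)) ?_ ?_ ?_ ?_ ?_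
        · intro s hs hs'
          have := hb s hs (by omega)
          rw [abs_le] at this
          rw [AddMonoidHom.neg_apply]
          omega
        · rw [AddMonoidHom.neg_apply]; omega
        · rw [AddMonoidHom.neg_apply]; omega
        · intro j hj hj' hc
          apply hno j hj hj'
          simp only [AddMonoidHom.neg_apply] at hc
          obtain ⟨c1, c2⟩ := hc
          have i3 := h_step hF (hstep (t + j) (by omega) (by omega))
          rw [abs_le] at i3
          rw [min_def] at c1 ⊢
          constructor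
          · split_ifs at c1 ⊢ <;> omega
          · omega
        · simp only [AddMonoidHom.neg_apply]
          obtain ⟨c1, c2⟩ := hmC
          have i3 := h_step hF (hstep (t + m) (by omega) (by omega))
          rw [abs_le] at i3
          rw [min_def] at c1 ⊢
          constructor
          · split_ifs at c1 ⊢ <;> omega
          · omega
    obtain ⟨L, hL1, hL2, hL3⟩ := ih (n - m) (by omega) (t + m)
      (fun s hs hs' => hstep s (by omega) (by omega))
      (fun a b ha hab hb' => hinj a b (by omega) hab (by omega))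
      (fun s hs hs' => hb s (by omega) (by omega)) hmC
      (by rw [show t + m + (n - m) = t + n by omega]; exact hn)
    refine ⟨seg f t m :: L, ?_, ?_, ?_⟩
    · rw [List.length_cons]
      refine (Nat.succ_le_succ hL1).trans ?_
      rw [show t + m + (n - m) = t + n by omega]
      unfold crossings
      rw [Nat.succ_le_iff]
      apply Finset.card_lt_card
      rw [Finset.ssubset_iff_of_subset]
      · refine ⟨t, ?_, ?_⟩
        · rw [Finset.mem_filter, Finset.mem_Ico]
          exact ⟨⟨le_rfl, by omega⟩, h0⟩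
        · rw [Finset.mem_filter, Finset.mem_Ico]
          intro hc
          omega
      · intro s
        rw [Finset.mem_filter, Finset.mem_filter, Finset.mem_Ico, Finset.mem_Ico]
        intro hs
        exact ⟨⟨by omega, hs.1.2⟩, hs.2⟩
    · intro a ha
      rcases List.mem_cons.1 ha with rfl | ha
      · exact harc
      · exact hL2 a ha
    · rw [List.flatten_cons, ← hL3, seg_append]
      congr 1
      omega

/-- first and last crossing of a level by a path, and the arcs between them
(Section 9 of the paper; no geometry) -/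
theorem cross_decomp {F : ℤ × ℤ →+ ℤ} (hF : IsForm F) {f : ℕ → ℤ × ℤ} {tp tq : ℕ}
    (hstep : ∀ t, tp ≤ t → t < tq → IsStep (f (t + 1) - f t))
    (hinj : ∀ a b, tp ≤ a → a < b → b ≤ tq → f a ≠ f b) (ν : ℤ) (hp : F (f tp) ≤ ν)
    (hq : ν < F (f tq)) (ρ : ℕ) (hpq : tp ≤ tq) :
    ∃ t1 t2 : ℕ, tp ≤ t1 ∧ t1 ≤ t2 ∧ t2 < tq ∧ F (f t1) = ν ∧ F (f t2) = ν ∧
      (∀ t, tp ≤ t → t ≤ t1 → F (f t) ≤ ν) ∧ (∀ t, t2 < t → t ≤ tq → ν < F (f t)) ∧
      ((∀ t, t1 ≤ t → t ≤ t2 → |F (f t) - ν| ≤ ρ) →
        ArcCat F ρ (crossings f F ν tp tq) (seg f t1 (t2 - t1))) := by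
  classical
  have htpq : tp < tq := by
    rcases hpq.eq_or_lt with h | h
    · rw [h] at hp; omega
    · exact h
  have hex : ∃ t, tp ≤ t ∧ ν < F (f (t + 1)) := ⟨tq - 1, by omega, by
    rw [show tq - 1 + 1 = tq by omega]; exact hq⟩
  obtain ⟨ht1, ht1'⟩ := Nat.find_spec hex
  have hmin := fun j (hj : j < Nat.find hex) => Nat.find_min hex hj
  have hle : Nat.find hex ≤ tq - 1 := Nat.find_min' hex ⟨by omega, by
    rw [show tq - 1 + 1 = tq by omega]; exact hq⟩
  generalize Nat.find hex = t1 at ht1 ht1' hmin hle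
  have hbelow : ∀ t, tp ≤ t → t ≤ t1 → F (f t) ≤ ν := by
    intro t h1 h2
    rcases h1.eq_or_lt with h | h
    · rw [← h]; exact hp
    · have := hmin (t - 1) (by omega)
      rw [show t - 1 + 1 = t by omega] at this
      by_contra hcon
      exact this ⟨by omega, by omega⟩
  have hC1 : F (f t1) = ν ∧ F (f (t1 + 1)) = ν + 1 := by
    have i1 := hbelow t1 ht1 le_rfl
    have i2 := h_step hF (hstep t1 ht1 (by omega))
    rw [abs_le] at i2
    omega
  have hg := Nat.findGreatest_spec (P := fun t => F (f t) ≤ ν) (m := t1) (n := tq - 1) hle hC1.1.le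
  have hgle := Nat.le_findGreatest (P := fun t => F (f t) ≤ ν) (m := t1) (n := tq - 1) hle hC1.1.le
  have hgub := Nat.findGreatest_le (P := fun t => F (f t) ≤ ν) (tq - 1)
  have habove : ∀ t, Nat.findGreatest (fun t => F (f t) ≤ ν) (tq - 1) < t → t ≤ tq →
      ν < F (f t) := by
    intro t h1 h2
    rcases h2.eq_or_lt with h | h
    · rw [h]; exact hq
    · have := Nat.findGreatest_is_greatest h1 (by omega)
      simpa using this
  generalize Nat.findGreatest (fun t => F (f t) ≤ ν) (tq - 1) = t2 at hg hgle hgub habove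
  have hC2 : F (f t2) = ν ∧ F (f (t2 + 1)) = ν + 1 := by
    have i1 : F (f t2) ≤ ν := hg
    have i3 := habove (t2 + 1) (by omega) (by omega)
    have i2 := h_step hF (hstep t2 (by omega) (by omega))
    rw [abs_le] at i2
    omega
  refine ⟨t1, t2, ht1, hgle, by omega, hC1.1, hC2.1, hbelow, habove, ?_⟩
  intro hb
  obtain ⟨L, hL1, hL2, hL3⟩ := arcCat_aux hF (f := f) ν ρ (t2 - t1) t1
    (fun s hs hs' => hstep s (by omega) (by omega))
    (fun a b ha hab hb' => hinj a b (by omega) hab (by omega))
    (fun s hs hs' => hb s hs (by omega))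
    (by rw [hC1.1, hC1.2]; constructor
        · rw [min_eq_left]; omega
        · omega)
    (by rw [show t1 + (t2 - t1) = t2 by omega, hC2.1, hC2.2]; constructor
        · rw [min_eq_left]; omega
        · omega)
  refine ⟨L, hL1.trans ?_, hL2, hL3⟩
  unfold crossings
  apply Finset.card_le_card
  intro s
  rw [Finset.mem_filter, Finset.mem_filter, Finset.mem_Ico, Finset.mem_Ico]
  intro hs
  exact ⟨⟨by omega, by omega⟩, hs.2⟩

end Pool.Agent.Lib.MP_c23e5f_co
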