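import Pool.Agent.Lib.MP_c23e5f_co.CrossDecomp
import Pool.Agent.Lib.MP_c23e5f_co.CoreLoc

set_option autoImplicit false

namespace Pool.Agent.Lib.MP_c23e5f_co

/-- Section 9 of the paper: a good level with few crossings gives a cut -/
theorem cut_of_core {fr : Frame} {k s : ℕ} {f : ℕ → ℤ × ℤ} {t0 t1 : ℕ} {j : ℕ → ℕ}
    {Y : ℕ → ℤ × ℤ} {cum : ℕ → ℝ} {good : Set ℕ} (h : Core fr k s f t0 t1 j Y cum good)
    (hk : 1 ≤ k) (hs : 1 ≤ s) {r ρ Λ L : ℕ} (hρ : ρ = 1600 * k * s) (hr : 10 ^ 4 * ρ ≤ r)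
    {tp tq : ℕ} (h0 : t0 ≤ tp) (hpq : tp < tq) (h1 : tq ≤ t1) {c : ℤ} (hc : (f tp).1 = c)
    (hq : (f tq).1 = c + r) (hin : ∀ t, tp < t → t ≤ tq → c < (f t).1 ∧ (f t).1 ≤ c + r)
    {jp jq j0 : ℕ} (hjp : jp ∈ good) (hjq : jq ∈ good) (hj0 : j0 ∈ good)
    (hjpc : |(Y jp).1 - c| ≤ 3 * s) (hjqc : |(Y jq).1 - (c + r)| ≤ 3 * s) {ν : ℤ}
    (hν : (r : ℤ) ≤ 8 * (ν - fr.F (f tp))) (hν' : 4 * (ν - fr.F (f tp)) ≤ r)
    (hj0ν : |fr.F (Y j0) - ν| ≤ 3 * s) (hΛ : crossings f fr.F ν tp tq ≤ Λ) (hL : tq - tp ≤ L) :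
    ∃ l a t : List (ℤ × ℤ), l ++ a ++ t = seg f tp (tq - tp) ∧ IsCut fr r ρ Λ L l a t ∧
      fr.F l.sum = ν - fr.F (f tp) := by
  have hks : s ≤ k * s := Nat.le_mul_of_pos_left s hk
  have hrs : 7 * s ≤ r := by
    have : 1600 * (k * s) = ρ := by rw [hρ]; ring
    omega
  obtain ⟨-, hF1, hF2⟩ := h.F_diff hk hs hrs h0 hpq h1 hc hq hjp hjq hjpc hjqc
  -- real parameters
  set K : ℝ := (k : ℝ) * (s : ℝ) with hKdef
  have hs1 : (1 : ℝ) ≤ s := by exact_mod_cast hs
  have hk1 : (1 : ℝ) ≤ k := by exact_mod_cast hk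
  have hsK : (s : ℝ) ≤ K := by rw [hKdef]; exact_mod_cast hks
  have hK1 : 1 ≤ K := hs1.trans hsK
  have hρR : (ρ : ℝ) = 1600 * K := by rw [hρ, hKdef]; push_cast; ring
  have hrR : 16000000 * K ≤ (r : ℝ) := by
    have : (10 : ℝ) ^ 4 * ρ ≤ r := by exact_mod_cast hr
    rw [hρR] at this
    linarith
  have hF1R : 9 * (r : ℝ) - 20000 * K ≤ 20 * ((fr.F (f tq) : ℝ) - fr.F (f tp)) := by
    have : ((9 * (r : ℤ) - 20000 * k * s : ℤ) : ℝ) ≤
      ((20 * (fr.F (f tq) - fr.F (f tp)) : ℤ) : ℝ) := by exact_mod_cast hF1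
    push_cast at this
    rw [hKdef]
    linarith
  have hF2R : 20 * ((fr.F (f tq) : ℝ) - fr.F (f tp)) ≤ 31 * (r : ℝ) + 20000 * K := by
    have : ((20 * (fr.F (f tq) - fr.F (f tp)) : ℤ) : ℝ) ≤
      ((31 * (r : ℤ) + 20000 * k * s : ℤ) : ℝ) := by exact_mod_cast hF2
    push_cast at this
    rw [hKdef]
    linarith
  have hνR : (r : ℝ) ≤ 8 * ((ν : ℝ) - fr.F (f tp)) := by exact_mod_cast hν
  have hν'R : 4 * ((ν : ℝ) - fr.F (f tp)) ≤ (r : ℝ) := by exact_mod_cast hν'
  have c213 : ∀ {x y : ℤ}, |x - y| ≤ 213 * k * s → |(x : ℝ) - y| ≤ 213 * K := by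
    intro x y hx
    have : ((|x - y| : ℤ) : ℝ) ≤ ((213 * k * s : ℤ) : ℝ) := by exact_mod_cast hx
    push_cast at this
    rw [hKdef]
    linarith
  have c3 : ∀ {x y : ℤ}, |x - y| ≤ 3 * s → |(x : ℝ) - y| ≤ 3 * s := by
    intro x y hx
    exact_mod_cast hx
  -- the three forms
  set ok : (ℤ × ℤ →+ ℤ) → Prop := fun φ => φ = Z1 ∨ φ = fr.F ∨ φ = fr.g with hok
  have okF : ok fr.F := Or.inr (Or.inl rfl)
  have okg : ok fr.g := Or.inr (Or.inr rfl)
  have wan : ∀ φ, ok φ → ∀ t, t0 ≤ t → t ≤ t1 → |(φ (f t) : ℝ) - φ (Y (j t))| ≤ 3 * s := by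
    rintro φ (rfl | rfl | rfl) t h2 h3
    · exact c3 (h.wan1 t h2 h3)
    · exact c3 (h.wanF t h2 h3)
    · exact c3 (h.wang t h2 h3)
  have len : ∀ φ, ok φ → ∀ a b, a ≤ b →
      |(φ (Y b) : ℝ) - φ (Y a)| ≤ 3 / 2 * (cum b - cum a) := by
    rintro φ (rfl | rfl | rfl) a b hab
    · exact h.len1 a b hab
    · exact h.lenF a b hab
    · exact h.leng a b hab
  have mono : ∀ φ, ok φ → ∀ a b, a ≤ b → j t0 ≤ a → b ≤ j t1 → (a ∈ good ∨ b ∈ good) →
      (φ (Y a) : ℝ) ≤ φ (Y b) := by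
    have key : ∀ x : ℝ, 0 ≤ 20 * (k : ℝ) * x → 0 ≤ x := by
      intro x hx
      by_contra hneg
      push Not at hneg
      have : 0 < 20 * (k : ℝ) := by positivity
      nlinarith
    rintro φ (rfl | rfl | rfl) a b hab ha hb hg
    · have h2 := h.up1 a b hab ha hb hg
      have h3 := h.cum_mono hab
      have h4 := key _ (by linarith : 0 ≤ 20 * (k : ℝ) * (((Y b).1 : ℝ) - (Y a).1))
      simp only [Z1_apply]
      linarith
    · have h2 := h.upF a b hab ha hb hg
      have h3 := h.cum_mono hab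
      have h4 := key _ (by linarith : 0 ≤ 20 * (k : ℝ) * ((fr.F (Y b) : ℝ) - fr.F (Y a)))
      linarith
    · have h2 := h.upg a b hab ha hb hg
      have h3 := h.cum_mono hab
      linarith
  have near : ∀ φ, ok φ → ∀ {a u : ℕ}, (|(f u).1 - (Y a).1| ≤ 213 * k * s ∧
      |fr.F (f u) - fr.F (Y a)| ≤ 213 * k * s ∧ |fr.g (f u) - fr.g (Y a)| ≤ 213 * k * s) →
      |(φ (f u) : ℝ) - φ (Y a)| ≤ 213 * K := by
    rintro φ (rfl | rfl | rfl) a u ⟨h2, h3, h4⟩
    · exact c213 h2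
    · exact c213 h3
    · exact c213 h4
  -- localisation at `p` and `q`
  have wan1p := h.wan1 tp h0 (by omega)
  have wan1q := h.wan1 tq (by omega) h1
  have locp : ∀ φ, ok φ → |(φ (f tp) : ℝ) - φ (Y jp)| ≤ 213 * K := fun φ hφ => by
    refine near φ hφ (h.near1 hk hs hjp h0 le_rfl le_rfl (by omega) ?_ ?_)
    all_goals
      rw [hc] at wan1p
      rw [abs_le] at wan1p hjpc ⊢
      constructor <;> linarith [wan1p.1, wan1p.2, hjpc.1, hjpc.2]
  have locq : ∀ φ, ok φ → |(φ (f tq) : ℝ) - φ (Y jq)| ≤ 213 * K := fun φ hφ => by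
    refine near φ hφ (h.near1 hk hs hjq (by omega) le_rfl le_rfl h1 ?_ ?_)
    all_goals
      rw [hq] at wan1q
      rw [abs_le] at wan1q hjqc ⊢
      constructor <;> linarith [wan1q.1, wan1q.2, hjqc.1, hjqc.2]
  have hjpR := c3 (x := (Y jp).1) (y := c) hjpc
  have hjqR : |((Y jq).1 : ℝ) - (c + r)| ≤ 3 * s := by
    have := c3 (x := (Y jq).1) (y := c + r) hjqc
    push_cast at this
    exact this
  have hj0R := c3 (x := fr.F (Y j0)) (y := ν) hj0ν
  obtain ⟨gp1, gp2⟩ := h.good_range jp hjp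
  obtain ⟨gq1, gq2⟩ := h.good_range jq hjq
  obtain ⟨g01, g02⟩ := h.good_range j0 hj0
  have jr1 : ∀ t, tp ≤ t → t ≤ tq → j t0 ≤ j t := fun t h2 h3 =>
    h.jmono t0 t le_rfl (by omega) (by omega)
  have jr2 : ∀ t, tp ≤ t → t ≤ tq → j t ≤ j t1 := fun t h2 h3 =>
    h.jmono t t1 (by omega) (by omega) le_rfl
  -- (C1)
  have C1L : ∀ φ, ok φ → ∀ t, tp ≤ t → t ≤ tq → (φ (f tp) : ℝ) - 400 * K ≤ φ (f t) ∧
      (j t < jp → (φ (f t) : ℝ) ≤ φ (f tp) + 400 * K) := by
    intro φ hφ t ht ht'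
    have w := abs_le.mp (wan φ hφ t (by omega) (by omega))
    have lp := abs_le.mp (locp φ hφ)
    rcases le_or_gt jp (j t) with hj | hj
    · have m := mono φ hφ jp (j t) hj gp1 (jr2 t ht ht') (Or.inl hjp)
      exact ⟨by linarith [w.1, lp.2], fun hj' => by omega⟩
    · have w1 := abs_le.mp (wan Z1 (Or.inl rfl) t (by omega) (by omega))
      have hA : (c : ℝ) ≤ (f t).1 := by
        rcases eq_or_lt_of_le ht with rfl | hlt
        · rw [hc]
        · exact_mod_cast (hin t hlt ht').1.le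
      have hu := h.up1 (j t) jp hj.le (jr1 t ht ht') gp2 (Or.inr hjp)
      have hjp' := abs_le.mp hjpR
      simp only [Z1_apply] at w1
      have hx : ((Y jp).1 : ℝ) - (Y (j t)).1 ≤ 6 * s := by linarith [w1.1, w1.2, hjp'.2]
      have hcum : cum jp - cum (j t) ≤ 120 * K := by
        have := mul_le_mul_of_nonneg_left hx (show (0 : ℝ) ≤ 20 * k by positivity)
        rw [hKdef]
        linarith
      have l := abs_le.mp (len φ hφ (j t) jp hj.le)
      exact ⟨by linarith [w.1, w.2, lp.1, lp.2, l.1, l.2],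
        fun _ => by linarith [w.1, w.2, lp.1, lp.2, l.1, l.2]⟩
  have C1U : ∀ φ, ok φ → ∀ t, tp ≤ t → t ≤ tq → (φ (f t) : ℝ) ≤ φ (f tq) + 400 * K ∧
      (jq < j t → (φ (f tq) : ℝ) - 400 * K ≤ φ (f t)) := by
    intro φ hφ t ht ht'
    have w := abs_le.mp (wan φ hφ t (by omega) (by omega))
    have lq := abs_le.mp (locq φ hφ)
    rcases le_or_gt (j t) jq with hj | hj
    · have m := mono φ hφ (j t) jq hj (jr1 t ht ht') gq2 (Or.inr hjq)
      exact ⟨by linarith [w.2, lq.1], fun hj' => by omega⟩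
    · have w1 := abs_le.mp (wan Z1 (Or.inl rfl) t (by omega) (by omega))
      have hA : ((f t).1 : ℝ) ≤ c + r := by
        rcases eq_or_lt_of_le ht with rfl | hlt
        · rw [hc]
          have : (0 : ℝ) ≤ r := Nat.cast_nonneg r
          linarith
        · exact_mod_cast (hin t hlt ht').2
      have hu := h.up1 jq (j t) hj.le gq1 (jr2 t ht ht') (Or.inl hjq)
      have hjq' := abs_le.mp hjqR
      simp only [Z1_apply] at w1
      have hx : ((Y (j t)).1 : ℝ) - (Y jq).1 ≤ 6 * s := by linarith [w1.1, w1.2, hjq'.1]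
      have hcum : cum (j t) - cum jq ≤ 120 * K := by
        have := mul_le_mul_of_nonneg_left hx (show (0 : ℝ) ≤ 20 * k by positivity)
        rw [hKdef]
        linarith
      have l := abs_le.mp (len φ hφ jq (j t) hj.le)
      exact ⟨by linarith [w.1, w.2, lq.1, lq.2, l.1, l.2],
        fun _ => by linarith [w.1, w.2, lq.1, lq.2, l.1, l.2]⟩
  -- the crossings
  have hlow : fr.F (f tp) ≤ ν := by
    have : (0 : ℤ) ≤ r := Int.natCast_nonneg r
    omega
  have hhigh : ν < fr.F (f tq) := by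
    have : (ν : ℝ) < fr.F (f tq) := by linarith
    exact_mod_cast this
  obtain ⟨a1, a2, b1, b2, b3, b4, b5, b6, b7, b8⟩ :=
    cross_decomp fr.Fform (f := f) (tp := tp) (tq := tq)
    (fun t h2 h3 => h.step t (by omega) (by omega))
    (fun a b h2 h3 h4 => h.inj a b (by omega) h3 (by omega)) ν hlow hhigh ρ hpq.le
  have locN : ∀ φ, ok φ → ∀ t, a1 ≤ t → t ≤ a2 → |(φ (f t) : ℝ) - φ (Y j0)| ≤ 213 * K := by
    intro φ hφ t ht ht'
    have w1 := h.wanF a1 (by omega) (by omega)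
    have w2 := h.wanF a2 (by omega) (by omega)
    refine near φ hφ (h.nearF hk hs hj0 (u1 := a1) (u2 := a2) (by omega) ht ht' (by omega) ?_ ?_)
    · rw [b4] at w1
      rw [abs_le] at w1 hj0ν ⊢
      constructor <;> linarith [w1.1, w1.2, hj0ν.1, hj0ν.2]
    · rw [b5] at w2
      rw [abs_le] at w2 hj0ν ⊢
      constructor <;> linarith [w2.1, w2.2, hj0ν.1, hj0ν.2]
  have harc := b8 (by
    intro t ht ht'
    have l := abs_le.mp (locN fr.F okF t ht ht')
    have l0 := abs_le.mp hj0R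
    have : |(fr.F (f t) : ℝ) - ν| ≤ ρ := by
      rw [hρR, abs_le]
      constructor <;> linarith [l.1, l.2, l0.1, l0.2]
    exact_mod_cast this)
  have b4R : (fr.F (f a1) : ℝ) = ν := by rw [b4]
  have b5R : (fr.F (f a2) : ℝ) = ν := by rw [b5]
  have l0 := abs_le.mp hj0R
  have lpF := abs_le.mp (locp fr.F okF)
  have lpg := abs_le.mp (locp fr.g okg)
  have lqF := abs_le.mp (locq fr.F okF)
  have lqg := abs_le.mp (locq fr.g okg)
  -- (C2)
  have C2l : 2 * (ρ : ℝ) < (fr.g (f a1) : ℝ) - fr.g (f tp) := by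
    have hj : jp ≤ j a1 := by
      by_contra hlt
      push Not at hlt
      have := (C1L fr.F okF a1 b1 (by omega)).2 hlt
      linarith
    have w1 := abs_le.mp (wan fr.F okF a1 (by omega) (by omega))
    have w2 := abs_le.mp (wan fr.g okg a1 (by omega) (by omega))
    have l := abs_le.mp (len fr.F okF jp (j a1) hj)
    have u := h.upg jp (j a1) hj gp1 (jr2 a1 b1 (by omega)) (Or.inl hjp)
    rw [hρR]
    linarith [w1.1, w1.2, w2.1, w2.2, l.1, l.2, lpF.1, lpF.2, lpg.1, lpg.2]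
  have C2t : 2 * (ρ : ℝ) < (fr.g (f tq) : ℝ) - fr.g (f a2) := by
    have hj : j a2 ≤ jq := by
      by_contra hlt
      push Not at hlt
      have := (C1U fr.F okF a2 (by omega) (by omega)).2 hlt
      linarith
    have w1 := abs_le.mp (wan fr.F okF a2 (by omega) (by omega))
    have w2 := abs_le.mp (wan fr.g okg a2 (by omega) (by omega))
    have l := abs_le.mp (len fr.F okF (j a2) jq hj)
    have u := h.upg (j a2) jq hj (jr1 a2 (by omega) (by omega)) gq2 (Or.inr hjq)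
    rw [hρR]
    linarith [w1.1, w1.2, w2.1, w2.2, l.1, l.2, lqF.1, lqF.2, lqg.1, lqg.2]
  -- (C3)
  have C3l : ∀ t, tp ≤ t → t ≤ a1 → (ρ : ℝ) ≤ ν - fr.F (f t) →
      (fr.g (f t) : ℝ) < fr.g (f a1) := by
    intro t ht ht' hrho
    rw [hρR] at hrho
    have w1 := abs_le.mp (wan fr.F okF t (by omega) (by omega))
    have w2 := abs_le.mp (wan fr.g okg t (by omega) (by omega))
    have hj : j t < j0 := by
      by_contra hlt
      push Not at hlt
      have := mono fr.F okF j0 (j t) hlt g01 (jr2 t ht (by omega)) (Or.inl hj0)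
      linarith [w1.1, w1.2, l0.1, l0.2]
    have l := abs_le.mp (len fr.F okF (j t) j0 hj.le)
    have u := h.upg (j t) j0 hj.le (jr1 t ht (by omega)) g02 (Or.inr hj0)
    have n := abs_le.mp (locN fr.g okg a1 le_rfl b2)
    linarith [w1.1, w1.2, w2.1, w2.2, l.1, l.2, l0.1, l0.2, n.1, n.2]
  have C3t : ∀ t, a2 ≤ t → t ≤ tq → (ρ : ℝ) ≤ fr.F (f t) - ν →
      (fr.g (f a2) : ℝ) < fr.g (f t) := by
    intro t ht ht' hrho
    rw [hρR] at hrho
    have w1 := abs_le.mp (wan fr.F okF t (by omega) (by omega))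
    have w2 := abs_le.mp (wan fr.g okg t (by omega) (by omega))
    have hj : j0 < j t := by
      by_contra hlt
      push Not at hlt
      have := mono fr.F okF (j t) j0 hlt (jr1 t (by omega) ht') g02 (Or.inr hj0)
      linarith [w1.1, w1.2, l0.1, l0.2]
    have l := abs_le.mp (len fr.F okF j0 (j t) hj.le)
    have u := h.upg j0 (j t) hj.le g01 (jr2 t (by omega) ht') (Or.inl hj0)
    have n := abs_le.mp (locN fr.g okg a2 b2 le_rfl)
    linarith [w1.1, w1.2, w2.1, w2.2, l.1, l.2, l0.1, l0.2, n.1, n.2]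
  -- assembly
  obtain ⟨m1, rfl⟩ := Nat.exists_eq_add_of_le b1
  obtain ⟨m2, rfl⟩ := Nat.exists_eq_add_of_le b2
  obtain ⟨m3, rfl⟩ := Nat.exists_eq_add_of_le b3.le
  have e1 : tp + m1 + m2 - (tp + m1) = m2 := by omega
  have e2 : tp + m1 + m2 + m3 - tp = m1 + m2 + m3 := by omega
  have e3 : tp + (m1 + m2 + m3) = tp + m1 + m2 + m3 := by omega
  rw [e1] at harc
  have hcat : seg f tp m1 ++ seg f (tp + m1) m2 ++ seg f (tp + m1 + m2) m3 =
      seg f tp (m1 + m2 + m3) := by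
    rw [seg_append, Nat.add_assoc tp, seg_append]
  have suml : (seg f tp m1).sum = f (tp + m1) - f tp := sum_seg f tp m1
  have suma : (seg f (tp + m1) m2).sum = f (tp + m1 + m2) - f (tp + m1) := sum_seg _ _ _
  have sumt : (seg f (tp + m1 + m2) m3).sum = f (tp + m1 + m2 + m3) - f (tp + m1 + m2) :=
    sum_seg _ _ _
  have sumw : (seg f tp (m1 + m2 + m3)).sum = f (tp + m1 + m2 + m3) - f tp := by
    rw [sum_seg, e3]
  have hk400 : 400 * K ≤ ρ := by rw [hρR]; linarith
  refine ⟨seg f tp m1, seg f (tp + m1) m2, seg f (tp + m1 + m2) m3, ?_, ?_, ?_⟩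
  · rw [hcat, e2]
  · constructor
    · -- bridge
      rw [hcat]
      refine ⟨isSaw_seg (fun i h2 h3 => h.step i (by omega) (by omega))
        (fun i i' h2 h3 h4 => h.inj i i' (by omega) h3 (by omega)), ?_, ?_, ?_⟩
      · intro i hi hi'
        rw [length_seg] at hi'
        rw [pos_seg hi']
        have := (hin (tp + i) (by omega) (by omega)).1
        simp only [Z1_apply, Prod.fst_sub, hc]
        omega
      · intro i hi'
        rw [length_seg] at hi'
        rw [pos_seg hi']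
        simp only [Z1_apply, Prod.fst_sub, hc]
        rcases Nat.eq_zero_or_pos i with rfl | hi
        · simp [hc]
        · have := (hin (tp + i) (by omega) (by omega)).2
          omega
      · rw [sumw]
        simp only [Z1_apply, Prod.fst_sub, hc, hq]
        omega
    · rw [hcat, length_seg]
      omega
    · obtain ⟨L0, g1, g2, g3⟩ := harc
      exact ⟨L0, g1.trans hΛ, g2, g3⟩
    · rw [suma, map_sub, b4, b5, sub_self]
    · intro i hi
      rw [length_seg] at hi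
      rw [pos_seg hi, suml, map_sub, map_sub, b4]
      have := b6 (tp + i) (by omega) (by omega)
      omega
    · intro i hi hi'
      rw [length_seg] at hi'
      rw [pos_seg hi', map_sub, b5]
      have := b7 (tp + m1 + m2 + i) (by omega) (by omega)
      omega
    · intro i hi
      rw [hcat, length_seg] at hi
      rw [hcat, pos_seg hi, map_sub]
      have := (C1L fr.F okF (tp + i) (by omega) (by omega)).1
      have : (-(ρ : ℝ)) ≤ (fr.F (f (tp + i)) : ℝ) - fr.F (f tp) := by linarith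
      exact_mod_cast this
    · intro i hi
      rw [hcat, length_seg] at hi
      rw [hcat, pos_seg hi, map_sub, sumw, map_sub]
      have := (C1U fr.F okF (tp + i) (by omega) (by omega)).1
      have : (fr.F (f (tp + i)) : ℝ) - fr.F (f tp) ≤
        (fr.F (f (tp + m1 + m2 + m3)) : ℝ) - fr.F (f tp) + ρ := by linarith
      exact_mod_cast this
    · intro i hi
      rw [hcat, length_seg] at hi
      rw [hcat, pos_seg hi, map_sub]
      have := (C1L fr.g okg (tp + i) (by omega) (by omega)).1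
      have : (-(ρ : ℝ)) ≤ (fr.g (f (tp + i)) : ℝ) - fr.g (f tp) := by linarith
      exact_mod_cast this
    · intro i hi
      rw [hcat, length_seg] at hi
      rw [hcat, pos_seg hi, map_sub, sumw, map_sub]
      have := (C1U fr.g okg (tp + i) (by omega) (by omega)).1
      have : (fr.g (f (tp + i)) : ℝ) - fr.g (f tp) ≤
        (fr.g (f (tp + m1 + m2 + m3)) : ℝ) - fr.g (f tp) + ρ := by linarith
      exact_mod_cast this
    · rw [suml, map_sub]
      exact_mod_cast C2l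
    · rw [sumt, map_sub]
      exact_mod_cast C2t
    · intro i hi hi2
      rw [length_seg] at hi
      rw [pos_seg hi, suml, map_sub, map_sub, b4] at hi2
      rw [pos_seg hi, suml, map_sub, map_sub]
      have h2 : (ρ : ℝ) ≤ ν - fr.F (f (tp + i)) := by
        have : (ρ : ℤ) ≤ ν - fr.F (f (tp + i)) := by omega
        exact_mod_cast this
      have h3 := C3l (tp + i) (by omega) (by omega) h2
      have h4 : fr.g (f (tp + i)) < fr.g (f (tp + m1)) := by exact_mod_cast h3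
      omega
    · intro i hi hi2
      rw [length_seg] at hi
      rw [pos_seg hi, map_sub, b5] at hi2
      rw [pos_seg hi, map_sub]
      have h2 : (ρ : ℝ) ≤ fr.F (f (tp + m1 + m2 + i)) - ν := by exact_mod_cast hi2
      have h3 := C3t (tp + m1 + m2 + i) (by omega) (by omega) h2
      have h4 : fr.g (f (tp + m1 + m2)) < fr.g (f (tp + m1 + m2 + i)) := by exact_mod_cast h3
      omega
    · rw [suml, map_sub, b4]
      exact hν
    · rw [suml, map_sub, b4]
      exact hν'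
    · rw [sumt, map_sub, b5]
      have : (r : ℝ) ≤ 8 * ((fr.F (f (tp + m1 + m2 + m3)) : ℝ) - ν) := by linarith
      exact_mod_cast this
    · rw [sumt, map_sub, b5]
      have : (fr.F (f (tp + m1 + m2 + m3)) : ℝ) - ν ≤ 2 * r := by linarith
      exact_mod_cast this
  · rw [suml, map_sub, b4]

end Pool.Agent.Lib.MP_c23e5f_co
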