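import Pool.Agent.Lib.MP_c23e5f_co.Pieces

set_option autoImplicit false

namespace Pool.Agent.Lib.MP_c23e5f_co

open scoped ENNReal

private lemma ls_sc_pos {k : ℕ} (hk : 1 ≤ k) (i : ℕ) : 1 ≤ sc k i := by
  induction i with
  | zero => exact le_refl 1
  | succ i ih =>
    have h1 : 0 < 8 * (1600 * k * sc k i) := by positivity
    have h2 : 0 < (8 * (1600 * k * sc k i)) ^ (2 * Lam k + 2) := pow_pos h1 _
    have h3 : 0 < 64 * k * (8 * (1600 * k * sc k i)) ^ (2 * Lam k + 2) := by positivity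
    exact h3

private lemma ls_rho_ge {k : ℕ} (hk : 1 ≤ k) (i : ℕ) : sc k i ≤ rho k i := by
  have h1 : 1 ≤ 1600 * k := by omega
  calc sc k i = 1 * sc k i := (one_mul _).symm
    _ ≤ 1600 * k * sc k i := Nat.mul_le_mul_right _ h1

private lemma ls_rr_ge {k : ℕ} (hk : 1 ≤ k) (i : ℕ) : 8 * rho k i ≤ rr k i :=
  Nat.le_self_pow (by omega) _

private lemma ls_rr_two {k : ℕ} (hk : 1 ≤ k) (i : ℕ) : 2 ≤ rr k i := by
  have h1 := ls_sc_pos hk i
  have h2 := ls_rho_ge hk i
  have h3 := ls_rr_ge hk i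
  omega

private lemma ls_rr_le_sc {k : ℕ} (hk : 1 ≤ k) (i : ℕ) : rr k i ≤ sc k (i + 1) := by
  rw [sc_succ]
  have h1 : 1 ≤ 64 * k := by omega
  calc rr k i = 1 * rr k i := (one_mul _).symm
    _ ≤ 64 * k * rr k i := Nat.mul_le_mul_right _ h1

private lemma ls_sc_mono {k : ℕ} (hk : 1 ≤ k) : Monotone (sc k) := by
  refine monotone_nat_of_le_succ fun i => ?_
  have h2 := ls_rho_ge hk i
  have h3 := ls_rr_ge hk i
  have h4 := ls_rr_le_sc hk i
  omega

private lemma ls_rr_le_rho {k i j : ℕ} (hk : 1 ≤ k) (hij : i < j) : rr k i ≤ rho k j :=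
  (ls_rr_le_sc hk i).trans ((ls_sc_mono hk hij).trans (ls_rho_ge hk j))

private lemma ls_step {N : ℕ} {f : ℕ → ℤ × ℤ} (hf : IsLoop N f) (t : ℕ) :
    (f (t + 1)).1 - (f t).1 ≤ 1 ∧ (f t).1 - (f (t + 1)).1 ≤ 1 := by
  have h := hf.step t
  simp only [IsStep, Prod.fst_sub, Prod.snd_sub] at h
  omega

private lemma ls_next {N : ℕ} {f : ℕ → ℤ × ℤ} (hf : IsLoop N f) {r r' t m m' : ℕ} (hr : 2 ≤ r)
    {F : ℤ × ℤ →+ ℤ} (hF : F = Z1 ∨ F = -Z1)
    (h : IsNext f r t m) (h' : IsNext f r' t m') (ha : IsArc F (r - 1) (seg f t m)) : m' ≤ m := by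
  obtain ⟨h0, ⟨hz, hd⟩, _⟩ := h
  have hcol : col f (t + m) = col f t := by
    have g1 := ha.ge 1 le_rfl (by rw [length_seg]; omega)
    have g2 := ha.fin
    rw [pos_seg (by omega)] at g1
    rw [sum_seg] at g2
    have s1 := ls_step hf t
    have s2 := ls_step hf (t + m)
    have hz' : (f (t + m)).1 ≠ (f (t + m + 1)).1 := hz
    have hd' : (r : ℤ) ∣ min (f (t + m)).1 (f (t + m + 1)).1 - min (f t).1 (f (t + 1)).1 := hd
    show min (f (t + m)).1 (f (t + m + 1)).1 = min (f t).1 (f (t + 1)).1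
    obtain ⟨q, hq⟩ := hd'
    have hr' : (2 : ℤ) ≤ r := by exact_mod_cast hr
    have key : (r : ℤ) * q = 0 ∨ (2 : ℤ) ≤ |(r : ℤ) * q| := by
      rcases eq_or_ne q 0 with hq0 | hq0
      · left; rw [hq0, mul_zero]
      · right
        rw [abs_mul, abs_of_nonneg (by omega : (0 : ℤ) ≤ r)]
        have := Int.one_le_abs hq0
        nlinarith
    rcases hF with hF | hF
    · rw [hF] at g1 g2
      simp only [Z1_apply, Prod.fst_sub] at g1 g2
      rcases key with key | key
      · omega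
      · rw [le_abs] at key; omega
    · rw [hF] at g1 g2
      simp only [AddMonoidHom.neg_apply, Z1_apply, Prod.fst_sub] at g1 g2
      rcases key with key | key
      · omega
      · rw [le_abs] at key; omega
  by_contra hlt
  push Not at hlt
  refine h'.2.2 m h0 hlt ⟨hz, ?_⟩
  rw [hcol, sub_self]
  exact dvd_zero _

private lemma ls_arc {N : ℕ} {f : ℕ → ℤ × ℤ} (hf : IsLoop N f) {k i j t m m' : ℕ} (hk : 1 ≤ k)
    (hij : i < j) {F : ℤ × ℤ →+ ℤ} (hF : F = Z1 ∨ F = -Z1)
    (h : IsNext f (rr k i) t m) (h' : IsNext f (rr k j) t m')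
    (ha : IsArc F (rr k i - 1) (seg f t m)) (ha' : IsArc F (rr k j - 1) (seg f t m')) :
    IsArc F (rho k j) (seg f t m') := by
  have hle : m' ≤ m := ls_next hf (ls_rr_two hk i) hF h h' ha
  refine ⟨ha'.saw, ha'.ne, ha'.ge, fun l hl => ?_, ha'.fin⟩
  rw [length_seg] at hl
  have h1 := ha.le l (by rw [length_seg]; omega)
  rw [pos_seg (by omega)] at h1
  rw [pos_seg hl]
  have h2 := ls_rr_two hk i
  have h3 := ls_rr_le_rho hk hij
  omega

private lemma ls_one {N : ℕ} {f : ℕ → ℤ × ℤ} (hN : 1 ≤ N) (hf : IsLoop N f) {k i j t m m' : ℕ}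
    (hk : 1 ≤ k) (hij : i < j) (ht : Horiz f t)
    (h : IsNext f (rr k i) t m) (h' : IsNext f (rr k j) t m')
    (ho : seg f t m ∉ PO (rr k i) (rho k i)) (ho' : seg f t m' ∉ PO (rr k j) (rho k j)) : False := by
  have c := (piece_cases hN hf (by have := ls_rr_two hk i; omega) ht h).2
  have c' := (piece_cases hN hf (by have := ls_rr_two hk j; omega) ht h').2
  simp only [PO, Set.mem_ofPred_eq, not_or] at ho ho'
  obtain ⟨o1, o2, o3, o4⟩ := ho
  obtain ⟨p1, p2, p3, p4⟩ := ho'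
  have hm : 0 < m := h.1
  have hm' : 0 < m' := h'.1
  have hbad : ∀ {a b : ℕ}, 0 < a → 0 < b → ∀ {R R' : ℕ}, IsArc Z1 R (seg f t a) →
      IsArc (-Z1) R' (seg f t b) → False := by
    intro a b ha hb R R' h1 h2
    have e1 := h1.ge 1 le_rfl (by rw [length_seg]; omega)
    have e2 := h2.ge 1 le_rfl (by rw [length_seg]; omega)
    rw [pos_seg (by omega)] at e1 e2
    simp only [AddMonoidHom.neg_apply, Z1_apply, Prod.fst_sub] at e1 e2
    omega
  rcases c with c | c | c | c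
  · exact o1 c
  · exact o2 c
  · rcases c' with c' | c' | c' | c'
    · exact p1 c'
    · exact p2 c'
    · exact p3 (ls_arc hf hk hij (Or.inl rfl) h h' c c')
    · exact hbad hm hm' c c'
  · rcases c' with c' | c' | c' | c'
    · exact p1 c'
    · exact p2 c'
    · exact hbad hm' hm c' c
    · exact p4 (ls_arc hf hk hij (Or.inr rfl) h h' c c')

/-- Section 8 of the paper: every crossing is a long arc for at most one scale -/
theorem sum_nL_le {N : ℕ} (hN : 1 ≤ N) {f : ℕ → ℤ × ℤ} (hf : IsLoop N f) (k J : ℕ) (hk : 1 ≤ k) :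
    ∑ i ∈ Finset.range J, nL N f (rr k i) (rho k i) (Lam k) (LL k i) ≤ N := by
  classical
  unfold nL
  rw [← Finset.card_biUnion]
  · calc _ ≤ (Finset.range N).card := by
          refine Finset.card_le_card ?_
          refine Finset.biUnion_subset.2 fun i _ => Finset.filter_subset _ _
      _ = N := Finset.card_range N
  · intro i _ j _ hij
    rw [Function.onFun, Finset.disjoint_left]
    intro t ht ht'
    rw [Finset.mem_filter] at ht ht'
    obtain ⟨_, hz, m, hm, _, hmo⟩ := ht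
    obtain ⟨_, _, m', hm', _, hmo'⟩ := ht'
    rcases lt_or_gt_of_ne hij with h | h
    · exact ls_one hN hf hk h hz hm hm' hmo hmo'
    · exact ls_one hN hf hk h hz hm' hm hmo' hmo

end Pool.Agent.Lib.MP_c23e5f_co
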