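import Pool.Agent.Lib.MP_c23e5f_co.Pieces

set_option autoImplicit false

namespace Pool.Agent.Lib.MP_c23e5f_co

theorem isLoop_shift {N : ℕ} {f : ℕ → ℤ × ℤ} (hf : IsLoop N f) (a : ℕ) :
    IsLoop N (fun i => f (a + i)) := by
  refine ⟨fun i => ?_, fun i => ?_, fun i j hi hj hij => ?_⟩
  · exact hf.step (a + i)
  · have := hf.per (a + i)
    simpa [add_assoc] using this
  · have hp : Function.Periodic f N := hf.per
    have hN : 0 < N := by omega
    have h1 := hp.map_mod_nat (a + i)
    have h2 := hp.map_mod_nat (a + j)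
    have h3 : f ((a + i) % N) = f ((a + j) % N) := by
      rw [h1, h2]; exact hij
    have h4 := hf.inj _ _ (Nat.mod_lt _ hN) (Nat.mod_lt _ hN) h3
    have h5 : a + i ≡ a + j [MOD N] := h4
    have h6 : i ≡ j [MOD N] := Nat.ModEq.add_left_cancel' a h5
    exact Nat.ModEq.eq_of_lt_of_lt h6 hi hj

private lemma seg_shift (f : ℕ → ℤ × ℤ) (a t m : ℕ) :
    seg (fun i => f (a + i)) t m = seg f (a + t) m := by
  simp [seg, add_assoc]

private lemma horiz_shift (f : ℕ → ℤ × ℤ) (a t : ℕ) :
    Horiz (fun i => f (a + i)) t ↔ Horiz f (a + t) := by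
  simp [Horiz, add_assoc]

private lemma col_shift (f : ℕ → ℤ × ℤ) (a t : ℕ) :
    col (fun i => f (a + i)) t = col f (a + t) := by
  simp [col, add_assoc]

private lemma cross_shift (f : ℕ → ℤ × ℤ) (a r : ℕ) (g : ℤ) (t : ℕ) :
    Cross (fun i => f (a + i)) r g t ↔ Cross f r g (a + t) := by
  simp only [Cross, horiz_shift, col_shift]

private lemma isNext_shift (f : ℕ → ℤ × ℤ) (a r t m : ℕ) :
    IsNext (fun i => f (a + i)) r t m ↔ IsNext f r (a + t) m := by
  simp only [IsNext, cross_shift, col_shift, add_assoc]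

private lemma shift_eq {N : ℕ} {f : ℕ → ℤ × ℤ} (hf : IsLoop N f) :
    (fun i => f (N + i)) = f := by
  funext i
  rw [add_comm]
  exact hf.per i

open Classical in
private lemma count_shift {N : ℕ} {f : ℕ → ℤ × ℤ} (hf : IsLoop N f) (a r : ℕ)
    (S : List (ℤ × ℤ) → Prop) :
    ((Finset.range N).filter (fun t => Horiz (fun i => f (a + i)) t ∧
      ∃ m, IsNext (fun i => f (a + i)) r t m ∧ S (seg (fun i => f (a + i)) t m))).card =
    ((Finset.range N).filter (fun t => Horiz f t ∧ ∃ m, IsNext f r t m ∧ S (seg f t m))).card := by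
  simp only [horiz_shift, isNext_shift, seg_shift]
  set P : ℕ → Prop := fun t => Horiz f t ∧ ∃ m, IsNext f r t m ∧ S (seg f t m) with hP
  have hper : Function.Periodic P N := by
    intro t
    have e := shift_eq hf
    have h1 : Horiz f (t + N) ↔ Horiz f t := by
      have := horiz_shift f N t
      rw [e] at this
      rw [add_comm t N]; exact this.symm
    have h2 : ∀ m, IsNext f r (t + N) m ↔ IsNext f r t m := by
      intro m
      have := isNext_shift f N r t m
      rw [e] at this
      rw [add_comm t N]; exact this.symm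
    have h3 : ∀ m, seg f (t + N) m = seg f t m := by
      intro m
      have := seg_shift f N t m
      rw [e] at this
      rw [add_comm t N]; exact this.symm
    simp only [hP, h1, h2, h3]
  have h4 : ((Finset.range N).filter (fun t => P (a + t))).card =
      ((Finset.Ico a (a + N)).filter P).card := by
    refine Finset.card_bij (fun t _ => a + t) ?_ ?_ ?_
    · intro t ht
      simp only [Finset.mem_filter, Finset.mem_range, Finset.mem_Ico] at ht ⊢
      exact ⟨⟨by omega, by omega⟩, ht.2⟩
    · intro t _ t' _ h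
      omega
    · intro s hs
      simp only [Finset.mem_filter, Finset.mem_Ico] at hs
      refine ⟨s - a, ?_, by omega⟩
      simp only [Finset.mem_filter, Finset.mem_range]
      refine ⟨by omega, ?_⟩
      have : a + (s - a) = s := by omega
      rw [this]; exact hs.2
  have h5 := Nat.filter_Ico_card_eq_of_periodic a N P hper
  have h6 := Nat.filter_Ico_card_eq_of_periodic 0 N P hper
  rw [h4, h5]
  rw [zero_add, Nat.Ico_zero_eq_range] at h6
  exact h6.symm

theorem nU_shift {N : ℕ} {f : ℕ → ℤ × ℤ} (hf : IsLoop N f) (a r ρ Λ L : ℕ) :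
    nU N (fun i => f (a + i)) r ρ Λ L = nU N f r ρ Λ L := by
  unfold nU
  exact count_shift hf a r (fun w => w ∈ PU r ρ Λ L)

theorem nL_shift {N : ℕ} {f : ℕ → ℤ × ℤ} (hf : IsLoop N f) (a r ρ Λ L : ℕ) :
    nL N (fun i => f (a + i)) r ρ Λ L = nL N f r ρ Λ L := by
  unfold nL
  exact count_shift hf a r (fun w => w ∉ PU r ρ Λ L ∧ w ∉ PO r ρ)

end Pool.Agent.Lib.MP_c23e5f_co
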