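import Pool.Agent.Lib.MP_c23e5f_co.FineStep
import Pool.Agent.Lib.MP_c23e5f_co.LongSum
import Pool.Agent.Lib.MP_c23e5f_co.Shift

set_option autoImplicit false

namespace Pool.Agent.Lib.MP_c23e5f_co

private lemma dt_sc_pos {k : ℕ} (hk : 1 ≤ k) (i : ℕ) : 1 ≤ sc k i := by
  induction i with
  | zero => simp [sc]
  | succ i ih =>
    rw [sc]
    have : 0 < 64 * k * (8 * (1600 * k * sc k i)) ^ (2 * Lam k + 2) := by positivity
    exact this

private lemma dt_rr_pos {k : ℕ} (hk : 1 ≤ k) (i : ℕ) : 1 ≤ rr k i := by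
  have h := dt_sc_pos hk i
  unfold rr rho
  have : 0 < (8 * (1600 * k * sc k i)) ^ (2 * Lam k + 2) := by positivity
  exact this

private lemma dt_sc_succ {k : ℕ} (hk : 1 ≤ k) (i : ℕ) : sc k i ≤ sc k (i + 1) := by
  rw [sc]
  have h1 : 8 * (1600 * k * sc k i) ≤ (8 * (1600 * k * sc k i)) ^ (2 * Lam k + 2) :=
    Nat.le_self_pow (by omega) _
  calc sc k i ≤ 8 * (1600 * k * sc k i) := by nlinarith [Nat.zero_le (sc k i)]
    _ ≤ (8 * (1600 * k * sc k i)) ^ (2 * Lam k + 2) := h1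
    _ ≤ 64 * k * (8 * (1600 * k * sc k i)) ^ (2 * Lam k + 2) := Nat.le_mul_of_pos_left _ (by omega)

private lemma dt_ext_of_le {f : ℕ → ℤ × ℤ} {n t : ℕ} (h : t ≤ n) : ext f n t = f t := by
  unfold ext
  rw [if_pos h]

private lemma dt_ext_step {f : ℕ → ℤ × ℤ} (hf : ∀ i, IsStep (f (i + 1) - f i)) (n i : ℕ) :
    IsStep (ext f n (i + 1) - ext f n i) := by
  unfold ext
  rcases lt_trichotomy i n with h | h | h
  · rw [if_pos (by omega), if_pos (by omega)]
    exact hf i
  · subst h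
    rw [if_neg (by omega), if_pos le_rfl]
    simp [IsStep]
  · rw [if_neg (by omega), if_neg (by omega)]
    have h1 : (((i + 1 - n : ℕ) : ℤ), (0 : ℤ)) = (((i - n : ℕ) : ℤ), (0 : ℤ)) + (1, 0) := by
      ext
      · simp only [Prod.fst_add]
        omega
      · simp
    rw [h1]
    have h2 : f n + ((((i - n : ℕ) : ℤ), (0 : ℤ)) + (1, 0)) - (f n + (((i - n : ℕ) : ℤ), (0 : ℤ))) =
        (1, 0) := by abel
    rw [h2]
    simp [IsStep]

private lemma dt_seg_ext {f : ℕ → ℤ × ℤ} {n t m : ℕ} (h : t + m ≤ n) :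
    seg (ext f n) t m = seg f t m := by
  unfold seg
  apply List.map_congr_left
  intro i hi
  rw [List.mem_range] at hi
  rw [dt_ext_of_le (by omega), dt_ext_of_le (by omega)]

/-- Section 9 of the paper, RESULT, for a loop starting at the left end -/
theorem det0 {k N : ℕ} (hk : 1 ≤ k) (hN : 1 ≤ N) {f : ℕ → ℤ × ℤ} (hf : IsLoop N f) {n W : ℕ}
    (hn : n < N) (hW : (f n).1 - (f 0).1 = W) (hkW : N ≤ k * W)
    (hbig : 32 * k * sc k (JJ k) ≤ N) :
    ∃ i < JJ k, N ≤ 128 * k ^ 2 * nU N f (rr k i) (rho k i) (Lam k) (LL k i) ∧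
      JJ k * nL N f (rr k i) (rho k i) (Lam k) (LL k i) ≤ 2 * N := by
  classical
  obtain ⟨T, hC, hT0, hφ⟩ := exists_chains k hk f hf.step n
  have hFstep := dt_ext_step hf.step n
  -- lengths
  have hLnn : ∀ i, 0 ≤ Lsum (ext f n) (T i) n := by
    intro i
    unfold Lsum vlen
    exact Finset.sum_nonneg (fun _ _ => norm_nonneg _)
  have hLmono : ∀ i, Lsum (ext f n) (T (i + 1)) n ≤ Lsum (ext f n) (T i) n := by
    intro i
    obtain ⟨φ, h1, h2, h3⟩ := hφ i
    have h4 : T (i + 1) = fun l => T i (φ l) := funext h3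
    have h5 := sum_excess_le (ext f n) (T i) φ (hC i).mono h1 n
    have h6 : 0 ≤ ∑ l ∈ (Finset.range n).filter (fun l => T i (φ (l + 1)) ≤ n),
        excess (ext f n) (T i) φ l :=
      Finset.sum_nonneg (fun l _ => excess_nonneg (ext f n) (T i) φ h1 l)
    rw [h4]
    linarith
  have hL0 : Lsum (ext f n) (T 0) n = n := Lsum_zero (ext f n) hFstep (T 0) hT0 n
  have hnN : (n : ℝ) ≤ N := by exact_mod_cast hn.le
  have hLN : ∀ i, Lsum (ext f n) (T i) n ≤ N := by
    intro i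
    induction i with
    | zero => rw [hL0]; exact hnN
    | succ i ih => exact (hLmono i).trans ih
  have hJ : 1 ≤ JJ k := by
    unfold JJ
    have : 0 < 10 ^ 12 * k ^ 4 := by positivity
    exact this
  obtain ⟨i, hi, h1, h2⟩ := exists_scale (JJ k) N hJ (fun i => Lsum (ext f n) (T i) n) hLnn hLmono
    (hLN 0) (fun i => nL N f (rr k i) (rho k i) (Lam k) (LL k i)) (sum_nL_le hN hf k (JJ k) hk)
  refine ⟨i, hi, ?_, h2⟩
  obtain ⟨φ, p1, p2, p3⟩ := hφ i
  have hTφ : T (i + 1) = fun l => T i (φ l) := funext p3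
  have hC' : IsChain (ext f n) (sc k (i + 1)) (fun l => T i (φ l)) := by
    rw [← hTφ]; exact hC (i + 1)
  have hscle : sc k (i + 1) ≤ sc k (JJ k) := monotone_nat_of_le_succ (dt_sc_succ hk) hi
  have hs'1 := dt_sc_pos hk (i + 1)
  have hbigW : 32 * sc k (i + 1) ≤ W := by
    have h3 : k * (32 * sc k (i + 1)) ≤ k * W := by
      calc k * (32 * sc k (i + 1)) = 32 * k * sc k (i + 1) := by ring
        _ ≤ 32 * k * sc k (JJ k) := Nat.mul_le_mul_left _ hscle
        _ ≤ N := hbig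
        _ ≤ k * W := hkW
    exact Nat.le_of_mul_le_mul_left h3 hk
  have hcard := card_fine (k := k) (N := N) (n := n) (W := W) (s' := sc k (i + 1)) hk hs'1
    (hC i).mono p1 p2 hC' hn.le (by rw [dt_ext_of_le le_rfl, dt_ext_of_le (Nat.zero_le _)]; exact hW)
    hkW hbigW (by rw [hTφ] at h1; exact h1) (by rw [← hTφ]; exact hLN (i + 1))
  set S : Finset ℕ := (Finset.range n).filter
      (fun l => T i (φ (l + 1)) ≤ n ∧ Fine k (ext f n) (T i) φ (sc k (i + 1)) l) with hS
  have hWS : W ≤ 4 * sc k (i + 1) * S.card := by exact_mod_cast hcard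
  -- the sets of starting points
  let G : ℕ → Finset ℕ := fun l =>
    (Finset.Ico (T i (φ l)) (T i (φ (l + 1)))).filter (fun t => ∃ m,
      t + m < T i (φ (l + 1)) ∧ (ext f n (t + m + 1)).1 = (ext f n (t + m)).1 + 1 ∧
        seg (ext f n) t m ∈ PU (rr k i) (rho k i) (Lam k) (32 * k * sc k (i + 1)))
  have hG : ∀ l ∈ S, 2 * rr k i ≤ (G l).card := by
    intro l hl
    rw [hS, Finset.mem_filter] at hl
    refine fine_step hk (dt_sc_pos hk i) rfl rfl rfl (hC i) hC' p1 l (fun t _ _ => hFstep t) ?_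
      hl.2.2
    intro a b _ hab hb
    rw [dt_ext_of_le (by omega), dt_ext_of_le (by omega)]
    intro hne
    have := hf.inj a b (by omega) (by omega) hne
    omega
  have hdisj : ∀ l ∈ S, ∀ l' ∈ S, l ≠ l' → Disjoint (G l) (G l') := by
    have hmono : StrictMono (fun l => T i (φ l)) := (hC i).mono.comp p1
    have haux : ∀ l l' : ℕ, l < l' → Disjoint (G l) (G l') := by
      intro l l' hll
      rw [Finset.disjoint_left]
      intro t ht ht'
      rw [Finset.mem_filter, Finset.mem_Ico] at ht ht'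
      have : T i (φ (l + 1)) ≤ T i (φ l') := hmono.monotone (by omega : l + 1 ≤ l')
      omega
    intro l _ l' _ hne
    rcases lt_or_gt_of_ne hne with h | h
    · exact haux l l' h
    · exact (haux l' l h).symm
  have hsub : S.biUnion G ⊆ (Finset.range N).filter (fun t => Horiz f t ∧ ∃ m,
      IsNext f (rr k i) t m ∧ seg f t m ∈ PU (rr k i) (rho k i) (Lam k) (LL k i)) := by
    intro t ht
    rw [Finset.mem_biUnion] at ht
    obtain ⟨l, hl, ht⟩ := ht
    rw [hS, Finset.mem_filter] at hl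
    rw [Finset.mem_filter, Finset.mem_Ico] at ht
    obtain ⟨⟨ht1, ht2⟩, m, hm1, hm2, hm3⟩ := ht
    have hle : T i (φ (l + 1)) ≤ n := hl.2.1
    rw [dt_ext_of_le (by omega), dt_ext_of_le (by omega)] at hm2
    rw [dt_seg_ext (by omega)] at hm3
    have hbr : IsBridge Z1 (rr k i) (seg f t m) := hm3.1
    obtain ⟨q1, q2⟩ := isNext_of_bridge (dt_rr_pos hk i) hbr hm2 (hf.step (t + m))
    rw [Finset.mem_filter, Finset.mem_range]
    exact ⟨by omega, q1, m, q2, hm3⟩
  have hcard2 : 2 * rr k i * S.card ≤ nU N f (rr k i) (rho k i) (Lam k) (LL k i) := by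
    have h3 : (S.biUnion G).card = ∑ l ∈ S, (G l).card :=
      Finset.card_biUnion (fun l hl l' hl' hne => hdisj l hl l' hl' hne)
    have h4 : S.card • (2 * rr k i) ≤ ∑ l ∈ S, (G l).card :=
      Finset.card_nsmul_le_sum S _ _ hG
    have h5 := Finset.card_le_card hsub
    rw [h3] at h5
    unfold nU
    rw [smul_eq_mul] at h4
    calc 2 * rr k i * S.card = S.card * (2 * rr k i) := by ring
      _ ≤ _ := h4
      _ ≤ _ := h5
  have hs' : sc k (i + 1) = 64 * k * rr k i := rfl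
  calc N ≤ k * W := hkW
    _ ≤ k * (4 * sc k (i + 1) * S.card) := Nat.mul_le_mul_left _ hWS
    _ = 128 * k ^ 2 * (2 * rr k i * S.card) := by rw [hs']; ring
    _ ≤ 128 * k ^ 2 * nU N f (rr k i) (rho k i) (Lam k) (LL k i) := Nat.mul_le_mul_left _ hcard2

private lemma dt_per {N : ℕ} {f : ℕ → ℤ × ℤ} (hf : IsLoop N f) (a q : ℕ) : f (a + N * q) = f a := by
  induction q with
  | zero => simp
  | succ q ih => rw [Nat.mul_succ, ← Nat.add_assoc, hf.per, ih]

/-- Section 9 of the paper, RESULT -/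
theorem det {k N : ℕ} (hk : 1 ≤ k) (hN : 1 ≤ N) {f : ℕ → ℤ × ℤ} (hf : IsLoop N f) {a b W : ℕ}
    (hW : (f b).1 - (f a).1 = W) (hkW : N ≤ k * W) (hbig : 32 * k * sc k (JJ k) ≤ N) :
    ∃ i < JJ k, N ≤ 128 * k ^ 2 * nU N f (rr k i) (rho k i) (Lam k) (LL k i) ∧
      JJ k * nL N f (rr k i) (rho k i) (Lam k) (LL k i) ≤ 2 * N := by
  have h1 : a ≤ b + N * a := by nlinarith
  set d := (b + N * a - a) % N with hd
  have h2 : b + N * a = (a + d) + N * ((b + N * a - a) / N) := by
    have := Nat.mod_add_div (b + N * a - a) N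
    omega
  have h3 : f (a + d) = f b := by
    rw [← dt_per hf (a + d) ((b + N * a - a) / N), ← h2, dt_per hf]
  have h4 := det0 hk hN (isLoop_shift hf a) (n := d) (W := W) (Nat.mod_lt _ (by omega))
    (by simpa only [h3, Nat.add_zero] using hW) hkW hbig
  simpa only [nU_shift hf, nL_shift hf] using h4

end Pool.Agent.Lib.MP_c23e5f_co
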