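import Pool.Agent.Lib.MP_c23e5f_co.Averages
import Pool.Agent.Lib.MP_c23e5f_co.Arc

set_option autoImplicit false

namespace Pool.Agent.Lib.MP_c23e5f_co

open scoped ENNReal

private lemma enc_rotate {N : ℕ} {f : ℕ → ℤ × ℤ} (hf : IsLoop N f) {t0 : ℕ} (ht : t0 < N) :
    (seg f 0 N).rotate t0 = seg f t0 N := by
  have h1 : seg f 0 N = seg f 0 t0 ++ seg f t0 (N - t0) := by
    have := seg_append f 0 t0 (N - t0)
    rw [zero_add, Nat.add_sub_cancel' ht.le] at this
    exact this.symm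
  have h2 : seg f t0 N = seg f t0 (N - t0) ++ seg f N t0 := by
    have := seg_append f t0 (N - t0) t0
    rw [Nat.add_sub_cancel' ht.le, Nat.sub_add_cancel ht.le] at this
    exact this.symm
  have h3 : seg f N t0 = seg f 0 t0 := by
    rw [seg, seg]
    apply List.map_congr_left
    intro i _
    rw [show N + i + 1 = (0 + i + 1) + N by ring, show N + i = (0 + i) + N by ring, hf.per, hf.per]
  rw [List.rotate_eq_drop_append_take (by rw [length_seg]; exact ht.le), h2, h3]
  congr 1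
  · rw [h1, List.drop_left' (length_seg f 0 t0)]
  · rw [h1, List.take_left' (length_seg f 0 t0)]

/-- Section 8 of the paper, (8) for one scale. -/
theorem enc {x : ℝ≥0∞} (hx : IsCrit x) {N : ℕ} (hN : 1 ≤ N) (r ρ Λ L : ℕ) (hr : 1 ≤ r)
    (hρ : 1 ≤ ρ) (G Z : ℝ) (hG : 0 ≤ G) (hZ : 0 < Z)
    (hPU : wt x (PU r ρ Λ L) ≤ ENNReal.ofReal (Real.exp (-G))) :
    wt x {w | ∃ f, IsLoop N f ∧ w = seg f 0 N ∧
        Z ≤ (G * nU N f r ρ Λ L - Real.log (4 * r) * nL N f r ρ Λ L - Real.log (24 * ρ) * N) / r} ≤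
      ENNReal.ofReal (N * (N + 1) * Real.exp (-Z)) := by
  have hr1 : (1 : ℝ) ≤ r := by exact_mod_cast hr
  have hρ1 : (1 : ℝ) ≤ ρ := by exact_mod_cast hρ
  set b : ℝ := Real.log (4 * r) with hb
  set a : ℝ := Real.log (24 * ρ) with ha
  have hb0 : 0 ≤ b := Real.log_nonneg (by linarith)
  have ha0 : 0 ≤ a := Real.log_nonneg (by linarith)
  have heb : Real.exp b = 4 * r := Real.exp_log (by linarith)
  have hea : Real.exp a = 24 * ρ := Real.exp_log (by linarith)
  let R : ℕ → Set (List (ℤ × ℤ)) := fun M =>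
    {w | ∃ ts : List (Fin 3), ts.length = M ∧ Z ≤ score G b a ts ∧ InCat (PP r ρ Λ L) ts w}
  let Q : ℕ × ℕ → Set (List (ℤ × ℤ)) := fun p => {w | w.length = N ∧ w.rotate p.1 ∈ R p.2}
  have hR : ∀ M, wt x (R M) ≤ ENNReal.ofReal (Real.exp (-Z)) := by
    intro M
    refine wt_good_le x (PP r ρ Λ L) M G b a Z hPU ?_ ?_ ?_
    · have h1 := wt_PO_le hx r ρ hρ
      refine le_trans (le_of_eq ?_) (h1.trans (le_of_eq ?_))
      · rfl
      · rw [hea, show (24 * (ρ : ℝ)) / 3 = 8 * ρ by ring, ENNReal.ofReal_mul (by norm_num),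
          ENNReal.ofReal_natCast]
        norm_num
    · have h1 := wt_PL_le hx r hr
      refine le_trans (le_of_eq ?_) (h1.trans (le_of_eq ?_))
      · rfl
      · rw [heb, ENNReal.ofReal_mul (by norm_num), ENNReal.ofReal_natCast]
        norm_num
    · rw [hea]; linarith
  have hQ : ∀ p, wt x (Q p) ≤ ENNReal.ofReal (Real.exp (-Z)) := by
    intro p
    refine le_trans (wt_le_of_injOn (fun w => w.rotate p.1) (fun w hw => hw.2) ?_ ?_) (hR p.2)
    · intro w _ w' _ h
      exact List.rotate_injective p.1 h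
    · intro w _
      exact List.length_rotate w p.1
  have hsub : {w | ∃ f, IsLoop N f ∧ w = seg f 0 N ∧
        Z ≤ (G * nU N f r ρ Λ L - b * nL N f r ρ Λ L - a * N) / r} ⊆
      ⋃ p ∈ Finset.range N ×ˢ Finset.range (N + 1), Q p := by
    rintro w ⟨f, hf, rfl, h⟩
    obtain ⟨t0, ht0, ts, hts, hsc, hcat⟩ :=
      exists_cat hN hf r ρ Λ L hr G b a Z hG hb0 ha0 hZ h
    simp only [Set.mem_iUnion]
    refine ⟨(t0, ts.length), ?_, ?_, ?_⟩
    · simp only [Finset.mem_product, Finset.mem_range]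
      omega
    · exact length_seg f 0 N
    · refine ⟨ts, rfl, hsc, ?_⟩
      simp only
      rw [enc_rotate hf ht0]
      exact hcat
  refine (wt_mono hsub).trans ((wt_biUnion_le x _ Q).trans ?_)
  refine (Finset.sum_le_sum (fun p _ => hQ p)).trans (le_of_eq ?_)
  rw [Finset.sum_const, Finset.card_product, Finset.card_range, Finset.card_range, nsmul_eq_mul,
    ENNReal.ofReal_mul (by positivity)]
  congr 1
  rw [ENNReal.ofReal_mul (by positivity), ENNReal.ofReal_natCast,
    show (N : ℝ) + 1 = ((N + 1 : ℕ) : ℝ) by push_cast; ring, ENNReal.ofReal_natCast]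
  push_cast
  ring

end Pool.Agent.Lib.MP_c23e5f_co
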