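import Pool.Agent.Lib.MP_c23e5f_co.Basic

section

set_option autoImplicit false

namespace Pool.Agent.Lib.MP_c23e5f_co

open scoped ENNReal

private lemma isBridge_append {F : ℤ × ℤ →+ ℤ} {T n : ℕ} {u v : List (ℤ × ℤ)}
    (hu : IsBridge F T u) (hv : IsBridge F (n * T) v) : IsBridge F ((n + 1) * T) (u ++ v) := by
  have hT : ((((n + 1) * T : ℕ)) : ℤ) = T + ((n * T : ℕ) : ℤ) := by push_cast; ring
  refine ⟨IsSaw.append hu.saw hv.saw ?_, ?_, ?_, ?_⟩
  · intro i j hi hj1 hj h
    have h1 := hu.le i hi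
    have h2 := hv.gt j hj1 hj
    have h3 := congrArg F h
    rw [map_add, hu.ht] at h3
    omega
  · intro i hi1 hi
    rw [List.length_append] at hi
    rcases le_or_gt i u.length with h | h
    · rw [pos_append_left h]; exact hu.gt i hi1 h
    · rw [pos_append_right' h.le, map_add, hu.ht]
      have := hv.gt (i - u.length) (by omega) (by omega)
      omega
  · intro i hi
    rw [List.length_append] at hi
    rw [hT]
    rcases le_or_gt i u.length with h | h
    · rw [pos_append_left h]
      have := hu.le i h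
      omega
    · rw [pos_append_right' h.le, map_add, hu.ht]
      have := hv.le (i - u.length) (by omega)
      omega
  · rw [List.sum_append, map_add, hu.ht, hv.ht, hT]

private lemma isBridge_append_len {F : ℤ × ℤ →+ ℤ} {T n : ℕ} {u v u' v' : List (ℤ × ℤ)}
    (hu : IsBridge F T u) (hv : IsBridge F (n * T) v) (hu' : IsBridge F T u')
    (h : u ++ v = u' ++ v') : u'.length ≤ u.length := by
  by_contra hlt
  push Not at hlt
  have hlen := congrArg List.length h
  rw [List.length_append, List.length_append] at hlen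
  have h1 : pos (u ++ v) (u.length + 1) = u.sum + pos v 1 := pos_append_right u v 1
  have h2 : pos (u' ++ v') (u.length + 1) = pos u' (u.length + 1) := pos_append_left hlt
  have h3 := hu'.le (u.length + 1) hlt
  have h4 := hv.gt 1 le_rfl (by omega)
  rw [h, h2] at h1
  rw [h1, map_add, hu.ht] at h3
  omega

private lemma isBridge_nil (F : ℤ × ℤ →+ ℤ) : IsBridge F 0 [] :=
  ⟨isSaw_nil, fun i h1 h2 => by simp at h2; omega, fun i hi => by simp [pos], by simp⟩

private lemma pow_wt_le (y : ℝ≥0∞) (F : ℤ × ℤ →+ ℤ) (T n : ℕ) :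
    (wt y {w | IsBridge F T w}) ^ n ≤ wt y {w | IsBridge F (n * T) w} := by
  induction n with
  | zero =>
    rw [pow_zero, ← wt_singleton_nil y]
    apply wt_mono
    rintro w rfl
    show IsBridge F (0 * T) []
    rw [zero_mul]
    exact isBridge_nil F
  | succ n ih =>
    rw [pow_succ']
    refine (mul_le_mul_right ih _).trans ?_
    refine wt_mul_le_of_injOn y _ _ _ ?_ ?_
    · intro u hu v hv
      exact isBridge_append hu hv
    · intro u hu v hv u' hu' v' hv' h
      have h1 := isBridge_append_len hu hv hu' h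
      have h2 := isBridge_append_len hu' hv' hu h.symm
      exact List.append_inj_left h (le_antisymm h2 h1)

private lemma wt_lt_one {x y : ℝ≥0∞} (hx : IsCrit x) (hy : y < x) (F : ℤ × ℤ →+ ℤ) {T : ℕ}
    (hT : 1 ≤ T) : wt y {w | IsBridge F T w} < 1 := by
  by_contra hge
  push Not at hge
  apply hx.fin y hy
  have h1 : ∀ n : ℕ, 1 ≤ wt y {w | IsBridge F (n * T) w} := by
    intro n
    exact (one_le_pow₀ hge).trans (pow_wt_le y F T n)
  have h2 : ∑' n : ℕ, wt y {w | IsBridge F (n * T) w} ≤ wt y {w | IsSaw w} := by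
    unfold wt
    rw [← ENNReal.tsum_sigma (f := fun (n : ℕ) (w : {w | IsBridge F (n * T) w}) =>
      y ^ (w : List (ℤ × ℤ)).length)]
    apply ENNReal.tsum_comp_le_tsum_of_injective
      (f := fun p : (n : ℕ) × {w | IsBridge F (n * T) w} =>
        (⟨(p.2 : List (ℤ × ℤ)), p.2.2.saw⟩ : {w | IsSaw w}))
      (g := fun w : {w | IsSaw w} => y ^ (w : List (ℤ × ℤ)).length)
    rintro ⟨n, w, hw⟩ ⟨m, w', hw'⟩ h
    simp only [Subtype.mk.injEq] at h
    subst h
    have e := hw.ht.symm.trans hw'.ht
    have e2 : n = m := by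
      have e3 : n * T = m * T := by exact_mod_cast e
      exact Nat.eq_of_mul_eq_mul_right (by omega) e3
    subst e2
    rfl
  have h3 : (⊤ : ℝ≥0∞) ≤ ∑' n : ℕ, wt y {w | IsBridge F (n * T) w} := by
    have : ∑' _ : ℕ, (1 : ℝ≥0∞) = ⊤ := ENNReal.tsum_const_eq_top_of_ne_zero one_ne_zero
    rw [← this]
    exact ENNReal.tsum_le_tsum h1
  exact top_le_iff.1 (h3.trans h2)

/-- Section 2 of the paper, (F3). -/
theorem wt_bridge_le_one {x : ℝ≥0∞} (hx : IsCrit x) (F : ℤ × ℤ →+ ℤ) (T : ℕ) :
    wt x {w | IsBridge F T w} ≤ 1 := by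
  rcases Nat.eq_zero_or_pos T with rfl | hT
  · rw [← wt_singleton_nil x]
    apply wt_mono
    intro w hw
    have hw : IsBridge F 0 w := hw
    rw [Set.mem_singleton_iff]
    by_contra hne
    have hl : 1 ≤ w.length := by
      rcases w with _ | ⟨a, w⟩
      · exact absurd rfl hne
      · simp
    have h1 := hw.gt 1 le_rfl hl
    have h2 := hw.le 1 hl
    simp only [Nat.cast_zero] at h2
    omega
  · unfold wt
    rw [ENNReal.tsum_eq_iSup_sum]
    refine iSup_le fun s => ?_
    have hcont : Continuous fun y : ℝ≥0∞ => ∑ w ∈ s, y ^ (w : List (ℤ × ℤ)).length :=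
      continuous_finsetSum _ fun w _ => ENNReal.continuous_pow _
    have htend : Filter.Tendsto (fun y : ℝ≥0∞ => ∑ w ∈ s, y ^ (w : List (ℤ × ℤ)).length)
        (nhdsWithin x (Set.Iio x)) (nhds (∑ w ∈ s, x ^ (w : List (ℤ × ℤ)).length)) :=
      (hcont.tendsto x).mono_left nhdsWithin_le_nhds
    have hx0 : (0 : ℝ≥0∞) < x := lt_of_lt_of_le (by simp) hx.quarter_le
    have : (nhdsWithin x (Set.Iio x)).NeBot := nhdsLT_neBot_of_exists_lt ⟨0, hx0⟩
    refine le_of_tendsto htend (Filter.eventually_of_mem self_mem_nhdsWithin fun y hy => ?_)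
    refine le_trans ?_ (wt_lt_one hx hy F hT).le
    exact ENNReal.sum_le_tsum s

end Pool.Agent.Lib.MP_c23e5f_co
end

section

set_option autoImplicit false

namespace Pool.Agent.Lib.MP_c23e5f_co

open scoped ENNReal

/-- self-avoiding words of length `n` -/
private def crS (n : ℕ) : Set (List (ℤ × ℤ)) := {w | IsSaw w ∧ w.length = n}

private lemma crS_finite (n : ℕ) : (crS n).Finite :=
  (finite_words n).subset fun _ hw => ⟨hw.1.step, hw.2⟩

private noncomputable def crc (n : ℕ) : ℕ := (crS n).ncard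

private lemma wt_crS (y : ℝ≥0∞) (n : ℕ) : wt y (crS n) = (crc n : ℝ≥0∞) * y ^ n := by
  have hfin : Finite (crS n) := (crS_finite n).to_subtype
  have : Fintype (crS n) := Fintype.ofFinite _
  have h1 : ∀ w : crS n, y ^ (w : List (ℤ × ℤ)).length = y ^ n := fun w => by rw [w.2.2]
  rw [wt, tsum_congr h1, tsum_fintype, Finset.sum_const, nsmul_eq_mul, Finset.card_univ, crc,
    ← Nat.card_coe_set_eq, Nat.card_eq_fintype_card]

private lemma crc_mul (m n : ℕ) : crc (m + n) ≤ crc m * crc n := by
  rw [crc, crc, crc, ← Set.ncard_prod]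
  refine Set.ncard_le_ncard_of_injOn (fun w => (w.take m, w.drop m)) ?_ ?_
    ((crS_finite m).prod (crS_finite n))
  · intro w hw
    refine ⟨⟨hw.1.take m, ?_⟩, ⟨hw.1.drop m, ?_⟩⟩
    · have := hw.2
      simp only [List.length_take]
      omega
    · have := hw.2
      simp only [List.length_drop]
      omega
  · intro a _ b _ hab
    have h1 : a.take m = b.take m := congrArg Prod.fst hab
    have h2 : a.drop m = b.drop m := congrArg Prod.snd hab
    rw [← List.take_append_drop m a, ← List.take_append_drop m b, h1, h2]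

private lemma crc_pos (n : ℕ) : 1 ≤ crc n := by
  rw [crc, Nat.one_le_iff_ne_zero]
  refine Set.ncard_ne_zero_of_mem (a := List.replicate n ((1 : ℤ), (0 : ℤ))) ⟨?_, ?_⟩ (crS_finite n)
  · have hpos : ∀ i, i ≤ n → pos (List.replicate n ((1 : ℤ), (0 : ℤ))) i = ((i : ℤ), 0) := by
      intro i hi
      rw [pos, List.take_replicate, List.sum_replicate, min_eq_left hi]
      simp
    refine ⟨fun v hv => ?_, fun i j hij hj => ?_⟩
    · rw [List.eq_of_mem_replicate hv]
      simp [IsStep]
    · rw [List.length_replicate] at hj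
      rw [hpos i (by omega), hpos j hj]
      intro h
      have := congrArg Prod.fst h
      simp only [Nat.cast_inj] at this
      omega
  · exact List.length_replicate

private lemma crc_zero : crc 0 ≤ 1 := by
  rw [crc, ← Set.ncard_singleton ([] : List (ℤ × ℤ))]
  refine Set.ncard_le_ncard ?_ (Set.finite_singleton _)
  intro w hw
  exact List.length_eq_zero_iff.1 hw.2

private lemma crc_one : crc 1 ≤ 4 := by
  have h1 : crS 1 ⊆ (fun v : ℤ × ℤ => [v]) ''
      (({(1, 0), (-1, 0), (0, 1), (0, -1)} : Finset (ℤ × ℤ)) : Set (ℤ × ℤ)) := by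
    intro w hw
    obtain ⟨v, rfl⟩ := List.length_eq_one_iff.1 hw.2
    exact ⟨v, isStep_iff.1 (hw.1.step v (List.mem_singleton.2 rfl)), rfl⟩
  rw [crc]
  refine (Set.ncard_le_ncard h1 ((Finset.finite_toSet _).image _)).trans ?_
  refine (Set.ncard_image_le (Finset.finite_toSet _)).trans ?_
  rw [Set.ncard_coe_finset]
  decide

/-- Section 1 of the paper (Fekete). -/
theorem exists_crit : ∃ x : ℝ≥0∞, IsCrit x := by
  have hc1 : ∀ n, (1 : ℝ) ≤ crc n := fun n => by exact_mod_cast crc_pos n
  have hsub : Subadditive (fun n => Real.log (crc n)) := by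
    intro m n
    have h1 : (crc (m + n) : ℝ) ≤ crc m * crc n := by exact_mod_cast crc_mul m n
    calc Real.log (crc (m + n)) ≤ Real.log ((crc m : ℝ) * crc n) :=
          Real.log_le_log (by linarith [hc1 (m + n)]) h1
      _ = _ := Real.log_mul (by linarith [hc1 m]) (by linarith [hc1 n])
  have hlog0 : ∀ n, 0 ≤ Real.log (crc n) := fun n => Real.log_nonneg (hc1 n)
  have hbdd : BddBelow (Set.range fun n : ℕ => Real.log (crc n) / n) := by
    refine ⟨0, ?_⟩
    rintro _ ⟨n, rfl⟩
    exact div_nonneg (hlog0 n) (Nat.cast_nonneg n)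
  have htend := hsub.tendsto_lim hbdd
  set ell := hsub.lim with hell
  have hell0 : 0 ≤ ell := ge_of_tendsto' htend fun n => div_nonneg (hlog0 n) (Nat.cast_nonneg n)
  have hle : ∀ n : ℕ, n * ell ≤ Real.log (crc n) := by
    intro n
    rcases Nat.eq_zero_or_pos n with rfl | hn
    · simpa using hlog0 0
    · have h1 := hsub.lim_le_div hbdd hn.ne'
      have hn' : (0 : ℝ) < n := by exact_mod_cast hn
      rw [le_div_iff₀ hn'] at h1
      linarith
  have hell4 : ell ≤ Real.log 4 := by
    have h1 := hle 1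
    have h2 : Real.log (crc 1) ≤ Real.log 4 :=
      Real.log_le_log (by linarith [hc1 1]) (by exact_mod_cast crc_one)
    simp only [Nat.cast_one, one_mul] at h1
    linarith
  have hexp : 0 < Real.exp (-ell) := Real.exp_pos _
  refine ⟨ENNReal.ofReal (Real.exp (-ell)), ?_, ?_, ?_, ?_⟩
  · have h4 : (4⁻¹ : ℝ≥0∞) = ENNReal.ofReal (4⁻¹) := by
      rw [ENNReal.ofReal_inv_of_pos (by norm_num)]
      norm_num
    rw [h4]
    refine ENNReal.ofReal_le_ofReal ?_
    calc (4 : ℝ)⁻¹ = Real.exp (-Real.log 4) := by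
          rw [Real.exp_neg, Real.exp_log (by norm_num)]
      _ ≤ _ := Real.exp_le_exp.2 (by linarith)
  · rw [← ENNReal.ofReal_one]
    exact ENNReal.ofReal_le_ofReal (Real.exp_le_one_iff.2 (by linarith))
  · intro n
    change 1 ≤ wt _ (crS n)
    rw [wt_crS, ← ENNReal.ofReal_pow hexp.le, ← ENNReal.ofReal_natCast,
      ← ENNReal.ofReal_mul (by positivity), ← ENNReal.ofReal_one]
    refine ENNReal.ofReal_le_ofReal ?_
    have h1 : Real.exp (n * ell) ≤ crc n := by
      calc Real.exp (n * ell) ≤ Real.exp (Real.log (crc n)) := Real.exp_le_exp.2 (hle n)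
        _ = _ := Real.exp_log (by linarith [hc1 n])
    calc (1 : ℝ) = Real.exp (n * ell) * Real.exp (-ell) ^ n := by
          rw [← Real.exp_nat_mul, ← Real.exp_add]
          rw [show (n : ℝ) * ell + n * -ell = 0 by ring, Real.exp_zero]
      _ ≤ crc n * Real.exp (-ell) ^ n := mul_le_mul_of_nonneg_right h1 (by positivity)
  · intro y hy
    obtain ⟨y2, hy2, hy3⟩ := exists_between hy
    have hy2t : y2 ≠ ⊤ := (hy3.trans ENNReal.ofReal_lt_top).ne
    have hmono : wt y {w | IsSaw w} ≤ wt y2 {w | IsSaw w} := by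
      unfold wt
      exact ENNReal.tsum_le_tsum fun w => pow_le_pow_left₀ zero_le hy2.le _
    refine ne_top_of_le_ne_top ?_ hmono
    have hsubset : {w : List (ℤ × ℤ) | IsSaw w} ⊆ ⋃ n, crS n := by
      intro w hw
      exact Set.mem_iUnion.2 ⟨w.length, hw, rfl⟩
    refine ne_top_of_le_ne_top ?_ ((wt_mono hsubset).trans (wt_iUnion_le _ _))
    set z := y2.toReal with hz
    have hz0 : 0 < z := ENNReal.toReal_pos (ne_bot_of_gt hy2) hy2t
    have hyz : y2 = ENNReal.ofReal z := (ENNReal.ofReal_toReal hy2t).symm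
    have hz1 : z < Real.exp (-ell) := by
      rw [hyz] at hy3
      exact (ENNReal.ofReal_lt_ofReal_iff hexp).1 hy3
    have hz2 : Real.log z < -ell := by
      rw [← Real.log_exp (-ell)]
      exact Real.log_lt_log hz0 hz1
    set th := (ell - Real.log z) / 2 with hth
    have hth1 : ell < th := by rw [hth]; linarith
    have hth2 : th + Real.log z < 0 := by rw [hth]; linarith
    have hsum : Summable (fun n : ℕ => (crc n : ℝ) * z ^ n) := by
      refine Summable.of_norm_bounded_eventually_nat (g := fun n => (Real.exp (th + Real.log z)) ^ n)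
        (summable_geometric_of_lt_one (Real.exp_pos _).le (Real.exp_lt_one_iff.2 hth2)) ?_
      have h1 := htend.eventually_lt_const hth1
      filter_upwards [h1, Filter.eventually_gt_atTop 0] with n hn hn0
      have hn' : (0 : ℝ) < n := by exact_mod_cast hn0
      rw [div_lt_iff₀ hn'] at hn
      rw [Real.norm_of_nonneg (by positivity), ← Real.exp_nat_mul, mul_add, Real.exp_add]
      have h2 : (crc n : ℝ) ≤ Real.exp (n * th) := by
        rw [← Real.log_le_iff_le_exp (by linarith [hc1 n])]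
        linarith
      have h3 : Real.exp (n * Real.log z) = z ^ n := by
        rw [Real.exp_nat_mul, Real.exp_log hz0]
      rw [h3]
      exact mul_le_mul_of_nonneg_right h2 (by positivity)
    have h5 : ∀ n, wt y2 (crS n) = ENNReal.ofReal ((crc n : ℝ) * z ^ n) := by
      intro n
      rw [wt_crS, hyz, ← ENNReal.ofReal_pow hz0.le, ← ENNReal.ofReal_natCast,
        ← ENNReal.ofReal_mul (by positivity)]
    rw [tsum_congr h5]
    exact hsum.tsum_ofReal_ne_top

end Pool.Agent.Lib.MP_c23e5f_co
end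

section

set_option autoImplicit false

namespace Pool.Agent.Lib.MP_c23e5f_co

open scoped ENNReal

private theorem tr_mod {N : ℕ} {f : ℕ → ℤ × ℤ} (hf : IsLoop N f) (t : ℕ) : f (t % N) = f t :=
  Function.Periodic.map_mod_nat (f := f) (a := N) hf.per t

/-- the word determines the loop started at the origin -/
theorem loop_ext {N : ℕ} (hN : 1 ≤ N) {f g : ℕ → ℤ × ℤ} (hf : IsLoop N f) (hg : IsLoop N g)
    (hf0 : f 0 = 0) (hg0 : g 0 = 0) (h : seg f 0 N = seg g 0 N) : f = g := by
  have key : ∀ t ≤ N, f t = g t := by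
    intro t ht
    have h1 := pos_seg (f := f) (t := 0) (n := N) ht
    have h2 := pos_seg (f := g) (t := 0) (n := N) ht
    rw [h, h2, hf0, hg0, Nat.zero_add, sub_zero, sub_zero] at h1
    exact h1.symm
  funext t
  rw [← tr_mod hf t, ← tr_mod hg t]
  exact key _ (Nat.mod_lt _ hN).le

private theorem tr_seg_step {N : ℕ} {f : ℕ → ℤ × ℤ} (hf : IsLoop N f) :
    ∀ v ∈ seg f 0 N, IsStep v := by
  intro v hv
  simp only [seg, List.mem_map, List.mem_range] at hv
  obtain ⟨i, _, rfl⟩ := hv
  exact hf.step _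

theorem finite_loops {N : ℕ} (hN : 1 ≤ N) : {f : ℕ → ℤ × ℤ | IsLoop N f ∧ f 0 = 0}.Finite := by
  refine Set.Finite.of_injOn (f := fun f : ℕ → ℤ × ℤ => seg f 0 N) ?_ ?_ (finite_words N)
  · intro f hf
    exact ⟨tr_seg_step hf.1, length_seg _ _ _⟩
  · intro f hf g hg hfg
    exact loop_ext hN hf.1 hg.1 hf.2 hg.2 hfg

/-- loops and loop words -/
theorem isLoopWord_iff {N : ℕ} (hN : 1 ≤ N) (w : List (ℤ × ℤ)) :
    IsLoopWord N w ↔ ∃ f, (IsLoop N f ∧ f 0 = 0) ∧ w = seg f 0 N := by
  constructor
  · intro hw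
    set f : ℕ → ℤ × ℤ := fun t => pos w (t % N) with hfdef
    have hf : ∀ k ≤ N, f k = pos w k := by
      intro k hk
      rcases hk.lt_or_eq with h | h
      · simp only [hfdef]
        rw [Nat.mod_eq_of_lt h]
      · subst h
        simp only [hfdef]
        rw [Nat.mod_self, pos_zero, ← hw.sum, ← pos_length, hw.length]
    have hper : ∀ i, f (i + N) = f i := by
      intro i
      simp only [hfdef]
      rw [Nat.add_mod_right]
    have hmod : ∀ i, f i = f (i % N) := by
      intro i
      simp only [hfdef]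
      rw [Nat.mod_mod]
    have hsucc : ∀ i, f (i + 1) = f (i % N + 1) := by
      intro i
      simp only [hfdef]
      rw [Nat.mod_add_mod]
    have hstep : ∀ k (hk : k < w.length), f (k + 1) - f k = w[k] := by
      intro k hk
      have hkN : k < N := hw.length ▸ hk
      rw [hf (k + 1) hkN, hf k hkN.le]
      exact pos_succ_sub hk
    refine ⟨f, ⟨⟨?_, hper, ?_⟩, ?_⟩, ?_⟩
    · intro i
      rw [hsucc, hmod i]
      have hlt : i % N < w.length := by rw [hw.length]; exact Nat.mod_lt _ hN
      rw [hstep _ hlt]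
      exact hw.step _ (List.getElem_mem hlt)
    · intro i j hi hj hij
      rw [hf i hi.le, hf j hj.le] at hij
      rcases lt_trichotomy i j with h | h | h
      · exact absurd hij (hw.inj i j h hj)
      · exact h
      · exact absurd hij.symm (hw.inj j i h hi)
    · rw [hf 0 (Nat.zero_le _), pos_zero]
    · apply List.ext_getElem
      · rw [length_seg, hw.length]
      · intro k hk1 hk2
        have := hstep k hk1
        simp only [seg, List.getElem_map, List.getElem_range, Nat.zero_add]
        exact this.symm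
  · rintro ⟨f, ⟨hf, hf0⟩, rfl⟩
    refine ⟨length_seg _ _ _, tr_seg_step hf, ?_, ?_⟩
    · rw [sum_seg, hf0, sub_zero]
      have := hf.per 0
      rw [Nat.zero_add] at this ⊢
      rw [this, hf0]
    · intro i j hij hj he
      rw [pos_seg (hij.le.trans hj.le), pos_seg hj.le, Nat.zero_add, Nat.zero_add] at he
      have : f i = f j := sub_left_injective he
      exact absurd (hf.inj i j (hij.trans hj) hj this) hij.ne

/-- the weight of a set of loops -/
theorem wt_loops {N : ℕ} (hN : 1 ≤ N) (x : ℝ≥0∞) (A : Set (ℕ → ℤ × ℤ))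
    (hA : ∀ f ∈ A, IsLoop N f ∧ f 0 = 0) :
    wt x {w | ∃ f ∈ A, w = seg f 0 N} = A.ncard * x ^ N := by
  classical
  have hAfin : A.Finite := (finite_loops hN).subset hA
  have himg : {w | ∃ f ∈ A, w = seg f 0 N} = (fun f : ℕ → ℤ × ℤ => seg f 0 N) '' A := by
    ext w
    constructor
    · rintro ⟨f, hf, rfl⟩
      exact ⟨f, hf, rfl⟩
    · rintro ⟨f, hf, rfl⟩
      exact ⟨f, hf, rfl⟩
  have hinj : Set.InjOn (fun f : ℕ → ℤ × ℤ => seg f 0 N) A := by
    intro f hf g hg hfg
    exact loop_ext hN (hA f hf).1 (hA g hg).1 (hA f hf).2 (hA g hg).2 hfg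
  rw [himg]
  set B : Set (List (ℤ × ℤ)) := (fun f : ℕ → ℤ × ℤ => seg f 0 N) '' A with hB
  have hBfin : B.Finite := hAfin.image _
  have : Finite B := hBfin.to_subtype
  have : Fintype B := Fintype.ofFinite B
  have hcard : Fintype.card B = A.ncard := by
    rw [← Nat.card_eq_fintype_card, Nat.card_coe_set_eq, hB, hinj.ncard_image]
  unfold wt
  have h1 : ∀ w : B, x ^ (w : List (ℤ × ℤ)).length = x ^ N := by
    rintro ⟨_, f, _, rfl⟩
    simp only [length_seg]
  rw [tsum_congr h1, tsum_fintype, Finset.sum_const, Finset.card_univ, hcard, nsmul_eq_mul]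

end Pool.Agent.Lib.MP_c23e5f_co
end

section

section

set_option autoImplicit false

namespace Pool.Agent.Lib.MP_c23e5f_co

/-- half-space words -/
structure IsHalf (w : List (ℤ × ℤ)) : Prop where
  saw : IsSaw w
  gt : ∀ i, 1 ≤ i → i ≤ w.length → 0 < (pos w i).1

/-- number of the self-avoiding words of length `n` -/
noncomputable def cN (n : ℕ) : ℕ := {w : List (ℤ × ℤ) | IsSaw w ∧ w.length = n}.ncard

/-- number of the half-space words of length `n` -/
noncomputable def hN (n : ℕ) : ℕ := {w : List (ℤ × ℤ) | IsHalf w ∧ w.length = n}.ncard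

/-- number of the bridges of length `n` (of any height) -/
noncomputable def bN (n : ℕ) : ℕ :=
  {w : List (ℤ × ℤ) | (∃ T, IsBridge Z1 T w) ∧ w.length = n}.ncard

/-- number of the loop words of length `n` -/
noncomputable def lN (n : ℕ) : ℕ := {w : List (ℤ × ℤ) | IsLoopWord n w}.ncard

end Pool.Agent.Lib.MP_c23e5f_co
end

section

set_option autoImplicit false

namespace Pool.Agent.Lib.MP_c23e5f_co

/-- the reflection in the second axis -/
private def refl1 : ℤ × ℤ →+ ℤ × ℤ where
  toFun v := (-v.1, v.2)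
  map_zero' := by simp
  map_add' u v := by ext <;> simp; ring

private lemma refl1_apply (v : ℤ × ℤ) : refl1 v = (-v.1, v.2) := rfl

private lemma refl1_refl1 (v : ℤ × ℤ) : refl1 (refl1 v) = v := by
  rw [refl1_apply, refl1_apply]; simp

private lemma refl1_inj : Function.Injective refl1 := by
  intro a b h
  rw [← refl1_refl1 a, ← refl1_refl1 b, h]

private lemma refl1_step (v : ℤ × ℤ) (hv : IsStep v) : IsStep (refl1 v) := by
  simp only [IsStep, refl1_apply] at *
  omega

/-- the last index with first coordinate at most `A` -/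
private def lastIdx (A : ℕ) (β : List (ℤ × ℤ)) : ℕ :=
  Nat.findGreatest (fun i => (pos β i).1 ≤ (A : ℤ)) β.length

/-- the decoding map -/
private def dec : List ℕ → List (ℤ × ℤ) → List (ℤ × ℤ)
  | [], β => β
  | A :: As, β => β.take (lastIdx A β) ++ (dec As (β.drop (lastIdx A β))).map refl1

private lemma fst_pos_le {w : List (ℤ × ℤ)} (hw : ∀ v ∈ w, IsStep v) (i : ℕ) (hi : i ≤ w.length) :
    (pos w i).1 ≤ i := by
  induction i with
  | zero => simp
  | succ i ih =>
    have h1 := isForm_pos isForm_Z1 hw i (by omega)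
    have h2 := ih (by omega)
    rw [abs_le] at h1
    simp only [Z1_apply] at h1
    push_cast
    linarith [h1.2]

private lemma decr_len (As : List ℕ) (h1 : As.Pairwise (· > ·)) (h2 : ∀ a ∈ As, 0 < a) :
    (∀ M, (∀ a ∈ As, a ≤ M) → As.length ≤ M) ∧ As.length * (As.length + 1) ≤ 2 * As.sum := by
  induction As with
  | nil => simp
  | cons A As ih =>
    rw [List.pairwise_cons] at h1
    obtain ⟨i1, i2⟩ := ih h1.2 (fun a ha => h2 a (List.mem_cons_of_mem _ ha))
    have hA : 0 < A := h2 A List.mem_cons_self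
    have h3 : As.length ≤ A - 1 := i1 (A - 1) (fun a ha => by have := h1.1 a ha; omega)
    constructor
    · intro M hM
      have := hM A List.mem_cons_self
      rw [List.length_cons]
      omega
    · rw [List.length_cons, List.sum_cons]
      have h4 : As.length + 1 ≤ A := by omega
      nlinarith

private lemma exists_dec : ∀ (n : ℕ) (w : List (ℤ × ℤ)) (_ : w.length = n) (M : ℕ) (_ : IsHalf w)
    (_ : ∀ i, i ≤ w.length → (pos w i).1 ≤ (M : ℤ)),
    ∃ (As : List ℕ) (β : List (ℤ × ℤ)), As.Pairwise (· > ·) ∧ (∀ a ∈ As, 0 < a ∧ a ≤ M) ∧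
      IsBridge Z1 As.sum β ∧ β.length = w.length ∧ dec As β = w := by
  intro n
  induction n using Nat.strong_induction_on with
  | _ n ih =>
  intro w hwn M hw hM
  rcases Nat.eq_zero_or_pos n with h0 | hpos
  · have hnil : w = [] := List.length_eq_zero_iff.1 (by omega)
    subst hnil
    refine ⟨[], [], List.Pairwise.nil, by simp, ?_, rfl, rfl⟩
    refine ⟨isSaw_nil, ?_, ?_, by simp⟩
    · intro i h1 h2
      simp only [List.length_nil] at h2
      omega
    · intro i hi
      simp only [List.length_nil, Nat.le_zero] at hi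
      subst hi
      simp
  · -- the maximum of the first coordinate
    obtain ⟨i0, hi0, hmax⟩ := Finset.exists_max_image (Finset.range (w.length + 1))
      (fun i => (pos w i).1) ⟨0, by simp⟩
    have hmax' : ∀ i, i ≤ w.length → (pos w i).1 ≤ (pos w i0).1 :=
      fun i hi => hmax i (Finset.mem_range.2 (by omega))
    have hi0' : i0 ≤ w.length := by have := Finset.mem_range.1 hi0; omega
    have h1pos : 0 < (pos w i0).1 := lt_of_lt_of_le (hw.gt 1 le_rfl (by omega)) (hmax' 1 (by omega))
    obtain ⟨A, hA⟩ : ∃ A : ℕ, (pos w i0).1 = (A : ℤ) := ⟨((pos w i0).1).toNat, by omega⟩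
    have hAM : A ≤ M := by have := hM i0 hi0'; omega
    have hA0 : 0 < A := by omega
    -- the last index
    set n1 := Nat.findGreatest (fun i => (pos w i).1 = (A : ℤ)) w.length with hn1
    have hn1P : (pos w n1).1 = (A : ℤ) :=
      Nat.findGreatest_spec (P := fun i => (pos w i).1 = (A : ℤ)) hi0' hA
    have hn1le : n1 ≤ w.length := Nat.findGreatest_le _
    have hlast : ∀ i, n1 < i → i ≤ w.length → (pos w i).1 < (A : ℤ) := by
      intro i h1 h2
      have h3 := hmax' i h2
      have h4 : ¬ ((pos w i).1 = (A : ℤ)) :=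
        Nat.findGreatest_is_greatest (P := fun i => (pos w i).1 = (A : ℤ)) h1 h2
      rw [hA] at h3
      exact lt_of_le_of_ne h3 h4
    have hn1pos : 0 < n1 := by
      rcases Nat.eq_zero_or_pos n1 with h | h
      · rw [h] at hn1P
        simp only [pos_zero, Prod.fst_zero] at hn1P
        omega
      · exact h
    -- the rest of the word
    set v := (w.drop n1).map refl1 with hv
    have hvlen : v.length = w.length - n1 := by rw [hv]; simp
    have hvpos : ∀ i, (pos v i).1 = A - (pos w (n1 + i)).1 := by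
      intro i
      rw [hv, pos_map, refl1_apply, pos_drop, Prod.fst_sub, hn1P]
      ring
    have hvhalf : IsHalf v := by
      refine ⟨(hw.saw.drop n1).map refl1 refl1_inj refl1_step, ?_⟩
      intro i h1 h2
      rw [hvpos]
      have := hlast (n1 + i) (by omega) (by omega)
      linarith
    have hvM : ∀ i, i ≤ v.length → (pos v i).1 ≤ ((A - 1 : ℕ) : ℤ) := by
      intro i hi
      rw [hvpos]
      have := hw.gt (n1 + i) (by omega) (by omega)
      omega
    obtain ⟨As, β, hP, hAs, hβ, hlen, hdec⟩ := ih v.length (by omega) v rfl (A - 1) hvhalf hvM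
    set u := w.take n1 with hu
    have hulen : u.length = n1 := by rw [hu]; simp [hn1le]
    have husum : u.sum.1 = (A : ℤ) := by
      rw [← hn1P]; rfl
    have hupos : ∀ i, i ≤ n1 → pos u i = pos w i := fun i hi => by rw [hu, pos_take hi]
    have hbpos : ∀ i, n1 ≤ i → (pos (u ++ β) i).1 = A + (pos β (i - n1)).1 := by
      intro i hi
      rw [pos_append_right' (by omega), hulen, Prod.fst_add, husum]
    have hbgt : ∀ i, n1 < i → i ≤ (u ++ β).length → (A : ℤ) < (pos (u ++ β) i).1 := by
      intro i hi hi2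
      rw [List.length_append, hulen] at hi2
      rw [hbpos i hi.le]
      have := hβ.gt (i - n1) (by omega) (by omega)
      simp only [Z1_apply] at this
      linarith
    have hble : ∀ i, i ≤ n1 → (pos (u ++ β) i) = pos w i := by
      intro i hi
      rw [pos_append_left (by omega), hupos i hi]
    refine ⟨A :: As, u ++ β, ?_, ?_, ?_, ?_, ?_⟩
    · rw [List.pairwise_cons]
      exact ⟨fun a ha => by have := (hAs a ha).2; omega, hP⟩
    · intro a ha
      rcases List.mem_cons.1 ha with rfl | ha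
      · exact ⟨hA0, hAM⟩
      · have := hAs a ha
        exact ⟨this.1, by omega⟩
    · refine ⟨?_, ?_, ?_, ?_⟩
      · refine IsSaw.append (hw.saw.take n1) hβ.saw ?_
        intro i j hi hj1 hj2 h
        have h1 : (pos u i).1 ≤ (A : ℤ) := by
          rw [hupos i (by omega), ← hA]
          exact hmax' i (by omega)
        have h2 := congrArg Prod.fst h
        rw [Prod.fst_add] at h2
        have h3 := hβ.gt j hj1 hj2
        simp only [Z1_apply] at h3
        change (pos u i).1 = u.sum.1 + (pos β j).1 at h2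
        linarith
      · intro i h1 h2
        simp only [Z1_apply]
        rcases le_or_gt i n1 with h | h
        · rw [hble i h]
          exact hw.gt i h1 (by omega)
        · have := hbgt i h h2
          linarith [(by exact_mod_cast Nat.zero_le A : (0 : ℤ) ≤ A)]
      · intro i h2
        simp only [Z1_apply, List.sum_cons]
        rw [List.length_append, hulen] at h2
        rcases le_or_gt i n1 with h | h
        · rw [hble i h]
          have := hmax' i (by omega)
          rw [Nat.cast_add]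
          have h5 : (0 : ℤ) ≤ (As.sum : ℤ) := Int.natCast_nonneg _
          rw [hA] at this
          linarith
        · rw [hbpos i h.le]
          have := hβ.le (i - n1) (by omega)
          simp only [Z1_apply] at this
          rw [Nat.cast_add]
          linarith
      · rw [List.sum_append, map_add, hβ.ht]
        simp only [Z1_apply, List.sum_cons]
        rw [husum, Nat.cast_add]
    · rw [List.length_append, hlen, hvlen, hulen]
      omega
    · have hidx : lastIdx A (u ++ β) = n1 := by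
        unfold lastIdx
        rw [Nat.findGreatest_eq_iff]
        refine ⟨by rw [List.length_append]; omega, ?_, ?_⟩
        · intro _
          rw [hble n1 le_rfl, hn1P]
        · intro i h1 h2
          have := hbgt i h1 h2
          exact not_le.2 this
      rw [dec, hidx]
      rw [List.take_left' hulen, List.drop_left' hulen, hdec, hv, List.map_map]
      have : (refl1 ∘ refl1 : ℤ × ℤ → ℤ × ℤ) = id := by
        funext x; exact refl1_refl1 x
      rw [this, List.map_id, hu, List.take_append_drop]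

private lemma ofFn_pad (As : List ℕ) (K : ℕ) (h : As.length ≤ K) :
    List.ofFn (fun i : Fin K => As.getD i 0) = As ++ List.replicate (K - As.length) 0 := by
  apply List.ext_getElem
  · simp; omega
  · intro i h1 h2
    rw [List.getElem_ofFn]
    rcases lt_or_ge i As.length with h3 | h3
    · rw [List.getElem_append_left h3]
      simp [List.getD, h3]
    · rw [List.getElem_append_right h3]
      simp [List.getD, h3]

/-- Hammersley-Welsh: half-space words and bridges -/
theorem hN_le (n : ℕ) : hN n ≤ (n + 1) ^ (Nat.sqrt (2 * n) + 1) * bN n := by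
  classical
  set K := Nat.sqrt (2 * n) + 1 with hK
  set Bs := {w : List (ℤ × ℤ) | (∃ T, IsBridge Z1 T w) ∧ w.length = n} with hBs
  have hBfin : Bs.Finite := by
    refine (finite_words n).subset ?_
    rintro w ⟨⟨T, hT⟩, hw⟩
    exact ⟨hT.saw.step, hw⟩
  set D : (Fin K → Fin (n + 1)) × List (ℤ × ℤ) → List (ℤ × ℤ) := fun p =>
    dec ((List.ofFn (fun i => ((p.1 i : Fin (n + 1)) : ℕ))).filter (fun a => decide (a ≠ 0))) p.2
    with hD
  have hsub : {w : List (ℤ × ℤ) | IsHalf w ∧ w.length = n}
      ⊆ D '' ((Set.univ : Set (Fin K → Fin (n + 1))) ×ˢ Bs) := by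
    rintro w ⟨hw, hwn⟩
    obtain ⟨As, β, hP, hAs, hβ, hlen, hdec⟩ := exists_dec w.length w rfl n hw
      (fun i hi => by
        have := fst_pos_le hw.saw.step i hi
        have h2 : (i : ℤ) ≤ n := by exact_mod_cast hwn ▸ hi
        linarith)
    have hsum : As.sum ≤ n := by
      have h1 := fst_pos_le hβ.saw.step β.length le_rfl
      rw [pos_length] at h1
      have h2 := hβ.ht
      simp only [Z1_apply] at h2
      rw [h2, hlen, hwn] at h1
      exact_mod_cast h1
    have hlenA : As.length ≤ K := by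
      have h1 := (decr_len As hP (fun a ha => (hAs a ha).1)).2
      have h2 : As.length * As.length ≤ 2 * n := by nlinarith
      have h3 := Nat.le_sqrt.2 h2
      omega
    have hval : ∀ i : Fin K, As.getD i 0 < n + 1 := by
      intro i
      rcases lt_or_ge (i : ℕ) As.length with h3 | h3
      · have h4 : As.getD i 0 = As[(i : ℕ)] := by simp [List.getD, h3]
        rw [h4]
        have := (hAs _ (List.getElem_mem h3)).2
        omega
      · have h4 : As.getD i 0 = 0 := by simp [List.getD, h3]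
        rw [h4]; omega
    refine ⟨((fun i => ⟨As.getD i 0, hval i⟩ : Fin K → Fin (n + 1)), β),
      ⟨Set.mem_univ _, ⟨⟨As.sum, hβ⟩, hlen.trans hwn⟩⟩, ?_⟩
    · rw [hD]
      simp only
      rw [ofFn_pad As K hlenA, List.filter_append]
      have e1 : As.filter (fun a => decide (a ≠ 0)) = As := by
        rw [List.filter_eq_self]
        intro a ha
        have := (hAs a ha).1
        simp; omega
      have e2 : (List.replicate (K - As.length) 0).filter (fun a => decide (a ≠ 0)) = [] := by
        simp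
      rw [e1, e2, List.append_nil, hdec]
  have hfinS : ((Set.univ : Set (Fin K → Fin (n + 1))) ×ˢ Bs).Finite :=
    Set.finite_univ.prod hBfin
  unfold hN bN
  calc _ ≤ (D '' ((Set.univ : Set (Fin K → Fin (n + 1))) ×ˢ Bs)).ncard :=
        Set.ncard_le_ncard hsub (hfinS.image _)
    _ ≤ ((Set.univ : Set (Fin K → Fin (n + 1))) ×ˢ Bs).ncard := Set.ncard_image_le hfinS
    _ = _ := by
        rw [Set.ncard_prod, Set.ncard_univ, Nat.card_eq_fintype_card, Fintype.card_fun,
          Fintype.card_fin, Fintype.card_fin]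

end Pool.Agent.Lib.MP_c23e5f_co
end

section

set_option autoImplicit false

namespace Pool.Agent.Lib.MP_c23e5f_co

private lemma pos_cons_succ9 (a : ℤ × ℤ) (u : List (ℤ × ℤ)) (i : ℕ) :
    pos (a :: u) (i + 1) = a + pos u i := by
  simp [pos]

private lemma sum_bound9 (w : List (ℤ × ℤ)) (hw : ∀ v ∈ w, IsStep v) :
    |w.sum.1| ≤ w.length ∧ |w.sum.2| ≤ w.length := by
  induction w with
  | nil => simp
  | cons a w ih =>
    have h1 := ih (fun v hv => hw v (List.mem_cons_of_mem _ hv))
    have h2 : IsStep a := hw a List.mem_cons_self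
    simp only [IsStep] at h2
    simp only [List.sum_cons, Prod.fst_add, Prod.snd_add, List.length_cons, abs_le] at h1 ⊢
    push_cast
    omega

/-- bridges of length `m` with sum `X` -/
private def BX9 (m : ℕ) (X : ℤ × ℤ) : Set (List (ℤ × ℤ)) :=
  {w | ((∃ T, IsBridge Z1 T w) ∧ w.length = m) ∧ w.sum = X}

/-- self-avoiding words of length `m` with sum `X` on one side -/
private def SX9 (m : ℕ) (X : ℤ × ℤ) (c : ℤ × ℤ →+ ℤ) : Set (List (ℤ × ℤ)) :=
  {w | IsSaw w ∧ w.length = m ∧ w.sum = X ∧ ∀ i, i ≤ m → 0 ≤ c (pos w i)}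

private lemma fin_BX9 (m : ℕ) (X : ℤ × ℤ) : (BX9 m X).Finite :=
  (finite_words m).subset (fun w hw => by
    obtain ⟨⟨⟨T, hT⟩, h⟩, -⟩ := hw
    exact ⟨hT.saw.step, h⟩)

private lemma fin_SX9 (m : ℕ) (X : ℤ × ℤ) (c : ℤ × ℤ →+ ℤ) : (SX9 m X c).Finite :=
  (finite_words m).subset (fun _ hw => ⟨hw.1.step, hw.2.1⟩)

private lemma fin_bridge9 (n : ℕ) :
    {w : List (ℤ × ℤ) | (∃ T, IsBridge Z1 T w) ∧ w.length = n}.Finite :=
  (finite_words n).subset (fun w hw => by
    obtain ⟨⟨T, hT⟩, h⟩ := hw
    exact ⟨hT.saw.step, h⟩)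

private lemma fin_loop9 (n : ℕ) : {w : List (ℤ × ℤ) | IsLoopWord n w}.Finite :=
  (finite_words n).subset (fun w (hw : IsLoopWord n w) => ⟨hw.step, hw.length⟩)

private lemma saw_double9 {T : ℕ} {w : List (ℤ × ℤ)} (h : IsBridge Z1 T w) : IsSaw (w ++ w) := by
  apply h.saw.append h.saw
  intro i j hi h1j hj heq
  have h1 := h.le i hi
  have h2 := h.gt j h1j hj
  have h3 := h.ht
  rw [Z1_apply] at h1 h2 h3
  have h4 := congrArg Prod.fst heq
  simp only [Prod.fst_add] at h4
  omega

private lemma rot9 {m : ℕ} {X : ℤ × ℤ} {w : List (ℤ × ℤ)} (hw : w ∈ BX9 m X) {j : ℕ}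
    (hj : j < m) (c : ℤ × ℤ →+ ℤ) (hmin : ∀ i, i ≤ m → c (pos w j) ≤ c (pos w i))
    (hc : c X = 0) : w.drop j ++ w.take j ∈ SX9 m X c := by
  obtain ⟨⟨⟨T, hT⟩, hlen⟩, hsum⟩ := hw
  have h1 : w.drop j ++ w.take j = ((w ++ w).drop j).take m := by
    have h0 : (w.drop j).length = m - j := by rw [List.length_drop, hlen]
    rw [List.drop_append_of_le_length (by omega), List.take_append, h0,
      List.take_of_length_le (l := w.drop j) (by omega), show m - (m - j) = j by omega]
  have h2 : IsSaw (w.drop j ++ w.take j) := by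
    rw [h1]
    exact ((saw_double9 hT).drop j).take m
  refine ⟨h2, ?_, ?_, ?_⟩
  · rw [List.length_append, List.length_drop, List.length_take]
    omega
  · rw [List.sum_append, sum_drop, ← hsum]
    have : (w.take j).sum = pos w j := rfl
    rw [this]
    abel
  · intro i hi
    rw [h1, pos_take hi, pos_drop, pos_append_left (by omega : j ≤ w.length), map_sub]
    rcases le_or_gt (j + i) w.length with h3 | h3
    · rw [pos_append_left h3]
      have := hmin (j + i) (by omega)
      omega
    · rw [pos_append_right' h3.le, map_add, hsum, hc]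
      have := hmin (j + i - w.length) (by omega)
      omega

private lemma card_BX9 (m : ℕ) (hm : 1 ≤ m) (X : ℤ × ℤ) (c : ℤ × ℤ →+ ℤ) (hc : c X = 0) :
    (BX9 m X).ncard ≤ m * (SX9 m X c).ncard := by
  classical
  have hex : ∀ w : List (ℤ × ℤ), ∃ j, (w ∈ BX9 m X → j < m ∧
      (∀ i, i ≤ m → c (pos w j) ≤ c (pos w i))) := by
    intro w
    obtain ⟨j, hj, hmin⟩ := Finset.exists_min_image (Finset.range m)
      (fun i => c (pos w i)) ⟨0, by simp; omega⟩
    refine ⟨j, fun hw => ⟨by simpa using hj, fun i hi => ?_⟩⟩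
    rcases Nat.lt_or_ge i m with h1 | h1
    · exact hmin i (by simpa using h1)
    · obtain rfl : i = m := by omega
      have h2 := hmin 0 (by rw [Finset.mem_range]; omega)
      simp only [pos_zero, map_zero] at h2
      have h3 : pos w i = X := by
        rw [← hw.2, ← hw.1.2, pos_length]
      rw [h3, hc]
      exact h2
  choose j hj using hex
  rw [Set.ncard_eq_toFinset_card _ (fin_BX9 m X), Set.ncard_eq_toFinset_card _ (fin_SX9 m X c)]
  have e : m * (fin_SX9 m X c).toFinset.card
      = (Finset.range m ×ˢ (fin_SX9 m X c).toFinset).card := by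
    rw [Finset.card_product, Finset.card_range]
  rw [e]
  refine Finset.card_le_card_of_injOn (fun w => (j w, w.drop (j w) ++ w.take (j w))) ?_ ?_
  · intro w hw
    have hw' : w ∈ BX9 m X := by simpa using hw
    obtain ⟨h1, h2⟩ := hj w hw'
    simp only [Finset.coe_product, Set.mem_prod, Finset.mem_coe, Finset.mem_range,
      Set.Finite.mem_toFinset]
    exact ⟨h1, rot9 hw' h1 c h2 hc⟩
  · intro w hw w' hw' heq
    have hw1 : w ∈ BX9 m X := by simpa using hw
    have hw1' : w' ∈ BX9 m X := by simpa using hw'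
    simp only [Prod.mk.injEq] at heq
    obtain ⟨h1, h2⟩ := heq
    have h3 := hw1.1.2
    have h3' := hw1'.1.2
    rw [← h1] at h2
    obtain ⟨h4, h5⟩ := List.append_inj h2 (by rw [List.length_drop, List.length_drop, h3, h3'])
    rw [← List.take_append_drop (j w) w, ← List.take_append_drop (j w) w', h4, h5]

/-- the cross product with `X` -/
private def cr9 (X : ℤ × ℤ) : ℤ × ℤ →+ ℤ where
  toFun v := X.1 * v.2 - X.2 * v.1
  map_zero' := by simp
  map_add' u v := by simp only [Prod.fst_add, Prod.snd_add]; ring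

private lemma cr9_apply (X v : ℤ × ℤ) : cr9 X v = X.1 * v.2 - X.2 * v.1 := rfl

/-- the loop word -/
private def lw9 (U V : List (ℤ × ℤ)) : List (ℤ × ℤ) := (0, 1) :: (U ++ ((0, -1) :: rev V))

private lemma lw9_mem {m : ℕ} {X : ℤ × ℤ} (hX : 0 < X.1) {U V : List (ℤ × ℤ)}
    (hU : U ∈ SX9 m X (cr9 X)) (hV : V ∈ SX9 m X (-cr9 X)) : IsLoopWord (2 * m + 2) (lw9 U V) := by
  obtain ⟨hU1, hU2, hU3, hU4⟩ := hU
  obtain ⟨hV1, hV2, hV3, hV4⟩ := hV
  have hA : ∀ i, i ≤ m → pos (lw9 U V) (i + 1) = (0, 1) + pos U i := by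
    intro i hi
    rw [lw9, pos_cons_succ9, pos_append_left (by omega)]
  have hB : ∀ k, k ≤ m → pos (lw9 U V) (m + 1 + k + 1) = pos V (m - k) := by
    intro k hk
    rw [lw9, pos_cons_succ9, pos_append_right' (by omega), hU2, hU3,
      show m + 1 + k - m = k + 1 by omega, pos_cons_succ9, pos_rev (by omega), hV2, hV3]
    ext <;> simp only [Prod.fst_add, Prod.snd_add, Prod.fst_sub, Prod.snd_sub] <;> ring
  have hcA : ∀ i, i ≤ m → 0 < cr9 X (pos (lw9 U V) (i + 1)) := by
    intro i hi
    rw [hA i hi, map_add]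
    have h1 := hU4 i hi
    have h2 : cr9 X (0, 1) = X.1 := by rw [cr9_apply]; simp
    omega
  have hcB : ∀ k, k ≤ m → cr9 X (pos (lw9 U V) (m + 1 + k + 1)) ≤ 0 := by
    intro k hk
    rw [hB k hk]
    have h1 := hV4 (m - k) (by omega)
    simp only [AddMonoidHom.neg_apply] at h1
    omega
  refine ⟨?_, ?_, ?_, ?_⟩
  · simp only [lw9, List.length_cons, List.length_append, length_rev]
    omega
  · intro v hv
    simp only [lw9, List.mem_cons, List.mem_append] at hv
    rcases hv with rfl | hv | rfl | hv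
    · simp [IsStep]
    · exact hU1.step v hv
    · simp [IsStep]
    · exact hV1.rev.step v hv
  · simp only [lw9, List.sum_cons, List.sum_append, sum_rev, hU3, hV3]
    ext <;> simp
  · intro i j hij hj heq
    rcases Nat.eq_zero_or_pos i with rfl | hi
    · rw [pos_zero] at heq
      rcases Nat.lt_or_ge j (m + 2) with h1 | h1
      · have h2 := hcA (j - 1) (by omega)
        rw [show j - 1 + 1 = j by omega, ← heq, map_zero] at h2
        omega
      · have h2 := hB (j - (m + 2)) (by omega)
        rw [show m + 1 + (j - (m + 2)) + 1 = j by omega, ← heq, ← pos_zero V] at h2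
        exact hV1.inj 0 (m - (j - (m + 2))) (by omega) (by omega) h2
    · rcases Nat.lt_or_ge i (m + 2) with h0 | h0
      · rcases Nat.lt_or_ge j (m + 2) with h1 | h1
        · have h2 := hA (i - 1) (by omega)
          have h3 := hA (j - 1) (by omega)
          rw [show i - 1 + 1 = i by omega] at h2
          rw [show j - 1 + 1 = j by omega, ← heq, h2] at h3
          exact hU1.inj (i - 1) (j - 1) (by omega) (by omega) (add_left_cancel h3)
        · have h2 := hcA (i - 1) (by omega)
          have h3 := hcB (j - (m + 2)) (by omega)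
          rw [show i - 1 + 1 = i by omega] at h2
          rw [show m + 1 + (j - (m + 2)) + 1 = j by omega, ← heq] at h3
          omega
      · have h2 := hB (i - (m + 2)) (by omega)
        have h3 := hB (j - (m + 2)) (by omega)
        rw [show m + 1 + (i - (m + 2)) + 1 = i by omega] at h2
        rw [show m + 1 + (j - (m + 2)) + 1 = j by omega, ← heq, h2] at h3
        exact hV1.inj (m - (j - (m + 2))) (m - (i - (m + 2))) (by omega) (by omega) h3.symm

private lemma card_prod9 (m : ℕ) (X : ℤ × ℤ) (hX : 0 < X.1) :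
    (SX9 m X (cr9 X)).ncard * (SX9 m X (-cr9 X)).ncard ≤ lN (2 * m + 2) := by
  rw [← Set.ncard_prod]
  unfold lN
  refine Set.ncard_le_ncard_of_injOn (fun p => lw9 p.1 p.2) ?_ ?_ (fin_loop9 _)
  · rintro ⟨U, V⟩ ⟨hU, hV⟩
    exact lw9_mem hX hU hV
  · rintro ⟨U, V⟩ ⟨hU, hV⟩ ⟨U', V'⟩ ⟨hU', hV'⟩ heq
    simp only at hU hV hU' hV' heq
    simp only [lw9, List.cons.injEq, true_and] at heq
    obtain ⟨h1, h2⟩ := List.append_inj heq (by rw [hU.2.1, hU'.2.1])
    simp only [List.cons.injEq, true_and] at h2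
    rw [h1, rev_injective h2]

private lemma exists_X9 (m : ℕ) (hm : 1 ≤ m) :
    ∃ X : ℤ × ℤ, 0 < X.1 ∧ bN m ≤ (m * (2 * m + 1)) * (BX9 m X).ncard := by
  classical
  set t : Finset (ℤ × ℤ) := Finset.Icc 1 (m : ℤ) ×ˢ Finset.Icc (-(m : ℤ)) m with ht
  have htc : t.card = m * (2 * m + 1) := by
    rw [ht, Finset.card_product, Int.card_Icc, Int.card_Icc]
    congr 1 <;> omega
  have htne : t.Nonempty := ⟨(1, 0), by
    simp only [ht, Finset.mem_product, Finset.mem_Icc]
    omega⟩
  obtain ⟨X, hX, hmax⟩ := Finset.exists_max_image t (fun X => (BX9 m X).ncard) htne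
  refine ⟨X, ?_, ?_⟩
  · simp only [ht, Finset.mem_product, Finset.mem_Icc] at hX
    omega
  · unfold bN
    rw [Set.ncard_eq_toFinset_card _ (fin_bridge9 m)]
    rw [Finset.card_eq_sum_card_fiberwise (f := fun w : List (ℤ × ℤ) => w.sum) (t := t)]
    · rw [← htc, ← smul_eq_mul]
      apply Finset.sum_le_card_nsmul
      intro Y hY
      refine le_trans (le_of_eq ?_) (hmax Y hY)
      rw [← Set.ncard_coe_finset]
      congr 1
      ext w
      simp only [Finset.coe_filter, Set.Finite.mem_toFinset, Set.mem_ofPred_eq, BX9]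
    · intro w hw
      have hw' : (∃ T, IsBridge Z1 T w) ∧ w.length = m := by simpa using hw
      obtain ⟨⟨T, hT⟩, hlen⟩ := hw'
      have h1 := sum_bound9 w hT.saw.step
      have h2 := hT.gt m hm hlen.ge
      have h3 : pos w m = w.sum := by rw [← hlen, pos_length]
      rw [h3, Z1_apply] at h2
      simp only [abs_le] at h1
      simp only [ht, Finset.coe_product, Set.mem_prod, Finset.mem_coe, Finset.mem_Icc]
      omega

/-- two bridges with the same displacement give a loop -/
theorem bN_sq_le (m : ℕ) (hm : 1 ≤ m) :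
    (bN m) ^ 2 ≤ (m * (m * (2 * m + 1))) ^ 2 * lN (2 * m + 2) := by
  obtain ⟨X, hX, h1⟩ := exists_X9 m hm
  have hc : cr9 X X = 0 := by rw [cr9_apply]; ring
  have hc' : (-cr9 X) X = 0 := by rw [AddMonoidHom.neg_apply, hc, neg_zero]
  have h2 := card_BX9 m hm X (cr9 X) hc
  have h3 := card_BX9 m hm X (-cr9 X) hc'
  have h4 := card_prod9 m X hX
  calc (bN m) ^ 2 ≤ ((m * (2 * m + 1)) * (BX9 m X).ncard) ^ 2 := Nat.pow_le_pow_left h1 2
    _ = (m * (2 * m + 1)) ^ 2 * ((BX9 m X).ncard * (BX9 m X).ncard) := by ring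
    _ ≤ (m * (2 * m + 1)) ^ 2 * ((m * (SX9 m X (cr9 X)).ncard) * (m * (SX9 m X (-cr9 X)).ncard)) :=
        Nat.mul_le_mul_left _ (Nat.mul_le_mul h2 h3)
    _ = (m * (m * (2 * m + 1))) ^ 2 * ((SX9 m X (cr9 X)).ncard * (SX9 m X (-cr9 X)).ncard) := by ring
    _ ≤ _ := Nat.mul_le_mul_left _ h4

end Pool.Agent.Lib.MP_c23e5f_co
end

section

set_option autoImplicit false

namespace Pool.Agent.Lib.MP_c23e5f_co

private lemma fin_saw8 (n : ℕ) : {w : List (ℤ × ℤ) | IsSaw w ∧ w.length = n}.Finite :=
  (finite_words n).subset (fun _ hw => ⟨hw.1.step, hw.2⟩)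

private lemma fin_half8 (n : ℕ) : {w : List (ℤ × ℤ) | IsHalf w ∧ w.length = n}.Finite :=
  (finite_words n).subset (fun _ hw => ⟨hw.1.saw.step, hw.2⟩)

private lemma fin_bridge8 (n : ℕ) :
    {w : List (ℤ × ℤ) | (∃ T, IsBridge Z1 T w) ∧ w.length = n}.Finite :=
  (finite_words n).subset (fun w hw => by
    obtain ⟨⟨T, hT⟩, h⟩ := hw
    exact ⟨hT.saw.step, h⟩)

private lemma exists_last_min8 (w : List (ℤ × ℤ)) : ∃ m, m ≤ w.length ∧
    (∀ i, i ≤ w.length → (pos w m).1 ≤ (pos w i).1) ∧
    (∀ i, m < i → i ≤ w.length → (pos w m).1 < (pos w i).1) := by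
  classical
  obtain ⟨m0, hm0, hmin⟩ := Finset.exists_min_image (Finset.range (w.length + 1))
    (fun i => (pos w i).1) ⟨0, by simp⟩
  have hne : ((Finset.range (w.length + 1)).filter
      (fun i => (pos w i).1 = (pos w m0).1)).Nonempty := ⟨m0, by simpa using hm0⟩
  have hmem := Finset.max'_mem _ hne
  have hmax := Finset.le_max' ((Finset.range (w.length + 1)).filter
      (fun i => (pos w i).1 = (pos w m0).1))
  set m := ((Finset.range (w.length + 1)).filter
      (fun i => (pos w i).1 = (pos w m0).1)).max' hne with hm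
  rw [Finset.mem_filter, Finset.mem_range] at hmem
  refine ⟨m, by omega, fun i hi => ?_, fun i h1 hi => ?_⟩
  · rw [hmem.2]
    exact hmin i (by rw [Finset.mem_range]; omega)
  · have h2 := hmin i (by rw [Finset.mem_range]; omega)
    rw [hmem.2]
    rcases lt_or_eq_of_le h2 with h3 | h3
    · exact h3
    · exfalso
      have h4 := hmax i (by rw [Finset.mem_filter, Finset.mem_range]; exact ⟨by omega, h3.symm⟩)
      omega

private lemma pos_cons_succ8 (a : ℤ × ℤ) (u : List (ℤ × ℤ)) (i : ℕ) :
    pos (a :: u) (i + 1) = a + pos u i := by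
  simp [pos]

private lemma isHalf_cons8 {u : List (ℤ × ℤ)} (hu : IsSaw u)
    (h : ∀ i, i ≤ u.length → 0 ≤ (pos u i).1) : IsHalf ((1, 0) :: u) := by
  have h1 : IsSaw [((1, 0) : ℤ × ℤ)] := by
    refine ⟨?_, ?_⟩
    · intro v hv
      rw [List.mem_singleton] at hv
      subst hv
      simp [IsStep]
    · intro i j hij hj
      simp only [List.length_singleton] at hj
      obtain rfl : j = 1 := by omega
      obtain rfl : i = 0 := by omega
      rw [pos_zero, show (1 : ℕ) = 0 + 1 by rfl, pos_cons_succ8, pos_zero]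
      intro h2
      have := congrArg Prod.fst h2
      simp at this
  refine ⟨?_, ?_⟩
  · have := h1.append hu ?_
    · exact this
    · intro i j hi h1j hj heq
      simp only [List.length_singleton] at hi
      simp only [List.sum_cons, List.sum_nil, add_zero] at heq
      have h2 := h j hj
      rcases Nat.lt_or_ge 0 i with h3 | h3
      · obtain rfl : i = 1 := by omega
        rw [show (1 : ℕ) = 0 + 1 by rfl, pos_cons_succ8, pos_zero] at heq
        have h4 : pos u 0 = pos u j := by
          rw [pos_zero]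
          exact add_left_cancel heq
        exact hu.inj 0 j (by omega) hj h4
      · obtain rfl : i = 0 := by omega
        rw [pos_zero] at heq
        have := congrArg Prod.fst heq
        simp only [Prod.fst_zero, Prod.fst_add] at this
        omega
  · intro i hi hi2
    obtain ⟨j, rfl⟩ : ∃ j, i = j + 1 := ⟨i - 1, by omega⟩
    rw [pos_cons_succ8]
    simp only [List.length_cons] at hi2
    have := h j (by omega)
    simp only [Prod.fst_add]
    omega

/-- cutting a self-avoiding word at its last vertex in the leftmost column -/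
theorem cN_le (n : ℕ) : cN n ≤ ∑ m ∈ Finset.range (n + 1), hN (n - m) * hN (m + 1) := by
  classical
  have hex : ∀ w : List (ℤ × ℤ), ∃ m, (IsSaw w → m ≤ w.length ∧ IsHalf (w.drop m) ∧
      IsHalf ((1, 0) :: rev (w.take m))) := by
    intro w
    obtain ⟨m, h1, h2, h3⟩ := exists_last_min8 w
    refine ⟨m, fun hw => ⟨h1, ⟨hw.drop m, ?_⟩, isHalf_cons8 (hw.take m).rev ?_⟩⟩
    · intro i hi hi2
      rw [List.length_drop] at hi2
      rw [pos_drop]
      have := h3 (m + i) (by omega) (by omega)
      simp only [Prod.fst_sub]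
      omega
    · intro i hi
      rw [length_rev] at hi
      rw [pos_rev hi, pos_take (by rw [List.length_take] at hi ⊢; omega)]
      have h4 : (w.take m).sum = pos w m := rfl
      rw [h4]
      have := h2 ((w.take m).length - i) (by rw [List.length_take]; omega)
      simp only [Prod.fst_sub]
      omega
  choose c hc using hex
  have e1 : cN n = (fin_saw8 n).toFinset.card := Set.ncard_eq_toFinset_card _ _
  have e2 : ∀ k, hN k = (fin_half8 k).toFinset.card := fun k => Set.ncard_eq_toFinset_card _ _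
  have e3 : ∑ m ∈ Finset.range (n + 1), hN (n - m) * hN (m + 1)
      = ((Finset.range (n + 1)).sigma
        (fun m => (fin_half8 (n - m)).toFinset ×ˢ (fin_half8 (m + 1)).toFinset)).card := by
    rw [Finset.card_sigma]
    apply Finset.sum_congr rfl
    intro m _
    rw [Finset.card_product, e2, e2]
  rw [e1, e3]
  refine Finset.card_le_card_of_injOn
    (fun w => (⟨c w, (w.drop (c w), (1, 0) :: rev (w.take (c w)))⟩ :
      (_ : ℕ) × (List (ℤ × ℤ) × List (ℤ × ℤ)))) ?_ ?_
  · intro w hw
    have hw' : IsSaw w ∧ w.length = n := by simpa using hw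
    obtain ⟨h1, h2, h3⟩ := hc w hw'.1
    have h4 := hw'.2
    simp only [Finset.coe_sigma, Set.mem_sigma_iff, Finset.mem_coe, Finset.mem_range,
      Finset.mem_product, Set.Finite.mem_toFinset, Set.mem_ofPred_eq]
    refine ⟨by omega, ⟨h2, ?_⟩, ⟨h3, ?_⟩⟩
    · rw [List.length_drop, h4]
    · rw [List.length_cons, length_rev, List.length_take, h4]
      congr 1
      omega
  · intro w hw w' hw' heq
    simp only [Sigma.mk.injEq, heq_eq_eq, Prod.mk.injEq, List.cons.injEq, true_and] at heq
    obtain ⟨h1, h2, h3⟩ := heq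
    have h4 := rev_injective h3
    rw [← List.take_append_drop (c w) w, ← List.take_append_drop (c w') w', h4, h2]

/-- concatenation of bridges -/
theorem bN_mul_le (m n : ℕ) : bN m * bN n ≤ bN (m + n) := by
  classical
  unfold bN
  rw [← Set.ncard_prod]
  refine Set.ncard_le_ncard_of_injOn (fun p => p.1 ++ p.2) ?_ ?_ (fin_bridge8 (m + n))
  · rintro ⟨u, v⟩ huv
    obtain ⟨⟨⟨T, hT⟩, hu⟩, ⟨⟨T', hT'⟩, hv⟩⟩ := huv
    simp only at hT hu hT' hv ⊢
    have e : (Z1 u.sum) = T := hT.ht
    have e' : (Z1 v.sum) = T' := hT'.ht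
    rw [Z1_apply] at e e'
    refine ⟨⟨T + T', ?_, ?_, ?_, ?_⟩, by rw [List.length_append, hu, hv]⟩
    · apply hT.saw.append hT'.saw
      intro i j hi h1j hj heq
      have h1 := hT.le i hi
      have h2 := hT'.gt j h1j hj
      rw [Z1_apply] at h1 h2
      have h3 := congrArg Prod.fst heq
      simp only [Prod.fst_add] at h3
      omega
    · intro i hi hi2
      rw [Z1_apply]
      rcases le_or_gt i u.length with h1 | h1
      · rw [pos_append_left h1]
        have := hT.gt i hi h1
        rwa [Z1_apply] at this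
      · rw [List.length_append] at hi2
        rw [pos_append_right' h1.le]
        have := hT'.gt (i - u.length) (by omega) (by omega)
        rw [Z1_apply] at this
        simp only [Prod.fst_add]
        omega
    · intro i hi2
      rw [Z1_apply]
      rcases le_or_gt i u.length with h1 | h1
      · rw [pos_append_left h1]
        have := hT.le i h1
        rw [Z1_apply] at this
        push_cast
        omega
      · rw [List.length_append] at hi2
        rw [pos_append_right' h1.le]
        have := hT'.le (i - u.length) (by omega)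
        rw [Z1_apply] at this
        simp only [Prod.fst_add]
        push_cast
        omega
    · rw [Z1_apply, List.sum_append]
      simp only [Prod.fst_add]
      push_cast
      omega
  · rintro ⟨u, v⟩ huv ⟨u', v'⟩ huv' heq
    obtain ⟨⟨_, hu⟩, ⟨_, _⟩⟩ := huv
    obtain ⟨⟨_, hu'⟩, ⟨_, _⟩⟩ := huv'
    simp only at hu hu' heq
    obtain ⟨h1, h2⟩ := List.append_inj heq (by rw [hu, hu'])
    rw [h1, h2]

end Pool.Agent.Lib.MP_c23e5f_co
end

section

set_option autoImplicit false

namespace Pool.Agent.Lib.MP_c23e5f_co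

open scoped ENNReal

private lemma ll_wt (x : ℝ≥0∞) (n : ℕ) (P : Set (List (ℤ × ℤ)))
    (h : ∀ w ∈ P, (∀ v ∈ w, IsStep v) ∧ w.length = n) : wt x P = (P.ncard : ℝ≥0∞) * x ^ n := by
  have hfin : P.Finite := (finite_words n).subset h
  have : Finite P := hfin.to_subtype
  have : Fintype P := Fintype.ofFinite P
  rw [wt, tsum_fintype, Finset.sum_congr rfl (fun w _ => by rw [(h w.1 w.2).2]),
    Finset.sum_const, Finset.card_univ, nsmul_eq_mul, ← Nat.card_eq_fintype_card]
  rfl

/-- the counting inequality for bridges -/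
private lemma ll_cN (n : ℕ) :
    cN n ≤ (n + 2) ^ (2 * Nat.sqrt (2 * n + 2) + 3) * bN (n + 1) := by
  have h1 : ∀ m ∈ Finset.range (n + 1), hN (n - m) * hN (m + 1) ≤
      (n + 2) ^ (2 * Nat.sqrt (2 * n + 2) + 2) * bN (n + 1) := by
    intro m hm
    rw [Finset.mem_range] at hm
    have h2 : hN (n - m) ≤ (n + 2) ^ (Nat.sqrt (2 * n + 2) + 1) * bN (n - m) := by
      refine (hN_le (n - m)).trans (Nat.mul_le_mul_right _ ?_)
      calc (n - m + 1) ^ (Nat.sqrt (2 * (n - m)) + 1) ≤ (n + 2) ^ (Nat.sqrt (2 * (n - m)) + 1) :=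
            Nat.pow_le_pow_left (by omega) _
        _ ≤ _ := Nat.pow_le_pow_right (by omega)
            (Nat.add_le_add_right (Nat.sqrt_le_sqrt (by omega)) 1)
    have h3 : hN (m + 1) ≤ (n + 2) ^ (Nat.sqrt (2 * n + 2) + 1) * bN (m + 1) := by
      refine (hN_le (m + 1)).trans (Nat.mul_le_mul_right _ ?_)
      calc (m + 1 + 1) ^ (Nat.sqrt (2 * (m + 1)) + 1) ≤ (n + 2) ^ (Nat.sqrt (2 * (m + 1)) + 1) :=
            Nat.pow_le_pow_left (by omega) _
        _ ≤ _ := Nat.pow_le_pow_right (by omega)
            (Nat.add_le_add_right (Nat.sqrt_le_sqrt (by omega)) 1)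
    have h4 : bN (n - m) * bN (m + 1) ≤ bN (n + 1) := by
      have := bN_mul_le (n - m) (m + 1)
      rwa [show n - m + (m + 1) = n + 1 by omega] at this
    calc hN (n - m) * hN (m + 1) ≤ ((n + 2) ^ (Nat.sqrt (2 * n + 2) + 1) * bN (n - m)) *
          ((n + 2) ^ (Nat.sqrt (2 * n + 2) + 1) * bN (m + 1)) := Nat.mul_le_mul h2 h3
      _ = (n + 2) ^ (2 * Nat.sqrt (2 * n + 2) + 2) * (bN (n - m) * bN (m + 1)) := by ring
      _ ≤ _ := Nat.mul_le_mul_left _ h4
  calc cN n ≤ ∑ m ∈ Finset.range (n + 1), hN (n - m) * hN (m + 1) := cN_le n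
    _ ≤ ∑ m ∈ Finset.range (n + 1), (n + 2) ^ (2 * Nat.sqrt (2 * n + 2) + 2) * bN (n + 1) :=
        Finset.sum_le_sum h1
    _ = (n + 1) * ((n + 2) ^ (2 * Nat.sqrt (2 * n + 2) + 2) * bN (n + 1)) := by
        rw [Finset.sum_const, Finset.card_range, smul_eq_mul]
    _ ≤ (n + 2) * ((n + 2) ^ (2 * Nat.sqrt (2 * n + 2) + 2) * bN (n + 1)) :=
        Nat.mul_le_mul_right _ (by omega)
    _ = _ := by ring

private lemma ll_real (x : ℝ≥0∞) (hx : IsCrit x) (n : ℕ) : 1 ≤ (cN n : ℝ) * x.toReal ^ n := by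
  have h1 := hx.one_le n
  rw [ll_wt x n _ (fun w hw => ⟨hw.1.step, hw.2⟩)] at h1
  have h2 : ((cN n : ℝ≥0∞) * x ^ n) ≠ ⊤ :=
    ENNReal.mul_ne_top (ENNReal.natCast_ne_top _)
      (ENNReal.pow_ne_top (ne_top_of_le_ne_top ENNReal.one_ne_top hx.le_one))
  have h3 := ENNReal.toReal_mono h2 h1
  rw [ENNReal.toReal_mul, ENNReal.toReal_pow, ENNReal.toReal_natCast, ENNReal.toReal_one] at h3
  exact h3

/-- Section 6 of the paper, (7): Hammersley-Welsh for loops. -/
theorem loop_lower : ∃ C0 : ℝ, 0 < C0 ∧ ∀ x : ℝ≥0∞, IsCrit x → ∀ N : ℕ, Even N → 4 ≤ N →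
    ENNReal.ofReal (Real.exp (-(C0 * √N * Real.log N))) ≤ wt x {w | IsLoopWord N w} := by
  refine ⟨12, by norm_num, ?_⟩
  intro x hx N hN hN4
  have hxtop : x ≠ ⊤ := ne_top_of_le_ne_top ENNReal.one_ne_top hx.le_one
  set X : ℝ := x.toReal with hX
  have hX1 : X ≤ 1 := by
    have := ENNReal.toReal_mono ENNReal.one_ne_top hx.le_one
    simpa using this
  have hX4 : 1 / 4 ≤ X := by
    have := ENNReal.toReal_mono hxtop hx.quarter_le
    rw [ENNReal.toReal_inv] at this
    norm_num at this ⊢
    exact this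
  have hX0 : 0 < X := by linarith
  obtain ⟨m, hm, rfl⟩ : ∃ m : ℕ, 1 ≤ m ∧ N = 2 * m + 2 := by
    obtain ⟨k, hk⟩ := hN
    exact ⟨k - 1, by omega, by omega⟩
  rw [ll_wt x (2 * m + 2) {w | IsLoopWord (2 * m + 2) w} (fun w hw =>
    ⟨IsLoopWord.step hw, IsLoopWord.length hw⟩)]
  have hgoal : Real.exp (-(12 * √((2 * m + 2 : ℕ) : ℝ) * Real.log ((2 * m + 2 : ℕ) : ℝ))) ≤
      (lN (2 * m + 2) : ℝ) * X ^ (2 * m + 2) := by
    set k : ℕ := 2 * Nat.sqrt (2 * m) + 3 with hk
    set M : ℝ := ((2 * m + 2 : ℕ) : ℝ) with hM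
    have hM4 : (4 : ℝ) ≤ M := by
      rw [hM]
      exact_mod_cast hN4
    have hM0 : 0 < M := by linarith
    have hM1 : 1 ≤ M := by linarith
    -- bridges
    have h1 : X ≤ M ^ k * (X ^ m * bN m) := by
      obtain ⟨n, rfl⟩ : ∃ n, m = n + 1 := ⟨m - 1, by omega⟩
      have h2 := ll_real x hx n
      have h3 : (cN n : ℝ) ≤ ((n + 2 : ℕ) : ℝ) ^ k * bN (n + 1) := by
        have h4 := ll_cN n
        rw [show 2 * n + 2 = 2 * (n + 1) by ring] at h4
        exact_mod_cast h4
      have h4 : ((n + 2 : ℕ) : ℝ) ^ k ≤ M ^ k := by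
        apply pow_le_pow_left₀ (by positivity)
        rw [hM]
        exact_mod_cast (by omega : n + 2 ≤ 2 * (n + 1) + 2)
      have hb : (0 : ℝ) ≤ bN (n + 1) := Nat.cast_nonneg _
      calc X = X * 1 := by ring
        _ ≤ X * ((cN n : ℝ) * X ^ n) := by gcongr
        _ ≤ X * ((((n + 2 : ℕ) : ℝ) ^ k * bN (n + 1)) * X ^ n) := by gcongr
        _ ≤ X * ((M ^ k * bN (n + 1)) * X ^ n) := by gcongr
        _ = _ := by ring
    have h2 : 1 / 4 ≤ M ^ k * (X ^ m * bN m) := hX4.trans h1
    have h3 : 1 / 16 ≤ M ^ (2 * k) * (X ^ (2 * m) * (bN m : ℝ) ^ 2) := by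
      calc (1 / 16 : ℝ) = (1 / 4) ^ 2 := by norm_num
        _ ≤ (M ^ k * (X ^ m * bN m)) ^ 2 := pow_le_pow_left₀ (by norm_num) h2 2
        _ = _ := by ring
    have h4 : (bN m : ℝ) ^ 2 ≤ M ^ 6 * lN (2 * m + 2) := by
      have h5 : ((bN m : ℝ)) ^ 2 ≤ ((m : ℝ) * (m * (2 * m + 1))) ^ 2 * lN (2 * m + 2) := by
        exact_mod_cast bN_sq_le m hm
      refine h5.trans (mul_le_mul_of_nonneg_right ?_ (Nat.cast_nonneg _))
      have h6 : (m : ℝ) ≤ M := by
        rw [hM]
        exact_mod_cast (by omega : m ≤ 2 * m + 2)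
      have h7 : (2 * m + 1 : ℝ) ≤ M := by
        rw [hM]
        exact_mod_cast (by omega : 2 * m + 1 ≤ 2 * m + 2)
      calc ((m : ℝ) * (m * (2 * m + 1))) ^ 2 ≤ (M * (M * M)) ^ 2 := by gcongr
        _ = M ^ 6 := by ring
    have hl : (0 : ℝ) ≤ lN (2 * m + 2) := Nat.cast_nonneg _
    have h5 : 1 / 256 ≤ M ^ (2 * k + 6) * (lN (2 * m + 2) * X ^ (2 * m + 2)) := by
      calc (1 / 256 : ℝ) = 1 / 16 * (1 / 4) ^ 2 := by norm_num
        _ ≤ (M ^ (2 * k) * (X ^ (2 * m) * (bN m : ℝ) ^ 2)) * X ^ 2 := by gcongr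
        _ ≤ (M ^ (2 * k) * (X ^ (2 * m) * (M ^ 6 * lN (2 * m + 2)))) * X ^ 2 := by gcongr
        _ = _ := by ring
    have h6 : 1 ≤ M ^ (2 * k + 10) * (lN (2 * m + 2) * X ^ (2 * m + 2)) := by
      have h7 : (256 : ℝ) ≤ M ^ 4 := by
        calc (256 : ℝ) = 4 ^ 4 := by norm_num
          _ ≤ M ^ 4 := pow_le_pow_left₀ (by norm_num) hM4 4
      calc (1 : ℝ) = 256 * (1 / 256) := by norm_num
        _ ≤ M ^ 4 * (M ^ (2 * k + 6) * (lN (2 * m + 2) * X ^ (2 * m + 2))) := by gcongr
        _ = _ := by ring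
    have h7 : Real.exp (-((2 * k + 10 : ℕ) * Real.log M)) ≤
        lN (2 * m + 2) * X ^ (2 * m + 2) := by
      rw [Real.exp_neg, Real.exp_nat_mul, Real.exp_log hM0, inv_le_iff_one_le_mul₀ (by positivity)]
      linarith
    refine le_trans (Real.exp_le_exp.2 ?_) h7
    apply neg_le_neg
    apply mul_le_mul_of_nonneg_right _ (Real.log_nonneg hM1)
    have h8 : (Nat.sqrt (2 * m) : ℝ) ≤ √M := by
      apply Real.le_sqrt_of_sq_le
      have h9 : Nat.sqrt (2 * m) * Nat.sqrt (2 * m) ≤ 2 * m := Nat.sqrt_le _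
      rw [hM, pow_two]
      exact_mod_cast (by omega : Nat.sqrt (2 * m) * Nat.sqrt (2 * m) ≤ 2 * m + 2)
    have h9 : 2 ≤ √M := by
      apply Real.le_sqrt_of_sq_le
      norm_num
      linarith
    rw [hk]
    push_cast
    linarith
  calc ENNReal.ofReal (Real.exp (-(12 * √((2 * m + 2 : ℕ) : ℝ) *
        Real.log ((2 * m + 2 : ℕ) : ℝ)))) ≤
        ENNReal.ofReal ((lN (2 * m + 2) : ℝ) * X ^ (2 * m + 2)) :=
        ENNReal.ofReal_le_ofReal hgoal
    _ = (lN (2 * m + 2) : ℝ≥0∞) * x ^ (2 * m + 2) := by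
        rw [ENNReal.ofReal_mul (Nat.cast_nonneg _), ENNReal.ofReal_natCast,
          ENNReal.ofReal_pow hX0.le, hX, ENNReal.ofReal_toReal hxtop]

end Pool.Agent.Lib.MP_c23e5f_co
end
end
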