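import Pool.Agent.Lib.MP_c23e5f_co.Defs

set_option autoImplicit false

namespace Pool.Agent.Lib.MP_c23e5f_co

open Filter

private lemma nm_sc_pos {k : ℕ} (hk : 1 ≤ k) (i : ℕ) : 1 ≤ sc k i := by
  induction i with
  | zero => simp [sc]
  | succ i ih =>
    rw [sc]
    have h1 : 1 ≤ (8 * (1600 * k * sc k i)) ^ (2 * Lam k + 2) := Nat.one_le_pow _ _ (by positivity)
    calc 1 = 1 * 1 := rfl
      _ ≤ (64 * k) * (8 * (1600 * k * sc k i)) ^ (2 * Lam k + 2) :=
        Nat.mul_le_mul (by omega) h1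

/-- growth of the scales -/
private lemma nm_growth {k : ℕ} (hk : 1 ≤ k) (i : ℕ) :
    12800 * k * sc k i ≤ (12800 * k) ^ ((2 * Lam k + 4) ^ i) := by
  induction i with
  | zero => simp [sc]
  | succ i ih =>
    have hs := nm_sc_pos hk i
    have hA : 12800 * k ≤ 12800 * k * sc k i := Nat.le_mul_of_pos_right _ hs
    calc 12800 * k * sc k (i + 1)
        = (12800 * k) * (64 * k) * (12800 * k * sc k i) ^ (2 * Lam k + 2) := by
          rw [sc]
          have : 8 * (1600 * k * sc k i) = 12800 * k * sc k i := by ring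
          rw [this]; ring
      _ ≤ (12800 * k * sc k i) * (12800 * k * sc k i) *
          (12800 * k * sc k i) ^ (2 * Lam k + 2) := by
          apply Nat.mul_le_mul_right
          apply Nat.mul_le_mul hA
          exact (by omega : 64 * k ≤ 12800 * k).trans hA
      _ = (12800 * k * sc k i) ^ (2 * Lam k + 4) := by ring
      _ ≤ ((12800 * k) ^ ((2 * Lam k + 4) ^ i)) ^ (2 * Lam k + 4) :=
          Nat.pow_le_pow_left ih _
      _ = (12800 * k) ^ ((2 * Lam k + 4) ^ (i + 1)) := by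
          rw [← pow_mul, pow_succ]

private lemma nm_exp {k : ℕ} (hk : 1 ≤ k) :
    (sc k (JJ k) : ℝ) ≤
      Real.exp (Real.exp (JJ k * Real.log (2 * Lam k + 4) + Real.log (12800 * k))) := by
  have h1 : sc k (JJ k) ≤ (12800 * k) ^ ((2 * Lam k + 4) ^ (JJ k)) :=
    (Nat.le_mul_of_pos_left _ (by omega)).trans (nm_growth hk _)
  have h2 : (sc k (JJ k) : ℝ) ≤ (12800 * (k : ℝ)) ^ ((2 * Lam k + 4) ^ (JJ k)) := by
    exact_mod_cast h1
  refine h2.trans ?_
  have hk' : (1 : ℝ) ≤ k := by exact_mod_cast hk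
  have hA : (0 : ℝ) < 12800 * k := by linarith
  rw [← Real.exp_log hA, ← Real.exp_nat_mul, Real.exp_log hA]
  apply Real.exp_le_exp.2
  rw [Real.exp_add, Real.exp_log hA]
  have h3 : (((2 * Lam k + 4) ^ (JJ k) : ℕ) : ℝ) = Real.exp (JJ k * Real.log (2 * Lam k + 4)) := by
    have h4 : (0 : ℝ) < 2 * Lam k + 4 := by positivity
    rw [Real.exp_nat_mul, Real.exp_log h4]
    push_cast; rfl
  rw [h3]
  apply mul_le_mul_of_nonneg_left _ (Real.exp_pos _).le
  exact (Real.log_le_sub_one_of_pos hA).trans (by linarith)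

private lemma nm_k5 : ∀ᶠ k : ℕ in atTop,
    JJ k * Real.log (2 * Lam k + 4) + Real.log (12800 * k) ≤ (k : ℝ) ^ 5 / 2 := by
  have h1 : ∀ᶠ t : ℝ in atTop, ‖Real.log t‖ ≤ (1 / 10 ^ 13 : ℝ) * ‖id t‖ :=
    Real.isLittleO_log_id_atTop.def (by norm_num)
  have h2 : ∀ᶠ t : ℝ in atTop, (10 ^ 16 : ℝ) ≤ t := eventually_ge_atTop _
  filter_upwards [tendsto_natCast_atTop_atTop.eventually h1,
    tendsto_natCast_atTop_atTop.eventually h2] with k hk1 hk2
  have hk0 : (0 : ℝ) < k := by linarith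
  have hlog : Real.log k ≤ (1 / 10 ^ 13 : ℝ) * k := by
    have h3 := (le_abs_self _).trans hk1
    simpa [abs_of_pos hk0] using h3
  have hlog2 : Real.log 2 ≤ 1 := by
    have := Real.log_two_lt_d9; linarith
  have hk1' : (1 : ℝ) ≤ k := by linarith
  have e1 : Real.log (2 * Lam k + 4) ≤ 19 + 2 * Real.log k := by
    have e2 : (2 * (Lam k : ℝ) + 4) ≤ 2 ^ 19 * (k : ℝ) ^ 2 := by
      rw [Lam]; push_cast; nlinarith
    have e3 := Real.log_le_log (by positivity) e2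
    rw [Real.log_mul (by norm_num) (by positivity), Real.log_pow, Real.log_pow] at e3
    push_cast at e3
    linarith
  have e4 : Real.log (12800 * k) ≤ 12800 * k :=
    (Real.log_le_sub_one_of_pos (by positivity)).trans (by linarith)
  have e5 : (JJ k : ℝ) = 10 ^ 12 * (k : ℝ) ^ 4 := by rw [JJ]; push_cast; ring
  have hk4 : (0 : ℝ) < (k : ℝ) ^ 4 := by positivity
  have e6 : (JJ k : ℝ) * Real.log (2 * Lam k + 4) ≤
      10 ^ 12 * (k : ℝ) ^ 4 * (19 + 2 * ((1 / 10 ^ 13 : ℝ) * k)) := by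
    rw [e5]
    apply mul_le_mul_of_nonneg_left _ (by positivity)
    linarith
  have e7 : (k : ℝ) ≤ (k : ℝ) ^ 4 := by
    calc (k : ℝ) = k ^ 1 := by ring
      _ ≤ k ^ 4 := pow_le_pow_right₀ hk1' (by norm_num)
  have e8 : (10 ^ 16 : ℝ) * (k : ℝ) ^ 4 ≤ (k : ℝ) ^ 5 := by
    calc (10 ^ 16 : ℝ) * (k : ℝ) ^ 4 ≤ k * (k : ℝ) ^ 4 :=
          mul_le_mul_of_nonneg_right hk2 hk4.le
      _ = (k : ℝ) ^ 5 := by ring
  have e9 : 10 ^ 12 * (k : ℝ) ^ 4 * (19 + 2 * ((1 / 10 ^ 13 : ℝ) * k)) =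
      19 * 10 ^ 12 * (k : ℝ) ^ 4 + (1 / 5) * (k : ℝ) ^ 5 := by ring
  rw [e9] at e6
  nlinarith

private lemma nm_real (C0 : ℝ) : ∀ᶠ x : ℝ in atTop,
    Real.log (x * (2 * x * (2 * x + 1))) + x ^ ((3 : ℝ) / 5) + C0 * √(2 * x) * Real.log (2 * x) ≤
      2 * x ^ ((7 : ℝ) / 8) := by
  set c : ℝ := 1 / (8 * (|C0| + 1)) with hc
  have hc0 : 0 < c := by rw [hc]; positivity
  have h1 : ∀ᶠ x : ℝ in atTop, ‖Real.log x‖ ≤ c * ‖x ^ ((1 : ℝ) / 8)‖ :=
    (isLittleO_log_rpow_atTop (by norm_num : (0 : ℝ) < 1 / 8)).def hc0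
  have h2 : ∀ᶠ x : ℝ in atTop, x ^ (-((11 : ℝ) / 40)) < 1 / 4 :=
    (tendsto_rpow_neg_atTop (by norm_num : (0 : ℝ) < 11 / 40)).eventually_lt_const (by norm_num)
  have h3 : ∀ᶠ x : ℝ in atTop, (6 : ℝ) ≤ x := eventually_ge_atTop _
  filter_upwards [h1, h2, h3] with x hx1 hx2 hx3
  have hx0 : 0 < x := by linarith
  have hlog0 : 0 ≤ Real.log x := Real.log_nonneg (by linarith)
  have hlog : Real.log x ≤ c * x ^ ((1 : ℝ) / 8) := by
    have := (le_abs_self _).trans hx1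
    rwa [Real.norm_eq_abs, abs_of_pos (Real.rpow_pos_of_pos hx0 _)] at this
  have hcC : c * (|C0| + 1) = 1 / 8 := by
    rw [hc]; field_simp
  have hc8 : c ≤ 1 / 8 := by
    rw [← hcC]; nlinarith [abs_nonneg C0]
  have p1 : x ^ ((1 : ℝ) / 8) ≤ x ^ ((7 : ℝ) / 8) :=
    Real.rpow_le_rpow_of_exponent_le (by linarith) (by norm_num)
  have p2 : √x * x ^ ((1 : ℝ) / 8) ≤ x ^ ((7 : ℝ) / 8) := by
    rw [Real.sqrt_eq_rpow, ← Real.rpow_add hx0]
    exact Real.rpow_le_rpow_of_exponent_le (by linarith) (by norm_num)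
  have p3 : x ^ ((3 : ℝ) / 5) ≤ (1 / 4) * x ^ ((7 : ℝ) / 8) := by
    have : x ^ ((3 : ℝ) / 5) = x ^ (-((11 : ℝ) / 40)) * x ^ ((7 : ℝ) / 8) := by
      rw [← Real.rpow_add hx0]; norm_num
    rw [this]
    exact mul_le_mul_of_nonneg_right hx2.le (Real.rpow_pos_of_pos hx0 _).le
  have hpos8 : 0 < x ^ ((1 : ℝ) / 8) := Real.rpow_pos_of_pos hx0 _
  have t1 : Real.log (x * (2 * x * (2 * x + 1))) ≤ (1 / 2) * x ^ ((7 : ℝ) / 8) := by
    have : Real.log (x * (2 * x * (2 * x + 1))) ≤ Real.log (x ^ 4) := by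
      apply Real.log_le_log (by positivity)
      nlinarith [mul_nonneg (mul_nonneg hx0.le hx0.le) (sub_nonneg.2 hx3),
        mul_nonneg (mul_nonneg (mul_nonneg hx0.le hx0.le) hx0.le) (sub_nonneg.2 hx3)]
    rw [Real.log_pow] at this
    push_cast at this
    nlinarith
  have t2 : C0 * √(2 * x) * Real.log (2 * x) ≤ (1 / 2) * x ^ ((7 : ℝ) / 8) := by
    have s1 : √(2 * x) ≤ 2 * √x := by
      rw [Real.sqrt_mul (by norm_num)]
      apply mul_le_mul_of_nonneg_right _ (Real.sqrt_nonneg _)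
      rw [Real.sqrt_le_left (by norm_num)]; norm_num
    have s2 : Real.log (2 * x) ≤ 2 * Real.log x := by
      rw [Real.log_mul (by norm_num) (by positivity)]
      have : Real.log 2 ≤ Real.log x := Real.log_le_log (by norm_num) (by linarith)
      linarith
    have s0 : 0 ≤ Real.log (2 * x) := Real.log_nonneg (by linarith)
    calc C0 * √(2 * x) * Real.log (2 * x) ≤ |C0| * √(2 * x) * Real.log (2 * x) := by
          apply mul_le_mul_of_nonneg_right _ s0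
          exact mul_le_mul_of_nonneg_right (le_abs_self _) (Real.sqrt_nonneg _)
      _ ≤ |C0| * (2 * √x) * (2 * Real.log x) := by
          apply mul_le_mul _ s2 s0 (by positivity)
          exact mul_le_mul_of_nonneg_left s1 (abs_nonneg _)
      _ ≤ |C0| * (2 * √x) * (2 * (c * x ^ ((1 : ℝ) / 8))) := by
          apply mul_le_mul_of_nonneg_left _ (by positivity)
          linarith
      _ = 4 * (c * |C0|) * (√x * x ^ ((1 : ℝ) / 8)) := by ring
      _ ≤ (1 / 2) * (√x * x ^ ((1 : ℝ) / 8)) := by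
          apply mul_le_mul_of_nonneg_right _ (by positivity)
          nlinarith
      _ ≤ (1 / 2) * x ^ ((7 : ℝ) / 8) := by linarith
  have hp : 0 < x ^ ((7 : ℝ) / 8) := Real.rpow_pos_of_pos hx0 _
  linarith

/-- Section 10 of the paper -/
theorem numerics (C0 : ℝ) :
    ∀ᶠ n : ℕ in atTop, ∃ k : ℕ, 1 ≤ k ∧
      (Real.log (Real.log n)) ^ ((1 : ℝ) / 5) ≤ 2 * k ∧
      32 * k * sc k (JJ k) ≤ 2 * n ∧
      JJ k * ((2 * n : ℕ) * ((2 * n : ℕ) + 1) * Real.exp (-((2 * n : ℕ) / sc k (JJ k)))) ≤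
        Real.exp (-((n : ℝ) ^ ((3 : ℝ) / 5))) *
          Real.exp (-(C0 * √(2 * n : ℕ) * Real.log (2 * n : ℕ))) := by
  have hLL : Tendsto (fun n : ℕ => Real.log (Real.log n)) atTop atTop :=
    Real.tendsto_log_atTop.comp (Real.tendsto_log_atTop.comp tendsto_natCast_atTop_atTop)
  have hy : Tendsto (fun n : ℕ => (Real.log (Real.log n)) ^ ((1 : ℝ) / 5)) atTop atTop :=
    (tendsto_rpow_atTop (by norm_num)).comp hLL
  have hk : Tendsto (fun n : ℕ => ⌊(Real.log (Real.log n)) ^ ((1 : ℝ) / 5)⌋₊) atTop atTop :=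
    tendsto_nat_floor_atTop.comp hy
  have h64 : ∀ᶠ n : ℕ in atTop, (64 : ℝ) ≤ Real.log n :=
    (Real.tendsto_log_atTop.comp tendsto_natCast_atTop_atTop).eventually_ge_atTop 64
  have hlog : ∀ᶠ x : ℝ in atTop, ‖Real.log x‖ ≤ (1 / 10 ^ 12) * ‖x ^ ((1 : ℝ) / 8)‖ :=
    (isLittleO_log_rpow_atTop (by norm_num : (0 : ℝ) < 1 / 8)).def (by norm_num)
  filter_upwards [hk.eventually nm_k5, hk.eventually_ge_atTop 1, hLL.eventually_ge_atTop 1,
    h64, tendsto_natCast_atTop_atTop.eventually hlog,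
    tendsto_natCast_atTop_atTop.eventually (nm_real C0), eventually_ge_atTop 1]
    with n g1 g2 g3 g4 g5 g6 g7
  set k := ⌊(Real.log (Real.log n)) ^ ((1 : ℝ) / 5)⌋₊ with hkdef
  have hn0 : (0 : ℝ) < n := by exact_mod_cast g7
  have hn1 : (1 : ℝ) ≤ n := by exact_mod_cast g7
  have hk1 : (1 : ℝ) ≤ k := by exact_mod_cast g2
  have hy0 : 0 ≤ (Real.log (Real.log n)) ^ ((1 : ℝ) / 5) := Real.rpow_nonneg (by linarith) _
  have hky : (k : ℝ) ≤ (Real.log (Real.log n)) ^ ((1 : ℝ) / 5) := Nat.floor_le hy0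
  have hyk : (Real.log (Real.log n)) ^ ((1 : ℝ) / 5) ≤ k + 1 := (Nat.lt_floor_add_one _).le
  have hk5 : (k : ℝ) ^ 5 ≤ Real.log (Real.log n) := by
    calc (k : ℝ) ^ 5 ≤ ((Real.log (Real.log n)) ^ ((1 : ℝ) / 5)) ^ 5 :=
          pow_le_pow_left₀ (by linarith) hky 5
      _ = Real.log (Real.log n) := by
          rw [← Real.rpow_natCast, ← Real.rpow_mul (by linarith)]
          norm_num
  have hlogpos : 0 < Real.log n := by linarith
  -- the scale
  have hsc : (sc k (JJ k) : ℝ) ≤ (n : ℝ) ^ ((1 : ℝ) / 8) := by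
    refine (nm_exp g2).trans ?_
    rw [Real.rpow_def_of_pos hn0]
    apply Real.exp_le_exp.2
    calc Real.exp (JJ k * Real.log (2 * Lam k + 4) + Real.log (12800 * k))
        ≤ Real.exp (Real.log (Real.log n) / 2) := by
          apply Real.exp_le_exp.2
          linarith
      _ = √(Real.log n) := by
          rw [Real.sqrt_eq_rpow, Real.rpow_def_of_pos hlogpos]
          congr 1; ring
      _ ≤ Real.log n * (1 / 8) := by
          rw [Real.sqrt_le_left (by positivity)]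
          nlinarith
  have hlogn : Real.log n ≤ (1 / 10 ^ 12) * (n : ℝ) ^ ((1 : ℝ) / 8) := by
    have := (le_abs_self _).trans g5
    rwa [Real.norm_eq_abs, abs_of_pos (Real.rpow_pos_of_pos hn0 _)] at this
  have hJJ : (JJ k : ℝ) ≤ (n : ℝ) ^ ((1 : ℝ) / 8) := by
    have e5 : (JJ k : ℝ) = 10 ^ 12 * (k : ℝ) ^ 4 := by rw [JJ]; push_cast; ring
    have e6 : (k : ℝ) ^ 4 ≤ (k : ℝ) ^ 5 := pow_le_pow_right₀ hk1 (by norm_num)
    have e7 : Real.log (Real.log n) ≤ Real.log n :=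
      (Real.log_le_sub_one_of_pos hlogpos).trans (by linarith)
    rw [e5]
    nlinarith
  have hp8 : (n : ℝ) ^ ((1 : ℝ) / 8) * (n : ℝ) ^ ((1 : ℝ) / 8) ≤ n := by
    rw [← Real.rpow_add hn0]
    calc (n : ℝ) ^ ((1 : ℝ) / 8 + 1 / 8) ≤ (n : ℝ) ^ (1 : ℝ) :=
          Real.rpow_le_rpow_of_exponent_le hn1 (by norm_num)
      _ = n := Real.rpow_one _
  have hsc0 : (0 : ℝ) < sc k (JJ k) := by exact_mod_cast nm_sc_pos g2 _
  have hp0 : 0 < (n : ℝ) ^ ((1 : ℝ) / 8) := Real.rpow_pos_of_pos hn0 _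
  refine ⟨k, g2, ?_, ?_, ?_⟩
  · linarith
  · have e1 : 32 * k ≤ JJ k := by
      rw [JJ]
      have : k ≤ k ^ 4 := Nat.le_self_pow (by norm_num) _
      omega
    have e2 : (JJ k : ℝ) * sc k (JJ k) ≤ n :=
      (mul_le_mul hJJ hsc hsc0.le hp0.le).trans hp8
    have e3 : JJ k * sc k (JJ k) ≤ n := by exact_mod_cast e2
    calc 32 * k * sc k (JJ k) ≤ JJ k * sc k (JJ k) := Nat.mul_le_mul_right _ e1
      _ ≤ n := e3
      _ ≤ 2 * n := by omega
  · push_cast
    rw [← Real.exp_add]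
    have q1 : 2 * (n : ℝ) ^ ((7 : ℝ) / 8) ≤ 2 * n / sc k (JJ k) := by
      rw [le_div_iff₀ hsc0]
      calc 2 * (n : ℝ) ^ ((7 : ℝ) / 8) * sc k (JJ k)
          ≤ 2 * (n : ℝ) ^ ((7 : ℝ) / 8) * (n : ℝ) ^ ((1 : ℝ) / 8) :=
            mul_le_mul_of_nonneg_left hsc (by positivity)
        _ = 2 * n := by
            rw [mul_assoc, ← Real.rpow_add hn0]; norm_num
    have hJn : (JJ k : ℝ) ≤ n := by
      refine hJJ.trans ?_
      calc (n : ℝ) ^ ((1 : ℝ) / 8) ≤ (n : ℝ) ^ (1 : ℝ) :=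
          Real.rpow_le_rpow_of_exponent_le hn1 (by norm_num)
        _ = n := Real.rpow_one _
    calc (JJ k : ℝ) * (2 * n * (2 * n + 1) * Real.exp (-(2 * n / sc k (JJ k))))
        ≤ n * (2 * n * (2 * n + 1) * Real.exp (-(2 * (n : ℝ) ^ ((7 : ℝ) / 8)))) := by
          apply mul_le_mul hJn _ (by positivity) hn0.le
          apply mul_le_mul_of_nonneg_left _ (by positivity)
          apply Real.exp_le_exp.2
          linarith
      _ = Real.exp (Real.log (n * (2 * n * (2 * n + 1))) + -(2 * (n : ℝ) ^ ((7 : ℝ) / 8))) := by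
          rw [Real.exp_add, Real.exp_log (by positivity)]; ring
      _ ≤ Real.exp (-(n : ℝ) ^ ((3 : ℝ) / 5) + -(C0 * √(2 * n) * Real.log (2 * n))) := by
          apply Real.exp_le_exp.2
          linarith

end Pool.Agent.Lib.MP_c23e5f_co
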