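import Pool.Agent.Lib.MP_c23e5f_co.WideWt
import Pool.Agent.Lib.MP_c23e5f_co.LoopLower
import Pool.Agent.Lib.MP_c23e5f_co.Crit
import Pool.Agent.Lib.MP_c23e5f_co.Numerics
import Pool.Agent.Lib.MP_c23e5f_co.Translate

set_option autoImplicit false

namespace Pool.Agent.Lib.MP_c23e5f_co

open scoped ENNReal

/-- the loops of the problem -/
def Loops (n : ℕ) : Set (ℕ → ℤ × ℤ) :=
  {f : ℕ → ℤ × ℤ | f 0 = (0, 0) ∧ (∀ i, f (i + 2 * n) = f i) ∧
    (∀ i j, i < 2 * n → j < 2 * n → f i = f j → i = j) ∧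
    (∀ i, ((f i).1 - (f (i + 1)).1).natAbs + ((f i).2 - (f (i + 1)).2).natAbs = 1)}

/-- the width of the problem -/
def width (n : ℕ) (f : ℕ → ℤ × ℤ) : ℕ :=
  ((Finset.range (2 * n)) ×ˢ (Finset.range (2 * n))).sup
    (fun p : ℕ × ℕ => ((f p.1).1 - (f p.2).1).natAbs)

private lemma fi_loops (n : ℕ) : Loops n = {f | IsLoop (2 * n) f ∧ f 0 = 0} := by
  ext f
  constructor
  · rintro ⟨h0, h1, h2, h3⟩
    refine ⟨⟨fun i => ?_, h1, h2⟩, h0⟩
    have := h3 i
    simp only [IsStep, Prod.fst_sub, Prod.snd_sub]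
    omega
  · rintro ⟨⟨h3, h1, h2⟩, h0⟩
    refine ⟨h0, h1, h2, fun i => ?_⟩
    have := h3 i
    simp only [IsStep, Prod.fst_sub, Prod.snd_sub] at this
    omega

private lemma fi_dist {n : ℕ} {f : ℕ → ℤ × ℤ} (hf : f ∈ Loops n) (i d : ℕ) :
    ((f (i + d)).1 - (f i).1).natAbs ≤ d := by
  induction d with
  | zero => simp
  | succ d ih =>
    have h1 := hf.2.2.2 (i + d)
    rw [← add_assoc]
    omega

private lemma fi_width_le {n : ℕ} {f : ℕ → ℤ × ℤ} (hf : f ∈ Loops n) : width n f ≤ 2 * n := by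
  unfold width
  apply Finset.sup_le
  rintro ⟨i, j⟩ hp
  rw [Finset.mem_product, Finset.mem_range, Finset.mem_range] at hp
  obtain ⟨hi, hj⟩ := hp
  simp only at hi hj ⊢
  rcases le_total i j with h | h
  · have := fi_dist hf i (j - i)
    rw [Nat.add_sub_cancel' h] at this
    omega
  · have := fi_dist hf j (i - j)
    rw [Nat.add_sub_cancel' h] at this
    omega

private lemma fi_width_attained {n : ℕ} (hn : 1 ≤ n) (f : ℕ → ℤ × ℤ) :
    ∃ a b : ℕ, (f b).1 - (f a).1 = (width n f : ℕ) := by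
  have hne : ((Finset.range (2 * n)) ×ˢ (Finset.range (2 * n))).Nonempty :=
    ⟨(0, 0), by simp; omega⟩
  obtain ⟨⟨i, j⟩, -, h⟩ := Finset.exists_mem_eq_sup _ hne
    (fun p : ℕ × ℕ => ((f p.1).1 - (f p.2).1).natAbs)
  have h1 : width n f = ((f i).1 - (f j).1).natAbs := h
  rcases le_total (f j).1 (f i).1 with h2 | h2
  · exact ⟨j, i, by rw [h1]; omega⟩
  · exact ⟨i, j, by rw [h1]; omega⟩

/-- the main estimate in real numbers -/
private lemma fi_wide {C0 : ℝ} {x : ℝ≥0∞} (hx : IsCrit x)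
    (hlow : ∀ N : ℕ, Even N → 4 ≤ N →
      ENNReal.ofReal (Real.exp (-(C0 * √N * Real.log N))) ≤ wt x {w | IsLoopWord N w})
    {n k : ℕ} (hn : 2 ≤ n) (hk : 1 ≤ k) (hbig : 32 * k * sc k (JJ k) ≤ 2 * n)
    (hnum : JJ k * ((2 * n : ℕ) * ((2 * n : ℕ) + 1) * Real.exp (-((2 * n : ℕ) / sc k (JJ k)))) ≤
        Real.exp (-((n : ℝ) ^ ((3 : ℝ) / 5))) *
          Real.exp (-(C0 * √(2 * n : ℕ) * Real.log (2 * n : ℕ)))) :
    (({f ∈ Loops n | 2 * n ≤ k * width n f}.ncard : ℕ) : ℝ) ≤
      Real.exp (-((n : ℝ) ^ ((3 : ℝ) / 5))) * ((Loops n).ncard : ℕ) := by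
  set Wd := {f ∈ Loops n | 2 * n ≤ k * width n f} with hWd
  have hN : 1 ≤ 2 * n := by omega
  have hloops := fi_loops n
  have hx0 : x ≠ 0 := by
    intro h
    have := hx.quarter_le
    rw [h] at this
    simp at this
  have hxt : x ≠ ⊤ := ne_top_of_le_ne_top ENNReal.one_ne_top hx.le_one
  have h1 : (Wd.ncard : ℝ≥0∞) * x ^ (2 * n) ≤
      ENNReal.ofReal (JJ k * ((2 * n : ℕ) * ((2 * n : ℕ) + 1) *
        Real.exp (-((2 * n : ℕ) / sc k (JJ k))))) := by
    rw [← wt_loops hN x Wd (fun f hf => by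
      have := hf.1
      rw [hloops] at this
      exact this)]
    refine le_trans (wt_mono ?_) (wt_wide_le hx hk hN hbig)
    rintro w ⟨f, hf, rfl⟩
    have h2 := hf.1
    rw [hloops] at h2
    obtain ⟨a, b, hab⟩ := fi_width_attained (n := n) (by omega) f
    exact ⟨f, h2.1, rfl, a, b, width n f, hab, hf.2⟩
  have h2 : ENNReal.ofReal (Real.exp (-(C0 * √(2 * n : ℕ) * Real.log (2 * n : ℕ)))) ≤
      ((Loops n).ncard : ℝ≥0∞) * x ^ (2 * n) := by
    refine (hlow (2 * n) (even_two_mul n) (by omega)).trans (le_of_eq ?_)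
    rw [← wt_loops hN x (Loops n) (fun f hf => by
      rw [hloops] at hf
      exact hf)]
    congr 1
    ext w
    rw [Set.mem_ofPred_eq, isLoopWord_iff hN, Set.mem_ofPred_eq, hloops]
    rfl
  have h3 : (Wd.ncard : ℝ≥0∞) * x ^ (2 * n) ≤
      ENNReal.ofReal (Real.exp (-((n : ℝ) ^ ((3 : ℝ) / 5)))) * ((Loops n).ncard : ℝ≥0∞) *
        x ^ (2 * n) := by
    calc (Wd.ncard : ℝ≥0∞) * x ^ (2 * n) ≤ _ := h1
      _ ≤ ENNReal.ofReal (Real.exp (-((n : ℝ) ^ ((3 : ℝ) / 5))) *
          Real.exp (-(C0 * √(2 * n : ℕ) * Real.log (2 * n : ℕ)))) :=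
          ENNReal.ofReal_le_ofReal hnum
      _ = ENNReal.ofReal (Real.exp (-((n : ℝ) ^ ((3 : ℝ) / 5)))) *
          ENNReal.ofReal (Real.exp (-(C0 * √(2 * n : ℕ) * Real.log (2 * n : ℕ)))) :=
          ENNReal.ofReal_mul (Real.exp_pos _).le
      _ ≤ ENNReal.ofReal (Real.exp (-((n : ℝ) ^ ((3 : ℝ) / 5)))) *
          (((Loops n).ncard : ℝ≥0∞) * x ^ (2 * n)) := by gcongr
      _ = _ := by rw [mul_assoc]
  have h4 : (Wd.ncard : ℝ≥0∞) ≤
      ENNReal.ofReal (Real.exp (-((n : ℝ) ^ ((3 : ℝ) / 5)))) * ((Loops n).ncard : ℝ≥0∞) :=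
    (ENNReal.mul_le_mul_iff_left (pow_ne_zero _ hx0) (ENNReal.pow_ne_top hxt)).1 h3
  have h5 := ENNReal.toReal_mono (ENNReal.mul_ne_top ENNReal.ofReal_ne_top
    (ENNReal.natCast_ne_top _)) h4
  rw [ENNReal.toReal_mul, ENNReal.toReal_natCast, ENNReal.toReal_natCast,
    ENNReal.toReal_ofReal (Real.exp_pos _).le] at h5
  exact h5

private lemma fi_y_pos {n : ℕ} (hn : 16 ≤ n) :
    0 < (Real.log (Real.log n)) ^ ((1 : ℝ) / 5) := by
  apply Real.rpow_pos_of_pos
  apply Real.log_pos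
  have h1 : (16 : ℝ) ≤ n := by exact_mod_cast hn
  have h2 := Real.exp_one_lt_d9
  rw [Real.lt_log_iff_exp_lt (by linarith)]
  linarith

private lemma fi_y_le {n : ℕ} (hn : 16 ≤ n) :
    (Real.log (Real.log n)) ^ ((1 : ℝ) / 5) ≤ Real.exp ((n : ℝ) ^ ((3 : ℝ) / 5)) := by
  have h1 : (16 : ℝ) ≤ n := by exact_mod_cast hn
  have h0 : (0 : ℝ) < n := by linarith
  have h2 := Real.exp_one_lt_d9
  have hlog1 : 1 < Real.log n := by
    rw [Real.lt_log_iff_exp_lt h0]
    linarith
  have hll : 0 < Real.log (Real.log n) := Real.log_pos hlog1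
  have h3 : Real.log (Real.log n) ≤ n := by
    have a1 := Real.log_le_sub_one_of_pos h0
    have a2 := Real.log_le_sub_one_of_pos (show 0 < Real.log n by linarith)
    linarith
  calc (Real.log (Real.log n)) ^ ((1 : ℝ) / 5) ≤ (n : ℝ) ^ ((1 : ℝ) / 5) := by gcongr
    _ ≤ (n : ℝ) ^ ((3 : ℝ) / 5) := by
        apply Real.rpow_le_rpow_of_exponent_le (by linarith)
        norm_num
    _ ≤ Real.exp ((n : ℝ) ^ ((3 : ℝ) / 5)) := by
        have := Real.add_one_le_exp ((n : ℝ) ^ ((3 : ℝ) / 5))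
        linarith

private lemma fi_avg {n : ℕ} (hfin : (Loops n).Finite) {B : ℝ} (hB : 0 ≤ B)
    (h : ∑ f ∈ hfin.toFinset, (width n f : ℝ) ≤ ((Loops n).ncard : ℕ) * B) :
    (∑ᶠ f ∈ Loops n, (width n f : ℝ)) / ((Loops n).ncard : ℕ) ≤ B := by
  rw [finsum_mem_eq_finite_toFinset_sum _ hfin]
  rcases Nat.eq_zero_or_pos (Loops n).ncard with h0 | h0
  · rw [h0]
    simpa using hB
  · rw [div_le_iff₀ (by exact_mod_cast h0)]
    linarith

theorem final : ∃ C : ℝ, 0 < C ∧ ∀ n : ℕ, 16 ≤ n →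
    (∑ᶠ f ∈ Loops n, (width n f : ℝ)) / ((Loops n).ncard : ℕ) ≤
        C * n / (Real.log (Real.log n)) ^ ((1 : ℝ) / 5) ∧
      ((({f ∈ Loops n | C * n / (Real.log (Real.log n)) ^ ((1 : ℝ) / 5) ≤ (width n f : ℝ)}).ncard : ℕ) : ℝ)
        ≤ Real.exp (-((n : ℝ) ^ ((3 : ℝ) / 5))) * ((Loops n).ncard : ℕ) := by
  classical
  obtain ⟨C0, -, hlow⟩ := loop_lower
  obtain ⟨x, hx⟩ := exists_crit
  obtain ⟨n0, hn0⟩ := Filter.eventually_atTop.1 (numerics C0)
  set y : ℕ → ℝ := fun n => (Real.log (Real.log n)) ^ ((1 : ℝ) / 5) with hy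
  set C : ℝ := 7 + 2 * ∑ m ∈ Finset.range n0, |y m| with hC
  have hsum0 : 0 ≤ ∑ m ∈ Finset.range n0, |y m| := Finset.sum_nonneg fun _ _ => abs_nonneg _
  have hC0 : 0 < C := by linarith
  refine ⟨C, hC0, fun n hn => ?_⟩
  have hyn : 0 < y n := fi_y_pos hn
  have hn' : (16 : ℝ) ≤ n := by exact_mod_cast hn
  have hnpos : (0 : ℝ) < n := by linarith
  have hfin : (Loops n).Finite := by
    rw [fi_loops]
    exact finite_loops (by omega)
  have hcard : (Loops n).ncard = hfin.toFinset.card := Set.ncard_eq_toFinset_card _ hfin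
  have hmemL : ∀ f, f ∈ hfin.toFinset ↔ f ∈ Loops n := fun f => Set.Finite.mem_toFinset hfin
  show (∑ᶠ f ∈ Loops n, (width n f : ℝ)) / ((Loops n).ncard : ℕ) ≤ C * n / y n ∧
    ((({f ∈ Loops n | C * n / y n ≤ (width n f : ℝ)}).ncard : ℕ) : ℝ)
        ≤ Real.exp (-((n : ℝ) ^ ((3 : ℝ) / 5))) * ((Loops n).ncard : ℕ)
  rcases lt_or_ge n n0 with hlt | hge
  · -- small n
    have h1 : 2 * y n < C := by
      have h2 : |y n| ≤ ∑ m ∈ Finset.range n0, |y m| :=
        Finset.single_le_sum (f := fun m => |y m|) (fun _ _ => abs_nonneg _)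
          (Finset.mem_range.2 hlt)
      have h3 := le_abs_self (y n)
      rw [hC]
      linarith
    have h2 : 2 * (n : ℝ) < C * n / y n := by
      rw [lt_div_iff₀ hyn]
      nlinarith
    have hw : ∀ f ∈ Loops n, (width n f : ℝ) ≤ 2 * n := by
      intro f hf
      exact_mod_cast fi_width_le hf
    constructor
    · apply fi_avg hfin (by positivity)
      rw [hcard]
      calc ∑ f ∈ hfin.toFinset, (width n f : ℝ) ≤ ∑ f ∈ hfin.toFinset, (C * n / y n) := by
            refine Finset.sum_le_sum fun f hf => ?_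
            have := hw f ((hmemL f).1 hf)
            linarith
        _ = _ := by rw [Finset.sum_const, nsmul_eq_mul]
    · have h3 : {f ∈ Loops n | C * n / y n ≤ (width n f : ℝ)} = ∅ := by
        rw [Set.eq_empty_iff_forall_notMem]
        rintro f ⟨hf, hf2⟩
        have := hw f hf
        linarith
      rw [h3, Set.ncard_empty]
      push_cast
      positivity
  · -- large n
    obtain ⟨k, hk, hyk, hbig, hnum⟩ := hn0 n hge
    have hyk' : y n ≤ 2 * k := hyk
    have hwide := fi_wide hx (hlow x hx) (by omega) hk hbig hnum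
    set Wd := {f ∈ Loops n | 2 * n ≤ k * width n f} with hWd
    have hk0 : (0 : ℝ) < k := by exact_mod_cast hk
    constructor
    · apply fi_avg hfin (by positivity)
      have hWfin : Wd.Finite := hfin.subset fun f hf => hf.1
      have hsplit : ∀ f ∈ hfin.toFinset, (width n f : ℝ) ≤
          4 * n / y n + (if f ∈ Wd then 2 * (n : ℝ) else 0) := by
        intro f hf
        have hfL := (hmemL f).1 hf
        by_cases hfW : f ∈ Wd
        · rw [if_pos hfW]
          have h1 : (width n f : ℝ) ≤ 2 * n := by exact_mod_cast fi_width_le hfL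
          have h2 : 0 ≤ 4 * n / y n := by positivity
          linarith
        · rw [if_neg hfW, add_zero]
          have h1 : k * width n f < 2 * n := by
            by_contra hcon
            push Not at hcon
            exact hfW ⟨hfL, hcon⟩
          have h2 : (k : ℝ) * width n f < 2 * n := by exact_mod_cast h1
          rw [le_div_iff₀ hyn]
          have h3 : (width n f : ℝ) * y n ≤ width n f * (2 * k) := by gcongr
          nlinarith
      calc ∑ f ∈ hfin.toFinset, (width n f : ℝ)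
          ≤ ∑ f ∈ hfin.toFinset, (4 * n / y n + (if f ∈ Wd then 2 * (n : ℝ) else 0)) :=
            Finset.sum_le_sum hsplit
        _ = (Loops n).ncard * (4 * n / y n) + Wd.ncard * (2 * n) := by
            rw [Finset.sum_add_distrib, Finset.sum_const, nsmul_eq_mul, hcard,
              ← Finset.sum_filter, Finset.sum_const, nsmul_eq_mul]
            congr 2
            have h1 : hfin.toFinset.filter (fun f => f ∈ Wd) = hWfin.toFinset := by
              ext f
              rw [Finset.mem_filter, hmemL, Set.Finite.mem_toFinset]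
              exact ⟨fun h => h.2, fun h => ⟨h.1, h⟩⟩
            rw [h1, Set.ncard_eq_toFinset_card _ hWfin]
        _ ≤ (Loops n).ncard * (4 * n / y n) +
            (Real.exp (-((n : ℝ) ^ ((3 : ℝ) / 5))) * ((Loops n).ncard : ℕ)) * (2 * n) := by
            gcongr
        _ = (Loops n).ncard * (4 * n / y n + 2 * n * Real.exp (-((n : ℝ) ^ ((3 : ℝ) / 5)))) := by
            ring
        _ ≤ (Loops n).ncard * (C * n / y n) := by
            have h1 : Real.exp (-((n : ℝ) ^ ((3 : ℝ) / 5))) ≤ 1 / y n := by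
              rw [Real.exp_neg, ← one_div]
              exact one_div_le_one_div_of_le hyn (fi_y_le hn)
            have h2 : 4 * n / y n + 2 * n * Real.exp (-((n : ℝ) ^ ((3 : ℝ) / 5))) ≤
                C * n / y n := by
              calc 4 * n / y n + 2 * n * Real.exp (-((n : ℝ) ^ ((3 : ℝ) / 5)))
                  ≤ 4 * n / y n + 2 * n * (1 / y n) := by gcongr
                _ = 6 * n / y n := by ring
                _ ≤ C * n / y n := by
                    have : 6 ≤ C := by linarith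
                    gcongr
            gcongr
    · refine le_trans ?_ hwide
      have hsub : {f ∈ Loops n | C * n / y n ≤ (width n f : ℝ)} ⊆ Wd := by
        rintro f ⟨hf, hf2⟩
        refine ⟨hf, ?_⟩
        have h1 : 6 * n / y n ≤ (width n f : ℝ) := by
          refine le_trans ?_ hf2
          have : 6 ≤ C := by linarith
          gcongr
        rw [div_le_iff₀ hyn] at h1
        have h2 : (width n f : ℝ) * y n ≤ width n f * (2 * k) := by gcongr
        have h3 : (2 : ℝ) * n ≤ k * width n f := by nlinarith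
        exact_mod_cast h3
      exact_mod_cast Set.ncard_le_ncard hsub (hfin.subset fun f hf => hf.1)

end Pool.Agent.Lib.MP_c23e5f_co
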