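import Pool.Agent.Lib.MP_c23e5f_co.LenSum

set_option autoImplicit false

namespace Pool.Agent.Lib.MP_c23e5f_co

/-- fine steps (Section 9 of the paper): `η = 1/(6553600000 k³)`, `κ = 1/(16 k)`, `Λ1 = 32 k` -/
structure Fine (k : ℕ) (f : ℕ → ℤ × ℤ) (T φ : ℕ → ℕ) (s' : ℕ) (l : ℕ) : Prop where
  exc : excess f T φ l ≤ s' / (6553600000 * k ^ 3)
  len : T (φ (l + 1)) - T (φ l) ≤ 32 * k * s'
  dir : ‖toC (f (T (φ (l + 1))) - f (T (φ l)))‖ ≤ 16 * k * ((f (T (φ (l + 1)))).1 - (f (T (φ l))).1 : ℝ)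

/-- the steps of a chain before time `n` form an initial segment -/
private theorem fs_initial {T : ℕ → ℕ} (hT : StrictMono T) (h0 : T 0 = 0) (n : ℕ) :
    ∃ L : ℕ, (Finset.range n).filter (fun l => T (l + 1) ≤ n) = Finset.range L ∧
      T L ≤ n ∧ n < T (L + 1) := by
  have hex : ∃ l, n < T (l + 1) := ⟨n, lt_of_lt_of_le (Nat.lt_succ_self n) (hT.id_le (n + 1))⟩
  classical
  refine ⟨Nat.find hex, ?_, ?_, Nat.find_spec hex⟩
  · ext l
    simp only [Finset.mem_filter, Finset.mem_range]
    constructor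
    · rintro ⟨-, h⟩
      by_contra hcon
      push Not at hcon
      have h1 := Nat.find_spec hex
      have h2 : T (Nat.find hex + 1) ≤ T (l + 1) := hT.monotone (by omega)
      omega
    · intro h
      have h1 := Nat.find_min hex h
      push Not at h1
      have h2 := hT.id_le (l + 1)
      simp only [id] at h2
      exact ⟨by omega, h1⟩
  · rcases Nat.eq_zero_or_pos (Nat.find hex) with h | h
    · rw [h, h0]
      exact Nat.zero_le _
    · have h1 := Nat.find_min hex (m := Nat.find hex - 1) (by omega)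
      push Not at h1
      rwa [Nat.sub_add_cancel h] at h1

open Classical in
/-- Section 9 of the paper, COUNT -/
theorem card_fine {k N n W s' : ℕ} (hk : 1 ≤ k) (hs' : 1 ≤ s') {f : ℕ → ℤ × ℤ} {T φ : ℕ → ℕ}
    (hT : StrictMono T) (hφ : StrictMono φ) (hφ0 : φ 0 = 0) (hC : IsChain f s' (fun l => T (φ l)))
    (hn : n ≤ N) (hW : (f n).1 - (f 0).1 = W) (hkW : N ≤ k * W) (hbig : 32 * s' ≤ W)
    (hD : JJ k * (Lsum f T n - Lsum f (fun l => T (φ l)) n) ≤ 2 * N)
    (hL : Lsum f (fun l => T (φ l)) n ≤ N) :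
    (W : ℝ) ≤ 4 * s' * (((Finset.range n).filter
      (fun l => T (φ (l + 1)) ≤ n ∧ Fine k f T φ s' l)).card : ℝ) := by
  have hkr : (1 : ℝ) ≤ k := by exact_mod_cast hk
  have hsr : (1 : ℝ) ≤ s' := by exact_mod_cast hs'
  have hT'0 : T (φ 0) = 0 := hC.zero
  obtain ⟨L, hS, hLn, hLn'⟩ := fs_initial (T := fun l => T (φ l)) (hT.comp hφ) hT'0 n
  -- the steps
  obtain ⟨x, hx⟩ : ∃ x : ℕ → ℝ, x = fun l => ((f (T (φ (l + 1)))).1 - (f (T (φ l))).1 : ℝ) :=
    ⟨_, rfl⟩
  have hxX : ∀ l, x l ≤ ‖toC (f (T (φ (l + 1))) - f (T (φ l)))‖ := by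
    intro l
    have h1 := Complex.re_le_norm (toC (f (T (φ (l + 1))) - f (T (φ l))))
    rw [toC_re, Prod.fst_sub] at h1
    rw [hx]
    push_cast at h1
    exact h1
  have hx2 : ∀ l, x l ≤ 2 * s' := fun l => (hxX l).trans (hC.hi l)
  -- the sum
  have hsum : (W : ℝ) - 2 * s' ≤ ∑ l ∈ Finset.range L, x l := by
    have h1 : ∑ l ∈ Finset.range L, x l = ((f (T (φ L))).1 : ℝ) - (f (T (φ 0))).1 := by
      rw [hx]
      exact Finset.sum_range_sub (fun l => ((f (T (φ l))).1 : ℝ)) L
    have h2 := hC.wan L n hLn hLn'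
    have h3 := Complex.re_le_norm (toC (f n - f (T (φ L))))
    rw [toC_re, Prod.fst_sub] at h3
    push_cast at h3
    have h4 : ((f n).1 : ℝ) - (f 0).1 = W := by exact_mod_cast congrArg (Int.cast : ℤ → ℝ) hW
    rw [h1, hT'0]
    linarith
  -- the contribution of the steps which are not fine
  obtain ⟨c, hc⟩ : ∃ c : ℕ → ℝ, c = fun l => 13107200000 * (k : ℝ) ^ 3 * excess f T φ l +
      ((T (φ (l + 1)) : ℝ) - T (φ l)) / (16 * k) +
      ‖toC (f (T (φ (l + 1))) - f (T (φ l)))‖ / (16 * k) := ⟨_, rfl⟩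
  have hmono' : ∀ l, (T (φ l) : ℝ) ≤ T (φ (l + 1)) := by
    intro l
    exact_mod_cast (hT.monotone (hφ.monotone (Nat.le_succ l)))
  have hexc0 := excess_nonneg f T φ hφ
  have hc0 : ∀ l, 0 ≤ c l := by
    intro l
    rw [hc]
    have h1 := hexc0 l
    have h2 := hmono' l
    have h3 : 0 ≤ ((T (φ (l + 1)) : ℝ) - T (φ l)) / (16 * k) :=
      div_nonneg (by linarith) (by positivity)
    positivity
  have hnf : ∀ l, ¬ Fine k f T φ s' l → x l ≤ c l := by
    intro l hl
    have h1 := hexc0 l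
    have h2 : 0 ≤ ((T (φ (l + 1)) : ℝ) - T (φ l)) / (16 * k) :=
      div_nonneg (by linarith [hmono' l]) (by positivity)
    have h3 : 0 ≤ ‖toC (f (T (φ (l + 1))) - f (T (φ l)))‖ / (16 * k) := by positivity
    have h4 : 0 ≤ 13107200000 * (k : ℝ) ^ 3 * excess f T φ l := by positivity
    rw [hc]
    simp only
    by_cases e1 : excess f T φ l ≤ s' / (6553600000 * k ^ 3)
    · by_cases e2 : T (φ (l + 1)) - T (φ l) ≤ 32 * k * s'
      · by_cases e3 : ‖toC (f (T (φ (l + 1))) - f (T (φ l)))‖ ≤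
          16 * k * ((f (T (φ (l + 1)))).1 - (f (T (φ l))).1 : ℝ)
        · exact absurd ⟨e1, e2, e3⟩ hl
        · push Not at e3
          have h5 : x l ≤ ‖toC (f (T (φ (l + 1))) - f (T (φ l)))‖ / (16 * k) := by
            rw [le_div_iff₀ (by positivity), hx]
            simp only
            linarith
          linarith
      · push Not at e2
        have e2' : (32 * k * s' : ℝ) < (T (φ (l + 1)) : ℝ) - T (φ l) := by
          have h6 : 32 * k * s' + T (φ l) < T (φ (l + 1)) := by omega
          have h7 : ((32 * k * s' + T (φ l) : ℕ) : ℝ) < (T (φ (l + 1)) : ℝ) := by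
            exact_mod_cast h6
          push_cast at h7
          linarith
        have h5 : x l ≤ ((T (φ (l + 1)) : ℝ) - T (φ l)) / (16 * k) := by
          rw [le_div_iff₀ (by positivity)]
          have h8 := hx2 l
          have h9 : x l * (16 * k) ≤ 2 * s' * (16 * k) :=
            mul_le_mul_of_nonneg_right h8 (by positivity)
          linarith
        linarith
    · push Not at e1
      have h5 : x l ≤ 13107200000 * (k : ℝ) ^ 3 * excess f T φ l := by
        rw [div_lt_iff₀ (by positivity)] at e1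
        have h8 := hx2 l
        linarith
      linarith
  -- total of the contributions
  have hNk : (N : ℝ) ≤ k * W := by exact_mod_cast hkW
  have hCsum : ∑ l ∈ Finset.range L, c l ≤ 3 * W / 16 := by
    have g1 : ∑ l ∈ Finset.range L, excess f T φ l ≤ 2 * N / (10 ^ 12 * k ^ 4) := by
      have h1 := sum_excess_le f T φ hT hφ n
      rw [hS] at h1
      have h2 : ((JJ k : ℕ) : ℝ) = 10 ^ 12 * (k : ℝ) ^ 4 := by
        unfold JJ
        push_cast
        ring
      rw [h2] at hD
      rw [le_div_iff₀ (by positivity)]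
      calc (∑ l ∈ Finset.range L, excess f T φ l) * (10 ^ 12 * (k : ℝ) ^ 4)
          ≤ (Lsum f T n - Lsum f (fun l => T (φ l)) n) * (10 ^ 12 * (k : ℝ) ^ 4) := by gcongr
        _ ≤ _ := by linarith
    have g2 : ∑ l ∈ Finset.range L, ((T (φ (l + 1)) : ℝ) - T (φ l)) ≤ N := by
      rw [Finset.sum_range_sub (fun l => (T (φ l) : ℝ)) L, hT'0, Nat.cast_zero, sub_zero]
      exact_mod_cast hLn.trans hn
    have g3 : ∑ l ∈ Finset.range L, ‖toC (f (T (φ (l + 1))) - f (T (φ l)))‖ ≤ N := by
      have h1 : Lsum f (fun l => T (φ l)) n =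
          ∑ l ∈ Finset.range L, ‖toC (f (T (φ (l + 1))) - f (T (φ l)))‖ := by
        unfold Lsum vlen
        rw [hS]
      rw [← h1]
      exact hL
    rw [hc]
    simp only
    rw [Finset.sum_add_distrib, Finset.sum_add_distrib, ← Finset.mul_sum, ← Finset.sum_div,
      ← Finset.sum_div]
    have k1 : 13107200000 * (k : ℝ) ^ 3 * ∑ l ∈ Finset.range L, excess f T φ l ≤ W / 16 := by
      calc 13107200000 * (k : ℝ) ^ 3 * ∑ l ∈ Finset.range L, excess f T φ l
          ≤ 13107200000 * (k : ℝ) ^ 3 * (2 * N / (10 ^ 12 * k ^ 4)) := by gcongr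
        _ = 26214400000 / 10 ^ 12 * ((N : ℝ) / (k : ℝ)) := by
            field_simp
            ring
        _ ≤ 26214400000 / 10 ^ 12 * (W : ℝ) := by
            have h5 : (N : ℝ) / (k : ℝ) ≤ W := by
              rw [div_le_iff₀ (by positivity)]
              linarith
            exact mul_le_mul_of_nonneg_left h5 (by norm_num)
        _ ≤ _ := by
            have : (0 : ℝ) ≤ W := Nat.cast_nonneg W
            linarith
    have k2 : (∑ l ∈ Finset.range L, ((T (φ (l + 1)) : ℝ) - T (φ l))) / (16 * k) ≤ W / 16 := by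
      rw [div_le_div_iff₀ (by positivity) (by norm_num)]
      linarith
    have k3 : (∑ l ∈ Finset.range L, ‖toC (f (T (φ (l + 1))) - f (T (φ l)))‖) / (16 * k) ≤
        W / 16 := by
      rw [div_le_div_iff₀ (by positivity) (by norm_num)]
      linarith
    linarith
  -- conclusion
  have hfil : (Finset.range n).filter (fun l => T (φ (l + 1)) ≤ n ∧ Fine k f T φ s' l) =
      (Finset.range L).filter (fun l => Fine k f T φ s' l) := by
    rw [← hS, Finset.filter_filter]
  rw [hfil]
  have hsplit : ∑ l ∈ Finset.range L, x l ≤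
      2 * s' * ((Finset.range L).filter (fun l => Fine k f T φ s' l)).card +
        ∑ l ∈ Finset.range L, c l := by
    have h1 : ∀ l ∈ Finset.range L, x l ≤ (if Fine k f T φ s' l then (2 * s' : ℝ) else 0) + c l := by
      intro l _
      split_ifs with h
      · have := hx2 l
        have := hc0 l
        linarith
      · rw [zero_add]
        exact hnf l h
    refine (Finset.sum_le_sum h1).trans ?_
    rw [Finset.sum_add_distrib, ← Finset.sum_filter, Finset.sum_const, nsmul_eq_mul]
    linarith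
  have hbr : (32 * s' : ℝ) ≤ W := by exact_mod_cast hbig
  have hWr : (0 : ℝ) ≤ W := Nat.cast_nonneg W
  linarith

end Pool.Agent.Lib.MP_c23e5f_co
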