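import Pool.Agent.Lib.MP_c23e5f_co.Basic

set_option autoImplicit false

namespace Pool.Agent.Lib.MP_c23e5f_co

private lemma normSq_toC (D : ℤ × ℤ) : (D.1 : ℝ) ^ 2 + (D.2 : ℝ) ^ 2 = ‖toC D‖ ^ 2 := by
  rw [Complex.sq_norm, Complex.normSq_apply, toC_re, toC_im]
  ring

/-- the forms of the three frames and `z1` are bounded by `3/2` times the Euclidean norm -/
theorem form_le (fr : Frame) (h : fr = frA ∨ fr = frA' ∨ fr = frB) (D : ℤ × ℤ) :
    |((D.1 : ℤ) : ℝ)| ≤ ‖toC D‖ ∧ |(fr.F D : ℝ)| ≤ 3 / 2 * ‖toC D‖ ∧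
      |(fr.g D : ℝ)| ≤ 3 / 2 * ‖toC D‖ := by
  have h0 : 0 ≤ ‖toC D‖ := norm_nonneg _
  have hn := normSq_toC D
  have h1 : |(D.1 : ℝ)| ≤ ‖toC D‖ := by
    apply abs_le_of_sq_le_sq _ h0
    nlinarith [sq_nonneg (D.2 : ℝ)]
  have h2 : |(D.2 : ℝ)| ≤ ‖toC D‖ := by
    apply abs_le_of_sq_le_sq _ h0
    nlinarith [sq_nonneg (D.1 : ℝ)]
  have h3 : |(D.1 : ℝ) + D.2| ≤ 3 / 2 * ‖toC D‖ := by
    apply abs_le_of_sq_le_sq _ (by positivity)
    nlinarith [sq_nonneg ((D.1 : ℝ) - D.2), sq_nonneg (‖toC D‖)]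
  have h4 : |(D.1 : ℝ) - D.2| ≤ 3 / 2 * ‖toC D‖ := by
    apply abs_le_of_sq_le_sq _ (by positivity)
    nlinarith [sq_nonneg ((D.1 : ℝ) + D.2), sq_nonneg (‖toC D‖)]
  refine ⟨h1, ?_⟩
  rcases h with rfl | rfl | rfl
  · simp only [frA, Z1_apply, Z2_apply]
    exact ⟨by linarith, by linarith⟩
  · simp only [frA', Z1_apply, Z2_apply, AddMonoidHom.neg_apply]
    push_cast
    rw [abs_neg]
    exact ⟨by linarith, by linarith⟩
  · simp only [frB, Z1_apply, Z2_apply, AddMonoidHom.add_apply, AddMonoidHom.sub_apply]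
    push_cast
    exact ⟨h3, h4⟩

/-- the orthogonal component is small -/
private lemma geo_core {κ a b x y lam : ℝ} (hκ0 : 0 < κ) (hκ1 : κ ≤ 1 / 16)
    (hab : a ^ 2 + b ^ 2 = 1) (hn : x ^ 2 + y ^ 2 ≤ lam ^ 2) (hlam : 0 ≤ lam)
    (hP : (1 - κ ^ 2 / 400) * lam ≤ x * a + y * b) :
    |x * b - y * a| ≤ κ * lam / 14 ∧ 9999 / 10000 * lam ≤ x * a + y * b ∧
      x * a + y * b ≤ lam := by
  have hκ2 : κ ^ 2 ≤ 1 / 256 := by nlinarith
  have hPQ : (x * a + y * b) ^ 2 + (x * b - y * a) ^ 2 = x ^ 2 + y ^ 2 := by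
    have : (x * a + y * b) ^ 2 + (x * b - y * a) ^ 2 = (x ^ 2 + y ^ 2) * (a ^ 2 + b ^ 2) := by ring
    rw [this, hab, mul_one]
  have hP0 : 0 ≤ (1 - κ ^ 2 / 400) * lam := mul_nonneg (by linarith) hlam
  have hP2 : ((1 - κ ^ 2 / 400) * lam) ^ 2 ≤ (x * a + y * b) ^ 2 := by
    apply pow_le_pow_left₀ hP0 hP
  refine ⟨?_, ?_, ?_⟩
  · apply abs_le_of_sq_le_sq _ (by positivity)
    have h1 : (x * b - y * a) ^ 2 ≤ lam ^ 2 - ((1 - κ ^ 2 / 400) * lam) ^ 2 := by linarith
    have h2 : lam ^ 2 - ((1 - κ ^ 2 / 400) * lam) ^ 2 ≤ (κ * lam / 14) ^ 2 := by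
      have : (κ * lam / 14) ^ 2 - (lam ^ 2 - ((1 - κ ^ 2 / 400) * lam) ^ 2) =
          κ ^ 2 * lam ^ 2 * (1 / 196 - 1 / 200) + (κ ^ 2) ^ 2 / 160000 * lam ^ 2 := by ring
      have h3 : 0 ≤ κ ^ 2 * lam ^ 2 * (1 / 196 - 1 / 200) + (κ ^ 2) ^ 2 / 160000 * lam ^ 2 := by
        have : (0:ℝ) ≤ 1 / 196 - 1 / 200 := by norm_num
        positivity
      linarith
    linarith
  · nlinarith
  · have : (x * a + y * b) ^ 2 ≤ lam ^ 2 := by nlinarith [sq_nonneg (x * b - y * a)]
    exact le_of_sq_le_sq this hlam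

/-- Section 9 of the paper, GEOMETRY (`c1 = κ²/400 = 1/(102400 k²)`, `κ = 1/(16 k)`) -/
theorem geo {k : ℕ} (hk : 1 ≤ k) {e : ℂ} (he : ‖e‖ = 1) (hre : 1 / (16 * k) ≤ e.re) :
    ∃ fr : Frame, (fr = frA ∨ fr = frA' ∨ fr = frB) ∧ ∀ (D : ℤ × ℤ) (lam : ℝ), ‖toC D‖ ≤ lam →
      (1 - 1 / (102400 * k ^ 2)) * lam ≤ D.1 * e.re + D.2 * e.im →
      lam ≤ 20 * k * (D.1 : ℝ) ∧ lam ≤ 20 * k * (fr.F D : ℝ) ∧ 2 / 5 * lam ≤ (fr.g D : ℝ) ∧
        |(fr.F D : ℝ) - D.1| ≤ 11 / 20 * (D.1 : ℝ) := by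
  have hk1 : (1 : ℝ) ≤ k := by exact_mod_cast hk
  obtain ⟨a, b⟩ := e
  have hab : a ^ 2 + b ^ 2 = 1 := by
    have h1 : ‖(⟨a, b⟩ : ℂ)‖ ^ 2 = a ^ 2 + b ^ 2 := by
      rw [Complex.sq_norm, Complex.normSq_apply]; ring
    rw [← h1, he]; norm_num
  simp only at hre ⊢
  set κ : ℝ := 1 / (16 * k) with hκ
  have hκ0 : 0 < κ := by positivity
  have hκ1 : κ ≤ 1 / 16 := by
    rw [hκ]
    apply one_div_le_one_div_of_le (by norm_num)
    linarith
  have hκk : κ * k = 1 / 16 := by rw [hκ]; field_simp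
  have hc : (1 : ℝ) / (102400 * k ^ 2) = κ ^ 2 / 400 := by
    rw [hκ]; field_simp; norm_num
  have hb1 : |b| ≤ 1 := by
    apply abs_le_of_sq_le_sq _ (by norm_num)
    nlinarith [sq_nonneg a]
  have ha1 : a ≤ 1 := by nlinarith [sq_nonneg b]
  have ha0 : 0 < a := lt_of_lt_of_le hκ0 hre
  -- passing from the inequality with `κ` to the one with `k`
  have hscale : ∀ z lam : ℝ, 4 / 5 * κ * lam ≤ z → lam ≤ 20 * k * z := by
    intro z lam hz
    have h1 : 20 * k * (4 / 5 * κ * lam) ≤ 20 * k * z :=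
      mul_le_mul_of_nonneg_left hz (by positivity)
    have h2 : 20 * k * (4 / 5 * κ * lam) = 16 * (κ * k) * lam := by ring
    rw [h2, hκk] at h1
    linarith
  -- the first coordinate
  have hx : ∀ x y lam : ℝ, 0 ≤ lam → |x * b - y * a| ≤ κ * lam / 14 →
      9999 / 10000 * lam ≤ x * a + y * b → 4 / 5 * κ * lam ≤ x := by
    intro x y lam hlam hQ hP
    have e1 : x = (x * a + y * b) * a + (x * b - y * a) * b := by
      have : (x * a + y * b) * a + (x * b - y * a) * b = x * (a ^ 2 + b ^ 2) := by ring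
      rw [this, hab, mul_one]
    have h1 : |(x * b - y * a) * b| ≤ κ * lam / 14 := by
      rw [abs_mul]
      calc |x * b - y * a| * |b| ≤ (κ * lam / 14) * 1 :=
            mul_le_mul hQ hb1 (abs_nonneg _) (by positivity)
        _ = _ := mul_one _
    have h2 : 9999 / 10000 * lam * κ ≤ (x * a + y * b) * a :=
      mul_le_mul hP hre hκ0.le (le_trans (by positivity) hP)
    have h3 := neg_le_of_abs_le h1
    rw [e1]
    have h4 : 0 ≤ κ * lam := by positivity
    nlinarith
  rcases le_or_gt (a / 2) |b| with hcase | hcase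
  · have hb2 : 447 / 1000 ≤ |b| := by
      have h1 : (a / 2) ^ 2 ≤ b ^ 2 := by
        rw [← sq_abs b]
        exact pow_le_pow_left₀ (by positivity) hcase 2
      have h2 : (447 / 1000 : ℝ) ^ 2 ≤ b ^ 2 := by nlinarith
      rw [← sq_abs b] at h2
      exact le_of_sq_le_sq h2 (abs_nonneg _)
    rcases le_or_gt 0 b with hb | hb
    · rw [abs_of_nonneg hb] at hb2
      refine ⟨frA, Or.inl rfl, fun D lam hD hP => ?_⟩
      have hlam : 0 ≤ lam := le_trans (norm_nonneg _) hD
      have hn : (D.1 : ℝ) ^ 2 + (D.2 : ℝ) ^ 2 ≤ lam ^ 2 := by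
        rw [normSq_toC]; exact pow_le_pow_left₀ (norm_nonneg _) hD 2
      rw [hc] at hP
      obtain ⟨hQ, hP1, hP2⟩ := geo_core hκ0 hκ1 hab hn hlam hP
      have hx' := hx _ _ lam hlam hQ hP1
      have hs := hscale _ _ hx'
      have hxnn : 0 ≤ (D.1 : ℝ) := le_trans (by positivity) hx'
      simp only [frA, Z1_apply, Z2_apply]
      refine ⟨hs, hs, ?_, ?_⟩
      · generalize (D.1 : ℝ) = x at *
        generalize (D.2 : ℝ) = y at *
        have e1 : y = (x * a + y * b) * b - (x * b - y * a) * a := by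
          have : (x * a + y * b) * b - (x * b - y * a) * a = y * (a ^ 2 + b ^ 2) := by ring
          rw [this, hab, mul_one]
        have h1 : |(x * b - y * a) * a| ≤ κ * lam / 14 := by
          rw [abs_mul, abs_of_pos ha0]
          calc |x * b - y * a| * a ≤ (κ * lam / 14) * 1 :=
                mul_le_mul hQ ha1 ha0.le (by positivity)
            _ = _ := mul_one _
        have h2 : 9999 / 10000 * lam * (447 / 1000) ≤ (x * a + y * b) * b :=
          mul_le_mul hP1 hb2 (by norm_num) (le_trans (by positivity) hP1)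
        have h3 := le_of_abs_le h1
        have h4 : κ * lam ≤ 1 / 16 * lam := mul_le_mul_of_nonneg_right hκ1 hlam
        rw [e1]
        linarith
      · rw [sub_self, abs_zero]; positivity
    · rw [abs_of_neg hb] at hb2
      refine ⟨frA', Or.inr (Or.inl rfl), fun D lam hD hP => ?_⟩
      have hlam : 0 ≤ lam := le_trans (norm_nonneg _) hD
      have hn : (D.1 : ℝ) ^ 2 + (D.2 : ℝ) ^ 2 ≤ lam ^ 2 := by
        rw [normSq_toC]; exact pow_le_pow_left₀ (norm_nonneg _) hD 2
      rw [hc] at hP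
      obtain ⟨hQ, hP1, hP2⟩ := geo_core hκ0 hκ1 hab hn hlam hP
      have hx' := hx _ _ lam hlam hQ hP1
      have hs := hscale _ _ hx'
      have hxnn : 0 ≤ (D.1 : ℝ) := le_trans (by positivity) hx'
      simp only [frA', Z1_apply, Z2_apply, AddMonoidHom.neg_apply]
      push_cast
      refine ⟨hs, hs, ?_, ?_⟩
      · generalize (D.1 : ℝ) = x at *
        generalize (D.2 : ℝ) = y at *
        have e1 : -y = (x * a + y * b) * (-b) + (x * b - y * a) * a := by
          have : (x * a + y * b) * (-b) + (x * b - y * a) * a = -(y * (a ^ 2 + b ^ 2)) := by ring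
          rw [this, hab, mul_one]
        have h1 : |(x * b - y * a) * a| ≤ κ * lam / 14 := by
          rw [abs_mul, abs_of_pos ha0]
          calc |x * b - y * a| * a ≤ (κ * lam / 14) * 1 :=
                mul_le_mul hQ ha1 ha0.le (by positivity)
            _ = _ := mul_one _
        have h2 : 9999 / 10000 * lam * (447 / 1000) ≤ (x * a + y * b) * (-b) :=
          mul_le_mul hP1 hb2 (by norm_num) (le_trans (by positivity) hP1)
        have h3 := neg_le_of_abs_le h1
        have h4 : κ * lam ≤ 1 / 16 * lam := mul_le_mul_of_nonneg_right hκ1 hlam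
        rw [e1]
        linarith
      · rw [sub_self, abs_zero]; positivity
  · have ha2 : 894 / 1000 ≤ a := by
      have h1 : b ^ 2 ≤ (a / 2) ^ 2 := by
        rw [← sq_abs b]
        exact pow_le_pow_left₀ (abs_nonneg _) hcase.le 2
      have h2 : (894 / 1000 : ℝ) ^ 2 ≤ a ^ 2 := by nlinarith
      exact le_of_sq_le_sq h2 ha0.le
    have hb3 := abs_lt.1 hcase
    refine ⟨frB, Or.inr (Or.inr rfl), fun D lam hD hP => ?_⟩
    have hlam : 0 ≤ lam := le_trans (norm_nonneg _) hD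
    have hn : (D.1 : ℝ) ^ 2 + (D.2 : ℝ) ^ 2 ≤ lam ^ 2 := by
      rw [normSq_toC]; exact pow_le_pow_left₀ (norm_nonneg _) hD 2
    rw [hc] at hP
    obtain ⟨hQ, hP1, hP2⟩ := geo_core hκ0 hκ1 hab hn hlam hP
    have hx' := hx _ _ lam hlam hQ hP1
    have hs := hscale _ _ hx'
    have hxnn : 0 ≤ (D.1 : ℝ) := le_trans (by positivity) hx'
    simp only [frB, Z1_apply, Z2_apply, AddMonoidHom.add_apply, AddMonoidHom.sub_apply]
    push_cast
    generalize (D.1 : ℝ) = x at *
    generalize (D.2 : ℝ) = y at *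
    have h4 : κ * lam ≤ 1 / 16 * lam := mul_le_mul_of_nonneg_right hκ1 hlam
    have hQ' : |x * b - y * a| ≤ lam / 224 := by linarith
    have hP0 : 0 ≤ x * a + y * b := le_trans (by positivity) hP1
    have ex : x = (x * a + y * b) * a + (x * b - y * a) * b := by
      have : (x * a + y * b) * a + (x * b - y * a) * b = x * (a ^ 2 + b ^ 2) := by ring
      rw [this, hab, mul_one]
    have ey : y = (x * a + y * b) * b - (x * b - y * a) * a := by
      have : (x * a + y * b) * b - (x * b - y * a) * a = y * (a ^ 2 + b ^ 2) := by ring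
      rw [this, hab, mul_one]
    have q1 : |(x * b - y * a) * b| ≤ lam / 224 := by
      rw [abs_mul]
      calc |x * b - y * a| * |b| ≤ (lam / 224) * 1 :=
            mul_le_mul hQ' hb1 (abs_nonneg _) (by positivity)
        _ = _ := mul_one _
    have q2 : |(x * b - y * a) * a| ≤ lam / 224 := by
      rw [abs_mul, abs_of_pos ha0]
      calc |x * b - y * a| * a ≤ (lam / 224) * 1 :=
            mul_le_mul hQ' ha1 ha0.le (by positivity)
        _ = _ := mul_one _
    have p1 : 9999 / 10000 * lam * (447 / 1000) ≤ (x * a + y * b) * (a + b) :=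
      mul_le_mul hP1 (by linarith [hb3.1]) (by norm_num) hP0
    have p2 : 9999 / 10000 * lam * (447 / 1000) ≤ (x * a + y * b) * (a - b) :=
      mul_le_mul hP1 (by linarith [hb3.2]) (by norm_num) hP0
    have p3 : 9999 / 10000 * lam * (894 / 1000) ≤ (x * a + y * b) * a :=
      mul_le_mul hP1 ha2 (by norm_num) hP0
    have q1' := abs_le.1 q1
    have q2' := abs_le.1 q2
    have key1 : 2 / 5 * lam ≤ x + y := by
      have : x + y = (x * a + y * b) * (a + b) + (x * b - y * a) * b - (x * b - y * a) * a := by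
        conv_lhs => rw [ex, ey]
        ring
      rw [this]
      linarith [q1'.1, q2'.2]
    have key2 : 2 / 5 * lam ≤ x - y := by
      have : x - y = (x * a + y * b) * (a - b) + (x * b - y * a) * b + (x * b - y * a) * a := by
        conv_lhs => rw [ex, ey]
        ring
      rw [this]
      linarith [q1'.1, q2'.1]
    refine ⟨hs, ?_, key2, ?_⟩
    · apply hscale
      have : 4 / 5 * κ * lam = 4 / 5 * (κ * lam) := by ring
      rw [this]
      linarith
    · have r1 : x + y - x = y := by ring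
      rw [r1, abs_le]
      have pb1 : (x * a + y * b) * b ≤ (x * a + y * b) * (a / 2) :=
        mul_le_mul_of_nonneg_left hb3.2.le hP0
      have pb2 : (x * a + y * b) * (-(a / 2)) ≤ (x * a + y * b) * b :=
        mul_le_mul_of_nonneg_left hb3.1.le hP0
      constructor
      · have : -(11 / 20 * x) ≤ y ↔ 0 ≤ y + 11 / 20 * x := by
          constructor <;> intro h <;> linarith
        rw [this]
        have e2 : y + 11 / 20 * x = (x * a + y * b) * b - (x * b - y * a) * a +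
            11 / 20 * ((x * a + y * b) * a + (x * b - y * a) * b) := by rw [← ex, ← ey]
        rw [e2]
        nlinarith [q1'.1, q2'.2]
      · have : y ≤ 11 / 20 * x ↔ 0 ≤ 11 / 20 * x - y := by
          constructor <;> intro h <;> linarith
        rw [this]
        have e2 : 11 / 20 * x - y = 11 / 20 * ((x * a + y * b) * a + (x * b - y * a) * b) -
            ((x * a + y * b) * b - (x * b - y * a) * a) := by rw [← ex, ← ey]
        rw [e2]
        nlinarith [q1'.1, q2'.1]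

end Pool.Agent.Lib.MP_c23e5f_co
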