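import Mathlib

set_option autoImplicit false

namespace Pool.Agent.Lib.MP_c23e5f_co

private theorem lower_sum (a b : ℕ) (hab : a ≤ b) (lam : ℕ → ℝ) (c s : ℝ) (hc : 0 < c)
    (hlam : ∀ m, a ≤ m → m < b → s ≤ lam m) :
    ((b - a : ℕ) : ℝ) * (c * s) ≤ c * ∑ m ∈ Finset.Ico a b, lam m := by
  have h1 : ((b - a : ℕ) : ℝ) * s ≤ ∑ m ∈ Finset.Ico a b, lam m := by
    have h2 : ∑ _m ∈ Finset.Ico a b, s ≤ ∑ m ∈ Finset.Ico a b, lam m := by
      refine Finset.sum_le_sum ?_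
      intro m hm
      rw [Finset.mem_Ico] at hm
      exact hlam m hm.1 hm.2
    rwa [Finset.sum_const, Nat.card_Ico, nsmul_eq_mul] at h2
  calc ((b - a : ℕ) : ℝ) * (c * s) = c * (((b - a : ℕ) : ℝ) * s) := by ring
    _ ≤ _ := mul_le_mul_of_nonneg_left h1 hc.le

open Classical in
/-- discrete maximal inequality: indices from which some interval to the right has large density -/
theorem maximal_right (A B : ℕ) (δ lam : ℕ → ℝ) (c s : ℝ) (hc : 0 < c) (hs : 0 < s)
    (hδ : ∀ m, A ≤ m → m < B → 0 ≤ δ m) (hlam : ∀ m, A ≤ m → m < B → s ≤ lam m) :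
    (((Finset.Ico A B).filter (fun j => ∃ j', j < j' ∧ j' ≤ B ∧
      c * ∑ m ∈ Finset.Ico j j', lam m < ∑ m ∈ Finset.Ico j j', δ m)).card : ℝ) * (c * s) ≤
      ∑ m ∈ Finset.Ico A B, δ m := by
  have hcs : 0 < c * s := mul_pos hc hs
  induction hn : B - A using Nat.strong_induction_on generalizing A with
  | _ n ih =>
  rcases le_or_gt B A with hBA | hAB
  · rw [Finset.Ico_eq_empty (not_lt.2 hBA)]
    simp
  by_cases hA : ∃ j', A < j' ∧ j' ≤ B ∧
      c * ∑ m ∈ Finset.Ico A j', lam m < ∑ m ∈ Finset.Ico A j', δ m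
  · obtain ⟨j', h1, h2, h3⟩ := hA
    have h4 := ih (B - j') (by omega) j' (fun m hm => hδ m (h1.le.trans hm))
      (fun m hm => hlam m (h1.le.trans hm)) rfl
    have h5 : ((Finset.Ico A B).filter (fun j => ∃ j', j < j' ∧ j' ≤ B ∧
        c * ∑ m ∈ Finset.Ico j j', lam m < ∑ m ∈ Finset.Ico j j', δ m)).card ≤
        (j' - A) + ((Finset.Ico j' B).filter (fun j => ∃ j', j < j' ∧ j' ≤ B ∧
        c * ∑ m ∈ Finset.Ico j j', lam m < ∑ m ∈ Finset.Ico j j', δ m)).card := by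
      rw [← Nat.card_Ico A j']
      refine (Finset.card_le_card ?_).trans (Finset.card_union_le _ _)
      intro j hj
      rw [Finset.mem_filter, Finset.mem_Ico] at hj
      rw [Finset.mem_union, Finset.mem_filter, Finset.mem_Ico, Finset.mem_Ico]
      rcases lt_or_ge j j' with h | h
      · exact Or.inl ⟨hj.1.1, h⟩
      · exact Or.inr ⟨⟨h, hj.1.2⟩, hj.2⟩
    have h6 := lower_sum A j' h1.le lam c s hc (fun m hm hm' => hlam m hm (hm'.trans_le h2))
    rw [← Finset.sum_Ico_consecutive δ h1.le h2]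
    have h7 : (((Finset.Ico A B).filter (fun j => ∃ j', j < j' ∧ j' ≤ B ∧
        c * ∑ m ∈ Finset.Ico j j', lam m < ∑ m ∈ Finset.Ico j j', δ m)).card : ℝ) ≤
        ((j' - A : ℕ) : ℝ) + (((Finset.Ico j' B).filter (fun j => ∃ j', j < j' ∧ j' ≤ B ∧
        c * ∑ m ∈ Finset.Ico j j', lam m < ∑ m ∈ Finset.Ico j j', δ m)).card : ℝ) := by
      exact_mod_cast h5
    have h8 := mul_le_mul_of_nonneg_right h7 hcs.le
    rw [add_mul] at h8
    linarith
  · have h4 := ih (B - (A + 1)) (by omega) (A + 1) (fun m hm => hδ m (by omega))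
      (fun m hm => hlam m (by omega)) rfl
    have h5 : ((Finset.Ico A B).filter (fun j => ∃ j', j < j' ∧ j' ≤ B ∧
        c * ∑ m ∈ Finset.Ico j j', lam m < ∑ m ∈ Finset.Ico j j', δ m)).card ≤
        ((Finset.Ico (A + 1) B).filter (fun j => ∃ j', j < j' ∧ j' ≤ B ∧
        c * ∑ m ∈ Finset.Ico j j', lam m < ∑ m ∈ Finset.Ico j j', δ m)).card := by
      refine Finset.card_le_card ?_
      intro j hj
      rw [Finset.mem_filter, Finset.mem_Ico] at hj ⊢
      refine ⟨⟨?_, hj.1.2⟩, hj.2⟩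
      rcases hj.1.1.eq_or_lt with h | h
      · subst h
        exact absurd hj.2 hA
      · exact h
    have h7 : (((Finset.Ico A B).filter (fun j => ∃ j', j < j' ∧ j' ≤ B ∧
        c * ∑ m ∈ Finset.Ico j j', lam m < ∑ m ∈ Finset.Ico j j', δ m)).card : ℝ) ≤
        (((Finset.Ico (A + 1) B).filter (fun j => ∃ j', j < j' ∧ j' ≤ B ∧
        c * ∑ m ∈ Finset.Ico j j', lam m < ∑ m ∈ Finset.Ico j j', δ m)).card : ℝ) := by
      exact_mod_cast h5
    have h8 := mul_le_mul_of_nonneg_right h7 hcs.le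
    have h9 := hδ A le_rfl hAB
    rw [Finset.sum_eq_sum_Ico_succ_bot hAB]
    linarith

open Classical in
/-- discrete maximal inequality: indices from which some interval to the left has large density -/
theorem maximal_left (A B : ℕ) (δ lam : ℕ → ℝ) (c s : ℝ) (hc : 0 < c) (hs : 0 < s)
    (hδ : ∀ m, A ≤ m → m < B → 0 ≤ δ m) (hlam : ∀ m, A ≤ m → m < B → s ≤ lam m) :
    (((Finset.Ioc A B).filter (fun j => ∃ j', A ≤ j' ∧ j' < j ∧
      c * ∑ m ∈ Finset.Ico j' j, lam m < ∑ m ∈ Finset.Ico j' j, δ m)).card : ℝ) * (c * s) ≤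
      ∑ m ∈ Finset.Ico A B, δ m := by
  have hcs : 0 < c * s := mul_pos hc hs
  induction B using Nat.strong_induction_on with
  | _ B ih =>
  rcases le_or_gt B A with hBA | hAB
  · rw [Finset.Ioc_eq_empty (not_lt.2 hBA), Finset.Ico_eq_empty (not_lt.2 hBA)]
    simp
  by_cases hB : ∃ j', A ≤ j' ∧ j' < B ∧
      c * ∑ m ∈ Finset.Ico j' B, lam m < ∑ m ∈ Finset.Ico j' B, δ m
  · obtain ⟨j', h1, h2, h3⟩ := hB
    have h4 := ih j' h2 (fun m hm hm' => hδ m hm (hm'.trans h2))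
      (fun m hm hm' => hlam m hm (hm'.trans h2))
    have h5 : ((Finset.Ioc A B).filter (fun j => ∃ j', A ≤ j' ∧ j' < j ∧
        c * ∑ m ∈ Finset.Ico j' j, lam m < ∑ m ∈ Finset.Ico j' j, δ m)).card ≤
        (B - j') + ((Finset.Ioc A j').filter (fun j => ∃ j', A ≤ j' ∧ j' < j ∧
        c * ∑ m ∈ Finset.Ico j' j, lam m < ∑ m ∈ Finset.Ico j' j, δ m)).card := by
      rw [← Nat.card_Ioc j' B]
      refine (Finset.card_le_card ?_).trans (Finset.card_union_le _ _)
      intro j hj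
      rw [Finset.mem_filter, Finset.mem_Ioc] at hj
      rw [Finset.mem_union, Finset.mem_filter, Finset.mem_Ioc, Finset.mem_Ioc]
      rcases lt_or_ge j' j with h | h
      · exact Or.inl ⟨h, hj.1.2⟩
      · exact Or.inr ⟨⟨hj.1.1, h⟩, hj.2⟩
    have h6 := lower_sum j' B h2.le lam c s hc (fun m hm hm' => hlam m (h1.trans hm) hm')
    rw [← Finset.sum_Ico_consecutive δ h1 h2.le]
    have h7 : (((Finset.Ioc A B).filter (fun j => ∃ j', A ≤ j' ∧ j' < j ∧
        c * ∑ m ∈ Finset.Ico j' j, lam m < ∑ m ∈ Finset.Ico j' j, δ m)).card : ℝ) ≤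
        ((B - j' : ℕ) : ℝ) + (((Finset.Ioc A j').filter (fun j => ∃ j', A ≤ j' ∧ j' < j ∧
        c * ∑ m ∈ Finset.Ico j' j, lam m < ∑ m ∈ Finset.Ico j' j, δ m)).card : ℝ) := by
      exact_mod_cast h5
    have h8 := mul_le_mul_of_nonneg_right h7 hcs.le
    rw [add_mul] at h8
    linarith
  · obtain ⟨B', rfl⟩ : ∃ B', B = B' + 1 := ⟨B - 1, by omega⟩
    have h4 := ih B' (by omega) (fun m hm hm' => hδ m hm (by omega))
      (fun m hm hm' => hlam m hm (by omega))
    have h5 : ((Finset.Ioc A (B' + 1)).filter (fun j => ∃ j', A ≤ j' ∧ j' < j ∧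
        c * ∑ m ∈ Finset.Ico j' j, lam m < ∑ m ∈ Finset.Ico j' j, δ m)).card ≤
        ((Finset.Ioc A B').filter (fun j => ∃ j', A ≤ j' ∧ j' < j ∧
        c * ∑ m ∈ Finset.Ico j' j, lam m < ∑ m ∈ Finset.Ico j' j, δ m)).card := by
      refine Finset.card_le_card ?_
      intro j hj
      rw [Finset.mem_filter, Finset.mem_Ioc] at hj ⊢
      refine ⟨⟨hj.1.1, ?_⟩, hj.2⟩
      rcases hj.1.2.eq_or_lt with h | h
      · subst h
        exact absurd hj.2 hB
      · omega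
    have h7 : (((Finset.Ioc A (B' + 1)).filter (fun j => ∃ j', A ≤ j' ∧ j' < j ∧
        c * ∑ m ∈ Finset.Ico j' j, lam m < ∑ m ∈ Finset.Ico j' j, δ m)).card : ℝ) ≤
        (((Finset.Ioc A B').filter (fun j => ∃ j', A ≤ j' ∧ j' < j ∧
        c * ∑ m ∈ Finset.Ico j' j, lam m < ∑ m ∈ Finset.Ico j' j, δ m)).card : ℝ) := by
      exact_mod_cast h5
    have h8 := mul_le_mul_of_nonneg_right h7 hcs.le
    have h9 := hδ B' (by omega) (by omega)
    rw [Finset.sum_Ico_succ_top (by omega : A ≤ B')]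
    linarith

end Pool.Agent.Lib.MP_c23e5f_co
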