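import Pool.Agent.Lib.MP_c23e5f_co.ColumnsOfCore
import Pool.Agent.Lib.MP_c23e5f_co.FineSteps
import Pool.Agent.Lib.MP_c23e5f_co.Maximal
import Pool.Agent.Lib.MP_c23e5f_co.Geo

set_option autoImplicit false

namespace Pool.Agent.Lib.MP_c23e5f_co

/-- Euclidean product with a vector -/
private noncomputable def fsIp (e z : ℂ) : ℝ := z.re * e.re + z.im * e.im

private lemma fsIp_le (e z : ℂ) : fsIp e z ≤ ‖z‖ * ‖e‖ := by
  have h1 : fsIp e z = (z * (starRingEnd ℂ) e).re := by
    simp [fsIp]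
  rw [h1]
  refine (Complex.re_le_norm _).trans ?_
  rw [norm_mul, RCLike.norm_conj]

private lemma fsIp_sum {ι : Type} (e : ℂ) (s : Finset ι) (g : ι → ℂ) :
    fsIp e (∑ i ∈ s, g i) = ∑ i ∈ s, fsIp e (g i) := by
  unfold fsIp
  rw [Complex.re_sum, Complex.im_sum, Finset.sum_mul, Finset.sum_mul, ← Finset.sum_add_distrib]

private lemma fs_tele (f : ℕ → ℤ × ℤ) (T : ℕ → ℕ) {a b : ℕ} (hab : a ≤ b) :
    toC (f (T b) - f (T a)) = ∑ m ∈ Finset.Ico a b, toC (f (T (m + 1)) - f (T m)) := by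
  induction b, hab using Nat.le_induction with
  | base => simp [toC]; rfl
  | succ b hab ih =>
    rw [Finset.sum_Ico_succ_top hab, ← ih, ← toC_add]
    congr 1
    abel

private lemma fs_norm (f : ℕ → ℤ × ℤ) (T : ℕ → ℕ) {a b : ℕ} (hab : a ≤ b) :
    ‖toC (f (T b) - f (T a))‖ ≤ ∑ m ∈ Finset.Ico a b, vlen f T m := by
  rw [fs_tele f T hab]
  exact norm_sum_le _ _

/-- the index function -/
private noncomputable def fsJ (T : ℕ → ℕ) (B t : ℕ) : ℕ := Nat.findGreatest (fun m => T m ≤ t) B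

private lemma fsJ_spec {T : ℕ → ℕ} {A B t : ℕ} (hAB : A ≤ B) (h : T A ≤ t) :
    T (fsJ T B t) ≤ t := Nat.findGreatest_spec (P := fun m => T m ≤ t) hAB h

private lemma fsJ_ge {T : ℕ → ℕ} {A B t : ℕ} (hAB : A ≤ B) (h : T A ≤ t) :
    A ≤ fsJ T B t := Nat.le_findGreatest hAB h

private lemma fsJ_le {T : ℕ → ℕ} {B t : ℕ} : fsJ T B t ≤ B := Nat.findGreatest_le B

private lemma fsJ_lt {T : ℕ → ℕ} {B t : ℕ} (h : fsJ T B t < B) : t < T (fsJ T B t + 1) := by
  have h1 := Nat.findGreatest_is_greatest (P := fun m => T m ≤ t) (n := B)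
    (k := fsJ T B t + 1) (Nat.lt_succ_self _) h
  simpa using h1

private lemma fsJ_at {T : ℕ → ℕ} (hT : StrictMono T) {m B : ℕ} (h : m ≤ B) :
    fsJ T B (T m) = m :=
  le_antisymm (hT.le_iff_le.mp (fsJ_spec h le_rfl)) (fsJ_ge h le_rfl)

open Classical in
/-- Section 9 of the paper: IN A FINE STEP -/
theorem fine_step {k s s' r ρ : ℕ} (hk : 1 ≤ k) (hs : 1 ≤ s) (hρ : ρ = 1600 * k * s)
    (hr : r = (8 * ρ) ^ (2 * Lam k + 2)) (hs' : s' = 64 * k * r) {f : ℕ → ℤ × ℤ} {T φ : ℕ → ℕ}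
    (hC : IsChain f s T) (hC' : IsChain f s' (fun l => T (φ l))) (hφ : StrictMono φ) (l : ℕ)
    (hstep : ∀ t, T (φ l) ≤ t → t < T (φ (l + 1)) → IsStep (f (t + 1) - f t))
    (hinj : ∀ a b, T (φ l) ≤ a → a < b → b ≤ T (φ (l + 1)) → f a ≠ f b)
    (hfine : Fine k f T φ s' l) :
    2 * r ≤ ((Finset.Ico (T (φ l)) (T (φ (l + 1)))).filter (fun t => ∃ m,
      t + m < T (φ (l + 1)) ∧ (f (t + m + 1)).1 = (f (t + m)).1 + 1 ∧
        seg f t m ∈ PU r ρ (Lam k) (32 * k * s'))).card := by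
  have hT := hC.mono
  set A := φ l with hA
  set B := φ (l + 1) with hB
  have hABlt : A < B := hφ (Nat.lt_succ_self l)
  have hAB : A ≤ B := hABlt.le
  set X : ℤ × ℤ := f (T B) - f (T A) with hX
  -- numbers
  have hρ1 : 1600 ≤ ρ := by
    rw [hρ]
    have : 1 ≤ k * s := Nat.mul_pos hk hs
    calc 1600 = 1600 * 1 := rfl
      _ ≤ 1600 * (k * s) := Nat.mul_le_mul_left _ this
      _ = 1600 * k * s := by ring
  have hsq : (8 * ρ) ^ 2 ∣ r := by
    rw [hr]
    exact pow_dvd_pow _ (by omega)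
  have h64 : 64 ∣ r := by
    refine Dvd.dvd.trans ?_ hsq
    exact ⟨ρ ^ 2, by ring⟩
  have hrpos : 0 < r := by
    rw [hr]
    positivity
  have hr4 : 10 ^ 4 * ρ ≤ r := by
    have h1 : (8 * ρ) ^ 2 ≤ r := Nat.le_of_dvd hrpos hsq
    have h2 : 10 ^ 4 * ρ ≤ (8 * ρ) ^ 2 := by
      have h3 : (8 * ρ) ^ 2 = (64 * ρ) * ρ := by ring
      rw [h3]
      exact Nat.mul_le_mul_right ρ (by omega)
    exact h2.trans h1
  have hkR : (1 : ℝ) ≤ k := by exact_mod_cast hk
  have hkpos : (0 : ℝ) < k := by linarith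
  have hsR : (0 : ℝ) < s := by exact_mod_cast hs
  have hrR : (0 : ℝ) < r := by exact_mod_cast hrpos
  have hs'R : (s' : ℝ) = 64 * k * r := by rw [hs']; push_cast; ring
  -- the vector `X`
  have hXlo : (s' : ℝ) ≤ ‖toC X‖ := hC'.lo l
  have hXpos : 0 < ‖toC X‖ := lt_of_lt_of_le (by rw [hs'R]; positivity) hXlo
  have hdir : ‖toC X‖ ≤ 16 * k * (X.1 : ℝ) := by
    have h := hfine.dir
    rw [hX]
    simpa using h
  set e : ℂ := toC X / (‖toC X‖ : ℂ) with he
  have hen : ‖e‖ = 1 := by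
    rw [he, norm_div, Complex.norm_real, norm_norm, div_self hXpos.ne']
  have hereal : e.re = X.1 / ‖toC X‖ := by
    rw [he, Complex.div_ofReal_re, toC_re]
  have heimag : e.im = X.2 / ‖toC X‖ := by
    rw [he, Complex.div_ofReal_im, toC_im]
  have hre : 1 / (16 * (k : ℝ)) ≤ e.re := by
    rw [hereal, div_le_div_iff₀ (by positivity) hXpos]
    linarith
  have hipX : fsIp e (toC X) = ‖toC X‖ := by
    unfold fsIp
    rw [hereal, heimag, toC_re, toC_im]
    have h1 : ‖toC X‖ ^ 2 = (X.1 : ℝ) ^ 2 + (X.2 : ℝ) ^ 2 := by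
      rw [← Complex.normSq_eq_norm_sq, Complex.normSq_apply, toC_re, toC_im]
      ring
    field_simp
    linarith
  obtain ⟨fr, hfr, hgeo⟩ := geo hk hen hre
  -- the defects
  set δ : ℕ → ℝ := fun m => vlen f T m - fsIp e (toC (f (T (m + 1)) - f (T m))) with hδ
  have hδ0 : ∀ m, 0 ≤ δ m := by
    intro m
    have h := fsIp_le e (toC (f (T (m + 1)) - f (T m)))
    rw [hen, mul_one] at h
    simp only [hδ, vlen]
    linarith
  have hvlen0 : ∀ m, 0 ≤ vlen f T m := fun m => norm_nonneg _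
  have hvs : ∀ m, (s : ℝ) ≤ vlen f T m := fun m => hC.lo m
  have hip : ∀ a b, a ≤ b → fsIp e (toC (f (T b) - f (T a))) =
      ∑ m ∈ Finset.Ico a b, vlen f T m - ∑ m ∈ Finset.Ico a b, δ m := by
    intro a b hab
    rw [fs_tele f T hab, fsIp_sum, ← Finset.sum_sub_distrib]
    refine Finset.sum_congr rfl fun m _ => ?_
    simp only [hδ]
    ring
  have hδsum : ∑ m ∈ Finset.Ico A B, δ m = excess f T φ l := by
    have h := hip A B hAB
    rw [← hX, hipX] at h
    unfold excess
    rw [← hA, ← hB, ← hX]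
    linarith
  set c : ℝ := 1 / (102400 * (k : ℝ) ^ 2) with hc
  have hcpos : 0 < c := by rw [hc]; positivity
  set RB : ℕ → Prop := fun j => ∃ j', j < j' ∧ j' ≤ B ∧
    c * ∑ m ∈ Finset.Ico j j', vlen f T m < ∑ m ∈ Finset.Ico j j', δ m with hRB
  set LB : ℕ → Prop := fun j => ∃ j', A ≤ j' ∧ j' < j ∧
    c * ∑ m ∈ Finset.Ico j' j, vlen f T m < ∑ m ∈ Finset.Ico j' j, δ m with hLB
  have hmaxR : (((Finset.Ico A B).filter RB).card : ℝ) * (c * s) ≤ excess f T φ l := by
    rw [← hδsum]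
    exact maximal_right A B δ (vlen f T) c s hcpos hsR (fun m _ _ => hδ0 m) (fun m _ _ => hvs m)
  have hmaxL : (((Finset.Ioc A B).filter LB).card : ℝ) * (c * s) ≤ excess f T φ l := by
    rw [← hδsum]
    exact maximal_left A B δ (vlen f T) c s hcpos hsR (fun m _ _ => hδ0 m) (fun m _ _ => hvs m)
  set good : Set ℕ := {i | A ≤ i ∧ i ≤ B ∧ ¬ RB i ∧ ¬ LB i} with hgood
  set cum : ℕ → ℝ := fun m => ∑ i ∈ Finset.range m, vlen f T i with hcum
  have hcumdiff : ∀ a b, a ≤ b → cum b - cum a = ∑ m ∈ Finset.Ico a b, vlen f T m := by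
    intro a b hab
    rw [Finset.sum_Ico_eq_sub _ hab]
  have hnorm : ∀ a b, a ≤ b → ‖toC (f (T b) - f (T a))‖ ≤ cum b - cum a := by
    intro a b hab
    rw [hcumdiff a b hab]
    exact fs_norm f T hab
  -- the condition of `geo` when one of the ends is good
  have hup : ∀ a b, a ≤ b → A ≤ a → b ≤ B → (a ∈ good ∨ b ∈ good) →
      (1 - 1 / (102400 * (k : ℝ) ^ 2)) * (cum b - cum a) ≤
        ((f (T b) - f (T a)).1 : ℝ) * e.re + ((f (T b) - f (T a)).2 : ℝ) * e.im := by
    intro a b hab hAa hbB hg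
    have h1 : ((f (T b) - f (T a)).1 : ℝ) * e.re + ((f (T b) - f (T a)).2 : ℝ) * e.im =
        fsIp e (toC (f (T b) - f (T a))) := rfl
    rw [h1, hip a b hab, ← hcumdiff a b hab]
    have h2 : ∑ m ∈ Finset.Ico a b, δ m ≤ c * (cum b - cum a) := by
      rcases hab.eq_or_lt with h3 | h3
      · subst h3
        simp
      · rw [hcumdiff a b hab]
        rcases hg with hg | hg
        · by_contra hcon
          exact hg.2.2.1 ⟨b, h3, hbB, not_le.mp hcon⟩
        · by_contra hcon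
          exact hg.2.2.2 ⟨a, hAa, h3, not_le.mp hcon⟩
    rw [← hc]
    linarith
  -- wandering
  have hwan : ∀ t, T A ≤ t → t ≤ T B → ‖toC (f t - f (T (fsJ T B t)))‖ ≤ 2 * s := by
    intro t h1 h2
    rcases (fsJ_le (T := T) (B := B) (t := t)).eq_or_lt with h3 | h3
    · have h4 := fsJ_spec (t := t) hAB h1
      rw [h3] at h4 ⊢
      have h5 : t = T B := le_antisymm h2 h4
      rw [h5, sub_self]
      have h6 : toC 0 = 0 := by apply Complex.ext <;> simp
      rw [h6, norm_zero]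
      positivity
    · exact hC.wan _ t (fsJ_spec hAB h1) (fsJ_lt h3)
  have hjA : fsJ T B (T A) = A := fsJ_at hT hAB
  have hjB : fsJ T B (T B) = B := fsJ_at hT le_rfl
  have hcore : Core fr k s f (T A) (T B) (fsJ T B) (fun m => f (T m)) cum good := by
    refine ⟨hstep, hinj, ?_, ?_, ?_, ?_, ?_, ?_, ?_, ?_, ?_, ?_, ?_, ?_⟩
    · intro a b h1 h2 h3
      exact Nat.le_findGreatest fsJ_le ((fsJ_spec hAB h1).trans h2)
    · intro t h1 h2
      have h3 := (form_le fr hfr (f t - f (T (fsJ T B t)))).1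
      have h4 := hwan t h1 h2
      have h5 : |((f t).1 - (f (T (fsJ T B t))).1 : ℤ)| ≤ (3 * s : ℤ) := by
        have h6 : ((|((f t).1 - (f (T (fsJ T B t))).1 : ℤ)| : ℤ) : ℝ) ≤ ((3 * s : ℤ) : ℝ) := by
          push_cast
          have h7 : |(((f t).1 : ℤ) : ℝ) - (((f (T (fsJ T B t))).1 : ℤ) : ℝ)| ≤ 2 * s := by
            have h8 := h3.trans h4
            simpa using h8
          linarith
        exact_mod_cast h6
      exact h5
    · intro t h1 h2
      have h3 := (form_le fr hfr (f t - f (T (fsJ T B t)))).2.1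
      have h4 := hwan t h1 h2
      have h6 : ((|fr.F (f t) - fr.F (f (T (fsJ T B t)))| : ℤ) : ℝ) ≤ ((3 * s : ℤ) : ℝ) := by
        rw [← map_sub]
        push_cast
        linarith
      exact_mod_cast h6
    · intro t h1 h2
      have h3 := (form_le fr hfr (f t - f (T (fsJ T B t)))).2.2
      have h4 := hwan t h1 h2
      have h6 : ((|fr.g (f t) - fr.g (f (T (fsJ T B t)))| : ℤ) : ℝ) ≤ ((3 * s : ℤ) : ℝ) := by
        rw [← map_sub]
        push_cast
        linarith
      exact_mod_cast h6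
    · intro a b hab
      have h3 := (form_le fr hfr (f (T b) - f (T a))).1
      have h4 := hnorm a b hab
      have h5 : 0 ≤ cum b - cum a := (norm_nonneg _).trans h4
      have h6 : |(((f (T b)).1 : ℤ) : ℝ) - (((f (T a)).1 : ℤ) : ℝ)| ≤ cum b - cum a := by
        have h7 := h3.trans h4
        simpa using h7
      linarith
    · intro a b hab
      have h3 := (form_le fr hfr (f (T b) - f (T a))).2.1
      have h4 := hnorm a b hab
      rw [map_sub] at h3
      push_cast at h3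
      linarith
    · intro a b hab
      have h3 := (form_le fr hfr (f (T b) - f (T a))).2.2
      have h4 := hnorm a b hab
      rw [map_sub] at h3
      push_cast at h3
      linarith
    · intro a ha
      rw [hjA, hjB]
      exact ⟨ha.1, ha.2.1⟩
    · intro a b hab h1 h2 hg
      rw [hjA] at h1
      rw [hjB] at h2
      have h3 := (hgeo _ _ (hnorm a b hab) (hup a b hab h1 h2 hg)).1
      simpa using h3
    · intro a b hab h1 h2 hg
      rw [hjA] at h1
      rw [hjB] at h2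
      have h3 := (hgeo _ _ (hnorm a b hab) (hup a b hab h1 h2 hg)).2.1
      rw [map_sub] at h3
      push_cast at h3
      exact h3
    · intro a b hab h1 h2 hg
      rw [hjA] at h1
      rw [hjB] at h2
      have h3 := (hgeo _ _ (hnorm a b hab) (hup a b hab h1 h2 hg)).2.2.1
      rw [map_sub] at h3
      push_cast at h3
      exact h3
    · intro a b hab h1 h2 hg
      rw [hjA] at h1
      rw [hjB] at h2
      have h3 := (hgeo _ _ (hnorm a b hab) (hup a b hab h1 h2 hg)).2.2.2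
      rw [map_sub] at h3
      push_cast at h3
      simpa using h3
  -- the number of bad indices
  have hbadcard : (((Finset.Icc A B).filter (fun i => i ∉ good)).card : ℝ) * (c * s) ≤
      2 * excess f T φ l := by
    have hsub : (Finset.Icc A B).filter (fun i => i ∉ good) ⊆
        (Finset.Ico A B).filter RB ∪ (Finset.Ioc A B).filter LB := by
      intro i hi
      rw [Finset.mem_filter, Finset.mem_Icc] at hi
      obtain ⟨⟨h1, h2⟩, h3⟩ := hi
      rw [Finset.mem_union, Finset.mem_filter, Finset.mem_filter, Finset.mem_Ico, Finset.mem_Ioc]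
      by_cases hR : RB i
      · left
        obtain ⟨j', h4, h5, h6⟩ := hR
        exact ⟨⟨h1, lt_of_lt_of_le h4 h5⟩, j', h4, h5, h6⟩
      · by_cases hLi : LB i
        · right
          obtain ⟨j', h4, h5, h6⟩ := hLi
          exact ⟨⟨lt_of_le_of_lt h4 h5, h2⟩, j', h4, h5, h6⟩
        · exact absurd ⟨h1, h2, hR, hLi⟩ h3
    have h1 := (Finset.card_le_card hsub).trans (Finset.card_union_le _ _)
    have h2 : (((Finset.Icc A B).filter (fun i => i ∉ good)).card : ℝ) ≤
        (((Finset.Ico A B).filter RB).card : ℝ) + (((Finset.Ioc A B).filter LB).card : ℝ) := by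
      exact_mod_cast h1
    have h3 : 0 ≤ c * s := by positivity
    have h4 := mul_le_mul_of_nonneg_right h2 h3
    rw [add_mul] at h4
    linarith
  have hbad : ((Finset.Icc (fsJ T B (T A)) (fsJ T B (T B))).filter (fun i => i ∉ good)).card *
      (7 * s) ≤ r / 64 := by
    rw [hjA, hjB]
    have h1 : (((((Finset.Icc A B).filter (fun i => i ∉ good)).card * (7 * s) : ℕ) : ℝ)) ≤
        ((r / 64 : ℕ) : ℝ) := by
      rw [Nat.cast_div h64 (by norm_num)]
      push_cast
      set b : ℝ := (((Finset.Icc A B).filter (fun i => i ∉ good)).card : ℝ) with hb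
      have h2 := hfine.exc
      rw [hs'R] at h2
      have h3 : b * (c * s) ≤ 2 * (64 * k * r / (6553600000 * (k : ℝ) ^ 3)) := by linarith
      have h4 : b * (c * s) = (b * s) / (102400 * (k : ℝ) ^ 2) := by
        rw [hc]
        field_simp
      have h5 : 2 * (64 * k * r / (6553600000 * (k : ℝ) ^ 3)) =
          (2 * 64 * r / 6553600000 * 102400) / (102400 * (k : ℝ) ^ 2) := by
        field_simp
      rw [h4, h5, div_le_div_iff_of_pos_right (by positivity)] at h3
      nlinarith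
    exact_mod_cast h1
  have hlen := hfine.len
  refine columns_of_core hfr hcore (hT hABlt) hk hs hρ hr4 h64 (by convert hbad) hlen ?_ ?_ ?_
  · obtain ⟨q, hq⟩ := h64
    have h1 : r / 64 = q := by omega
    rw [h1, hs', Lam, hq]
    apply le_of_eq
    ring
  · unfold Lam
    have : 1 ≤ k ^ 2 := Nat.one_le_pow _ _ hk
    omega
  · have h1 : 64 * k * (r : ℝ) ≤ 16 * k * (X.1 : ℝ) := by
      rw [← hs'R]
      exact hXlo.trans hdir
    have h2 : 4 * (r : ℝ) ≤ X.1 := by
      have h3 : 16 * (k : ℝ) * (4 * r) ≤ 16 * k * X.1 := by linarith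
      exact le_of_mul_le_mul_left h3 (by positivity)
    have h3 : 4 * (r : ℤ) ≤ X.1 := by exact_mod_cast h2
    rw [hX] at h3
    simpa using h3

end Pool.Agent.Lib.MP_c23e5f_co
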