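import Pool.Agent.Lib.MP_c23e5f_co.ChainRefine

set_option autoImplicit false

namespace Pool.Agent.Lib.MP_c23e5f_co

/-- length of the `m`-th step of a chain -/
noncomputable def vlen (f : ℕ → ℤ × ℤ) (T : ℕ → ℕ) (m : ℕ) : ℝ := ‖toC (f (T (m + 1)) - f (T m))‖

/-- length of a chain up to time `n` -/
noncomputable def Lsum (f : ℕ → ℤ × ℤ) (T : ℕ → ℕ) (n : ℕ) : ℝ :=
  ∑ m ∈ (Finset.range n).filter (fun m => T (m + 1) ≤ n), vlen f T m

/-- the excess of the `l`-th step of the chain `T ∘ φ` -/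
noncomputable def excess (f : ℕ → ℤ × ℤ) (T φ : ℕ → ℕ) (l : ℕ) : ℝ :=
  ∑ m ∈ Finset.Ico (φ l) (φ (l + 1)), vlen f T m - ‖toC (f (T (φ (l + 1))) - f (T (φ l)))‖

theorem excess_nonneg (f : ℕ → ℤ × ℤ) (T φ : ℕ → ℕ) (hφ : StrictMono φ) (l : ℕ) :
    0 ≤ excess f T φ l := by
  unfold excess
  have h1 : toC (f (T (φ (l + 1))) - f (T (φ l))) =
      ∑ m ∈ Finset.Ico (φ l) (φ (l + 1)), (toC (f (T (m + 1))) - toC (f (T m))) := by
    rw [Finset.sum_Ico_sub (fun m => toC (f (T m))) (hφ (Nat.lt_succ_self l)).le, toC_sub]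
  rw [h1, sub_nonneg]
  refine (norm_sum_le _ _).trans (le_of_eq ?_)
  refine Finset.sum_congr rfl fun m _ => ?_
  unfold vlen
  rw [toC_sub]

theorem sum_excess_le (f : ℕ → ℤ × ℤ) (T φ : ℕ → ℕ) (hT : StrictMono T) (hφ : StrictMono φ) (n : ℕ) :
    ∑ l ∈ (Finset.range n).filter (fun l => T (φ (l + 1)) ≤ n), excess f T φ l ≤
      Lsum f T n - Lsum f (fun l => T (φ l)) n := by
  classical
  unfold excess Lsum
  rw [Finset.sum_sub_distrib]
  have h1 : ∑ l ∈ (Finset.range n).filter (fun l => T (φ (l + 1)) ≤ n),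
      ‖toC (f (T (φ (l + 1))) - f (T (φ l)))‖ =
      ∑ m ∈ (Finset.range n).filter (fun m => (fun l => T (φ l)) (m + 1) ≤ n),
        vlen f (fun l => T (φ l)) m := rfl
  rw [h1]
  refine sub_le_sub_right ?_ _
  rw [← Finset.sum_biUnion]
  · apply Finset.sum_le_sum_of_subset_of_nonneg
    · intro m hm
      obtain ⟨l, hl, hm⟩ := Finset.mem_biUnion.1 hm
      obtain ⟨hl1, hl2⟩ := Finset.mem_filter.1 hl
      obtain ⟨h2, h3⟩ := Finset.mem_Ico.1 hm
      have h4 : T (m + 1) ≤ T (φ (l + 1)) := hT.monotone (by omega)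
      have h5 : m + 1 ≤ T (m + 1) := hT.id_le _
      refine Finset.mem_filter.2 ⟨Finset.mem_range.2 (by omega), by omega⟩
    · intro m _ _
      exact norm_nonneg _
  · intro l _ l' _ hne
    simp only [Function.onFun]
    rw [Finset.disjoint_left]
    intro m hm hm'
    obtain ⟨h2, h3⟩ := Finset.mem_Ico.1 hm
    obtain ⟨h4, h5⟩ := Finset.mem_Ico.1 hm'
    rcases lt_or_gt_of_ne hne with h | h
    · have := hφ.monotone (show l + 1 ≤ l' by omega)
      omega
    · have := hφ.monotone (show l' + 1 ≤ l by omega)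
      omega

theorem Lsum_zero (f : ℕ → ℤ × ℤ) (hf : ∀ i, IsStep (f (i + 1) - f i)) (T : ℕ → ℕ)
    (hT : ∀ l, T l = l) (n : ℕ) : Lsum f T n = n := by
  unfold Lsum
  have h1 : (Finset.range n).filter (fun m => T (m + 1) ≤ n) = Finset.range n := by
    ext m
    simp only [Finset.mem_filter, Finset.mem_range, hT]
    omega
  have h2 : ∀ m ∈ Finset.range n, vlen f T m = 1 := by
    intro m _
    unfold vlen
    rw [hT, hT]
    have h3 := hf m
    unfold IsStep at h3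
    set v := f (m + 1) - f m with hv
    have h4 : ‖toC v‖ ^ 2 = 1 := by
      rw [Complex.sq_norm, Complex.normSq_apply]
      simp only [toC_re, toC_im]
      have h5 : v.1 * v.1 + v.2 * v.2 = 1 := by
        rcases Nat.eq_zero_or_pos v.1.natAbs with h6 | h6
        · have h7 : v.2.natAbs = 1 := by omega
          have h8 : v.1 = 0 := Int.natAbs_eq_zero.1 h6
          rcases Int.natAbs_eq v.2 with h9 | h9 <;> rw [h7] at h9 <;> rw [h8, h9] <;> norm_num
        · have h7 : v.1.natAbs = 1 := by omega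
          have h8 : v.2 = 0 := Int.natAbs_eq_zero.1 (by omega)
          rcases Int.natAbs_eq v.1 with h9 | h9 <;> rw [h7] at h9 <;> rw [h8, h9] <;> norm_num
      exact_mod_cast h5
    have h10 : ‖toC v‖ = 1 := by
      have := norm_nonneg (toC v)
      nlinarith
    exact h10
  rw [h1, Finset.sum_congr rfl h2]
  simp

/-- Section 9 of the paper, PIGEONHOLE -/
theorem exists_scale (J N : ℕ) (hJ : 1 ≤ J) (L : ℕ → ℝ) (hL : ∀ i, 0 ≤ L i)
    (hmono : ∀ i, L (i + 1) ≤ L i) (hL0 : L 0 ≤ N) (U : ℕ → ℕ)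
    (hU : ∑ i ∈ Finset.range J, U i ≤ N) :
    ∃ i < J, J * (L i - L (i + 1)) ≤ 2 * N ∧ J * U i ≤ 2 * N := by
  have hJ0 : (0 : ℝ) < J := by exact_mod_cast hJ
  have hU' : ∑ i ∈ Finset.range J, (U i : ℝ) ≤ N := by exact_mod_cast hU
  have h1 : ∑ i ∈ Finset.range J, ((L i - L (i + 1)) + (U i : ℝ)) ≤ 2 * N := by
    rw [Finset.sum_add_distrib, Finset.sum_range_sub']
    have := hL J
    linarith
  have h2 : ∃ i ∈ Finset.range J, (L i - L (i + 1)) + (U i : ℝ) ≤ 2 * N / J := by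
    by_contra hcon
    push Not at hcon
    have h3 : ∑ i ∈ Finset.range J, (2 * (N : ℝ) / J) <
        ∑ i ∈ Finset.range J, ((L i - L (i + 1)) + (U i : ℝ)) :=
      Finset.sum_lt_sum_of_nonempty ⟨0, Finset.mem_range.2 hJ⟩ hcon
    rw [Finset.sum_const, Finset.card_range, nsmul_eq_mul, mul_div_cancel₀ _ hJ0.ne'] at h3
    linarith
  obtain ⟨i, hi, h3⟩ := h2
  rw [le_div_iff₀ hJ0] at h3
  refine ⟨i, Finset.mem_range.1 hi, ?_, ?_⟩
  · have : (0 : ℝ) ≤ U i := Nat.cast_nonneg _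
    nlinarith
  · have h4 := hmono i
    have h5 : (J : ℝ) * U i ≤ 2 * N := by nlinarith
    exact_mod_cast h5

end Pool.Agent.Lib.MP_c23e5f_co
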