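import Pool.Agent.Lib.MP_c23e5f_co.Basic

set_option autoImplicit false

namespace Pool.Agent.Lib.MP_c23e5f_co

open scoped ENNReal

/-- every crossing of a loop has a next crossing, at most `N` steps later -/
theorem exists_isNext {N : ℕ} (hN : 1 ≤ N) {f : ℕ → ℤ × ℤ} (hf : IsLoop N f) (r : ℕ) {t : ℕ}
    (ht : Horiz f t) : ∃ m, m ≤ N ∧ IsNext f r t m := by
  classical
  have e0 : f (t + N) = f t := hf.per t
  have e1 : f (t + N + 1) = f (t + 1) := by
    have := hf.per (t + 1)
    rwa [show t + 1 + N = t + N + 1 by ring] at this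
  have hcol : col f (t + N) = col f t := by unfold col; rw [e0, e1]
  have hex : ∃ m, 0 < m ∧ Cross f r (col f t) (t + m) := by
    refine ⟨N, by omega, ?_, ?_⟩
    · unfold Horiz at ht ⊢
      rw [e0, e1]; exact ht
    · rw [hcol, sub_self]; exact dvd_zero _
  refine ⟨Nat.find hex, ?_, (Nat.find_spec hex).1, (Nat.find_spec hex).2, ?_⟩
  · apply Nat.find_min' hex
    refine ⟨by omega, ?_, ?_⟩
    · unfold Horiz at ht ⊢
      rw [e0, e1]; exact ht
    · rw [hcol, sub_self]; exact dvd_zero _
  · intro j hj0 hj hc
    exact Nat.find_min hex hj ⟨hj0, hc⟩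

theorem isNext_unique {f : ℕ → ℤ × ℤ} {r t m m' : ℕ} (h : IsNext f r t m) (h' : IsNext f r t m') :
    m = m' := by
  rcases lt_trichotomy m m' with hlt | heq | hgt
  · exact absurd h.2.1 (h'.2.2 m h.1 hlt)
  · exact heq
  · exact absurd h'.2.1 (h.2.2 m' h'.1 hgt)

private lemma pieces_dvd {r : ℕ} (hr : 1 ≤ r) {d : ℤ} (h : (r : ℤ) ∣ d) (h0 : 0 ≤ d) (h1 : d ≤ r) :
    d = 0 ∨ d = r := by
  obtain ⟨k, rfl⟩ := h
  have hr' : (1 : ℤ) ≤ r := by exact_mod_cast hr
  have hk0 : 0 ≤ k := by
    by_contra hk
    have : k ≤ -1 := by omega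
    nlinarith
  have hk1 : k ≤ 1 := by
    by_contra hk
    have : 2 ≤ k := by omega
    nlinarith
  have : k = 0 ∨ k = 1 := by omega
  rcases this with rfl | rfl
  · left; ring
  · right; ring

private lemma pieces_step {v w : ℤ × ℤ} (h : IsStep (w - v)) :
    w.1 = v.1 ∨ w.1 = v.1 + 1 ∨ w.1 = v.1 - 1 := by
  unfold IsStep at h
  rw [Prod.fst_sub, Prod.snd_sub] at h
  omega

private lemma pieces_mod {N : ℕ} {f : ℕ → ℤ × ℤ} (hf : IsLoop N f) (i : ℕ) : f i = f (i % N) := by
  have h : ∀ k j : ℕ, f (j + N * k) = f j := by
    intro k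
    induction k with
    | zero => intro j; simp
    | succ k ih => intro j; rw [Nat.mul_succ, ← add_assoc, hf.per, ih]
  conv_lhs => rw [← Nat.mod_add_div i N]
  exact h _ _

private lemma pieces_saw {N : ℕ} {f : ℕ → ℤ × ℤ} (hf : IsLoop N f) {t m : ℕ}
    (hm : m < N) : IsSaw (seg f t m) := by
  apply isSaw_seg
  · intro i _ _; exact hf.step i
  · intro i j hi hij hj e
    rw [pieces_mod hf i, pieces_mod hf j] at e
    have hN : 0 < N := by omega
    have h1 := hf.inj _ _ (Nat.mod_lt i hN) (Nat.mod_lt j hN) e
    have h2 : N ∣ j - i := (Nat.modEq_iff_dvd' hij.le).1 h1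
    have h3 := Nat.le_of_dvd (by omega) h2
    omega

/-- Section 8 of the paper: the four kinds of pieces -/
theorem piece_cases {N : ℕ} (hN : 1 ≤ N) {f : ℕ → ℤ × ℤ} (hf : IsLoop N f) {r t m : ℕ} (hr : 1 ≤ r)
    (ht : Horiz f t) (hm : IsNext f r t m) :
    m < N ∧ (IsBridge Z1 r (seg f t m) ∨ IsBridge (-Z1) r (seg f t m) ∨
      IsArc Z1 (r - 1) (seg f t m) ∨ IsArc (-Z1) (r - 1) (seg f t m)) := by
  have hr' : (1 : ℤ) ≤ r := by exact_mod_cast hr
  have hmN : m ≤ N := by
    obtain ⟨m', h1, h2⟩ := exists_isNext hN hf r ht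
    rw [isNext_unique hm h2]; exact h1
  have hstep : ∀ i, (f (i + 1)).1 = (f i).1 ∨ (f (i + 1)).1 = (f i).1 + 1 ∨
      (f (i + 1)).1 = (f i).1 - 1 := fun i => pieces_step (hf.step i)
  have hNt : (f (t + N)).1 = (f t).1 := by rw [hf.per]
  obtain ⟨hm0, hmc, hmn⟩ := hm
  have htt : (f (t + 1)).1 = (f t).1 + 1 ∨ (f (t + 1)).1 = (f t).1 - 1 := by
    rcases hstep t with h | h | h
    · exact absurd h.symm ht
    · exact Or.inl h
    · exact Or.inr h
  have hpos : ∀ i, i ≤ m → pos (seg f t m) i = f (t + i) - f t := fun i hi => pos_seg hi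
  have hsum : (seg f t m).sum = f (t + m) - f t := sum_seg f t m
  have hne : seg f t m ≠ [] := by
    intro h
    have := length_seg f t m
    rw [h] at this
    simp at this
    omega
  rcases htt with hR | hL
  · -- step to the right
    have hcol : col f t = (f t).1 := by unfold col; rw [hR]; omega
    rw [hcol] at hmc hmn
    have claim : ∀ j, 1 ≤ j → j ≤ m → (f t).1 + 1 ≤ (f (t + j)).1 ∧ (f (t + j)).1 ≤ (f t).1 + r := by
      intro j hj1
      induction j, hj1 using Nat.le_induction with
      | base => intro _; rw [hR]; constructor <;> omega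
      | succ j hj ih =>
        intro hjm
        obtain ⟨l1, l2⟩ := ih (by omega)
        have hnc := hmn j (by omega) (by omega)
        rw [← add_assoc]
        rcases hstep (t + j) with h | h | h
        · rw [h]; exact ⟨l1, l2⟩
        · have hH : Horiz f (t + j) := by unfold Horiz; rw [h]; omega
          have hc : col f (t + j) = (f (t + j)).1 := by unfold col; rw [h]; omega
          have : (f (t + j)).1 ≠ (f t).1 + r := by
            intro e
            apply hnc
            refine ⟨hH, ?_⟩
            rw [hc, e, add_sub_cancel_left]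
          rw [h]; constructor <;> omega
        · have hH : Horiz f (t + j) := by unfold Horiz; rw [h]; omega
          have hc : col f (t + j) = (f (t + j)).1 - 1 := by unfold col; rw [h]; omega
          have : (f (t + j)).1 ≠ (f t).1 + 1 := by
            intro e
            apply hnc
            refine ⟨hH, ?_⟩
            rw [hc, e]; ring_nf; exact dvd_zero _
          rw [h]; constructor <;> omega
    have hlt : m < N := by
      refine lt_of_le_of_ne hmN fun e => ?_
      have := (claim m hm0 le_rfl).1
      rw [e] at this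
      omega
    have hend : (f (t + m)).1 = (f t).1 + 1 ∨ (f (t + m)).1 = (f t).1 + r := by
      obtain ⟨l1, l2⟩ := claim m hm0 le_rfl
      obtain ⟨hH, hd⟩ := hmc
      rcases hstep (t + m) with h | h | h
      · exact absurd h.symm hH
      · have hc : col f (t + m) = (f (t + m)).1 := by unfold col; rw [h]; omega
        rw [hc] at hd
        rcases pieces_dvd hr hd (by omega) (by omega) with h0 | h0 <;> omega
      · have hc : col f (t + m) = (f (t + m)).1 - 1 := by unfold col; rw [h]; omega
        rw [hc] at hd
        rcases pieces_dvd hr hd (by omega) (by omega) with h0 | h0 <;> omega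
    refine ⟨hlt, ?_⟩
    have hsaw := pieces_saw (t := t) hf hlt
    rcases hend with he | he
    · refine Or.inr (Or.inr (Or.inl ⟨hsaw, hne, ?_, ?_, ?_⟩))
      · intro i hi1 hi
        rw [length_seg] at hi
        rw [hpos i hi, Z1_apply, Prod.fst_sub]
        have := (claim i hi1 hi).1
        omega
      · intro i hi
        rw [length_seg] at hi
        rw [hpos i hi, Z1_apply, Prod.fst_sub]
        rcases Nat.eq_zero_or_pos i with h0 | h0
        · subst h0; rw [add_zero]; omega
        · have := (claim i h0 hi).2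
          omega
      · rw [hsum, Z1_apply, Prod.fst_sub]; omega
    · refine Or.inl ⟨hsaw, ?_, ?_, ?_⟩
      · intro i hi1 hi
        rw [length_seg] at hi
        rw [hpos i hi, Z1_apply, Prod.fst_sub]
        have := (claim i hi1 hi).1
        omega
      · intro i hi
        rw [length_seg] at hi
        rw [hpos i hi, Z1_apply, Prod.fst_sub]
        rcases Nat.eq_zero_or_pos i with h0 | h0
        · subst h0; rw [add_zero]; omega
        · have := (claim i h0 hi).2
          omega
      · rw [hsum, Z1_apply, Prod.fst_sub]; omega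
  · -- step to the left
    have hcol : col f t = (f t).1 - 1 := by unfold col; rw [hL]; omega
    rw [hcol] at hmc hmn
    have claim : ∀ j, 1 ≤ j → j ≤ m → (f t).1 - r ≤ (f (t + j)).1 ∧ (f (t + j)).1 ≤ (f t).1 - 1 := by
      intro j hj1
      induction j, hj1 using Nat.le_induction with
      | base => intro _; rw [hL]; constructor <;> omega
      | succ j hj ih =>
        intro hjm
        obtain ⟨l1, l2⟩ := ih (by omega)
        have hnc := hmn j (by omega) (by omega)
        rw [← add_assoc]
        rcases hstep (t + j) with h | h | h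
        · rw [h]; exact ⟨l1, l2⟩
        · have hH : Horiz f (t + j) := by unfold Horiz; rw [h]; omega
          have hc : col f (t + j) = (f (t + j)).1 := by unfold col; rw [h]; omega
          have : (f (t + j)).1 ≠ (f t).1 - 1 := by
            intro e
            apply hnc
            refine ⟨hH, ?_⟩
            rw [hc, e, sub_self]; exact dvd_zero _
          rw [h]; constructor <;> omega
        · have hH : Horiz f (t + j) := by unfold Horiz; rw [h]; omega
          have hc : col f (t + j) = (f (t + j)).1 - 1 := by unfold col; rw [h]; omega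
          have : (f (t + j)).1 ≠ (f t).1 - r := by
            intro e
            apply hnc
            refine ⟨hH, ?_⟩
            rw [hc, e]
            exact ⟨-1, by ring⟩
          rw [h]; constructor <;> omega
    have hlt : m < N := by
      refine lt_of_le_of_ne hmN fun e => ?_
      have := (claim m hm0 le_rfl).2
      rw [e] at this
      omega
    have hend : (f (t + m)).1 = (f t).1 - 1 ∨ (f (t + m)).1 = (f t).1 - r := by
      obtain ⟨l1, l2⟩ := claim m hm0 le_rfl
      obtain ⟨hH, hd⟩ := hmc
      rcases hstep (t + m) with h | h | h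
      · exact absurd h.symm hH
      · have hc : col f (t + m) = (f (t + m)).1 := by unfold col; rw [h]; omega
        rw [hc] at hd
        have hd' := (dvd_neg).2 hd
        rcases pieces_dvd hr hd' (by omega) (by omega) with h0 | h0 <;> omega
      · have hc : col f (t + m) = (f (t + m)).1 - 1 := by unfold col; rw [h]; omega
        rw [hc] at hd
        have hd' := (dvd_neg).2 hd
        rcases pieces_dvd hr hd' (by omega) (by omega) with h0 | h0 <;> omega
    refine ⟨hlt, ?_⟩
    have hsaw := pieces_saw (t := t) hf hlt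
    rcases hend with he | he
    · refine Or.inr (Or.inr (Or.inr ⟨hsaw, hne, ?_, ?_, ?_⟩))
      · intro i hi1 hi
        rw [length_seg] at hi
        rw [hpos i hi, AddMonoidHom.neg_apply, Z1_apply, Prod.fst_sub]
        have := (claim i hi1 hi).2
        omega
      · intro i hi
        rw [length_seg] at hi
        rw [hpos i hi, AddMonoidHom.neg_apply, Z1_apply, Prod.fst_sub]
        rcases Nat.eq_zero_or_pos i with h0 | h0
        · subst h0; rw [add_zero]; omega
        · have := (claim i h0 hi).1
          omega
      · rw [hsum, AddMonoidHom.neg_apply, Z1_apply, Prod.fst_sub]; omega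
    · refine Or.inr (Or.inl ⟨hsaw, ?_, ?_, ?_⟩)
      · intro i hi1 hi
        rw [length_seg] at hi
        rw [hpos i hi, AddMonoidHom.neg_apply, Z1_apply, Prod.fst_sub]
        have := (claim i hi1 hi).2
        omega
      · intro i hi
        rw [length_seg] at hi
        rw [hpos i hi, AddMonoidHom.neg_apply, Z1_apply, Prod.fst_sub]
        rcases Nat.eq_zero_or_pos i with h0 | h0
        · subst h0; rw [add_zero]; omega
        · have := (claim i h0 hi).1
          omega
      · rw [hsum, AddMonoidHom.neg_apply, Z1_apply, Prod.fst_sub]; omega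

/-- a bridge of height `r` followed by a step to the right is a piece -/
theorem isNext_of_bridge {f : ℕ → ℤ × ℤ} {r t m : ℕ} (hr : 1 ≤ r)
    (hb : IsBridge Z1 r (seg f t m)) (h : (f (t + m + 1)).1 = (f (t + m)).1 + 1)
    (hs : IsStep (f (t + m + 1) - f (t + m))) : Horiz f t ∧ IsNext f r t m := by
  have hr' : (1 : ℤ) ≤ r := by exact_mod_cast hr
  have hsum : (f (t + m)).1 = (f t).1 + r := by
    have := hb.ht
    rw [sum_seg, Z1_apply, Prod.fst_sub] at this
    omega
  have hgt : ∀ i, 1 ≤ i → i ≤ m → (f t).1 + 1 ≤ (f (t + i)).1 := by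
    intro i hi1 hi
    have := hb.gt i hi1 (by rw [length_seg]; exact hi)
    rw [pos_seg hi, Z1_apply, Prod.fst_sub] at this
    omega
  have hle : ∀ i, i ≤ m → (f (t + i)).1 ≤ (f t).1 + r := by
    intro i hi
    have := hb.le i (by rw [length_seg]; exact hi)
    rw [pos_seg hi, Z1_apply, Prod.fst_sub] at this
    omega
  have hm0 : 0 < m := by
    rcases Nat.eq_zero_or_pos m with h0 | h0
    · subst h0
      rw [add_zero] at hsum
      omega
    · exact h0
  have hstep : ∀ i, i < m → (f (t + i + 1)).1 = (f (t + i)).1 ∨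
      (f (t + i + 1)).1 = (f (t + i)).1 + 1 ∨ (f (t + i + 1)).1 = (f (t + i)).1 - 1 := by
    intro i hi
    apply pieces_step
    apply hb.saw.step
    unfold seg
    exact List.mem_map.2 ⟨i, List.mem_range.2 hi, rfl⟩
  have h1 : (f (t + 1)).1 = (f t).1 + 1 := by
    have a := hgt 1 le_rfl hm0
    have b := hstep 0 hm0
    rw [add_zero] at b
    omega
  have hH : Horiz f t := by unfold Horiz; omega
  have hcol : col f t = (f t).1 := by unfold col; omega
  refine ⟨hH, hm0, ?_, ?_⟩
  · refine ⟨by unfold Horiz; omega, ?_⟩
    have hc : col f (t + m) = (f (t + m)).1 := by unfold col; omega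
    rw [hc, hcol, hsum, add_sub_cancel_left]
  · intro j hj0 hjm hc
    obtain ⟨hHj, hd⟩ := hc
    rw [hcol] at hd
    have a1 := hgt j hj0 hjm.le
    have a2 := hle j hjm.le
    have a3 := hgt (j + 1) (by omega) hjm
    have a4 := hle (j + 1) hjm
    rw [← add_assoc] at a3 a4
    have a5 := hstep j hjm
    unfold Horiz at hHj
    have hc1 : (f t).1 + 1 ≤ col f (t + j) := by unfold col; omega
    have hc2 : col f (t + j) ≤ (f t).1 + r - 1 := by unfold col; omega
    rcases pieces_dvd hr hd (by omega) (by omega) with h0 | h0 <;> omega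

end Pool.Agent.Lib.MP_c23e5f_co
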