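import Pool.Agent.Lib.MP_c23e5f_co.Cat
import Pool.Agent.Lib.MP_c23e5f_co.Pieces

set_option autoImplicit false

namespace Pool.Agent.Lib.MP_c23e5f_co

open scoped ENNReal

/-- the three sets of pieces -/
def PP (r ρ Λ L : ℕ) : Fin 3 → Set (List (ℤ × ℤ)) := ![PU r ρ Λ L, PO r ρ, PL r]

open Classical in
/-- number of crossings of the columns congruent to `g` -/
noncomputable def mG (N : ℕ) (f : ℕ → ℤ × ℤ) (r : ℕ) (g : ℤ) : ℕ :=
  ((Finset.range N).filter (fun t => Cross f r g t)).card

open Classical in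
/-- number of the class pieces starting at the columns congruent to `g` -/
noncomputable def nUG (N : ℕ) (f : ℕ → ℤ × ℤ) (r ρ Λ L : ℕ) (g : ℤ) : ℕ :=
  ((Finset.range N).filter (fun t => Cross f r g t ∧ ∃ m, IsNext f r t m ∧
    seg f t m ∈ PU r ρ Λ L)).card

open Classical in
/-- number of the pieces of type `2` starting at the columns congruent to `g` -/
noncomputable def nLG (N : ℕ) (f : ℕ → ℤ × ℤ) (r ρ Λ L : ℕ) (g : ℤ) : ℕ :=
  ((Finset.range N).filter (fun t => Cross f r g t ∧ ∃ m, IsNext f r t m ∧ seg f t m ∉ PU r ρ Λ L ∧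
    seg f t m ∉ PO r ρ)).card

private lemma countP_period (p : ℕ → Prop) [DecidablePred p] (N a : ℕ)
    (hp : ∀ t, p (t + N) ↔ p t) :
    (List.range' a N).countP (fun t => decide (p t)) = ((Finset.range N).filter p).card := by
  have h := Nat.filter_Ico_card_eq_of_periodic a N p (fun t => propext (hp t))
  rw [Nat.count_eq_card_filter_range] at h
  rw [← h, Finset.card_def, Finset.filter_val, ← Multiset.countP_eq_card_filter,
    Nat.Ico_eq_range']
  simp only [Nat.add_sub_cancel_left]
  rfl

private lemma per_succ {N : ℕ} {f : ℕ → ℤ × ℤ} (hf : IsLoop N f) (t : ℕ) :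
    f (t + N + 1) = f (t + 1) := by
  rw [show t + N + 1 = (t + 1) + N by omega]
  exact hf.per _

private lemma horiz_per {N : ℕ} {f : ℕ → ℤ × ℤ} (hf : IsLoop N f) (t : ℕ) :
    Horiz f (t + N) ↔ Horiz f t := by
  unfold Horiz
  rw [hf.per, per_succ hf]

private lemma col_per {N : ℕ} {f : ℕ → ℤ × ℤ} (hf : IsLoop N f) (t : ℕ) :
    col f (t + N) = col f t := by
  unfold col
  rw [hf.per, per_succ hf]

private lemma cross_per {N : ℕ} {f : ℕ → ℤ × ℤ} (hf : IsLoop N f) (r : ℕ) (g : ℤ) (t : ℕ) :
    Cross f r g (t + N) ↔ Cross f r g t := by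
  unfold Cross
  rw [horiz_per hf, col_per hf]

private lemma isNext_per {N : ℕ} {f : ℕ → ℤ × ℤ} (hf : IsLoop N f) (r : ℕ) (t m : ℕ) :
    IsNext f r (t + N) m ↔ IsNext f r t m := by
  have h : ∀ j, Cross f r (col f (t + N)) (t + N + j) ↔ Cross f r (col f t) (t + j) := by
    intro j
    rw [col_per hf, show t + N + j = (t + j) + N by omega, cross_per hf]
  unfold IsNext
  simp only [h]

private lemma seg_per {N : ℕ} {f : ℕ → ℤ × ℤ} (hf : IsLoop N f) (t m : ℕ) :
    seg f (t + N) m = seg f t m := by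
  unfold seg
  apply List.map_congr_left
  intro i _
  rw [show t + N + i = (t + i) + N by omega, per_succ hf, hf.per]

private lemma cross_congr {f : ℕ → ℤ × ℤ} {r : ℕ} {g : ℤ} {t : ℕ} (ht : Cross f r g t) (s : ℕ) :
    Cross f r (col f t) s ↔ Cross f r g s := by
  unfold Cross
  have h : (r : ℤ) ∣ col f s - g ↔ (r : ℤ) ∣ col f s - col f t := by
    have e : col f s - g = (col f s - col f t) + (col f t - g) := by ring
    rw [e]
    exact dvd_add_left ht.2
  rw [h]

private lemma isArc_mono {F : ℤ × ℤ →+ ℤ} {R R' : ℕ} (h : R ≤ R') {w : List (ℤ × ℤ)}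
    (hw : IsArc F R w) : IsArc F R' w :=
  ⟨hw.saw, hw.ne, hw.ge, fun i hi => (hw.le i hi).trans (by exact_mod_cast Nat.add_le_add_left h 1),
    hw.fin⟩

open Classical in
/-- the type of the piece which starts at `t` -/
private noncomputable def ty (f : ℕ → ℤ × ℤ) (r ρ Λ L : ℕ) (t : ℕ) : Fin 3 :=
  if ∃ m, IsNext f r t m ∧ seg f t m ∈ PU r ρ Λ L then 0
  else if ∃ m, IsNext f r t m ∧ seg f t m ∉ PU r ρ Λ L ∧ seg f t m ∉ PO r ρ then 2 else 1

private lemma piece_mem {N : ℕ} (hN : 1 ≤ N) {f : ℕ → ℤ × ℤ} (hf : IsLoop N f) (r ρ Λ L : ℕ)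
    (hr : 1 ≤ r) {t m : ℕ} (ht : Horiz f t) (hm : IsNext f r t m) :
    seg f t m ∈ PP r ρ Λ L (ty f r ρ Λ L t) := by
  unfold ty
  by_cases h0 : ∃ m, IsNext f r t m ∧ seg f t m ∈ PU r ρ Λ L
  · rw [if_pos h0]
    obtain ⟨m', hm', h⟩ := h0
    rw [isNext_unique hm hm']
    exact h
  · rw [if_neg h0]
    by_cases h1 : ∃ m, IsNext f r t m ∧ seg f t m ∉ PU r ρ Λ L ∧ seg f t m ∉ PO r ρ
    · rw [if_pos h1]
      obtain ⟨m', hm', -, h⟩ := h1
      rw [← isNext_unique hm hm'] at h
      change seg f t m ∈ PL r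
      obtain ⟨-, h2 | h2 | h2 | h2⟩ := piece_cases hN hf hr ht hm
      · exact absurd (Or.inl h2) h
      · exact absurd (Or.inr (Or.inl h2)) h
      · exact Or.inl (isArc_mono (Nat.sub_le r 1) h2)
      · exact Or.inr (isArc_mono (Nat.sub_le r 1) h2)
    · rw [if_neg h1]
      change seg f t m ∈ PO r ρ
      by_contra h2
      exact h1 ⟨m, hm, fun h3 => h0 ⟨m, hm, h3⟩, h2⟩

open Classical in
private lemma inCat_aux {N : ℕ} (hN : 1 ≤ N) {f : ℕ → ℤ × ℤ} (hf : IsLoop N f) (r ρ Λ L : ℕ)
    (hr : 1 ≤ r) (g : ℤ) (n : ℕ) : ∀ t, Cross f r g t → Cross f r g (t + n) →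
    InCat (PP r ρ Λ L)
      (((List.range' t n).filter (fun s => decide (Cross f r g s))).map (ty f r ρ Λ L))
      (seg f t n) := by
  induction n using Nat.strong_induction_on with
  | _ n ih =>
    intro t ht htn
    rcases Nat.eq_zero_or_pos n with rfl | hn
    · simp [InCat, seg]
    · obtain ⟨m, -, hm⟩ := exists_isNext hN hf r ht.1
      have hm0 : 0 < m := hm.1
      have hKm : Cross f r g (t + m) := (cross_congr ht _).1 hm.2.1
      have hmn : m ≤ n := by
        by_contra hlt
        exact hm.2.2 n hn (by omega) ((cross_congr ht _).2 htn)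
      have e1 : List.range' t n = List.range' t m ++ List.range' (t + m) (n - m) := by
        rw [List.range'_append_1, Nat.add_sub_cancel' hmn]
      have e2 : (List.range' t m).filter (fun s => decide (Cross f r g s)) = [t] := by
        obtain ⟨k, rfl⟩ : ∃ k, m = k + 1 := ⟨m - 1, by omega⟩
        rw [List.range'_succ, List.filter_cons_of_pos (by simpa using ht)]
        congr 1
        rw [List.filter_eq_nil_iff]
        intro s hs
        rw [List.mem_range'_1] at hs
        have := hm.2.2 (s - t) (by omega) (by omega)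
        rw [cross_congr ht, show t + (s - t) = s by omega] at this
        simpa using this
      rw [e1, List.filter_append, e2, List.map_append, List.map_cons, List.map_nil,
        List.singleton_append]
      refine ⟨seg f t m, piece_mem hN hf r ρ Λ L hr ht.1 hm, seg f (t + m) (n - m),
        ih (n - m) (by omega) (t + m) hKm (by rwa [show t + m + (n - m) = t + n by omega]), ?_⟩
      rw [seg_append, Nat.add_sub_cancel' hmn]

/-- Section 8 of the paper: the word of a loop, read from a crossing of a column congruent to `g`,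
is a concatenation of pieces -/
theorem loop_cat {N : ℕ} (hN : 1 ≤ N) {f : ℕ → ℤ × ℤ} (hf : IsLoop N f) (r ρ Λ L : ℕ) (hr : 1 ≤ r)
    (g : ℤ) (t0 : ℕ) (ht : Cross f r g t0) :
    ∃ ts : List (Fin 3), InCat (PP r ρ Λ L) ts (seg f t0 N) ∧ ts.length = mG N f r g ∧
      ts.count 0 = nUG N f r ρ Λ L g ∧ ts.count 2 = nLG N f r ρ Λ L g := by
  classical
  have hty0 : ∀ t, ty f r ρ Λ L t = 0 ↔ ∃ m, IsNext f r t m ∧ seg f t m ∈ PU r ρ Λ L := by
    intro t
    unfold ty
    split_ifs with h1 h2
    · simp [h1]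
    · simp [h1]
    · simp [h1]
  have hty2 : ∀ t, ty f r ρ Λ L t = 2 ↔
      ∃ m, IsNext f r t m ∧ seg f t m ∉ PU r ρ Λ L ∧ seg f t m ∉ PO r ρ := by
    intro t
    unfold ty
    split_ifs with h1 h2
    · constructor
      · intro h
        exact absurd h (by decide)
      · rintro ⟨m, hm, h3, -⟩
        obtain ⟨m', hm', h4⟩ := h1
        rw [isNext_unique hm hm'] at h3
        exact absurd h4 h3
    · simp only [true_iff]
      exact h2
    · constructor
      · intro h
        exact absurd h (by decide)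
      · intro h
        exact absurd h h2
  refine ⟨((List.range' t0 N).filter (fun s => decide (Cross f r g s))).map (ty f r ρ Λ L),
    inCat_aux hN hf r ρ Λ L hr g N t0 ht ((cross_per hf r g t0).2 ht), ?_, ?_, ?_⟩
  · rw [List.length_map, ← List.countP_eq_length_filter,
      countP_period (fun t => Cross f r g t) N t0 (cross_per hf r g)]
    rfl
  · rw [List.count_eq_countP, List.countP_map, List.countP_filter]
    rw [nUG, ← countP_period (fun t => Cross f r g t ∧ ∃ m, IsNext f r t m ∧
      seg f t m ∈ PU r ρ Λ L) N t0]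
    · apply List.countP_congr
      intro s _
      simp only [Function.comp_apply, Bool.and_eq_true, beq_iff_eq, decide_eq_true_eq, hty0]
      exact and_comm
    · intro t
      simp only [cross_per hf, isNext_per hf, seg_per hf]
  · rw [List.count_eq_countP, List.countP_map, List.countP_filter]
    rw [nLG, ← countP_period (fun t => Cross f r g t ∧ ∃ m, IsNext f r t m ∧
      seg f t m ∉ PU r ρ Λ L ∧ seg f t m ∉ PO r ρ) N t0]
    · apply List.countP_congr
      intro s _
      simp only [Function.comp_apply, Bool.and_eq_true, beq_iff_eq, decide_eq_true_eq, hty2]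
      exact and_comm
    · intro t
      simp only [cross_per hf, isNext_per hf, seg_per hf]

end Pool.Agent.Lib.MP_c23e5f_co
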