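import Pool.Agent.Lib.MP_c23e5f_co.Final

set_option autoImplicit false

/-!
# Quantitative sub-ballisticity of square lattice polygons

The average width of the self-avoiding polygons of perimeter `2 n` (in the form used by the frozen
statements of MP_c23e5f_co) is at most `C n / (log log n) ^ (1/5)`.
-/

namespace Pool.Agent.Lib.MP_c23e5f_co.SubBallistic

open Pool.Agent.Lib.MP_c23e5f_co

theorem result :
    ∃ C : ℝ, 0 < C ∧ ∀ n : ℕ, 16 ≤ n →
      (∑ᶠ f ∈ {f : ℕ → ℤ × ℤ | f 0 = (0, 0) ∧ (∀ i, f (i + 2 * n) = f i) ∧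
              (∀ i j, i < 2 * n → j < 2 * n → f i = f j → i = j) ∧
              (∀ i, ((f i).1 - (f (i + 1)).1).natAbs + ((f i).2 - (f (i + 1)).2).natAbs = 1)},
            ((((Finset.range (2 * n)) ×ˢ (Finset.range (2 * n))).sup
              (fun p : ℕ × ℕ => ((f p.1).1 - (f p.2).1).natAbs) : ℕ) : ℝ)) /
          (({f : ℕ → ℤ × ℤ | f 0 = (0, 0) ∧ (∀ i, f (i + 2 * n) = f i) ∧
              (∀ i j, i < 2 * n → j < 2 * n → f i = f j → i = j) ∧
              (∀ i, ((f i).1 - (f (i + 1)).1).natAbs + ((f i).2 - (f (i + 1)).2).natAbs = 1)}.ncard : ℕ) : ℝ)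
        ≤ C * n / (Real.log (Real.log n)) ^ ((1 : ℝ) / 5) := by
  obtain ⟨C, hC, h⟩ := final
  exact ⟨C, hC, fun n hn => (h n hn).1⟩

end Pool.Agent.Lib.MP_c23e5f_co.SubBallistic
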