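import Pool.Agent.Lib.MP_c23e5f_co.Det
import Pool.Agent.Lib.MP_c23e5f_co.Enc
import Pool.Agent.Lib.MP_c23e5f_co.ClassWt

set_option autoImplicit false

namespace Pool.Agent.Lib.MP_c23e5f_co

open scoped ENNReal

private lemma ww_sc_pos {k : ℕ} (hk : 1 ≤ k) (i : ℕ) : 1 ≤ sc k i := by
  induction i with
  | zero => simp [sc]
  | succ i ih =>
    rw [sc]
    have h1 : 1 ≤ (8 * (1600 * k * sc k i)) ^ (2 * Lam k + 2) := Nat.one_le_pow _ _ (by positivity)
    calc 1 = 1 * 1 := rfl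
      _ ≤ (64 * k) * (8 * (1600 * k * sc k i)) ^ (2 * Lam k + 2) :=
        Nat.mul_le_mul (by omega) h1

private lemma ww_rho_ge {k : ℕ} (hk : 1 ≤ k) (i : ℕ) : 1600 ≤ rho k i := by
  have h := ww_sc_pos hk i
  calc 1600 = 1600 * 1 * 1 := rfl
    _ ≤ 1600 * k * sc k i := Nat.mul_le_mul (Nat.mul_le_mul le_rfl hk) h

private lemma ww_rr_pos {k : ℕ} (hk : 1 ≤ k) (i : ℕ) : 1 ≤ rr k i := by
  have h := ww_rho_ge hk i
  exact Nat.one_le_pow _ _ (by omega)

private lemma ww_rr_le_sc {k : ℕ} (hk : 1 ≤ k) (i : ℕ) : rr k i ≤ sc k (i + 1) := by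
  rw [sc_succ]
  exact Nat.le_mul_of_pos_left _ (by omega)

private lemma ww_sc_step {k : ℕ} (hk : 1 ≤ k) (i : ℕ) : sc k i ≤ sc k (i + 1) := by
  have h1 : sc k i ≤ rr k i := by
    have h2 : sc k i ≤ 8 * rho k i := by
      rw [rho]; nlinarith [ww_sc_pos hk i]
    exact h2.trans (Nat.le_self_pow (by omega) _)
  exact h1.trans (ww_rr_le_sc hk i)

private lemma ww_sc_mono {k : ℕ} (hk : 1 ≤ k) : Monotone (sc k) :=
  monotone_nat_of_le_succ (ww_sc_step hk)

/-- Section 9 of the paper, RESULT, numerical part -/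
theorem score_ge {k i N nu nl : ℕ} (hk : 1 ≤ k) (h1 : N ≤ 128 * k ^ 2 * nu)
    (h2 : JJ k * nl ≤ 2 * N) :
    (N : ℝ) / rr k i ≤ (Lam k * Real.log (8 * rho k i) * nu - Real.log (4 * rr k i) * nl -
      Real.log (24 * rho k i) * N) / rr k i := by
  have hrr : (0 : ℝ) < rr k i := by exact_mod_cast ww_rr_pos hk i
  apply div_le_div_of_nonneg_right _ hrr.le
  have hρ : (1600 : ℝ) ≤ rho k i := by exact_mod_cast ww_rho_ge hk i
  set l := Real.log (8 * rho k i) with hl
  have hl1 : 1 ≤ l := by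
    rw [hl, Real.le_log_iff_exp_le (by linarith)]
    have := Real.exp_one_lt_d9
    linarith
  have hlog4 : Real.log (4 * rr k i) ≤ (2 * (Lam k : ℝ) + 3) * l := by
    have e : ((rr k i : ℕ) : ℝ) = (8 * (rho k i : ℝ)) ^ (2 * Lam k + 2) := by
      rw [rr]; push_cast; ring
    rw [e, Real.log_mul (by norm_num) (by positivity), Real.log_pow]
    have h4 : Real.log 4 ≤ l := Real.log_le_log (by norm_num) (by linarith)
    push_cast
    linarith [h4]
  have hlog24 : Real.log (24 * rho k i) ≤ 2 * l := by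
    have : Real.log (24 * rho k i) ≤ Real.log ((8 * (rho k i : ℝ)) ^ 2) := by
      apply Real.log_le_log (by linarith)
      nlinarith
    rw [Real.log_pow] at this
    push_cast at this
    exact this
  have hΛ : (1024 * N : ℝ) ≤ Lam k * nu := by
    have : 1024 * N ≤ Lam k * nu := by
      rw [Lam]
      calc 1024 * N ≤ 1024 * (128 * k ^ 2 * nu) := Nat.mul_le_mul le_rfl h1
        _ = 2 ^ 17 * k ^ 2 * nu := by ring
    exact_mod_cast this
  have hnl : ((2 * (Lam k : ℝ) + 3) * nl : ℝ) ≤ N := by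
    have hk4 : k ^ 2 ≤ k ^ 4 := Nat.pow_le_pow_right hk (by norm_num)
    have hk41 : 1 ≤ k ^ 4 := Nat.one_le_pow _ _ hk
    have : (2 * Lam k + 3) * nl ≤ N := by
      have h3 : 2 * ((2 * Lam k + 3) * nl) ≤ JJ k * nl := by
        rw [← mul_assoc]
        apply Nat.mul_le_mul_right
        rw [Lam, JJ]
        omega
      omega
    exact_mod_cast this
  have hN : (0 : ℝ) ≤ N := Nat.cast_nonneg _
  have hnl0 : (0 : ℝ) ≤ nl := Nat.cast_nonneg _
  have e1 : 1024 * N * l ≤ Lam k * l * nu := by nlinarith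
  have e2 : Real.log (4 * rr k i) * nl ≤ N * l := by
    calc Real.log (4 * rr k i) * nl ≤ ((2 * (Lam k : ℝ) + 3) * l) * nl :=
          mul_le_mul_of_nonneg_right hlog4 hnl0
      _ = ((2 * (Lam k : ℝ) + 3) * nl) * l := by ring
      _ ≤ N * l := mul_le_mul_of_nonneg_right hnl (by linarith)
  have e3 : Real.log (24 * rho k i) * N ≤ 2 * l * N := mul_le_mul_of_nonneg_right hlog24 hN
  nlinarith

/-- the weight of the wide loops -/
theorem wt_wide_le {x : ℝ≥0∞} (hx : IsCrit x) {k N : ℕ} (hk : 1 ≤ k) (hN : 1 ≤ N)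
    (hbig : 32 * k * sc k (JJ k) ≤ N) :
    wt x {w | ∃ f, IsLoop N f ∧ w = seg f 0 N ∧ ∃ a b W : ℕ, (f b).1 - (f a).1 = W ∧ N ≤ k * W} ≤
      ENNReal.ofReal (JJ k * (N * (N + 1) * Real.exp (-(N / sc k (JJ k))))) := by
  set E : ℕ → Set (List (ℤ × ℤ)) := fun i =>
    {w | ∃ f, IsLoop N f ∧ w = seg f 0 N ∧
        (N : ℝ) / rr k i ≤ ((Lam k * Real.log (8 * rho k i)) *
          nU N f (rr k i) (rho k i) (Lam k) (LL k i) -
          Real.log (4 * rr k i) * nL N f (rr k i) (rho k i) (Lam k) (LL k i) -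
          Real.log (24 * rho k i) * N) / rr k i} with hE
  have hsub : {w | ∃ f, IsLoop N f ∧ w = seg f 0 N ∧
      ∃ a b W : ℕ, (f b).1 - (f a).1 = W ∧ N ≤ k * W} ⊆ ⋃ i ∈ Finset.range (JJ k), E i := by
    rintro w ⟨f, hf, rfl, a, b, W, hW, hkW⟩
    obtain ⟨i, hi, hu, hnl⟩ := det hk hN hf hW hkW hbig
    simp only [Set.mem_iUnion, Finset.mem_range]
    exact ⟨i, hi, f, hf, rfl, score_ge hk hu hnl⟩
  have hterm : ∀ i ∈ Finset.range (JJ k), wt x (E i) ≤
      ENNReal.ofReal (N * (N + 1) * Real.exp (-(N / sc k (JJ k)))) := by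
    intro i hi
    rw [Finset.mem_range] at hi
    have hrr1 := ww_rr_pos hk i
    have hrr : (0 : ℝ) < rr k i := by exact_mod_cast hrr1
    have hρ := ww_rho_ge hk i
    have hρ' : (1600 : ℝ) ≤ rho k i := by exact_mod_cast hρ
    have hNpos : (0 : ℝ) < N := by exact_mod_cast hN
    have hPU : wt x (PU (rr k i) (rho k i) (Lam k) (LL k i)) ≤
        ENNReal.ofReal (Real.exp (-(Lam k * Real.log (8 * rho k i)))) := by
      refine (wt_PU_le hx k i _ hk).trans (le_of_eq ?_)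
      have h8 : (0 : ℝ) < 8 * rho k i := by linarith
      have e1 : Real.exp (-(Lam k * Real.log (8 * rho k i))) = ((8 * (rho k i : ℝ)) ^ Lam k)⁻¹ := by
        rw [Real.exp_neg, ← Real.log_pow, Real.exp_log (by positivity)]
      rw [e1, ENNReal.ofReal_inv_of_pos (by positivity), ENNReal.ofReal_pow (by positivity)]
      congr 2
      rw [show (8 * (rho k i : ℝ)) = ((8 * rho k i : ℕ) : ℝ) by push_cast; ring,
        ENNReal.ofReal_natCast]
    have h := enc hx hN (rr k i) (rho k i) (Lam k) (LL k i) hrr1 (by omega)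
      (Lam k * Real.log (8 * rho k i)) ((N : ℝ) / rr k i)
      (mul_nonneg (Nat.cast_nonneg _) (Real.log_nonneg (by linarith))) (by positivity) hPU
    refine h.trans (ENNReal.ofReal_le_ofReal ?_)
    apply mul_le_mul_of_nonneg_left _ (by positivity)
    apply Real.exp_le_exp.2
    apply neg_le_neg
    apply div_le_div_of_nonneg_left hNpos.le hrr
    have : rr k i ≤ sc k (JJ k) := (ww_rr_le_sc hk i).trans (ww_sc_mono hk (by omega))
    exact_mod_cast this
  calc wt x _ ≤ wt x (⋃ i ∈ Finset.range (JJ k), E i) := wt_mono hsub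
    _ ≤ ∑ i ∈ Finset.range (JJ k), wt x (E i) := wt_biUnion_le _ _ _
    _ ≤ ∑ i ∈ Finset.range (JJ k),
        ENNReal.ofReal (N * (N + 1) * Real.exp (-(N / sc k (JJ k)))) := Finset.sum_le_sum hterm
    _ = ENNReal.ofReal (JJ k * (N * (N + 1) * Real.exp (-(N / sc k (JJ k))))) := by
      rw [Finset.sum_const, Finset.card_range, nsmul_eq_mul, ENNReal.ofReal_mul (Nat.cast_nonneg _),
        ENNReal.ofReal_natCast]

end Pool.Agent.Lib.MP_c23e5f_co
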